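import Pool.Agent.Lib.MP_228259_lc.Defs

/-!
F2b: vanish_mem. Nullstellensatz for f * prod_{j in S} X_j.
-/

namespace XW

open Filter Topology MvPolynomial

theorem vanish_mem {σ : Type*} [Finite σ] (P : Ideal (MvPolynomial σ ℂ)) (hP : P.IsPrime)
    (S : Set σ) (V : Set (σ → ℂ))
    (hV : V = {p | (∀ f ∈ P, eval p f = 0) ∧ ∀ j ∈ S, p j ≠ 0}) (hne : V.Nonempty)
    (f : MvPolynomial σ ℂ) (hf : ∀ p ∈ V, eval p f = 0) : f ∈ P := by
  classical
  have hSf : S.Finite := Set.toFinite S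
  have h1 : f * ∏ j ∈ hSf.toFinset, X j ∈ vanishingIdeal ℂ (zeroLocus ℂ P) := by
    rw [mem_vanishingIdeal_iff]
    intro x hx
    rw [mem_zeroLocus_iff] at hx
    have e : ∀ q : MvPolynomial σ ℂ, aeval x q = eval x q := fun q => by
      rw [← coe_aeval_eq_eval]
      rfl
    simp only [e] at hx ⊢
    rw [map_mul, map_prod]
    simp only [eval_X]
    by_cases h : ∀ j ∈ S, x j ≠ 0
    · have : x ∈ V := by
        rw [hV]
        exact ⟨hx, h⟩
      rw [hf x this, zero_mul]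
    · push Not at h
      obtain ⟨j, hj, hj0⟩ := h
      rw [Finset.prod_eq_zero (hSf.mem_toFinset.mpr hj) hj0, mul_zero]
  rw [vanishingIdeal_zeroLocus_eq_radical, hP.radical] at h1
  rcases hP.mem_or_mem h1 with h | h
  · exact h
  · exfalso
    rw [hP.prod_mem_iff] at h
    obtain ⟨j, hj, hjP⟩ := h
    obtain ⟨x, hx⟩ := hne
    rw [hV] at hx
    have h2 := hx.1 _ hjP
    rw [eval_X] at h2
    exact hx.2 j (hSf.mem_toFinset.mp hj) h2

end XW
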