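import Pool.Agent.Lib.MP_228259_lc.DefsC

/-!
C4c: see /team-store/XW_blueprint.md
C4c trdeg_facts. y_j transcendental (free with m = e_j and Nullstellensatz type argument), y_i algebraic over C(y_j) by curve; so tr.deg = 1; y^a not algebraic over C: otherwise = c in C and prod y^a = c on W (polynomial identity in I), contradiction to free. Then everything in C(y) is algebraic over C(y^a) (exchange). Nonempty W gives y_j not in I.
-/

namespace XW

open Filter Topology MvPolynomial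

theorem c4c_ev_map {B B' : Type*} [CommRing B] [Algebra ℂ B] [CommRing B'] [Algebra ℂ B']
    (g : B →ₐ[ℂ] B') (φ θ : B) (F : Polynomial (Polynomial ℂ)) :
    g (ev φ θ F) = ev (g φ) (g θ) F := by
  unfold ev
  have h1 := Polynomial.hom_eval₂ F (Polynomial.aeval φ : Polynomial ℂ →ₐ[ℂ] B).toRingHom
    g.toRingHom θ
  have h2 : (g.toRingHom).comp (Polynomial.aeval φ : Polynomial ℂ →ₐ[ℂ] B).toRingHom =
      (Polynomial.aeval (g φ) : Polynomial ℂ →ₐ[ℂ] B').toRingHom := by
    ext p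
    · simp
    · simp
  rw [h2] at h1
  exact h1

/-- evaluation as an algebra homomorphism -/
noncomputable def c4c_evHom {B : Type*} [CommRing B] [Algebra ℂ B] (φ θ : B) :
    Polynomial (Polynomial ℂ) →ₐ[ℂ] B :=
  Polynomial.eval₂AlgHom (Polynomial.aeval φ) θ (fun _ => Commute.all _ _)

theorem c4c_evHom_apply {B : Type*} [CommRing B] [Algebra ℂ B] (φ θ : B)
    (F : Polynomial (Polynomial ℂ)) : c4c_evHom φ θ F = ev φ θ F := rfl

private theorem c4c_ev_X {B : Type*} [CommRing B] [Algebra ℂ B] (φ θ : B) :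
    ev φ θ Polynomial.X = θ := by
  unfold ev
  rw [Polynomial.eval₂_X]

private theorem c4c_ev_C {B : Type*} [CommRing B] [Algebra ℂ B] (φ θ : B) (p : Polynomial ℂ) :
    ev φ θ (Polynomial.C p) = Polynomial.aeval φ p := by
  unfold ev
  rw [Polynomial.eval₂_C]
  rfl

private theorem c4c_ev_self (F : Polynomial (Polynomial ℂ)) :
    ev (Polynomial.C Polynomial.X : Polynomial (Polynomial ℂ)) Polynomial.X F = F := by
  have h : c4c_evHom (Polynomial.C Polynomial.X : Polynomial (Polynomial ℂ)) Polynomial.X =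
      AlgHom.id ℂ (Polynomial (Polynomial ℂ)) := by
    apply AlgHom.coe_ringHom_injective
    ext p
    · simp [c4c_evHom_apply, c4c_ev_C]
    · simp [c4c_evHom_apply, c4c_ev_C]
    · simp [c4c_evHom_apply, c4c_ev_X]
  exact DFunLike.congr_fun h F

/-- exchange of the two variables -/
private theorem c4c_swap {B : Type*} [CommRing B] [Algebra ℂ B] {u v : B}
    (h : ∃ F : Polynomial (Polynomial ℂ), F ≠ 0 ∧ ev u v F = 0) :
    ∃ F : Polynomial (Polynomial ℂ), F ≠ 0 ∧ ev v u F = 0 := by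
  obtain ⟨F, hF, hF0⟩ := h
  refine ⟨ev Polynomial.X (Polynomial.C Polynomial.X) F, fun h0 => hF ?_, ?_⟩
  · have h1 := congrArg (c4c_evHom (Polynomial.X : Polynomial (Polynomial ℂ))
      (Polynomial.C Polynomial.X)) h0
    rw [c4c_ev_map, map_zero, c4c_evHom_apply, c4c_evHom_apply, c4c_ev_X, c4c_ev_C,
      Polynomial.aeval_X, c4c_ev_self] at h1
    exact h1
  · have h1 := c4c_ev_map (c4c_evHom v u) Polynomial.X (Polynomial.C Polynomial.X) F
    rw [c4c_evHom_apply, c4c_evHom_apply, c4c_evHom_apply, c4c_ev_X, c4c_ev_C,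
      Polynomial.aeval_X, hF0] at h1
    exact h1

private theorem c4c_biv {n : ℕ} {i j : Fin n} (f : MvPolynomial (Fin n) ℂ)
    (hij : i ≠ j) (hf : f.vars ⊆ {i, j}) {B : Type*} [CommRing B] [Algebra ℂ B] (z : Fin n → B) :
    ev (z j) (z i) (MvPolynomial.aeval (fun k => if k = i then Polynomial.X else
      Polynomial.C Polynomial.X : Fin n → Polynomial (Polynomial ℂ)) f) = MvPolynomial.aeval z f := by
  have h : ((c4c_evHom (z j) (z i)).comp (MvPolynomial.aeval (fun k => if k = i then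
      Polynomial.X else Polynomial.C Polynomial.X : Fin n → Polynomial (Polynomial ℂ)))).toRingHom f
      = (MvPolynomial.aeval z : MvPolynomial (Fin n) ℂ →ₐ[ℂ] B).toRingHom f := by
    refine MvPolynomial.hom_congr_vars ?_ (fun k hk _ => ?_) rfl
    · ext c
      show c4c_evHom (z j) (z i) (MvPolynomial.aeval _ (MvPolynomial.C c)) =
        MvPolynomial.aeval z (MvPolynomial.C c)
      rw [MvPolynomial.aeval_C, MvPolynomial.aeval_C, AlgHom.commutes]
    · have hk' := hf hk
      rw [Finset.mem_insert, Finset.mem_singleton] at hk'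
      show c4c_evHom (z j) (z i) (MvPolynomial.aeval _ (MvPolynomial.X k)) =
        MvPolynomial.aeval z (MvPolynomial.X k)
      rw [MvPolynomial.aeval_X, MvPolynomial.aeval_X, c4c_evHom_apply]
      rcases hk' with rfl | rfl
      · rw [if_pos rfl, c4c_ev_X]
      · rw [if_neg hij.symm, c4c_ev_C, Polynomial.aeval_X]
  exact h

private theorem c4c_rel {n : ℕ} {i j : Fin n} (f : MvPolynomial (Fin n) ℂ)
    (hij : i ≠ j) (hf : f.vars ⊆ {i, j}) (hf0 : f ≠ 0) {B : Type*} [CommRing B] [Algebra ℂ B]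
    (z : Fin n → B) (hz : MvPolynomial.aeval z f = 0) :
    ∃ F : Polynomial (Polynomial ℂ), F ≠ 0 ∧ ev (z j) (z i) F = 0 := by
  refine ⟨_, fun h0 => hf0 ?_, (c4c_biv f hij hf z).trans hz⟩
  have h1 := c4c_biv f hij hf (MvPolynomial.X : Fin n → MvPolynomial (Fin n) ℂ)
  rw [h0, MvPolynomial.aeval_X_left_apply] at h1
  rw [← h1]
  exact map_zero (c4c_evHom _ _)

theorem c4c_key {n : ℕ} {L : Type*} [Field L] (a : Fin n → ℤ) (w : Fin n → L)
    (hw : ∀ j, w j ≠ 0) :
    (∏ j, (w j) ^ (a j)) * ∏ j, (w j) ^ (-(a j)).toNat = ∏ j, (w j) ^ (a j).toNat := by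
  rw [← Finset.prod_mul_distrib]
  refine Finset.prod_congr rfl fun j _ => ?_
  rw [← zpow_natCast, ← zpow_natCast, ← zpow_add₀ (hw j)]
  congr 1
  omega

/-- a monomial is transcendental -/
private theorem c4c_transc {n : ℕ} {I : Ideal (MvPolynomial (Fin n) ℂ)} {W : Set (Fin n → ℂ)}
    (hI : CurveData I W) {K : Type*} [Field K] [Algebra ℂ K]
    (y : Fin n → K) (hy : ∀ f : MvPolynomial (Fin n) ℂ, MvPolynomial.aeval y f = 0 ↔ f ∈ I)
    (hy0 : ∀ j, y j ≠ 0) (a : Fin n → ℤ) (ha : a ≠ 0) :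
    Transcendental ℂ (∏ j, (y j) ^ (a j)) := by
  intro halg
  obtain ⟨c, hc⟩ : ∃ c : ℂ, algebraMap ℂ K c = ∏ j, (y j) ^ (a j) :=
    minpoly.mem_range_of_degree_eq_one ℂ _
      (IsAlgClosed.degree_eq_one_of_irreducible ℂ (minpoly.irreducible halg.isIntegral))
  have hmem : ((∏ j, MvPolynomial.X j ^ (a j).toNat) - MvPolynomial.C c *
      ∏ j, MvPolynomial.X j ^ (-(a j)).toNat : MvPolynomial (Fin n) ℂ) ∈ I := by
    rw [← hy, map_sub, map_mul, map_prod, map_prod, MvPolynomial.aeval_C, hc]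
    simp only [map_pow, MvPolynomial.aeval_X]
    rw [c4c_key a y hy0, sub_self]
  obtain ⟨w, hw, hne⟩ := hI.free a ha c
  rw [hI.W_eq] at hw
  obtain ⟨hw1, hw2⟩ := hw
  apply hne
  have h1 := hw1 _ hmem
  rw [map_sub, map_mul, map_prod, map_prod, MvPolynomial.eval_C] at h1
  simp only [map_pow, MvPolynomial.eval_X] at h1
  rw [← c4c_key a w hw2] at h1
  have h2 : ∏ j, (w j) ^ (-(a j)).toNat ≠ 0 :=
    Finset.prod_ne_zero_iff.mpr fun j _ => pow_ne_zero _ (hw2 j)
  have h3 : (∏ j, (w j) ^ (a j) - c) * ∏ j, (w j) ^ (-(a j)).toNat = 0 := by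
    rw [sub_mul]
    exact h1
  rcases mul_eq_zero.mp h3 with h | h
  · exact sub_eq_zero.mp h
  · exact absurd h h2

theorem trdeg_facts {n : ℕ} {I : Ideal (MvPolynomial (Fin n) ℂ)} {W : Set (Fin n → ℂ)}
    (hI : CurveData I W) {K : Type*} [Field K] [Algebra ℂ K]
    (y : Fin n → K) (hy : ∀ f : MvPolynomial (Fin n) ℂ, MvPolynomial.aeval y f = 0 ↔ f ∈ I)
    (hy0 : ∀ j, y j ≠ 0) (a : Fin n → ℤ) (ha : a ≠ 0) :
    Transcendental ℂ (∏ j, (y j) ^ (a j)) ∧
      ∀ x ∈ IntermediateField.adjoin ℂ (Set.range y),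
        ∃ F : Polynomial (Polynomial ℂ), F ≠ 0 ∧ ev (∏ j, (y j) ^ (a j)) x F = 0 := by
  refine ⟨c4c_transc hI y hy hy0 a ha, ?_⟩
  -- the set of elements algebraic over a transcendental element
  have main : ∀ φ : K, Transcendental ℂ φ →
      (∀ i, ∃ F : Polynomial (Polynomial ℂ), F ≠ 0 ∧ ev φ (y i) F = 0) →
      ∀ x ∈ IntermediateField.adjoin ℂ (Set.range y),
        ∃ F : Polynomial (Polynomial ℂ), F ≠ 0 ∧ ev φ x F = 0 := by
    intro φ hφ hyi x hx
    let : Algebra (Polynomial ℂ) K :=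
      ((Polynomial.aeval φ : Polynomial ℂ →ₐ[ℂ] K).toRingHom).toAlgebra
    change IsAlgebraic (Polynomial ℂ) x
    induction hx using IntermediateField.adjoin_induction with
    | mem x hx =>
      obtain ⟨i, rfl⟩ := hx
      exact hyi i
    | algebraMap c =>
      have h1 : algebraMap ℂ K c = algebraMap (Polynomial ℂ) K (Polynomial.C c) :=
        (Polynomial.aeval_C φ c).symm
      rw [h1]
      exact isAlgebraic_algebraMap _
    | add x y _ _ h1 h2 => exact h1.add h2
    | inv x _ h1 => exact h1.inv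
    | mul x y _ _ h1 h2 => exact h1.mul h2
  have hjt : ∀ j, Transcendental ℂ (y j) := fun j => by
    have h1 := c4c_transc hI y hy hy0 (Pi.single j 1) (by
      intro h0
      have := congrFun h0 j
      rw [Pi.single_eq_same] at this
      exact one_ne_zero this)
    rw [Finset.prod_eq_single j] at h1
    · rwa [Pi.single_eq_same, zpow_one] at h1
    · intro k _ hk
      rw [Pi.single_eq_of_ne hk, zpow_zero]
    · intro hj
      exact absurd (Finset.mem_univ j) hj
  refine main _ (c4c_transc hI y hy hy0 a ha) fun j => c4c_swap ?_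
  refine main (y j) (hjt j) (fun i => ?_) _ ?_
  · by_cases hij : i = j
    · subst hij
      refine ⟨Polynomial.X - Polynomial.C Polynomial.X, Polynomial.X_sub_C_ne_zero _, ?_⟩
      rw [← c4c_evHom_apply, map_sub, c4c_evHom_apply, c4c_evHom_apply, c4c_ev_X, c4c_ev_C,
        Polynomial.aeval_X, sub_self]
    · obtain ⟨f, hfI, hf0, hfv⟩ := hI.curve i j hij
      exact c4c_rel f hij hfv hf0 y ((hy f).mpr hfI)
  · refine prod_mem fun k _ => ?_
    exact zpow_mem (IntermediateField.subset_adjoin ℂ (Set.range y) ⟨k, rfl⟩) _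

end XW
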