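import Pool.Agent.Lib.MP_228259_lc.Defs

/-!
P13b: see /team-store/XW_blueprint.md
P13b primitive_vec. clear denominators, divide by the gcd, Bezout (Finset.gcd / exists_sum_eq_gcd).
-/

namespace XW

open Filter Topology MvPolynomial

theorem primitive_vec {n : ℕ} (q : Fin n → ℚ) (hq : q ≠ 0) :
    ∃ (a : Fin n → ℤ) (q₀ : ℚ) (k : Fin n → ℤ), q₀ ≠ 0 ∧ (∀ j, (a j : ℚ) = q₀ * q j) ∧
      ∑ j, a j * k j = 1 := by
  classical
  set N : ℕ := ∏ j, (q j).den with hN
  have hNpos : 0 < N := Finset.prod_pos fun j _ => (q j).den_pos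
  have hm : ∀ j, ∃ m : ℤ, (m : ℚ) = (N : ℚ) * q j := by
    intro j
    obtain ⟨M, hM⟩ : (q j).den ∣ N := Finset.dvd_prod_of_mem _ (Finset.mem_univ j)
    refine ⟨M * (q j).num, ?_⟩
    rw [hM]
    push_cast
    have h1 : ((q j).den : ℚ) * q j = (q j).num := by
      rw [mul_comm]
      exact_mod_cast Rat.mul_den_eq_num (q j)
    rw [mul_comm ((q j).den : ℚ) (M : ℚ), mul_assoc, h1]
  choose m hm using hm
  obtain ⟨j₀, hj₀⟩ : ∃ j, q j ≠ 0 := by
    by_contra h
    push Not at h
    exact hq (funext h)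
  have hmj₀ : m j₀ ≠ 0 := by
    intro h
    have := hm j₀
    rw [h] at this
    push_cast at this
    rcases mul_eq_zero.1 this.symm with h | h
    · exact hNpos.ne' (by exact_mod_cast h)
    · exact hj₀ h
  set I : Ideal ℤ := Ideal.span (Set.range m) with hI
  set g : ℤ := Submodule.IsPrincipal.generator I with hg
  have hgI : Ideal.span {g} = I := Ideal.span_singleton_generator I
  have hdvd : ∀ j, g ∣ m j := by
    intro j
    have : m j ∈ I := Ideal.subset_span ⟨j, rfl⟩
    rw [← hgI, Ideal.mem_span_singleton] at this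
    exact this
  have hg0 : g ≠ 0 := by
    intro h
    have := hdvd j₀
    rw [h, zero_dvd_iff] at this
    exact hmj₀ this
  choose a ha using hdvd
  have hgmem : g ∈ I := by
    rw [← hgI]
    exact Ideal.mem_span_singleton_self g
  obtain ⟨c, hc⟩ := (Ideal.mem_span_range_iff_exists_fun).1 hgmem
  refine ⟨a, N / g, c, ?_, ?_, ?_⟩
  · have h1 : (N : ℚ) ≠ 0 := by exact_mod_cast hNpos.ne'
    have h2 : (g : ℚ) ≠ 0 := by exact_mod_cast hg0
    exact div_ne_zero h1 h2
  · intro j
    have h2 : (g : ℚ) ≠ 0 := by exact_mod_cast hg0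
    have h3 : (m j : ℚ) = g * a j := by exact_mod_cast ha j
    rw [div_mul_eq_mul_div, ← hm j, h3]
    field_simp
  · have h4 : g * ∑ j, a j * c j = g * 1 := by
      rw [mul_one, Finset.mul_sum]
      conv_rhs => rw [← hc]
      refine Finset.sum_congr rfl fun j _ => ?_
      rw [ha j]
      ring
    exact mul_left_cancel₀ hg0 h4

end XW
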