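import Pool.Agent.Lib.MP_228259_lc.Defs

/-!
F2a: see /team-store/XW_blueprint.md
F2a principal_of_indep.
-/

namespace XW

open Filter Topology MvPolynomial

/-- if `φ ∘ x` is independent and `f` is a nonzero element of the kernel of `φ`, then `x` together
with `f` is independent -/
theorem F2a_option {k B C : Type*} [Field k] [CommRing B] [IsDomain B] [Algebra k B] [CommRing C]
    [Algebra k C] (φ : B →ₐ[k] C) {ι : Type*} (x : ι → B)
    (hx : AlgebraicIndependent k (fun i => φ (x i))) (f : B) (hf : φ f = 0) (hf0 : f ≠ 0) :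
    AlgebraicIndependent k (fun o : Option ι => o.elim f x) := by
  have hx' : AlgebraicIndependent k x := AlgebraicIndependent.of_comp φ hx
  rw [hx'.option_iff_transcendental]
  intro halg
  have hker : ∀ c : Algebra.adjoin k (Set.range x), φ c.1 = 0 → c = 0 := by
    rintro ⟨c, hc⟩ h0
    rw [Algebra.adjoin_range_eq_range_aeval] at hc
    obtain ⟨g, rfl⟩ := hc
    have h1 : aeval (fun i => φ (x i)) g = 0 := by
      rw [← h0]
      exact (comp_aeval_apply x φ g).symm
    have h2 := hx.eq_zero_of_aeval_eq_zero g h1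
    apply Subtype.ext
    show (aeval x g) = 0
    rw [h2, map_zero]
  obtain ⟨q, hq0, hq⟩ := halg.exists_nonzero_coeff_and_aeval_eq_zero (mem_nonZeroDivisors_of_ne_zero hf0)
  apply hq0
  apply hker
  have h3 : q = Polynomial.C (q.coeff 0) + Polynomial.X * q.divX := by
    rw [add_comm]
    exact (Polynomial.X_mul_divX_add q).symm
  rw [h3] at hq
  rw [map_add, map_mul, Polynomial.aeval_C, Polynomial.aeval_X] at hq
  have h4 := congrArg φ hq
  rw [map_add, map_mul, hf, zero_mul, add_zero, map_zero] at h4
  exact h4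

theorem principal_of_indep {k : Type*} [Field k] {n : ℕ} (I : Ideal (MvPolynomial (Fin n) k))
    (hI : I.IsPrime) (J : Finset (Fin n)) (hJ : n ≤ J.card + 1)
    (hind : ∀ f ∈ I, f.vars ⊆ J → f = 0) :
    I = ⊥ ∨ ∃ p : MvPolynomial (Fin n) k, Irreducible p ∧ I = Ideal.span {p} := by
  classical
  by_cases hbot : I = ⊥
  · exact Or.inl hbot
  right
  obtain ⟨p, hpI, hp⟩ := hI.exists_mem_prime_of_ne_bot hbot
  refine ⟨p, hp.irreducible, ?_⟩
  have hle : Ideal.span {p} ≤ I := by
    rw [Ideal.span_singleton_le_iff_mem]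
    exact hpI
  refine le_antisymm ?_ hle
  intro f hf
  by_contra hfp
  haveI : (Ideal.span {p}).IsPrime := (Ideal.span_singleton_prime hp.ne_zero).2 hp
  have h1 : AlgebraicIndependent k
      (fun j : J => (Ideal.Quotient.mk I (X j.1) : MvPolynomial (Fin n) k ⧸ I)) := by
    rw [algebraicIndependent_iff]
    intro g hg
    have h2 : aeval (fun j : J => (Ideal.Quotient.mk I (X j.1) : MvPolynomial (Fin n) k ⧸ I)) g =
        Ideal.Quotient.mk I (rename (fun j : J => j.1) g) := by
      have h3 : (aeval (fun j : J => (Ideal.Quotient.mk I (X j.1) : MvPolynomial (Fin n) k ⧸ I))) =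
          (Ideal.Quotient.mkₐ k I).comp (rename (fun j : J => j.1)) := by
        ext j
        simp
      rw [h3]
      rfl
    rw [h2, Ideal.Quotient.eq_zero_iff_mem] at hg
    have h4 := hind _ hg (by
      intro a ha
      have := vars_rename (fun j : J => j.1) g ha
      obtain ⟨b, -, rfl⟩ := Finset.mem_image.1 this
      exact b.2)
    exact rename_injective _ Subtype.val_injective (by rw [h4, map_zero])
  have h5 := F2a_option (Ideal.Quotient.factorₐ k hle)
    (fun j : J => (Ideal.Quotient.mk (Ideal.span {p}) (X j.1) :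
      MvPolynomial (Fin n) k ⧸ Ideal.span {p})) h1 (Ideal.Quotient.mk (Ideal.span {p}) f)
    (Ideal.Quotient.eq_zero_iff_mem.2 hf)
    (fun h => hfp (Ideal.Quotient.eq_zero_iff_mem.1 h))
  have h6 := F2a_option (Ideal.Quotient.mkₐ k (Ideal.span {p}))
    (fun o : Option J => o.elim f (fun j => X j.1)) (by
      have h7 : (fun o : Option J => (Ideal.Quotient.mkₐ k (Ideal.span {p}))
          (o.elim f (fun j => X j.1))) =
          (fun o : Option J => o.elim (Ideal.Quotient.mk (Ideal.span {p}) f)
            (fun j : J => (Ideal.Quotient.mk (Ideal.span {p}) (X j.1)))) := by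
        funext o
        cases o <;> rfl
      rw [h7]
      exact h5) p (Ideal.Quotient.eq_zero_iff_mem.2 (Ideal.mem_span_singleton_self p)) hp.ne_zero
  have h7 := h6.lift_cardinalMk_le_trdeg
  rw [MvPolynomial.trdeg_of_isDomain] at h7
  simp only [Cardinal.mk_option, Cardinal.mk_fin, Cardinal.mk_coe_finset, Cardinal.lift_add,
    Cardinal.lift_natCast, Cardinal.lift_one] at h7
  have h8 : J.card + 1 + 1 ≤ n := by exact_mod_cast h7
  omega

end XW
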