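import Pool.Agent.Lib.MP_228259_lc.DefsC

/-!
C1: see /team-store/XW_blueprint.md
C1 analytic_hensel. Multiplication map (g,h) |-> coefficients of the product, C^p x C^q -> C^(p+q); derivative at (g0,h0): (u,v) |-> u*h0poly + g0poly*v (degrees < p, < q), injective as gcd = 1 so bijective; inverse function theorem (HasStrictFDerivAt.to_localInverse / ContDiffAt.to_localInverse); compose with alpha(s); differentiable near 0 => analytic.
-/

namespace XW

open Filter Topology MvPolynomial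

/-- polynomial of degree less than `p` with given coefficients -/
private noncomputable def c1sp (p : ℕ) : (Fin p → ℂ) →ₗ[ℂ] Polynomial ℂ :=
  ∑ i : Fin p, (Polynomial.monomial (i : ℕ)).comp (LinearMap.proj i)

private theorem c1sp_apply {p : ℕ} (g : Fin p → ℂ) :
    c1sp p g = ∑ i : Fin p, Polynomial.C (g i) * Polynomial.X ^ (i : ℕ) := by
  unfold c1sp
  rw [LinearMap.sum_apply]
  refine Finset.sum_congr rfl fun i _ => ?_
  rw [LinearMap.comp_apply, LinearMap.proj_apply, Polynomial.C_mul_X_pow_eq_monomial]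

private theorem c1sp_eval {p : ℕ} (g : Fin p → ℂ) (T : ℂ) :
    (c1sp p g).eval T = ∑ i, g i * T ^ (i : ℕ) := by
  rw [c1sp_apply, Polynomial.eval_finsetSum]
  refine Finset.sum_congr rfl fun i _ => ?_
  rw [Polynomial.eval_mul, Polynomial.eval_C, Polynomial.eval_pow, Polynomial.eval_X]

private theorem c1sp_degree {p : ℕ} (g : Fin p → ℂ) : (c1sp p g).degree < p := by
  rw [c1sp_apply]
  exact Polynomial.degree_sum_fin_lt g

private theorem c1sp_coeff {p : ℕ} (g : Fin p → ℂ) (i : Fin p) : (c1sp p g).coeff i = g i := by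
  rw [c1sp_apply, Polynomial.finsetSum_coeff, Finset.sum_eq_single i]
  · rw [Polynomial.coeff_C_mul, Polynomial.coeff_X_pow_self, mul_one]
  · intro j _ hj
    rw [Polynomial.coeff_C_mul, Polynomial.coeff_X_pow, if_neg, mul_zero]
    intro h
    exact hj (Fin.ext h.symm)
  · intro h
    exact absurd (Finset.mem_univ i) h

private theorem c1sp_inj {p : ℕ} {g : Fin p → ℂ} (h : c1sp p g = 0) : g = 0 := by
  funext i
  rw [← c1sp_coeff g i, h, Polynomial.coeff_zero]
  rfl

/-- monic polynomial -/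
private noncomputable def c1mp (p : ℕ) (g : Fin p → ℂ) : Polynomial ℂ :=
  Polynomial.X ^ p + c1sp p g

private theorem c1mp_monic {p : ℕ} (g : Fin p → ℂ) : (c1mp p g).Monic :=
  Polynomial.monic_X_pow_add (c1sp_degree g)

private theorem c1mp_degree {p : ℕ} (g : Fin p → ℂ) : (c1mp p g).degree = p := by
  unfold c1mp
  rw [Polynomial.degree_add_eq_left_of_degree_lt] <;> rw [Polynomial.degree_X_pow]
  exact c1sp_degree g

private theorem c1mp_eval {p : ℕ} (g : Fin p → ℂ) (T : ℂ) :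
    (c1mp p g).eval T = T ^ p + ∑ i, g i * T ^ (i : ℕ) := by
  unfold c1mp
  rw [Polynomial.eval_add, Polynomial.eval_pow, Polynomial.eval_X, c1sp_eval]

/-- the multiplication map -/
private noncomputable def c1Phi (p q : ℕ) (x : (Fin p → ℂ) × (Fin q → ℂ)) : Fin (p + q) → ℂ :=
  fun k => (c1mp p x.1 * c1mp q x.2).coeff k

/-- coefficient functional of the first factor -/
private noncomputable def c1a (p q i : ℕ) : ((Fin p → ℂ) × (Fin q → ℂ)) →L[ℂ] ℂ :=
  LinearMap.toContinuousLinearMap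
    ((Polynomial.lcoeff ℂ i).comp ((c1sp p).comp (LinearMap.fst ℂ (Fin p → ℂ) (Fin q → ℂ))))

private noncomputable def c1b (p q i : ℕ) : ((Fin p → ℂ) × (Fin q → ℂ)) →L[ℂ] ℂ :=
  LinearMap.toContinuousLinearMap
    ((Polynomial.lcoeff ℂ i).comp ((c1sp q).comp (LinearMap.snd ℂ (Fin p → ℂ) (Fin q → ℂ))))

private theorem c1a_apply (p q i : ℕ) (x : (Fin p → ℂ) × (Fin q → ℂ)) :
    c1a p q i x = (c1sp p x.1).coeff i := rfl

private theorem c1b_apply (p q i : ℕ) (x : (Fin p → ℂ) × (Fin q → ℂ)) :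
    c1b p q i x = (c1sp q x.2).coeff i := rfl

private theorem c1Phi_eq (p q : ℕ) : c1Phi p q = fun x (k : Fin (p + q)) =>
    ∑ ij ∈ Finset.HasAntidiagonal.antidiagonal (k : ℕ),
      ((Polynomial.X ^ p : Polynomial ℂ).coeff ij.1 + c1a p q ij.1 x) *
        ((Polynomial.X ^ q : Polynomial ℂ).coeff ij.2 + c1b p q ij.2 x) := by
  funext x k
  unfold c1Phi
  rw [Polynomial.coeff_mul]
  refine Finset.sum_congr rfl fun ij _ => ?_
  unfold c1mp
  rw [Polynomial.coeff_add, Polynomial.coeff_add, c1a_apply, c1b_apply]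

private theorem c1Phi_contDiff (p q : ℕ) : ContDiff ℂ 1 (c1Phi p q) := by
  rw [c1Phi_eq]
  refine contDiff_pi.mpr fun k => ?_
  refine ContDiff.sum fun ij _ => ?_
  exact (contDiff_const.add (c1a p q ij.1).contDiff).mul
    (contDiff_const.add (c1b p q ij.2).contDiff)

/-- the derivative -/
private noncomputable def c1D (p q : ℕ) (x : (Fin p → ℂ) × (Fin q → ℂ)) :
    ((Fin p → ℂ) × (Fin q → ℂ)) →L[ℂ] (Fin (p + q) → ℂ) :=
  ContinuousLinearMap.pi fun k => ∑ ij ∈ Finset.HasAntidiagonal.antidiagonal (k : ℕ),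
    (((Polynomial.X ^ p : Polynomial ℂ).coeff ij.1 + c1a p q ij.1 x) • c1b p q ij.2 +
      ((Polynomial.X ^ q : Polynomial ℂ).coeff ij.2 + c1b p q ij.2 x) • c1a p q ij.1)

private theorem c1Phi_hasFDerivAt (p q : ℕ) (x : (Fin p → ℂ) × (Fin q → ℂ)) :
    HasFDerivAt (c1Phi p q) (c1D p q x) x := by
  rw [c1Phi_eq]
  unfold c1D
  refine hasFDerivAt_pi.mpr fun k => ?_
  refine HasFDerivAt.fun_sum fun ij _ => ?_
  exact ((c1a p q ij.1).hasFDerivAt.const_add _).mul ((c1b p q ij.2).hasFDerivAt.const_add _)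

private theorem c1D_apply (p q : ℕ) (x u : (Fin p → ℂ) × (Fin q → ℂ)) (k : Fin (p + q)) :
    c1D p q x u k = (c1mp p x.1 * c1sp q u.2 + c1sp p u.1 * c1mp q x.2).coeff k := by
  unfold c1D
  rw [ContinuousLinearMap.pi_apply, ContinuousLinearMap.sum_apply, Polynomial.coeff_add,
    Polynomial.coeff_mul, Polynomial.coeff_mul, ← Finset.sum_add_distrib]
  refine Finset.sum_congr rfl fun ij _ => ?_
  rw [ContinuousLinearMap.add_apply, ContinuousLinearMap.smul_apply,
    ContinuousLinearMap.smul_apply, smul_eq_mul, smul_eq_mul, c1a_apply, c1b_apply, c1a_apply,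
    c1b_apply]
  unfold c1mp
  rw [Polynomial.coeff_add, Polynomial.coeff_add]
  ring

private theorem c1D_inj (p q : ℕ) (x : (Fin p → ℂ) × (Fin q → ℂ))
    (hcop : IsCoprime (c1mp p x.1) (c1mp q x.2)) : Function.Injective (c1D p q x) := by
  rw [injective_iff_map_eq_zero]
  intro u hu
  have hdeg : (c1mp p x.1 * c1sp q u.2 + c1sp p u.1 * c1mp q x.2).degree < (p + q : ℕ) := by
    refine (Polynomial.degree_add_le _ _).trans_lt (max_lt ?_ ?_)
    · rw [Polynomial.degree_mul, c1mp_degree]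
      push_cast
      exact WithBot.add_lt_add_left (WithBot.natCast_ne_bot p) (c1sp_degree u.2)
    · rw [Polynomial.degree_mul, c1mp_degree]
      push_cast
      exact WithBot.add_lt_add_right (WithBot.natCast_ne_bot q) (c1sp_degree u.1)
  have hz : c1mp p x.1 * c1sp q u.2 + c1sp p u.1 * c1mp q x.2 = 0 := by
    ext k
    rw [Polynomial.coeff_zero]
    by_cases hk : k < p + q
    · have h1 := congrFun hu ⟨k, hk⟩
      rw [c1D_apply] at h1
      exact h1
    · refine Polynomial.coeff_eq_zero_of_degree_lt (hdeg.trans_le ?_)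
      exact_mod_cast (not_lt.mp hk)
  have hdvd : c1mp p x.1 ∣ c1sp p u.1 := by
    have h1 : c1mp p x.1 ∣ c1sp p u.1 * c1mp q x.2 := by
      refine ⟨-c1sp q u.2, ?_⟩
      linear_combination hz
    exact hcop.dvd_of_dvd_mul_right h1
  have h1 : c1sp p u.1 = 0 := by
    by_contra hne
    have h2 := Polynomial.degree_le_of_dvd hdvd hne
    rw [c1mp_degree] at h2
    exact absurd (c1sp_degree u.1) (not_lt.mpr h2)
  have h2 : c1sp q u.2 = 0 := by
    rw [h1, zero_mul, add_zero] at hz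
    rcases mul_eq_zero.mp hz with h | h
    · exact absurd h (c1mp_monic x.1).ne_zero
    · exact h
  exact Prod.ext (c1sp_inj h1) (c1sp_inj h2)

theorem analytic_hensel (p q : ℕ) (g₀ : Fin p → ℂ) (h₀ : Fin q → ℂ)
    (hcop : ∀ T : ℂ, ¬ (T ^ p + ∑ i, g₀ i * T ^ (i : ℕ) = 0 ∧
      T ^ q + ∑ i, h₀ i * T ^ (i : ℕ) = 0))
    (α : Fin (p + q) → ℂ → ℂ) (hα : ∀ i, AnalyticAt ℂ (α i) 0)
    (h0 : ∀ T : ℂ, T ^ (p + q) + ∑ i, α i 0 * T ^ (i : ℕ) =
      (T ^ p + ∑ i, g₀ i * T ^ (i : ℕ)) * (T ^ q + ∑ i, h₀ i * T ^ (i : ℕ))) :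
    ∃ (g : Fin p → ℂ → ℂ) (h : Fin q → ℂ → ℂ), (∀ i, AnalyticAt ℂ (g i) 0) ∧
      (∀ i, AnalyticAt ℂ (h i) 0) ∧ (∀ i, g i 0 = g₀ i) ∧ (∀ i, h i 0 = h₀ i) ∧
      ∀ᶠ s in 𝓝 (0 : ℂ), ∀ T : ℂ, T ^ (p + q) + ∑ i, α i s * T ^ (i : ℕ) =
        (T ^ p + ∑ i, g i s * T ^ (i : ℕ)) * (T ^ q + ∑ i, h i s * T ^ (i : ℕ)) := by
  set x₀ : (Fin p → ℂ) × (Fin q → ℂ) := (g₀, h₀) with hx₀
  have hco : IsCoprime (c1mp p x₀.1) (c1mp q x₀.2) := by
    by_contra hne
    rw [Polynomial.isCoprime_iff_aeval_ne_zero_of_isAlgClosed ℂ ℂ] at hne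
    push Not at hne
    obtain ⟨T, hT1, hT2⟩ := hne
    refine hcop T ⟨?_, ?_⟩
    · rw [← c1mp_eval]
      simpa [Polynomial.aeval_def] using hT1
    · rw [← c1mp_eval]
      simpa [Polynomial.aeval_def] using hT2
  -- the polynomial identity is an identity of coefficient vectors
  have key : ∀ (x : (Fin p → ℂ) × (Fin q → ℂ)) (a : Fin (p + q) → ℂ),
      c1Phi p q x = a ↔ c1mp (p + q) a = c1mp p x.1 * c1mp q x.2 := by
    intro x a
    have hdeg : (c1mp p x.1 * c1mp q x.2 - Polynomial.X ^ (p + q)).degree <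
        ((p + q : ℕ) : WithBot ℕ) := by
      have hm : (c1mp p x.1 * c1mp q x.2).Monic := (c1mp_monic x.1).mul (c1mp_monic x.2)
      have hd : (c1mp p x.1 * c1mp q x.2).degree = ((p + q : ℕ) : WithBot ℕ) := by
        rw [Polynomial.degree_mul, c1mp_degree, c1mp_degree]
        push_cast
        rfl
      have h1 := Polynomial.degree_sub_lt_left (p := c1mp p x.1 * c1mp q x.2)
        (q := Polynomial.X ^ (p + q)) (by rw [hd, Polynomial.degree_X_pow]) hm.ne_zero
        (by rw [hm.leadingCoeff, (Polynomial.monic_X_pow (p + q)).leadingCoeff])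
      rw [hd] at h1
      exact h1
    constructor
    · rintro rfl
      have h2 : c1sp (p + q) (c1Phi p q x) =
          c1mp p x.1 * c1mp q x.2 - Polynomial.X ^ (p + q) := by
        ext k
        by_cases hk : k < p + q
        · have h3 := c1sp_coeff (c1Phi p q x) ⟨k, hk⟩
          simp only at h3
          rw [h3, Polynomial.coeff_sub, Polynomial.coeff_X_pow, if_neg (by omega), sub_zero]
          rfl
        · have hk' : ((p + q : ℕ) : WithBot ℕ) ≤ k := by exact_mod_cast (not_lt.mp hk)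
          rw [Polynomial.coeff_eq_zero_of_degree_lt ((c1sp_degree _).trans_le hk'),
            Polynomial.coeff_eq_zero_of_degree_lt (hdeg.trans_le hk')]
      rw [c1mp, h2]
      ring
    · intro h
      funext k
      have h3 : (c1mp (p + q) a).coeff k = (c1Phi p q x) k := by
        rw [h]
        rfl
      have hk := k.2
      rw [← h3]
      unfold c1mp
      rw [Polynomial.coeff_add, Polynomial.coeff_X_pow, if_neg (by omega), zero_add, c1sp_coeff]
  have hfin : Module.finrank ℂ ((Fin p → ℂ) × (Fin q → ℂ)) =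
      Module.finrank ℂ (Fin (p + q) → ℂ) := by
    rw [Module.finrank_prod, Module.finrank_fin_fun, Module.finrank_fin_fun,
      Module.finrank_fin_fun]
  set e : ((Fin p → ℂ) × (Fin q → ℂ)) ≃L[ℂ] (Fin (p + q) → ℂ) :=
    (LinearMap.linearEquivOfInjective (c1D p q x₀ : _ →ₗ[ℂ] _) (c1D_inj p q x₀ hco)
      hfin).toContinuousLinearEquiv with he
  have hee : (e : ((Fin p → ℂ) × (Fin q → ℂ)) →L[ℂ] (Fin (p + q) → ℂ)) = c1D p q x₀ :=
    ContinuousLinearMap.ext fun u => rfl
  have hcd : ContDiffAt ℂ 1 (c1Phi p q) x₀ := (c1Phi_contDiff p q).contDiffAt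
  have hfd : HasFDerivAt (c1Phi p q) (e : _ →L[ℂ] _) x₀ := by
    rw [hee]
    exact c1Phi_hasFDerivAt p q x₀
  have hsd : HasStrictFDerivAt (c1Phi p q) (e : _ →L[ℂ] _) x₀ :=
    hcd.hasStrictFDerivAt' hfd one_ne_zero
  set inv := hsd.localInverse (c1Phi p q) e x₀ with hinv
  have hinvcd : ContDiffAt ℂ 1 inv (c1Phi p q x₀) := hcd.to_localInverse hfd one_ne_zero
  have hα0 : c1Phi p q x₀ = fun i => α i 0 := by
    rw [key]
    refine Polynomial.funext fun T => ?_
    rw [c1mp_eval, Polynomial.eval_mul, c1mp_eval, c1mp_eval]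
    exact h0 T
  -- the composition
  have hαd : ∀ᶠ s in 𝓝 (0 : ℂ), DifferentiableAt ℂ (fun s => fun i => α i s) s := by
    have h1 : ∀ᶠ s in 𝓝 (0 : ℂ), ∀ i, AnalyticAt ℂ (α i) s :=
      eventually_all.mpr fun i => (hα i).eventually_analyticAt
    filter_upwards [h1] with s hs
    exact differentiableAt_pi.mpr fun i => (hs i).differentiableAt
  have hαc : Tendsto (fun s => fun i => α i s) (𝓝 (0 : ℂ)) (𝓝 (c1Phi p q x₀)) := by
    rw [hα0]
    exact (hαd.self_of_nhds).continuousAt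
  have hinvd : ∀ᶠ y in 𝓝 (c1Phi p q x₀), DifferentiableAt ℂ inv y := by
    have h1 := hinvcd.eventually (by simp)
    filter_upwards [h1] with y hy
    exact hy.differentiableAt (by simp)
  have hcomp : ∀ᶠ s in 𝓝 (0 : ℂ), DifferentiableAt ℂ (fun s => inv (fun i => α i s)) s := by
    filter_upwards [hαd, hαc.eventually hinvd] with s h1 h2
    exact DifferentiableAt.comp s h2 h1
  have hinv0 : inv (fun i => α i 0) = x₀ := by
    rw [← hα0]
    exact hsd.localInverse_apply_image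
  refine ⟨fun i s => (inv (fun i => α i s)).1 i, fun i s => (inv (fun i => α i s)).2 i,
    fun i => ?_, fun i => ?_, fun i => ?_, fun i => ?_, ?_⟩
  · rw [Complex.analyticAt_iff_eventually_differentiableAt]
    filter_upwards [hcomp] with s hs
    exact differentiableAt_pi.mp hs.fst i
  · rw [Complex.analyticAt_iff_eventually_differentiableAt]
    filter_upwards [hcomp] with s hs
    exact differentiableAt_pi.mp hs.snd i
  · show (inv (fun i => α i 0)).1 i = g₀ i
    rw [hinv0]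
  · show (inv (fun i => α i 0)).2 i = h₀ i
    rw [hinv0]
  · have h1 : ∀ᶠ y in 𝓝 (c1Phi p q x₀), c1Phi p q (inv y) = y := hsd.eventually_right_inverse
    filter_upwards [hαc.eventually h1] with s hs T
    rw [key] at hs
    have h2 := congrArg (Polynomial.eval T) hs
    rw [c1mp_eval, Polynomial.eval_mul, c1mp_eval, c1mp_eval] at h2
    exact h2

end XW
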