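import Pool.Agent.Lib.MP_228259_lc.C4c

/-!
C5a: see /team-store/XW_blueprint.md
C5a fiber_finite. y_j algebraic over C(phi): F(phi, y_j) = 0 with F not divisible by (F-variable - b), so y_j takes finitely many values on the fibre. (K = FractionRing (MvPolynomial/I), trdeg_facts, then clear denominators to get identities on W.)
-/

namespace XW

open Filter Topology MvPolynomial

theorem C5a_ev_map {B B' : Type*} [CommRing B] [Algebra ℂ B] [CommRing B'] [Algebra ℂ B']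
    (ψ : B →ₐ[ℂ] B') (φ θ : B) (G : Polynomial (Polynomial ℂ)) :
    ψ (ev φ θ G) = ev (ψ φ) (ψ θ) G := by
  unfold ev
  rw [← AlgHom.coe_toRingHom, Polynomial.hom_eval₂]
  congr 1
  apply RingHom.ext
  intro p
  simp only [RingHom.coe_comp, Function.comp_apply, AlgHom.toRingHom_eq_coe, RingHom.coe_coe]
  exact (Polynomial.aeval_algHom_apply ψ φ p).symm

theorem C5a_ev_mul {B : Type*} [CommRing B] [Algebra ℂ B] (φ θ : B)
    (G H : Polynomial (Polynomial ℂ)) : ev φ θ (G * H) = ev φ θ G * ev φ θ H := by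
  unfold ev
  exact Polynomial.eval₂_mul _ _

theorem C5a_ev_C {B : Type*} [CommRing B] [Algebra ℂ B] (φ θ : B)
    (p : Polynomial ℂ) : ev φ θ (Polynomial.C p) = Polynomial.aeval φ p := by
  unfold ev
  rw [Polynomial.eval₂_C]
  rfl

theorem C5a_ev_complex (f θ : ℂ) (G : Polynomial (Polynomial ℂ)) :
    ev f θ G = (G.map (Polynomial.evalRingHom f)).eval θ := by
  unfold ev
  rw [Polynomial.eval_map]
  congr 1

/-- specialisation at `y₀`: pairs `(x, z)` with `x = f(y)/g(y)`, `z = f(y₀)/g(y₀)`,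
`g(y₀) ≠ 0`. -/
noncomputable def C5a_spec {n : ℕ} {K : Type*} [Field K] [Algebra ℂ K] (y : Fin n → K)
    (y₀ : Fin n → ℂ) : Subalgebra ℂ (K × ℂ) where
  carrier := {x | ∃ f g : MvPolynomial (Fin n) ℂ, eval y₀ g ≠ 0 ∧
    x.1 * aeval y g = aeval y f ∧ x.2 * eval y₀ g = eval y₀ f}
  mul_mem' := by
    rintro ⟨x, z⟩ ⟨x', z'⟩ ⟨f, g, h1, h2, h3⟩ ⟨f', g', h1', h2', h3'⟩
    refine ⟨f * f', g * g', ?_, ?_, ?_⟩
    · rw [map_mul]
      exact mul_ne_zero h1 h1'
    · simp only [Prod.mk_mul_mk, map_mul] at *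
      rw [← h2, ← h2']
      ring
    · simp only [Prod.mk_mul_mk, map_mul] at *
      rw [← h3, ← h3']
      ring
  add_mem' := by
    rintro ⟨x, z⟩ ⟨x', z'⟩ ⟨f, g, h1, h2, h3⟩ ⟨f', g', h1', h2', h3'⟩
    refine ⟨f * g' + f' * g, g * g', ?_, ?_, ?_⟩
    · rw [map_mul]
      exact mul_ne_zero h1 h1'
    · simp only [Prod.mk_add_mk, map_mul, map_add] at *
      rw [← h2, ← h2']
      ring
    · simp only [Prod.mk_add_mk, map_mul, map_add] at *
      rw [← h3, ← h3']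
      ring
  algebraMap_mem' := by
    intro c
    refine ⟨C c, 1, by simp, ?_, ?_⟩
    · simp
    · simp

theorem C5a_spec_zero {n : ℕ} {K : Type*} [Field K] [Algebra ℂ K] (y : Fin n → K)
    (y₀ : Fin n → ℂ) (h : ∀ f : MvPolynomial (Fin n) ℂ, aeval y f = 0 → eval y₀ f = 0)
    (z : ℂ) (hz : ((0 : K), z) ∈ C5a_spec y y₀) : z = 0 := by
  obtain ⟨f, g, h1, h2, h3⟩ := hz
  simp only [zero_mul] at h2 h3
  rw [h f h2.symm] at h3
  rcases mul_eq_zero.mp h3 with h4 | h4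
  · exact h4
  · exact absurd h4 h1

theorem C5a_spec_mem {n : ℕ} {K : Type*} [Field K] [Algebra ℂ K] (y : Fin n → K)
    (y₀ : Fin n → ℂ) (F : MvPolynomial (Fin n) ℂ) :
    (aeval y F, eval y₀ F) ∈ C5a_spec y y₀ :=
  ⟨F, 1, by simp, by simp, by simp⟩

theorem C5a_spec_ev {n : ℕ} {K : Type*} [Field K] [Algebra ℂ K] (y : Fin n → K)
    (y₀ : Fin n → ℂ) (h : ∀ f : MvPolynomial (Fin n) ℂ, aeval y f = 0 → eval y₀ f = 0)
    {φ θ : K} {zφ zθ : ℂ} (h1 : (φ, zφ) ∈ C5a_spec y y₀) (h2 : (θ, zθ) ∈ C5a_spec y y₀)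
    (G : Polynomial (Polynomial ℂ)) (hG : ev φ θ G = 0) : ev zφ zθ G = 0 := by
  set D := C5a_spec y y₀ with hD
  let d₁ : D := ⟨(φ, zφ), h1⟩
  let d₂ : D := ⟨(θ, zθ), h2⟩
  have e1 := C5a_ev_map ((AlgHom.fst ℂ K ℂ).comp D.val) d₁ d₂ G
  have e2 := C5a_ev_map ((AlgHom.snd ℂ K ℂ).comp D.val) d₁ d₂ G
  have e3 : ((AlgHom.fst ℂ K ℂ).comp D.val) (ev d₁ d₂ G) = 0 := by
    rw [e1]
    exact hG
  have e4 : ((AlgHom.snd ℂ K ℂ).comp D.val) (ev d₁ d₂ G) = ev zφ zθ G := e2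
  rw [← e4]
  apply C5a_spec_zero y y₀ h
  have e5 := (ev d₁ d₂ G).2
  have e6 : ((0 : K), ((AlgHom.snd ℂ K ℂ).comp D.val) (ev d₁ d₂ G)) =
      ((ev d₁ d₂ G : D) : K × ℂ) := by
    apply Prod.ext
    · exact e3.symm
    · rfl
  rw [e6]
  exact e5

theorem C5a_spec_monomial {n : ℕ} {K : Type*} [Field K] [Algebra ℂ K] (y : Fin n → K)
    (y₀ : Fin n → ℂ) (hy : ∀ j, y j ≠ 0) (hy₀ : ∀ j, y₀ j ≠ 0) (a : Fin n → ℤ) :
    (∏ j, (y j) ^ (a j), ∏ j, (y₀ j) ^ (a j)) ∈ C5a_spec y y₀ := by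
  have h1 : ∀ j : Fin n, ∀ m : ℤ, ((y j) ^ m, (y₀ j) ^ m) ∈ C5a_spec y y₀ := by
    intro j m
    have hpos : (y j, y₀ j) ∈ C5a_spec y y₀ := by
      have := C5a_spec_mem y y₀ (X j)
      rwa [aeval_X, eval_X] at this
    have hneg : ((y j)⁻¹, (y₀ j)⁻¹) ∈ C5a_spec y y₀ :=
      ⟨1, X j, by simpa using hy₀ j, by simp [hy j], by simp [hy₀ j]⟩
    rcases Int.eq_nat_or_neg m with ⟨k, hk | hk⟩
    · rw [hk, zpow_natCast, zpow_natCast]
      have := pow_mem hpos k
      exact this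
    · rw [hk, zpow_neg, zpow_neg, zpow_natCast, zpow_natCast]
      have := pow_mem hneg k
      rw [Prod.pow_mk, inv_pow, inv_pow] at this
      exact this
  have h2 := prod_mem (S := C5a_spec y y₀) (t := Finset.univ)
    (f := fun j : Fin n => ((y j) ^ (a j), (y₀ j) ^ (a j))) (fun j _ => h1 j (a j))
  have h3 : (∏ j, (y j) ^ (a j), ∏ j, (y₀ j) ^ (a j)) =
      ∏ j : Fin n, ((y j) ^ (a j), (y₀ j) ^ (a j)) := by
    apply Prod.ext
    · rw [Prod.fst_prod]
    · rw [Prod.snd_prod]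
  rw [h3]
  exact h2

/-- the function field of the curve -/
theorem C5a_field {n : ℕ} {I : Ideal (MvPolynomial (Fin n) ℂ)} {W : Set (Fin n → ℂ)}
    (hI : CurveData I W) (hne : W.Nonempty) :
    ∃ (K : Type) (_ : Field K) (_ : Algebra ℂ K) (y : Fin n → K),
      (∀ f : MvPolynomial (Fin n) ℂ, MvPolynomial.aeval y f = 0 ↔ f ∈ I) ∧
      (∀ j, y j ≠ 0) := by
  have := hI.prime
  obtain ⟨y₁, hy₁⟩ := hne
  rw [hI.W_eq] at hy₁
  let A := MvPolynomial (Fin n) ℂ ⧸ I
  let K := FractionRing A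
  have hinj : Function.Injective (algebraMap A K) := IsFractionRing.injective A K
  have key : ∀ f : MvPolynomial (Fin n) ℂ,
      MvPolynomial.aeval (fun j => algebraMap A K (Ideal.Quotient.mk I (X j))) f =
        algebraMap A K (Ideal.Quotient.mk I f) := by
    intro f
    induction f using MvPolynomial.induction_on with
    | C c =>
      rw [aeval_C]
      rfl
    | add p q hp hq => rw [map_add, map_add, map_add, hp, hq]
    | mul_X p j hp => rw [map_mul, map_mul, map_mul, hp, aeval_X]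
  refine ⟨K, inferInstance, inferInstance,
    fun j => algebraMap A K (Ideal.Quotient.mk I (X j)), ?_, ?_⟩
  · intro f
    rw [key f, map_eq_zero_iff _ hinj, Ideal.Quotient.eq_zero_iff_mem]
  · intro j h0
    have h1 : algebraMap A K (Ideal.Quotient.mk I (X j)) = 0 := h0
    rw [map_eq_zero_iff _ hinj, Ideal.Quotient.eq_zero_iff_mem] at h1
    have h2 := hy₁.1 _ h1
    rw [eval_X] at h2
    exact hy₁.2 j h2

theorem C5a_divide {K : Type*} [Field K] [Algebra ℂ K] (φ θ : K) (hφ : Transcendental ℂ φ)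
    (b : ℂ) : ∀ (N : ℕ) (G : Polynomial (Polynomial ℂ)), G.leadingCoeff.natDegree = N → G ≠ 0 →
      ev φ θ G = 0 → ∃ G' : Polynomial (Polynomial ℂ),
        G'.map (Polynomial.evalRingHom b) ≠ 0 ∧ ev φ θ G' = 0 := by
  intro N
  induction N using Nat.strong_induction_on with
  | _ N ih =>
    intro G hN hG h0
    by_cases hm : G.map (Polynomial.evalRingHom b) = 0
    · have h1 : Polynomial.C (Polynomial.X - Polynomial.C b) ∣ G := by
        rw [Polynomial.C_dvd_iff_dvd_coeff]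
        intro i
        rw [Polynomial.dvd_iff_isRoot]
        have h2 := congrArg (fun p => Polynomial.coeff p i) hm
        simpa using h2
      obtain ⟨G', hG'⟩ := h1
      have hG'0 : G' ≠ 0 := by
        rintro rfl
        exact hG (by rw [hG', mul_zero])
      have hlc : G.leadingCoeff = (Polynomial.X - Polynomial.C b) * G'.leadingCoeff := by
        rw [hG', Polynomial.leadingCoeff_mul, Polynomial.leadingCoeff_C]
      have hdeg : G.leadingCoeff.natDegree = 1 + G'.leadingCoeff.natDegree := by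
        rw [hlc, Polynomial.natDegree_mul (Polynomial.X_sub_C_ne_zero b)
          (Polynomial.leadingCoeff_ne_zero.mpr hG'0), Polynomial.natDegree_X_sub_C]
      have h3 : ev φ θ G' = 0 := by
        rw [hG', C5a_ev_mul, C5a_ev_C] at h0
        rcases mul_eq_zero.mp h0 with h4 | h4
        · exact absurd h4 (fun h5 => hφ ⟨_, Polynomial.X_sub_C_ne_zero b, h5⟩)
        · exact h4
      exact ih _ (by omega) G' rfl hG'0 h3
    · exact ⟨G, hm, h0⟩

theorem fiber_finite {n : ℕ} {I : Ideal (MvPolynomial (Fin n) ℂ)} {W : Set (Fin n → ℂ)}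
    (hI : CurveData I W) (a : Fin n → ℤ) (ha : a ≠ 0) (b : ℂ) :
    {y ∈ W | ∏ j, (y j) ^ (a j) = b}.Finite := by
  classical
  have hne : W.Nonempty := by
    obtain ⟨y, hy, -⟩ := hI.free a ha 0
    exact ⟨y, hy⟩
  obtain ⟨K, _, _, y, hy, hy0⟩ := C5a_field hI hne
  obtain ⟨htr, halg⟩ := trdeg_facts hI y hy hy0 a ha
  have h1 : ∀ j : Fin n, ∃ G' : Polynomial (Polynomial ℂ),
      G'.map (Polynomial.evalRingHom b) ≠ 0 ∧ ev (∏ j, (y j) ^ (a j)) (y j) G' = 0 := by
    intro j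
    obtain ⟨G, hG, hG0⟩ := halg (y j) (IntermediateField.subset_adjoin ℂ _ ⟨j, rfl⟩)
    exact C5a_divide _ _ htr b _ G rfl hG hG0
  choose G hG hG0 using h1
  have h2 : {y ∈ W | ∏ j, (y j) ^ (a j) = b} ⊆
      Set.pi Set.univ (fun j => ((G j).map (Polynomial.evalRingHom b)).rootSet ℂ) := by
    rintro y₀ ⟨hy₀, hb⟩ j -
    have hW := hy₀
    rw [hI.W_eq] at hW
    have hs : ∀ f : MvPolynomial (Fin n) ℂ, aeval y f = 0 → eval y₀ f = 0 :=
      fun f hf => hW.1 f ((hy f).mp hf)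
    have h3 := C5a_spec_ev y y₀ hs (C5a_spec_monomial y y₀ hy0 hW.2 a)
      (by
        have := C5a_spec_mem y y₀ (X j)
        rwa [aeval_X, eval_X] at this) (G j) (hG0 j)
    rw [hb, C5a_ev_complex] at h3
    rw [Polynomial.mem_rootSet]
    exact ⟨hG j, by simpa using h3⟩
  exact (Set.Finite.pi' fun j => Polynomial.rootSet_finite _ _).subset (by
    intro z hz
    exact fun j => h2 hz j trivial)

end XW
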