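import Pool.Agent.Lib.MP_228259_lc.C4c
import Pool.Agent.Lib.MP_228259_lc.C5a

/-!
C5b: see /team-store/XW_blueprint.md
C5b zero_finite. F not in I, F algebraic over C(phi), phi = y^(e_0) say: c_0(phi) = -F*(...) with c_0 <> 0: so on {F=0} phi takes finitely many values; fiber_finite. (n = 0: W has at most one point.)
-/

namespace XW

open Filter Topology MvPolynomial

theorem C5b_mem_adjoin {n : ℕ} {K : Type*} [Field K] [Algebra ℂ K] (y : Fin n → K)
    (F : MvPolynomial (Fin n) ℂ) : aeval y F ∈ IntermediateField.adjoin ℂ (Set.range y) := by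
  have h1 : aeval y F ∈ Algebra.adjoin ℂ (Set.range y) := by
    rw [Algebra.adjoin_range_eq_range_aeval]
    exact ⟨F, rfl⟩
  exact IntermediateField.algebra_adjoin_le_adjoin ℂ _ h1

theorem zero_finite {n : ℕ} {I : Ideal (MvPolynomial (Fin n) ℂ)} {W : Set (Fin n → ℂ)}
    (hI : CurveData I W) (F : MvPolynomial (Fin n) ℂ) (hF : F ∉ I) :
    {y ∈ W | MvPolynomial.eval y F = 0}.Finite := by
  classical
  rcases Nat.eq_zero_or_pos n with hn | hn
  · subst hn
    exact Set.toFinite _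
  set i₀ : Fin n := ⟨0, hn⟩ with hi₀
  set a : Fin n → ℤ := Pi.single i₀ 1 with ha'
  have ha : a ≠ 0 := by
    intro h
    have := congrFun h i₀
    simp [ha'] at this
  have hne : W.Nonempty := by
    obtain ⟨y, hy, -⟩ := hI.free a ha 0
    exact ⟨y, hy⟩
  obtain ⟨K, _, _, y, hy, hy0⟩ := C5a_field hI hne
  obtain ⟨htr, halg⟩ := trdeg_facts hI y hy hy0 a ha
  have hx0 : aeval y F ≠ 0 := fun h => hF ((hy F).mp h)
  obtain ⟨G, hG, hG0⟩ := halg (aeval y F) (C5b_mem_adjoin y F)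
  obtain ⟨q, hq, hqd⟩ := Polynomial.exists_eq_pow_rootMultiplicity_mul_and_not_dvd G hG 0
  rw [Polynomial.C_0, sub_zero] at hq hqd
  have hq0 : ev (∏ j, (y j) ^ (a j)) (aeval y F) q = 0 := by
    rw [hq, C5a_ev_mul] at hG0
    rcases mul_eq_zero.mp hG0 with h1 | h1
    · exfalso
      unfold ev at h1
      rw [Polynomial.eval₂_pow, Polynomial.eval₂_X] at h1
      exact pow_ne_zero _ hx0 h1
    · exact h1
  have hc : q.coeff 0 ≠ 0 := fun h => hqd (Polynomial.X_dvd_iff.mpr h)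
  have hsub : {y ∈ W | MvPolynomial.eval y F = 0} ⊆
      ⋃ b ∈ (q.coeff 0).rootSet ℂ, {y ∈ W | ∏ j, (y j) ^ (a j) = b} := by
    rintro y₀ ⟨hy₀, hF0⟩
    have hW := hy₀
    rw [hI.W_eq] at hW
    have hs : ∀ f : MvPolynomial (Fin n) ℂ, aeval y f = 0 → eval y₀ f = 0 :=
      fun f hf => hW.1 f ((hy f).mp hf)
    have h3 := C5a_spec_ev y y₀ hs (C5a_spec_monomial y y₀ hy0 hW.2 a)
      (C5a_spec_mem y y₀ F) q hq0
    rw [hF0] at h3
    have h4 : Polynomial.aeval (∏ j, (y₀ j) ^ (a j)) (q.coeff 0) = 0 := by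
      rw [C5a_ev_complex, ← Polynomial.coeff_zero_eq_eval_zero, Polynomial.coeff_map] at h3
      simpa using h3
    simp only [Set.mem_iUnion]
    refine ⟨∏ j, (y₀ j) ^ (a j), ?_, hy₀, rfl⟩
    rw [Polynomial.mem_rootSet]
    exact ⟨hc, h4⟩
  exact (Set.Finite.biUnion (Polynomial.rootSet_finite _ _)
    (fun b _ => fiber_finite hI a ha b)).subset hsub

end XW
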