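import Pool.Agent.Lib.MP_228259_lc.Defs

/-!
C9a: see /team-store/XW_blueprint.md
C9a charts_span. For a chart from HasCharts a 0: s^(a.p) exp(a.L(s)) = s^b => a.p = b > 0. Span over Q of all chart vectors p: if not everything there is a nonzero integer a orthogonal to all p, contradiction. So e_j is a rational combination of chart vectors.
-/

namespace XW

open Filter Topology MvPolynomial

theorem C9a_pos {n : ℕ} {W : Set (Fin n → ℂ)} {r : ℝ} {p : Fin n → ℤ} {L : ℂ → Fin n → ℂ}
    (hc : SChart W r p L) (a : Fin n → ℤ) (b : ℕ) (hb : 0 < b)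
    (h : ∀ s : ℂ, s ≠ 0 → ‖s‖ < r → ∏ j, (pt p L s j) ^ (a j) = 0 + s ^ b)
    (h0 : ∑ j, a j * p j = 0) : False := by
  classical
  have h1 : ∀ s : ℂ, s ≠ 0 → ‖s‖ < r → Complex.exp (∑ j, (a j : ℂ) * L s j) = s ^ b := by
    intro s hs hsr
    have h2 := h s hs hsr
    rw [zero_add] at h2
    rw [← h2, Complex.exp_sum]
    have h3 : ∀ j, (pt p L s j) ^ (a j) = s ^ (a j * p j) * Complex.exp ((a j : ℂ) * L s j) := by
      intro j
      rw [pt, mul_zpow, ← zpow_mul, mul_comm (p j) (a j), Complex.exp_int_mul]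
    rw [Finset.prod_congr rfl (fun j _ => h3 j), Finset.prod_mul_distrib]
    have h4 : ∏ j, s ^ (a j * p j) = s ^ (∑ j, a j * p j) := by
      induction (Finset.univ : Finset (Fin n)) using Finset.induction_on with
      | empty => simp
      | insert x t hx ih => rw [Finset.prod_insert hx, Finset.sum_insert hx, zpow_add₀ hs, ih]
    rw [h4, h0, zpow_zero, one_mul]
  have hcont : ∀ j, Tendsto (fun s => L s j) (𝓝[≠] 0) (𝓝 (L 0 j)) := by
    intro j
    have h5 : ContinuousAt (fun s => L s j) 0 :=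
      ((hc.diff j).differentiableAt (Metric.ball_mem_nhds 0 hc.pos)).continuousAt
    exact h5.tendsto.mono_left nhdsWithin_le_nhds
  have h6 : Tendsto (fun s => Complex.exp (∑ j, (a j : ℂ) * L s j)) (𝓝[≠] 0)
      (𝓝 (Complex.exp (∑ j, (a j : ℂ) * L 0 j))) :=
    (Complex.continuous_exp.tendsto _).comp
      (tendsto_finsetSum _ (fun j _ => (hcont j).const_mul _))
  have h7 : Tendsto (fun s : ℂ => s ^ b) (𝓝[≠] 0) (𝓝 0) := by
    have h8 : Tendsto (fun s : ℂ => s ^ b) (𝓝 0) (𝓝 ((0 : ℂ) ^ b)) :=
      (continuous_pow b).tendsto 0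
    rw [zero_pow hb.ne'] at h8
    exact h8.mono_left nhdsWithin_le_nhds
  have h9 : Tendsto (fun s : ℂ => s ^ b) (𝓝[≠] 0) (𝓝 (Complex.exp (∑ j, (a j : ℂ) * L 0 j))) := by
    refine h6.congr' ?_
    have h10 : Metric.ball (0 : ℂ) r ∈ 𝓝[≠] (0 : ℂ) :=
      nhdsWithin_le_nhds (Metric.ball_mem_nhds 0 hc.pos)
    filter_upwards [self_mem_nhdsWithin, h10] with s hs hsr
    exact h1 s hs (by simpa using hsr)
  have h11 := tendsto_nhds_unique h7 h9
  exact Complex.exp_ne_zero _ h11.symm

theorem charts_span {n : ℕ} {W : Set (Fin n → ℂ)} (hW : HasCharts W) (c : Fin n → ℂ)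
    (h : ∀ (r : ℝ) (p : Fin n → ℤ) (L : ℂ → Fin n → ℂ), SChart W r p L →
      ∑ j, c j * p j = 0) : c = 0 := by
  classical
  let T : Submodule ℚ (Fin n → ℚ) := Submodule.span ℚ
    {v | ∃ (r : ℝ) (p : Fin n → ℤ) (L : ℂ → Fin n → ℂ), SChart W r p L ∧ v = fun j => (p j : ℚ)}
  have hT : T = ⊤ := by
    by_contra hne
    obtain ⟨f, hf, hle⟩ := Submodule.exists_le_ker_of_lt_top T (lt_top_iff_ne_top.2 hne)
    set q : Fin n → ℚ := fun j => f (Pi.single j 1) with hq
    have hfq : ∀ v, f v = ∑ j, v j * q j := by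
      intro v
      conv_lhs => rw [LinearMap.pi_apply_eq_sum_univ f v]
      apply Finset.sum_congr rfl
      intro j _
      rw [smul_eq_mul]
      congr 2
      funext i
      simp [Pi.single_apply, eq_comm]
    set a : Fin n → ℤ := fun j => (q j).num * ∏ i ∈ Finset.univ.erase j, ((q i).den : ℤ) with ha
    have haq : ∀ j, (a j : ℚ) = q j * ∏ i, ((q i).den : ℚ) := by
      intro j
      rw [← Finset.mul_prod_erase Finset.univ (fun i => ((q i).den : ℚ)) (Finset.mem_univ j),
        ← mul_assoc, Rat.mul_den_eq_num, ha]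
      push_cast
      rfl
    have hprod : (∏ i, ((q i).den : ℚ)) ≠ 0 := by
      rw [Finset.prod_ne_zero_iff]
      intro i _
      exact_mod_cast (q i).den_nz
    have ha0 : a ≠ 0 := by
      intro h0
      apply hf
      ext v
      simp only [LinearMap.coe_comp, Function.comp_apply, LinearMap.coe_single, LinearMap.zero_apply]
      have h1 := haq v
      rw [h0] at h1
      simp only [Pi.zero_apply, Int.cast_zero] at h1
      have h2 : q v = 0 := by
        rcases mul_eq_zero.1 h1.symm with h | h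
        · exact h
        · exact absurd h hprod
      exact h2
    obtain ⟨b, r, p, L, hb, hch, hpr⟩ := hW a ha0 0
    apply C9a_pos hch a b hb hpr
    have h3 : f (fun j => (p j : ℚ)) = 0 := by
      have : (fun j => (p j : ℚ)) ∈ T := Submodule.subset_span ⟨r, p, L, hch, rfl⟩
      exact hle this
    rw [hfq] at h3
    have h4 : (∑ j, (a j : ℚ) * (p j : ℚ)) = 0 := by
      have h5 : (∑ j, (a j : ℚ) * (p j : ℚ)) =
          (∑ j, (p j : ℚ) * q j) * ∏ i, ((q i).den : ℚ) := by
        rw [Finset.sum_mul]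
        apply Finset.sum_congr rfl
        intro j _
        rw [haq]
        ring
      rw [h5, h3, zero_mul]
    exact_mod_cast h4
  let φ : (Fin n → ℚ) →ₗ[ℚ] ℂ :=
    { toFun := fun v => ∑ j, c j * (v j : ℂ)
      map_add' := by
        intro x y
        rw [← Finset.sum_add_distrib]
        apply Finset.sum_congr rfl
        intro j _
        simp only [Pi.add_apply, Rat.cast_add]
        ring
      map_smul' := by
        intro t x
        simp only [Pi.smul_apply, smul_eq_mul, Rat.cast_mul, RingHom.id_apply, Finset.smul_sum,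
          Rat.smul_def]
        apply Finset.sum_congr rfl
        intro j _
        ring }
  have hφ : T ≤ LinearMap.ker φ := by
    rw [Submodule.span_le]
    rintro v ⟨r, p, L, hch, rfl⟩
    have h1 := h r p L hch
    change φ _ = 0
    change ∑ j, c j * (((p j : ℚ)) : ℂ) = 0
    simpa using h1
  funext j
  have h2 : φ (Pi.single j 1) = 0 := by
    have : (Pi.single j 1 : Fin n → ℚ) ∈ T := by
      rw [hT]
      trivial
    exact hφ this
  change ∑ i, c i * (((Pi.single j 1 : Fin n → ℚ) i : ℚ) : ℂ) = 0 at h2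
  rw [Finset.sum_eq_single j] at h2
  · simpa using h2
  · intro i _ hij
    simp [hij]
  · intro hj
    exact absurd (Finset.mem_univ j) hj

end XW
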