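import Pool.Agent.Lib.MP_228259_lc.C5a

/-!
C9b: see /team-store/XW_blueprint.md
C9b log_relation. j = i trivial (U=V=1). f in I with vars in {i,j}, nonzero, of minimal degree in X_j: pderiv j f not in I (if degree in X_j is 0 then f in C[X_i]: X_i takes finitely many values on W, contradiction to free (irreducible: some factor X_i - c in I)). V = X_j * pderiv j f, U = -X_i * pderiv i f. Differentiate f(exp l(t)) = 0.
-/

namespace XW

open Filter Topology MvPolynomial

theorem C9b_ev_monomial {B : Type*} [CommRing B] [Algebra ℂ B] (φ θ : B) (k : ℕ)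
    (p : Polynomial ℂ) : ev φ θ (Polynomial.monomial k p) = Polynomial.aeval φ p * θ ^ k := by
  unfold ev
  rw [Polynomial.eval₂_monomial]
  rfl

theorem C9b_ev_add {B : Type*} [CommRing B] [Algebra ℂ B] (φ θ : B)
    (G H : Polynomial (Polynomial ℂ)) : ev φ θ (G + H) = ev φ θ G + ev φ θ H := by
  unfold ev
  exact Polynomial.eval₂_add _ _

theorem C9b_chain (G : Polynomial (Polynomial ℂ)) : ∃ G₁ : Polynomial (Polynomial ℂ),
    ∀ (u v : ℂ → ℂ) (t u' v' : ℂ), HasDerivAt u u' t → HasDerivAt v v' t →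
      HasDerivAt (fun t => ev (u t) (v t) G)
        (ev (u t) (v t) G₁ * u' + ev (u t) (v t) (Polynomial.derivative G) * v') t := by
  induction G using Polynomial.induction_on' with
  | add p q hp hq =>
    obtain ⟨P, hP⟩ := hp
    obtain ⟨Q, hQ⟩ := hq
    refine ⟨P + Q, fun u v t u' v' hu hv => ?_⟩
    have h1 := (hP u v t u' v' hu hv).add (hQ u v t u' v' hu hv)
    have h2 : (fun t => ev (u t) (v t) (p + q)) =
        (fun t => ev (u t) (v t) p) + (fun t => ev (u t) (v t) q) := by
      funext t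
      rw [C9b_ev_add]
      rfl
    rw [h2, Polynomial.derivative_add, C9b_ev_add, C9b_ev_add]
    have h3 : (ev (u t) (v t) P + ev (u t) (v t) Q) * u' +
        (ev (u t) (v t) (Polynomial.derivative p) + ev (u t) (v t) (Polynomial.derivative q)) * v' =
        ev (u t) (v t) P * u' + ev (u t) (v t) (Polynomial.derivative p) * v' +
        (ev (u t) (v t) Q * u' + ev (u t) (v t) (Polynomial.derivative q) * v') := by ring
    rw [h3]
    exact h1
  | monomial k a =>
    refine ⟨Polynomial.monomial k (Polynomial.derivative a), fun u v t u' v' hu hv => ?_⟩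
    have h2 : (fun t => ev (u t) (v t) (Polynomial.monomial k a)) =
        (fun t => (a.eval (u t)) * (v t) ^ k) := by
      funext t
      rw [C9b_ev_monomial, Polynomial.coe_aeval_eq_eval]
    rw [h2, Polynomial.derivative_monomial, C9b_ev_monomial, C9b_ev_monomial,
      Polynomial.coe_aeval_eq_eval]
    have h3 : HasDerivAt (fun t => a.eval (u t)) ((Polynomial.derivative a).eval (u t) * u') t :=
      (a.hasDerivAt (u t)).comp t hu
    have h4 : HasDerivAt (fun t => (v t) ^ k) ((k : ℂ) * (v t) ^ (k - 1) * v') t := hv.pow k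
    refine (h3.mul h4).congr_deriv ?_
    simp only [Polynomial.eval_mul, Polynomial.eval_natCast]
    ring

theorem log_relation {n : ℕ} {I : Ideal (MvPolynomial (Fin n) ℂ)} {W : Set (Fin n → ℂ)}
    (hI : CurveData I W) (i j : Fin n) :
    ∃ U V : MvPolynomial (Fin n) ℂ, V ∉ I ∧ ∀ (t₀ : ℂ) (r : ℝ) (ℓ : ℂ → Fin n → ℂ),
      LogDisc W t₀ r ℓ → ∀ t ∈ Metric.ball t₀ r,
        MvPolynomial.eval (fun j => Complex.exp (ℓ t j)) V * deriv (fun t => ℓ t j) t =
        MvPolynomial.eval (fun j => Complex.exp (ℓ t j)) U * deriv (fun t => ℓ t i) t := by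
  classical
  have hprime := hI.prime
  by_cases hij : j = i
  · subst hij
    refine ⟨1, 1, fun h => hprime.ne_top ((Ideal.eq_top_iff_one I).mpr h), ?_⟩
    intros
    rfl
  set a : Fin n → ℤ := Pi.single i 1 with ha'
  have ha : a ≠ 0 := by
    intro h
    have := congrFun h i
    simp [ha'] at this
  have hne : W.Nonempty := by
    obtain ⟨y, hy, -⟩ := hI.free a ha 0
    exact ⟨y, hy⟩
  obtain ⟨K, _, _, y, hy, hy0⟩ := C5a_field hI hne
  obtain ⟨htr, halg⟩ := trdeg_facts hI y hy hy0 a ha
  have hprod : ∏ k, (y k) ^ (a k) = y i := by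
    rw [Finset.prod_eq_single i]
    · simp [ha']
    · intro k _ hk
      simp [ha', hk]
    · intro h
      exact absurd (Finset.mem_univ _) h
  rw [hprod] at htr
  have hex : ∃ N : ℕ, ∃ G : Polynomial (Polynomial ℂ), G ≠ 0 ∧ ev (y i) (y j) G = 0 ∧
      G.natDegree = N := by
    obtain ⟨G, hG, hG0⟩ := halg (y j) (IntermediateField.subset_adjoin ℂ _ ⟨j, rfl⟩)
    rw [hprod] at hG0
    exact ⟨_, G, hG, hG0, rfl⟩
  obtain ⟨G, hG, hG0, hGN⟩ := Nat.find_spec hex
  have hmin : ∀ H : Polynomial (Polynomial ℂ), H ≠ 0 → ev (y i) (y j) H = 0 →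
      G.natDegree ≤ H.natDegree := by
    intro H hH hH0
    rw [hGN]
    exact Nat.find_min' hex ⟨H, hH, hH0, rfl⟩
  have hpos : 0 < G.natDegree := by
    rcases Nat.eq_zero_or_pos G.natDegree with h | h
    · exfalso
      rw [Polynomial.natDegree_eq_zero] at h
      obtain ⟨c, hc⟩ := h
      rw [← hc, C5a_ev_C] at hG0
      apply htr
      refine ⟨c, ?_, hG0⟩
      rintro rfl
      exact hG (by rw [← hc, Polynomial.C_0])
    · exact h
  have hD : ev (y i) (y j) (Polynomial.derivative G) ≠ 0 := by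
    intro h
    have h1 : Polynomial.derivative G ≠ 0 := by
      intro h2
      have := Polynomial.derivative_eq_zero.mp h2
      omega
    have h2 := hmin _ h1 h
    have h3 := Polynomial.natDegree_derivative_lt (p := G) (by omega)
    omega
  obtain ⟨G₁, hG₁⟩ := C9b_chain G
  have hmap : ∀ H : Polynomial (Polynomial ℂ),
      aeval y (ev (X i : MvPolynomial (Fin n) ℂ) (X j) H) = ev (y i) (y j) H := by
    intro H
    rw [C5a_ev_map, aeval_X, aeval_X]
  have hmap' : ∀ (z : Fin n → ℂ) (H : Polynomial (Polynomial ℂ)),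
      eval z (ev (X i : MvPolynomial (Fin n) ℂ) (X j) H) = ev (z i) (z j) H := by
    intro z H
    have h1 : eval z (ev (X i : MvPolynomial (Fin n) ℂ) (X j) H) =
        aeval z (ev (X i : MvPolynomial (Fin n) ℂ) (X j) H) := by
      rw [← MvPolynomial.coe_aeval_eq_eval]
      rfl
    rw [h1, C5a_ev_map, aeval_X, aeval_X]
  refine ⟨-(X i * ev (X i) (X j) G₁), X j * ev (X i) (X j) (Polynomial.derivative G), ?_, ?_⟩
  · intro h
    have h1 := (hy _).mpr h
    rw [map_mul, aeval_X, hmap] at h1
    exact mul_ne_zero (hy0 j) hD h1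
  · intro t₀ r ℓ hd t ht
    have hder : ∀ k, HasDerivAt (fun t => ℓ t k) (deriv (fun t => ℓ t k) t) t := by
      intro k
      exact ((hd.diff k).differentiableAt (Metric.isOpen_ball.mem_nhds ht)).hasDerivAt
    have h1 := hG₁ (fun t => Complex.exp (ℓ t i)) (fun t => Complex.exp (ℓ t j)) t _ _
      (hder i).cexp (hder j).cexp
    have h2 : (fun t => ev (Complex.exp (ℓ t i)) (Complex.exp (ℓ t j)) G) =ᶠ[𝓝 t] fun _ => 0 := by
      filter_upwards [Metric.isOpen_ball.mem_nhds ht] with s hs
      have h3 := hd.mem s hs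
      rw [hI.W_eq] at h3
      have h4 : ev (X i) (X j) G ∈ I := by
        rw [← hy, hmap, hG0]
      have h5 := h3.1 _ h4
      rw [hmap'] at h5
      exact h5
    have h3 := h2.hasDerivAt_iff.mp h1
    have h4 := h3.unique (hasDerivAt_const t (0 : ℂ))
    rw [map_mul, eval_X, map_neg, map_mul, eval_X, hmap', hmap']
    linear_combination h4

end XW
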