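import Pool.Agent.Lib.MP_228259_lc.C5a
import Pool.Agent.Lib.MP_228259_lc.C5b
import Pool.Agent.Lib.MP_228259_lc.C9a
import Pool.Agent.Lib.MP_228259_lc.C9b

/-!
C9c: see /team-store/XW_blueprint.md
C9c nc. Fix i0, V = prod_j V_j, Phi = sum_j nu_j U_j prod_{k<>j} V_k. V(y) sum nu_j l_j' = Phi(y) l_{i0}'. Case Phi not in I: zero_finite and continuity: y(t) locally constant or l_{i0}' = 0 locally so y_{i0} constant, fiber_finite, y locally constant => l locally constant. Case Phi in I: then for every chart sum nu_j (p_j + s L_j'(s)) = 0 for s <> 0 (V(y) <> 0 off a discrete set) so sum nu_j p_j = 0, charts_span => nu = 0.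
-/

namespace XW

open Filter Topology MvPolynomial

theorem C9c_restrict {n : ℕ} {W : Set (Fin n → ℂ)} {t₀ : ℂ} {r : ℝ} {ℓ : ℂ → Fin n → ℂ}
    (hd : LogDisc W t₀ r ℓ) {r' : ℝ} (h0 : 0 < r') (hr : r' ≤ r) : LogDisc W t₀ r' ℓ where
  pos := h0
  diff := fun j => (hd.diff j).mono (Metric.ball_subset_ball hr)
  mem := fun t ht => hd.mem t (Metric.ball_subset_ball hr ht)

theorem C9c_deriv_zero {n : ℕ} {W : Set (Fin n → ℂ)} {t₀ : ℂ} {r : ℝ} {ℓ : ℂ → Fin n → ℂ}
    (hd : LogDisc W t₀ r ℓ) {S : Set (Fin n → ℂ)} (hS : S.Finite)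
    (hmem : ∀ t ∈ Metric.ball t₀ r, (fun j => Complex.exp (ℓ t j)) ∈ S) :
    ∀ t ∈ Metric.ball t₀ r, ∀ j, deriv (fun t => ℓ t j) t = 0 := by
  intro t ht j
  have hfin : Finite S := hS
  have hcont : ContinuousOn (fun t => (fun j => Complex.exp (ℓ t j))) (Metric.ball t₀ r) := by
    apply continuousOn_pi.mpr
    intro k
    exact ((hd.diff k).continuousOn).cexp
  have hpre : IsPreconnected (Metric.ball t₀ r) := (convex_ball t₀ r).isPreconnected
  have hder : HasDerivAt (fun t => ℓ t j) (deriv (fun t => ℓ t j) t) t :=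
    ((hd.diff j).differentiableAt (Metric.isOpen_ball.mem_nhds ht)).hasDerivAt
  have h1 := hder.cexp
  have h2 : (fun t => Complex.exp (ℓ t j)) =ᶠ[𝓝 t] fun _ => Complex.exp (ℓ t j) := by
    filter_upwards [Metric.isOpen_ball.mem_nhds ht] with s hs
    have h3 := hpre.constant_of_mapsTo (T := S) hS.isDiscrete hcont hmem hs ht
    exact congrFun h3 j
  have h3 := h2.hasDerivAt_iff.mp h1
  have h4 := h3.unique (hasDerivAt_const t _)
  rcases mul_eq_zero.mp h4 with h5 | h5
  · exact absurd h5 (Complex.exp_ne_zero _)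
  · exact h5

theorem C9c_const {n : ℕ} {W : Set (Fin n → ℂ)} {t₀ : ℂ} {r : ℝ} {ℓ : ℂ → Fin n → ℂ}
    (hd : LogDisc W t₀ r ℓ) (j : Fin n)
    (h : ∀ t ∈ Metric.ball t₀ r, deriv (fun t => ℓ t j) t = 0) :
    ∀ t ∈ Metric.ball t₀ r, ℓ t j = ℓ t₀ j := by
  intro t ht
  have h1 := Metric.isOpen_ball.is_const_of_deriv_eq_zero (convex_ball t₀ r).isPreconnected
    (hd.diff j) h ht (Metric.mem_ball_self hd.pos)
  exact h1

theorem C9c_eval_diff {n : ℕ} {W : Set (Fin n → ℂ)} {t₀ : ℂ} {r : ℝ} {ℓ : ℂ → Fin n → ℂ}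
    (hd : LogDisc W t₀ r ℓ) (F : MvPolynomial (Fin n) ℂ) :
    DifferentiableOn ℂ (fun t => eval (fun j => Complex.exp (ℓ t j)) F) (Metric.ball t₀ r) := by
  induction F using MvPolynomial.induction_on with
  | C c => simp only [eval_C]; exact differentiableOn_const c
  | add p q hp hq => simp only [map_add]; exact hp.add hq
  | mul_X p j hp =>
    simp only [map_mul, eval_X]
    exact hp.mul (hd.diff j).cexp

theorem nc {n : ℕ} {I : Ideal (MvPolynomial (Fin n) ℂ)} {W : Set (Fin n → ℂ)}
    (hI : CurveData I W) (hW : HasCharts W) {t₀ : ℂ} {r : ℝ} {ℓ : ℂ → Fin n → ℂ}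
    (hd : LogDisc W t₀ r ℓ) (hnc : ¬ ∀ᶠ t in 𝓝 t₀, ℓ t = ℓ t₀) (ν : Fin n → ℝ)
    (hν : ν ≠ 0) :
    ¬ ∀ᶠ t in 𝓝 t₀, ∑ j, (ν j : ℂ) * ℓ t j = ∑ j, (ν j : ℂ) * ℓ t₀ j := by
  classical
  intro hloc
  have hprime := hI.prime
  obtain ⟨i₀, hi₀⟩ : ∃ i₀, ν i₀ ≠ 0 := by
    by_contra h
    push Not at h
    exact hν (funext h)
  choose U V hV hUV using fun j => log_relation hI i₀ j
  set VV : MvPolynomial (Fin n) ℂ := ∏ j, V j with hVV
  set Φ : MvPolynomial (Fin n) ℂ :=
    ∑ j, C (ν j : ℂ) * (U j * ∏ k ∈ Finset.univ.erase j, V k) with hΦ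
  have hVVI : VV ∉ I := by
    intro h
    rw [hVV, hprime.prod_mem_iff] at h
    obtain ⟨j, -, hj⟩ := h
    exact hV j hj
  have hA : ∀ (t₁ : ℂ) (r₁ : ℝ) (m : ℂ → Fin n → ℂ), LogDisc W t₁ r₁ m →
      ∀ t ∈ Metric.ball t₁ r₁, eval (fun j => Complex.exp (m t j)) VV *
        ∑ j, (ν j : ℂ) * deriv (fun t => m t j) t =
        eval (fun j => Complex.exp (m t j)) Φ * deriv (fun t => m t i₀) t := by
    intro t₁ r₁ m hm t ht
    rw [hΦ, map_sum, Finset.sum_mul, Finset.mul_sum]
    apply Finset.sum_congr rfl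
    intro j _
    have h1 := hUV j t₁ r₁ m hm t ht
    rw [hVV, ← Finset.mul_prod_erase Finset.univ V (Finset.mem_univ j), map_mul, map_mul,
      map_mul, eval_C]
    linear_combination (ν j : ℂ) *
      eval (fun j => Complex.exp (m t j)) (∏ k ∈ Finset.univ.erase j, V k) * h1
  -- a disc on which y takes finitely many values is impossible at t₀
  have hB : ∀ (r₁ : ℝ) (S : Set (Fin n → ℂ)), 0 < r₁ → r₁ ≤ r → S.Finite →
      (∀ t ∈ Metric.ball t₀ r₁, (fun j => Complex.exp (ℓ t j)) ∈ S) → False := by
    intro r₁ S h0 h1 hS hmem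
    have hd' := C9c_restrict hd h0 h1
    have h2 := C9c_deriv_zero hd' hS hmem
    apply hnc
    filter_upwards [Metric.ball_mem_nhds t₀ h0] with t ht
    funext j
    exact C9c_const hd' j (fun t ht => h2 t ht j) t ht
  by_cases hΦI : Φ ∈ I
  · -- charts
    have hc : (fun j => (ν j : ℂ)) = 0 := by
      apply charts_span hW
      intro ρ p L hch
      have hana : ∀ j, AnalyticAt ℂ (fun s => L s j) 0 := fun j =>
        (hch.diff j).analyticAt (Metric.ball_mem_nhds 0 hch.pos)
      set h : ℂ → ℂ := fun s => ∑ j, (ν j : ℂ) * ((p j : ℂ) + s * deriv (fun s => L s j) s) with hh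
      have hhana : AnalyticAt ℂ h 0 := by
        rw [hh]
        have := Finset.analyticAt_fun_sum (𝕜 := ℂ) (E := ℂ) (F := ℂ)
          (f := fun (j : Fin n) (s : ℂ) => (ν j : ℂ) * ((p j : ℂ) + s * deriv (fun s => L s j) s))
          (c := (0 : ℂ)) Finset.univ (fun j _ => analyticAt_const.mul
            (analyticAt_const.add (analyticAt_id.mul (hana j).deriv)))
        exact this
      rcases hhana.eventually_eq_zero_or_eventually_ne_zero with h0 | h0
      · have h1 := h0.self_of_nhds
        rw [hh] at h1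
        simpa using h1
      · exfalso
        rw [eventually_nhdsWithin_iff, Metric.eventually_nhds_iff_ball] at h0
        obtain ⟨ε, hε, h0⟩ := h0
        -- choose a centre
        set δ : ℝ := min ε ρ with hδ
        have hδ0 : 0 < δ := lt_min hε hch.pos
        set s₁ : ℂ := ((δ / 2 : ℝ) : ℂ) with hs₁
        have hs₁n : ‖s₁‖ = δ / 2 := by
          rw [hs₁, Complex.norm_real, Real.norm_of_nonneg (by positivity)]
        have hs₁0 : s₁ ≠ 0 := by
          intro h
          rw [h, norm_zero] at hs₁n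
          linarith
        set m : ℂ → Fin n → ℂ := fun s j => (p j : ℂ) * (Complex.log (s / s₁) + Complex.log s₁) +
          L s j with hm
        have hball : ∀ s ∈ Metric.ball s₁ (δ / 2), s ≠ 0 ∧ ‖s‖ < δ := by
          intro s hs
          rw [Metric.mem_ball, dist_eq_norm] at hs
          constructor
          · rintro rfl
            rw [zero_sub, norm_neg, hs₁n] at hs
            exact lt_irrefl _ hs
          · calc ‖s‖ = ‖(s - s₁) + s₁‖ := by ring_nf
              _ ≤ ‖s - s₁‖ + ‖s₁‖ := norm_add_le _ _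
              _ < δ / 2 + δ / 2 := by rw [hs₁n]; linarith
              _ = δ := by ring
        have hslit : ∀ s ∈ Metric.ball s₁ (δ / 2), s / s₁ ∈ Complex.slitPlane := by
          intro s hs
          rw [Metric.mem_ball, dist_eq_norm] at hs
          apply Complex.mem_slitPlane_of_norm_lt_one (z := s / s₁ - 1) _ |> (by simpa using ·)
          have : s / s₁ - 1 = (s - s₁) / s₁ := by
            field_simp
          rw [this, norm_div, hs₁n, div_lt_one (by positivity)]
          exact hs
        have hLder : ∀ s ∈ Metric.ball s₁ (δ / 2), ∀ j,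
            HasDerivAt (fun s => L s j) (deriv (fun s => L s j) s) s := by
          intro s hs j
          apply ((hch.diff j).differentiableAt (Metric.isOpen_ball.mem_nhds _)).hasDerivAt
          rw [mem_ball_zero_iff]
          exact lt_of_lt_of_le (hball s hs).2 (min_le_right _ _)
        have hmder : ∀ s ∈ Metric.ball s₁ (δ / 2), ∀ j,
            HasDerivAt (fun s => m s j) ((p j : ℂ) * s⁻¹ + deriv (fun s => L s j) s) s := by
          intro s hs j
          have h1 : HasDerivAt (fun s : ℂ => s / s₁) (1 / s₁) s := (hasDerivAt_id s).div_const s₁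
          have h2 := (h1.clog (hslit s hs)).add_const (Complex.log s₁)
          have h3 := (h2.const_mul (p j : ℂ)).add (hLder s hs j)
          refine h3.congr_deriv ?_
          have := (hball s hs).1
          field_simp
        have hmexp : ∀ s ∈ Metric.ball s₁ (δ / 2), (fun j => Complex.exp (m s j)) = pt p L s := by
          intro s hs
          funext j
          have hs0 := (hball s hs).1
          rw [hm]
          unfold pt
          simp only
          rw [Complex.exp_add, Complex.exp_int_mul, Complex.exp_add, Complex.exp_log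
            (div_ne_zero hs0 hs₁0), Complex.exp_log hs₁0, div_mul_cancel₀ _ hs₁0]
        have hmd : LogDisc W s₁ (δ / 2) m := by
          refine ⟨by positivity, ?_, ?_⟩
          · intro j s hs
            exact (hmder s hs j).differentiableAt.differentiableWithinAt
          · intro s hs
            rw [hmexp s hs]
            exact hch.mem s (hball s hs).1 (lt_of_lt_of_le (hball s hs).2 (min_le_right _ _))
        have hsum : ∀ s ∈ Metric.ball s₁ (δ / 2), s * ∑ j, (ν j : ℂ) * deriv (fun t => m t j) s =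
            h s := by
          intro s hs
          rw [hh, Finset.mul_sum]
          apply Finset.sum_congr rfl
          intro j _
          rw [(hmder s hs j).deriv]
          have := (hball s hs).1
          field_simp
        have hne : ∀ s ∈ Metric.ball s₁ (δ / 2), h s ≠ 0 := by
          intro s hs
          apply h0 s _ (hball s hs).1
          rw [mem_ball_zero_iff]
          exact lt_of_lt_of_le (hball s hs).2 (min_le_left _ _)
        have hzero : ∀ s ∈ Metric.ball s₁ (δ / 2), (fun j => Complex.exp (m s j)) ∈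
            {y ∈ W | eval y VV = 0} := by
          intro s hs
          refine ⟨hmd.mem s hs, ?_⟩
          have h1 := hA s₁ (δ / 2) m hmd s hs
          have h2 := hmd.mem s hs
          rw [hI.W_eq] at h2
          rw [h2.1 Φ hΦI, zero_mul] at h1
          rcases mul_eq_zero.mp h1 with h3 | h3
          · exact h3
          · exfalso
            apply hne s hs
            rw [← hsum s hs, h3, mul_zero]
        have hd0 := C9c_deriv_zero hmd (zero_finite hI VV hVVI) hzero
        have hs₁m : s₁ ∈ Metric.ball s₁ (δ / 2) := Metric.mem_ball_self (by positivity)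
        apply hne s₁ hs₁m
        rw [← hsum s₁ hs₁m]
        simp [hd0 s₁ hs₁m]
    apply hi₀
    have := congrFun hc i₀
    simpa using this
  · rw [Metric.eventually_nhds_iff_ball] at hloc
    obtain ⟨r₂, hr₂, hloc⟩ := hloc
    have hF : AnalyticAt ℂ (fun t => eval (fun j => Complex.exp (ℓ t j)) Φ) t₀ :=
      (C9c_eval_diff hd Φ).analyticAt (Metric.ball_mem_nhds t₀ hd.pos)
    have hrel : ∀ t ∈ Metric.ball t₀ (min r r₂),
        eval (fun j => Complex.exp (ℓ t j)) Φ * deriv (fun t => ℓ t i₀) t = 0 := by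
      intro t ht
      have ht1 : t ∈ Metric.ball t₀ r := Metric.ball_subset_ball (min_le_left _ _) ht
      have ht2 : t ∈ Metric.ball t₀ r₂ := Metric.ball_subset_ball (min_le_right _ _) ht
      rw [← hA t₀ r ℓ hd t ht1]
      have h1 : HasDerivAt (fun t => ∑ j, (ν j : ℂ) * ℓ t j)
          (∑ j, (ν j : ℂ) * deriv (fun t => ℓ t j) t) t := by
        apply HasDerivAt.fun_sum
        intro j _
        exact (((hd.diff j).differentiableAt
          (Metric.isOpen_ball.mem_nhds ht1)).hasDerivAt).const_mul _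
      have h2 : (fun t => ∑ j, (ν j : ℂ) * ℓ t j) =ᶠ[𝓝 t]
          fun _ => ∑ j, (ν j : ℂ) * ℓ t₀ j := by
        filter_upwards [Metric.isOpen_ball.mem_nhds ht2] with s hs
        exact hloc s hs
      have h3 := (h2.hasDerivAt_iff.mp h1).unique (hasDerivAt_const t _)
      rw [h3, mul_zero]
    rcases hF.eventually_eq_zero_or_eventually_ne_zero with h0 | h0
    · rw [Metric.eventually_nhds_iff_ball] at h0
      obtain ⟨r₃, hr₃, h0⟩ := h0
      apply hB (min r r₃) _ (lt_min hd.pos hr₃) (min_le_left _ _) (zero_finite hI Φ hΦI)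
      intro t ht
      exact ⟨hd.mem t (Metric.ball_subset_ball (min_le_left _ _) ht),
        h0 t (Metric.ball_subset_ball (min_le_right _ _) ht)⟩
    · have hder : AnalyticAt ℂ (deriv (fun t => ℓ t i₀)) t₀ :=
        ((hd.diff i₀).analyticAt (Metric.ball_mem_nhds t₀ hd.pos)).deriv
      have h1 : ∀ᶠ t in 𝓝[≠] t₀, deriv (fun t => ℓ t i₀) t = 0 := by
        have h2 : ∀ᶠ t in 𝓝[≠] t₀, t ∈ Metric.ball t₀ (min r r₂) :=
          nhdsWithin_le_nhds (Metric.ball_mem_nhds t₀ (lt_min hd.pos hr₂))
        filter_upwards [h0, h2] with t ht1 ht2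
        rcases mul_eq_zero.mp (hrel t ht2) with h3 | h3
        · exact absurd h3 ht1
        · exact h3
      have h2 := (hder.frequently_zero_iff_eventually_zero).mp h1.frequently
      rw [Metric.eventually_nhds_iff_ball] at h2
      obtain ⟨r₃, hr₃, h2⟩ := h2
      have hd' := C9c_restrict hd (lt_min hd.pos hr₃) (min_le_left r r₃)
      have h3 := C9c_const hd' i₀ (fun t ht =>
        h2 t (Metric.ball_subset_ball (min_le_right _ _) ht))
      have ha : (Pi.single i₀ 1 : Fin n → ℤ) ≠ 0 := by
        intro h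
        have := congrFun h i₀
        simp at this
      apply hB (min r r₃) _ (lt_min hd.pos hr₃) (min_le_left _ _)
        (fiber_finite hI (Pi.single i₀ 1) ha (Complex.exp (ℓ t₀ i₀)))
      intro t ht
      refine ⟨hd.mem t (Metric.ball_subset_ball (min_le_left _ _) ht), ?_⟩
      rw [Finset.prod_eq_single i₀]
      · simp only [Pi.single_eq_same, zpow_one]
        rw [h3 t ht]
      · intro k _ hk
        simp [hk]
      · intro h
        exact absurd (Finset.mem_univ _) h

end XW
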