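import Pool.Agent.Lib.MP_228259_lc.Defs

/-!
P14a: see /team-store/XW_blueprint.md
P14a hit_values. Z := {0} union {lam : the conclusion fails}. For lam' <> lam with |lam - lam'| < r(lam')^b(lam') (chart of HasCharts a lam') we get lam = lam' + s^b with s <> 0 in the disc, w0 = log s, LogDisc around w0 with l(w) = p w + L(e^w) (small radius), exp(a.l(w)) = lam' + e^(b w) not locally constant. So any two distinct failing lam are at distance >= rho(lam') : failing set is discrete in itself (each point lam' has a ball of radius rho(lam') with no other failing point) hence countable (second countable). lam = 0 cannot be avoided: put 0 into Z.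
-/

namespace XW

open Filter Topology MvPolynomial

private theorem P14a_exp {n : ℕ} (p : Fin n → ℤ) (L : ℂ → Fin n → ℂ) (t : ℂ) (j : Fin n) :
    Complex.exp ((p j : ℂ) * t + L (Complex.exp t) j) = pt p L (Complex.exp t) j := by
  rw [pt, Complex.exp_add, ← Complex.exp_int_mul]

/-- the analytic disc in `log W` given by a chart -/
private theorem P14a_disc {n : ℕ} {W : Set (Fin n → ℂ)} {r : ℝ} {p : Fin n → ℤ}
    {L : ℂ → Fin n → ℂ} (hc : SChart W r p L) {s : ℂ} (hs : s ≠ 0) (hsr : ‖s‖ < r) :
    ∃ r' : ℝ, LogDisc W (Complex.log s) r' (fun t j => (p j : ℂ) * t + L (Complex.exp t) j) ∧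
      ∀ t ∈ Metric.ball (Complex.log s) r', ‖Complex.exp t‖ < r := by
  have h1 : ∀ᶠ t in 𝓝 (Complex.log s), ‖Complex.exp t‖ < r := by
    have h2 : Tendsto (fun t => ‖Complex.exp t‖) (𝓝 (Complex.log s)) (𝓝 ‖s‖) := by
      have := (Complex.continuous_exp.norm).tendsto (Complex.log s)
      rwa [Complex.exp_log hs] at this
    exact h2.eventually (gt_mem_nhds hsr)
  obtain ⟨r', hr', hball⟩ := Metric.eventually_nhds_iff_ball.1 h1
  refine ⟨r', ⟨hr', ?_, ?_⟩, hball⟩
  · intro j
    apply DifferentiableOn.add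
    · exact (differentiable_const _).mul differentiable_id |>.differentiableOn
    · have h3 : DifferentiableOn ℂ ((fun u => L u j) ∘ Complex.exp)
          (Metric.ball (Complex.log s) r') := by
        apply (hc.diff j).comp Complex.differentiable_exp.differentiableOn
        intro t ht
        rw [mem_ball_zero_iff]
        exact hball t ht
      exact h3
  · intro t ht
    have h4 : (fun j => Complex.exp ((p j : ℂ) * t + L (Complex.exp t) j)) =
        pt p L (Complex.exp t) := by
      funext j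
      exact P14a_exp p L t j
    rw [h4]
    exact hc.mem _ (Complex.exp_ne_zero t) (hball t ht)

theorem hit_values {n : ℕ} {W : Set (Fin n → ℂ)} (hW : HasCharts W) (a : Fin n → ℤ)
    (ha : a ≠ 0) : ∃ Z : Set ℂ, Z.Countable ∧ ∀ lam : ℂ, lam ∉ Z →
      ∃ (t₀ : ℂ) (r : ℝ) (ℓ : ℂ → Fin n → ℂ), LogDisc W t₀ r ℓ ∧
        Complex.exp (∑ j, (a j : ℂ) * ℓ t₀ j) = lam ∧
        ¬ ∀ᶠ t in 𝓝 t₀, ∑ j, (a j : ℂ) * ℓ t j = ∑ j, (a j : ℂ) * ℓ t₀ j := by
  choose b r p L hb hch hval using hW a ha
  -- the balls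
  have hkey : ∀ lam' lam : ℂ, lam ≠ lam' → ‖lam - lam'‖ < (r lam') ^ (b lam') →
      ∃ (t₀ : ℂ) (r : ℝ) (ℓ : ℂ → Fin n → ℂ), LogDisc W t₀ r ℓ ∧
        Complex.exp (∑ j, (a j : ℂ) * ℓ t₀ j) = lam ∧
        ¬ ∀ᶠ t in 𝓝 t₀, ∑ j, (a j : ℂ) * ℓ t j = ∑ j, (a j : ℂ) * ℓ t₀ j := by
    intro lam' lam hne hlt
    obtain ⟨s, hs⟩ := IsAlgClosed.exists_pow_nat_eq (lam - lam') (hb lam')
    have hs0 : s ≠ 0 := by
      rintro rfl
      rw [zero_pow (hb lam').ne'] at hs
      exact hne (sub_eq_zero.1 hs.symm)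
    have hrpos := (hch lam').pos
    have hsr : ‖s‖ < r lam' := by
      rw [← hs, norm_pow] at hlt
      exact lt_of_pow_lt_pow_left₀ _ hrpos.le hlt
    obtain ⟨r', hdisc, hball⟩ := P14a_disc (hch lam') hs0 hsr
    have hexp : ∀ t ∈ Metric.ball (Complex.log s) r',
        Complex.exp (∑ j, (a j : ℂ) * ((p lam' j : ℂ) * t + L lam' (Complex.exp t) j)) =
          lam' + (Complex.exp t) ^ (b lam') := by
      intro t ht
      rw [← hval lam' _ (Complex.exp_ne_zero t) (hball t ht), Complex.exp_sum]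
      refine Finset.prod_congr rfl fun j _ => ?_
      rw [Complex.exp_int_mul, P14a_exp]
    refine ⟨Complex.log s, r', _, hdisc, ?_, ?_⟩
    · rw [hexp _ (Metric.mem_ball_self hdisc.pos), Complex.exp_log hs0, hs]
      ring
    · intro hcon
      have h1 : ∀ᶠ t in 𝓝 (Complex.log s), Complex.exp ((b lam' : ℂ) * t) =
          Complex.exp ((b lam' : ℂ) * Complex.log s) := by
        filter_upwards [hcon, Metric.ball_mem_nhds _ hdisc.pos] with t ht ht'
        have h2 := hexp t ht'
        have h3 := hexp _ (Metric.mem_ball_self hdisc.pos)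
        rw [ht, h3] at h2
        rw [Complex.exp_nat_mul, Complex.exp_nat_mul]
        exact (add_left_cancel h2).symm
      have h4 : HasDerivAt (fun t : ℂ => Complex.exp ((b lam' : ℂ) * t))
          (Complex.exp ((b lam' : ℂ) * Complex.log s) * (b lam' : ℂ)) (Complex.log s) := by
        have h5 : HasDerivAt (fun t : ℂ => (b lam' : ℂ) * t) (b lam' : ℂ) (Complex.log s) := by
          simpa using (hasDerivAt_id (Complex.log s)).const_mul (b lam' : ℂ)
        exact h5.cexp
      have h6 : HasDerivAt (fun t : ℂ => Complex.exp ((b lam' : ℂ) * t)) 0 (Complex.log s) := by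
        have h7 : HasDerivAt (fun _ : ℂ => Complex.exp ((b lam' : ℂ) * Complex.log s)) 0
          (Complex.log s) := hasDerivAt_const _ _
        exact h7.congr_of_eventuallyEq h1
      have h8 := h4.unique h6
      rcases mul_eq_zero.1 h8 with h | h
      · exact Complex.exp_ne_zero _ h
      · exact (hb lam').ne' (by exact_mod_cast h)
  obtain ⟨S, hS, hcov⟩ := TopologicalSpace.countable_cover_nhds
    (f := fun lam' : ℂ => Metric.ball lam' ((r lam') ^ (b lam')))
    (fun lam' => Metric.ball_mem_nhds _ (pow_pos (hch lam').pos _))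
  refine ⟨S, hS, fun lam hlam => ?_⟩
  have h1 : lam ∈ ⋃ x ∈ S, Metric.ball x ((r x) ^ (b x)) := by
    rw [hcov]
    trivial
  simp only [Set.mem_iUnion] at h1
  obtain ⟨lam', hlam', hmem⟩ := h1
  rw [Metric.mem_ball, dist_eq_norm] at hmem
  exact hkey lam' lam (fun h => hlam (h ▸ hlam')) hmem

end XW
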