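import Pool.Agent.Lib.MP_228259_lc.Defs

/-!
P5c: simultaneous approximation by pigeonhole on the fractional parts.
-/

namespace XW

open Filter Topology MvPolynomial

theorem dirichlet {n : ℕ} (x : Fin n → ℝ) (ε : ℝ) (hε : 0 < ε) (N₀ : ℕ) :
    ∃ N : ℕ, N₀ ≤ N ∧ 0 < N ∧ ∃ a : Fin n → ℤ, ∀ j, |(N : ℝ) * x j - a j| < ε := by
  classical
  obtain ⟨M, hM⟩ := exists_nat_one_div_lt hε
  have hM0 : (0 : ℝ) < (M : ℝ) + 1 := by positivity
  have hb : ∀ y : ℝ, ⌊((M : ℝ) + 1) * Int.fract y⌋₊ < M + 1 := by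
    intro y
    have h1 : (0 : ℝ) ≤ ((M : ℝ) + 1) * Int.fract y := mul_nonneg hM0.le (Int.fract_nonneg y)
    rw [Nat.floor_lt h1]
    push_cast
    have := Int.fract_lt_one y
    nlinarith
  let F : ℕ → (Fin n → Fin (M + 1)) := fun i j =>
    ⟨⌊((M : ℝ) + 1) * Int.fract (((i * (N₀ + 1) : ℕ) : ℝ) * x j)⌋₊, hb _⟩
  have key : ∀ i i' : ℕ, i < i' → F i = F i' → ∃ N : ℕ, N₀ ≤ N ∧ 0 < N ∧
      ∃ a : Fin n → ℤ, ∀ j, |(N : ℝ) * x j - a j| < ε := by
    intro i i' hii hF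
    refine ⟨(i' - i) * (N₀ + 1), ?_, ?_,
      fun j => ⌊((i' * (N₀ + 1) : ℕ) : ℝ) * x j⌋ - ⌊((i * (N₀ + 1) : ℕ) : ℝ) * x j⌋, ?_⟩
    · have h1 : 1 ≤ i' - i := by omega
      nlinarith
    · have h1 : 0 < i' - i := by omega
      positivity
    · intro j
      have h1 : ⌊((M : ℝ) + 1) * Int.fract (((i * (N₀ + 1) : ℕ) : ℝ) * x j)⌋₊ =
          ⌊((M : ℝ) + 1) * Int.fract (((i' * (N₀ + 1) : ℕ) : ℝ) * x j)⌋₊ :=
        congrArg Fin.val (congrFun hF j)
      set A : ℝ := ((i * (N₀ + 1) : ℕ) : ℝ) * x j with hA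
      set B : ℝ := ((i' * (N₀ + 1) : ℕ) : ℝ) * x j with hB
      have hsub : (((i' - i) * (N₀ + 1) : ℕ) : ℝ) * x j = B - A := by
        rw [hA, hB]
        push_cast [Nat.cast_sub hii.le]
        ring
      have hfa := Int.floor_add_fract A
      have hfb := Int.floor_add_fract B
      have h2 : (((i' - i) * (N₀ + 1) : ℕ) : ℝ) * x j - ((⌊B⌋ - ⌊A⌋ : ℤ) : ℝ) =
          Int.fract B - Int.fract A := by
        rw [hsub]
        push_cast
        linarith
      rw [h2]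
      have ha0 : (0 : ℝ) ≤ ((M : ℝ) + 1) * Int.fract A := mul_nonneg hM0.le (Int.fract_nonneg A)
      have hb0 : (0 : ℝ) ≤ ((M : ℝ) + 1) * Int.fract B := mul_nonneg hM0.le (Int.fract_nonneg B)
      have h3 := Nat.floor_le ha0
      have h4 := Nat.lt_floor_add_one (((M : ℝ) + 1) * Int.fract A)
      have h5 := Nat.floor_le hb0
      have h6 := Nat.lt_floor_add_one (((M : ℝ) + 1) * Int.fract B)
      rw [h1] at h3 h4
      have h7 : |((M : ℝ) + 1) * (Int.fract B - Int.fract A)| < 1 := by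
        rw [abs_lt]
        constructor <;> nlinarith
      rw [abs_mul, abs_of_pos hM0] at h7
      have h8 : |Int.fract B - Int.fract A| < 1 / ((M : ℝ) + 1) := by
        rw [lt_div_iff₀ hM0]
        linarith
      exact h8.trans hM
  obtain ⟨i, i', hne, hF⟩ := Finite.exists_ne_map_eq_of_infinite F
  rcases lt_or_gt_of_ne hne with h | h
  · exact key i i' h hF
  · exact key i' i h hF.symm

end XW
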