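import Pool.Agent.Lib.MP_228259_lc.C8c
import Pool.Agent.Lib.MP_228259_lc.C9c
import Pool.Agent.Lib.MP_228259_lc.P5c
import Pool.Agent.Lib.MP_228259_lc.P14a
import Pool.Agent.Lib.MP_228259_lc.C5a

/-!
C10: see /team-store/XW_blueprint.md
C10 hits_real. By contradiction (nu, rho): for every nonconstant LogDisc Re(nu.l(t0)) <> rho (nc). u(y) = sum nu_j log|y_j| - rho. cover with a = e_0. (A) u <> 0 on W minus E. (B) chart i with nu.p_i = 0: Re(nu.L_i(0)) <> rho: otherwise g = nu.L_i nonconstant (nc), open mapping: s <> 0 small with Re g(s) = rho, disc around log s, contradiction. (C) rho' small: for |s| < rho', charts with nu.p_i <> 0: |nu.p_i| |log|s||/2 >= C + |rho| + 1; charts with nu.p_i = 0: |Re g_i(s) - rho| >= delta. (D) K compact: |u| >= delta on K. (E) dirichlet nu, eps' small: q, a integer with |q nu_j - a_j| < eps'; then a.p_i = 0 whenever nu.p_i = 0 (integer of absolute value < 1), a <> 0. (F) hit_values a: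 y in W minus E with |y^a| = e^(q rho) (circle uncountable; E finite), so sum a_j log|y_j| = q rho. y in K: |u(y)| = |sum (nu_j - a_j/q) log|y_j|| < delta contradiction; y on a chart: contradiction similarly.
-/

namespace XW

open Filter Topology MvPolynomial

private theorem C10_logpt {n : ℕ} (p : Fin n → ℤ) (L : ℂ → Fin n → ℂ) {s : ℂ} (hs : s ≠ 0)
    (j : Fin n) : Real.log ‖pt p L s j‖ = p j * Real.log ‖s‖ + (L s j).re := by
  rw [pt, norm_mul, norm_zpow, Complex.norm_exp,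
    Real.log_mul (zpow_ne_zero _ (norm_ne_zero_iff.mpr hs)) (Real.exp_ne_zero _), Real.log_zpow,
    Real.log_exp]

private theorem C10_exp {n : ℕ} (p : Fin n → ℤ) (L : ℂ → Fin n → ℂ) (w : ℂ) (j : Fin n) :
    Complex.exp (p j * w + L (Complex.exp w) j) = pt p L (Complex.exp w) j := by
  rw [Complex.exp_add, Complex.exp_int_mul]
  rfl

private theorem C10_disc {n : ℕ} {W : Set (Fin n → ℂ)} {r : ℝ} {p : Fin n → ℤ}
    {L : ℂ → Fin n → ℂ} (hc : SChart W r p L) {s₀ : ℂ} (h0 : s₀ ≠ 0) (hr : ‖s₀‖ < r) :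
    ∃ r', LogDisc W (Complex.log s₀) r' (fun w j => p j * w + L (Complex.exp w) j) := by
  have h1 : ∀ᶠ w in 𝓝 (Complex.log s₀), Complex.exp w ∈ Metric.ball (0 : ℂ) r := by
    have h2 : Metric.ball (0 : ℂ) r ∈ 𝓝 (Complex.exp (Complex.log s₀)) := by
      rw [Complex.exp_log h0]
      exact Metric.isOpen_ball.mem_nhds (by rwa [mem_ball_zero_iff])
    exact Complex.continuous_exp.continuousAt h2
  rw [Metric.eventually_nhds_iff] at h1
  obtain ⟨r', hr', h1⟩ := h1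
  refine ⟨r', hr', fun j => ?_, ?_⟩
  · refine DifferentiableOn.add ?_ ?_
    · exact (differentiable_id.const_mul (p j : ℂ)).differentiableOn
    · refine (hc.diff j).comp Complex.differentiable_exp.differentiableOn ?_
      intro w hw
      exact h1 hw
  · intro w hw
    have h2 : (fun j => Complex.exp (p j * w + L (Complex.exp w) j)) =
        pt p L (Complex.exp w) := funext fun j => C10_exp p L w j
    rw [h2]
    exact hc.mem _ (Complex.exp_ne_zero _) (mem_ball_zero_iff.mp (h1 hw))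

private theorem C10_nonconst {n : ℕ} {p : Fin n → ℤ}
    {L : ℂ → Fin n → ℂ} {s₀ : ℂ} (h0 : s₀ ≠ 0)
    (hnc : ¬ ∀ᶠ s in 𝓝 s₀, pt p L s = pt p L s₀) :
    ¬ ∀ᶠ w in 𝓝 (Complex.log s₀), (fun j => p j * w + L (Complex.exp w) j) =
      (fun j => p j * Complex.log s₀ + L (Complex.exp (Complex.log s₀)) j) := by
  intro h
  apply hnc
  have h1 : map Complex.exp (𝓝 (Complex.log s₀)) = 𝓝 s₀ := by
    have := (Complex.hasStrictDerivAt_exp (Complex.log s₀)).map_nhds_eq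
      (Complex.exp_ne_zero _)
    rw [Complex.exp_log h0] at this
    exact this
  rw [← h1, eventually_map]
  filter_upwards [h] with w hw
  funext j
  rw [← C10_exp, congrFun hw j, C10_exp, Complex.exp_log h0]

/-- continuity of the logarithmic linear form -/
private theorem C10_cont {n : ℕ} (y : Fin n → ℂ) (hy : ∀ j, y j ≠ 0) (ν : Fin n → ℝ) :
    ContinuousAt (fun z : (Fin n → ℝ) × (Fin n → ℂ) => ∑ j, z.1 j * Real.log ‖z.2 j‖) (ν, y) := by
  refine tendsto_finsetSum _ fun j _ => ?_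
  refine Tendsto.mul ?_ ?_
  · exact ((continuous_apply j).comp continuous_fst).continuousAt
  · have h1 : ContinuousAt (fun z : (Fin n → ℝ) × (Fin n → ℂ) => ‖z.2 j‖) (ν, y) :=
      (((continuous_apply j).comp continuous_snd).norm).continuousAt
    exact h1.log (norm_ne_zero_iff.mpr (hy j))

private theorem C10_chart0 {n : ℕ} (L : ℂ → Fin n → ℂ) (hL : ∀ j, ContinuousAt (fun s => L s j) 0)
    (ν : Fin n → ℝ) (ρ : ℝ) (h : ∑ j, ν j * (L 0 j).re ≠ ρ) :
    ∀ᶠ z : (Fin n → ℝ) × ℂ in 𝓝 ν ×ˢ 𝓝 0, ∑ j, z.1 j * (L z.2 j).re ≠ ρ := by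
  have h1 : Tendsto (fun z : (Fin n → ℝ) × ℂ => ∑ j, z.1 j * (L z.2 j).re) (𝓝 ν ×ˢ 𝓝 0)
      (𝓝 (∑ j, ν j * (L 0 j).re)) := by
    refine tendsto_finsetSum _ fun j _ => ?_
    refine Tendsto.mul ?_ ?_
    · exact ((continuous_apply j).tendsto ν).comp tendsto_fst
    · exact ((Complex.continuous_re.tendsto _).comp (hL j).tendsto).comp tendsto_snd
  exact h1.eventually_ne h

private theorem C10_chart1 {n : ℕ} (p : Fin n → ℤ) (L : ℂ → Fin n → ℂ)
    (hL : ∀ j, ContinuousAt (fun s => L s j) 0)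
    (ν : Fin n → ℝ) (ρ : ℝ) (h : ∑ j, ν j * p j ≠ 0) :
    ∀ᶠ z : (Fin n → ℝ) × ℂ in 𝓝 ν ×ˢ 𝓝[≠] 0,
      ∑ j, z.1 j * (p j * Real.log ‖z.2‖ + (L z.2 j).re) ≠ ρ := by
  have h1 : Tendsto (fun z : (Fin n → ℝ) × ℂ => ∑ j, z.1 j * (L z.2 j).re) (𝓝 ν ×ˢ 𝓝[≠] 0)
      (𝓝 (∑ j, ν j * (L 0 j).re)) := by
    refine tendsto_finsetSum _ fun j _ => ?_
    refine Tendsto.mul ?_ ?_
    · exact ((continuous_apply j).tendsto ν).comp tendsto_fst
    · exact (((Complex.continuous_re.tendsto _).comp (hL j).tendsto).mono_left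
        nhdsWithin_le_nhds).comp tendsto_snd
  have h2 : Tendsto (fun z : (Fin n → ℝ) × ℂ => ∑ j, z.1 j * p j) (𝓝 ν ×ˢ 𝓝[≠] 0)
      (𝓝 (∑ j, ν j * p j)) := by
    refine tendsto_finsetSum _ fun j _ => ?_
    refine Tendsto.mul ?_ tendsto_const_nhds
    exact ((continuous_apply j).tendsto ν).comp tendsto_fst
  have h3 : Tendsto (fun z : (Fin n → ℝ) × ℂ => Real.log ‖z.2‖) (𝓝 ν ×ˢ 𝓝[≠] 0) atBot := by
    have h4 : Tendsto (fun s : ℂ => ‖s‖) (𝓝[≠] 0) (𝓝[>] 0) := tendsto_norm_nhdsNE_zero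
    exact (Real.tendsto_log_nhdsGT_zero.comp h4).comp tendsto_snd
  have h5 : ∀ z : (Fin n → ℝ) × ℂ, ∑ j, z.1 j * (p j * Real.log ‖z.2‖ + (L z.2 j).re) =
      ∑ j, z.1 j * (L z.2 j).re + (∑ j, z.1 j * p j) * Real.log ‖z.2‖ := by
    intro z
    rw [Finset.sum_mul, ← Finset.sum_add_distrib]
    exact Finset.sum_congr rfl fun j _ => by ring
  simp only [h5]
  rcases lt_or_gt_of_ne h with h6 | h6
  · have h7 := h1.add_atTop (h2.neg_mul_atBot h6 h3)
    exact h7.eventually_ne_atTop ρ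
  · have h7 := h1.add_atBot (h2.pos_mul_atBot h6 h3)
    exact h7.eventually_ne_atBot ρ


/-- no point of the chart is on the wall -/
private theorem C10_chart_ne {n : ℕ} {I : Ideal (MvPolynomial (Fin n) ℂ)}
    {W : Set (Fin n → ℂ)} (hI : CurveData I W) (hW : HasCharts W) {ν : Fin n → ℝ} (hν : ν ≠ 0)
    {ρ : ℝ}
    (hcon : ∀ (t₀ : ℂ) (r : ℝ) (ℓ : ℂ → Fin n → ℂ), LogDisc W t₀ r ℓ →
      (¬ ∀ᶠ t in 𝓝 t₀, ℓ t = ℓ t₀) → (∑ j, (ν j : ℂ) * ℓ t₀ j).re ≠ ρ)
    {r : ℝ} {p : Fin n → ℤ} {L : ℂ → Fin n → ℂ} (hc : SChart W r p L)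
    (hnc : ∀ s₀ : ℂ, s₀ ≠ 0 → ‖s₀‖ < r → ¬ ∀ᶠ s in 𝓝 s₀, pt p L s = pt p L s₀)
    (h0 : ∑ j, ν j * p j = 0) : ∑ j, ν j * (L 0 j).re ≠ ρ := by
  intro hρ
  have hsum : ∀ w : ℂ, ∑ j, (ν j : ℂ) * (p j * w + L (Complex.exp w) j) =
      ∑ j, (ν j : ℂ) * L (Complex.exp w) j := by
    intro w
    have h1 : ∑ j, (ν j : ℂ) * (p j * w + L (Complex.exp w) j) =
        (∑ j, (ν j : ℂ) * p j) * w + ∑ j, (ν j : ℂ) * L (Complex.exp w) j := by
      rw [Finset.sum_mul, ← Finset.sum_add_distrib]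
      exact Finset.sum_congr rfl fun j _ => by ring
    have h2 : (∑ j, (ν j : ℂ) * p j) = 0 := by
      have := congrArg (fun x : ℝ => (x : ℂ)) h0
      push_cast at this
      exact this
    rw [h1, h2, zero_mul, zero_add]
  have hgd : DifferentiableOn ℂ (fun s => ∑ j, (ν j : ℂ) * L s j) (Metric.ball 0 r) :=
    DifferentiableOn.fun_sum fun j _ => (hc.diff j).const_mul _
  have hga : AnalyticAt ℂ (fun s => ∑ j, (ν j : ℂ) * L s j) 0 :=
    hgd.analyticAt (Metric.ball_mem_nhds 0 hc.pos)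
  have hgre : ∀ s, (∑ j, (ν j : ℂ) * L s j).re = ∑ j, ν j * (L s j).re := by
    intro s
    rw [Complex.re_sum]
    exact Finset.sum_congr rfl fun j _ => by rw [Complex.re_ofReal_mul]
  rcases hga.eventually_constant_or_nhds_le_map_nhds with h1 | h1
  · -- locally constant at zero
    obtain ⟨δ, hδ, h2⟩ := Metric.eventually_nhds_iff.mp h1
    have hm : 0 < min δ r / 2 := by
      have := lt_min hδ hc.pos
      linarith
    set s₀ : ℂ := ((min δ r / 2 : ℝ) : ℂ) with hs₀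
    have hs0 : s₀ ≠ 0 := by
      rw [hs₀]
      exact_mod_cast hm.ne'
    have hns : ‖s₀‖ = min δ r / 2 := by
      rw [hs₀, Complex.norm_real, Real.norm_of_nonneg hm.le]
    have hsr : ‖s₀‖ < r := by
      rw [hns]
      have := min_le_right δ r
      linarith
    have hsδ : ‖s₀‖ < δ := by
      rw [hns]
      have := min_le_left δ r
      linarith
    obtain ⟨r', hd⟩ := C10_disc hc hs0 hsr
    refine nc hI hW hd (C10_nonconst hs0 (hnc s₀ hs0 hsr)) ν hν ?_
    simp only [hsum]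
    have h3 : ∀ᶠ w in 𝓝 (Complex.log s₀), Complex.exp w ∈ Metric.ball (0 : ℂ) δ := by
      have h2 : Metric.ball (0 : ℂ) δ ∈ 𝓝 (Complex.exp (Complex.log s₀)) := by
        rw [Complex.exp_log hs0]
        exact Metric.isOpen_ball.mem_nhds (by rwa [mem_ball_zero_iff])
      exact Complex.continuous_exp.continuousAt h2
    filter_upwards [h3] with w hw
    rw [h2 hw, Complex.exp_log hs0]
    exact (h2 (by rw [dist_zero_right]; exact hsδ)).symm
  · -- open mapping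
    have h2 : Metric.ball (0 : ℂ) r ∈ 𝓝 (0 : ℂ) := Metric.ball_mem_nhds 0 hc.pos
    have h3 := h1 (Filter.image_mem_map h2)
    obtain ⟨ε, hε, h4⟩ := Metric.mem_nhds_iff.mp h3
    have h5 : (∑ j, (ν j : ℂ) * L 0 j) + ((ε / 2 : ℝ) : ℂ) * Complex.I ∈
        Metric.ball (∑ j, (ν j : ℂ) * L 0 j) ε := by
      rw [mem_ball_iff_norm, add_sub_cancel_left, norm_mul, Complex.norm_I, mul_one,
        Complex.norm_real, Real.norm_of_nonneg (by linarith)]
      linarith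
    obtain ⟨s, hs, hgs⟩ := h4 h5
    have hs0 : s ≠ 0 := by
      rintro rfl
      have h6 : ((ε / 2 : ℝ) : ℂ) * Complex.I = 0 := by
        have := hgs
        simp only at this
        exact (left_eq_add.mp this)
      rcases mul_eq_zero.mp h6 with h7 | h7
      · have : ε / 2 = 0 := by exact_mod_cast h7
        linarith
      · exact Complex.I_ne_zero h7
    have hsr : ‖s‖ < r := mem_ball_zero_iff.mp hs
    obtain ⟨r', hd⟩ := C10_disc hc hs0 hsr
    refine hcon _ _ _ hd (C10_nonconst hs0 (hnc s hs0 hsr)) ?_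
    rw [hsum, Complex.exp_log hs0]
    simp only at hgs
    rw [hgs, Complex.add_re, hgre, hρ]
    simp

theorem hits_real {n : ℕ} {I : Ideal (MvPolynomial (Fin n) ℂ)} {W : Set (Fin n → ℂ)}
    (hI : CurveData I W) (hW : HasCharts W) : HitsReal W := by
  intro ν hν ρ
  by_contra hcon'
  have hcon : ∀ (t₀ : ℂ) (r : ℝ) (ℓ : ℂ → Fin n → ℂ), LogDisc W t₀ r ℓ →
      (¬ ∀ᶠ t in 𝓝 t₀, ℓ t = ℓ t₀) → (∑ j, (ν j : ℂ) * ℓ t₀ j).re ≠ ρ := by
    intro t₀ r ℓ hd hne hre
    exact hcon' ⟨t₀, r, ℓ, hd, hre, nc hI hW hd hne ν hν⟩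
  obtain ⟨j₀, hj₀⟩ : ∃ j, ν j ≠ 0 := by
    by_contra h
    push Not at h
    exact hν (funext h)
  obtain ⟨E, ι, _, r, p, L, hE, hch, hcnc, hK, hpt⟩ := cover hI (Pi.single j₀ 1)
    (by
      intro h
      have := congrFun h j₀
      rw [Pi.single_eq_same, Pi.zero_apply] at this
      exact one_ne_zero this)
  have hlogre : ∀ (ℓ : ℂ → Fin n → ℂ) (t : ℂ) (lam : Fin n → ℝ),
      ∑ j, lam j * Real.log ‖Complex.exp (ℓ t j)‖ = (∑ j, (lam j : ℂ) * ℓ t j).re := by
    intro ℓ t lam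
    rw [Complex.re_sum]
    refine Finset.sum_congr rfl fun j _ => ?_
    rw [Complex.norm_exp, Real.log_exp, Complex.re_ofReal_mul]
  have hLc : ∀ i j, ContinuousAt (fun s => L i s j) 0 := by
    intro i j
    exact (((hch i).diff j).differentiableAt
      (Metric.ball_mem_nhds 0 (hch i).pos)).continuousAt
  -- charts
  have hchart : ∀ i, ∃ ρ' : ℝ, 0 < ρ' ∧ ∀ᶠ (lam : Fin n → ℝ) in 𝓝 ν,
      (∑ j, ν j * p i j = 0 → ∑ j, lam j * p i j = 0) →
      ∀ s : ℂ, s ≠ 0 → ‖s‖ < ρ' → ∑ j, lam j * Real.log ‖pt (p i) (L i) s j‖ ≠ ρ := by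
    intro i
    by_cases h0 : ∑ j, ν j * p i j = 0
    · have h1 := C10_chart_ne hI hW hν hcon (hch i) (hcnc i) h0
      have h2 := C10_chart0 (L i) (hLc i) ν ρ h1
      obtain ⟨P1, hP1, P2, hP2, h3⟩ := Filter.eventually_prod_iff.mp h2
      obtain ⟨δ, hδ, h4⟩ := Metric.eventually_nhds_iff.mp hP2
      refine ⟨δ, hδ, ?_⟩
      filter_upwards [hP1] with lam hlam hl0 s hs hsδ
      have h5 := h3 hlam (h4 (by rwa [dist_zero_right]) : P2 s)
      simp only at h5
      have h6 : ∑ j, lam j * Real.log ‖pt (p i) (L i) s j‖ =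
          (∑ j, lam j * p i j) * Real.log ‖s‖ + ∑ j, lam j * (L i s j).re := by
        rw [Finset.sum_mul, ← Finset.sum_add_distrib]
        exact Finset.sum_congr rfl fun j _ => by rw [C10_logpt _ _ hs]; ring
      rw [h6, hl0 h0, zero_mul, zero_add]
      exact h5
    · have h2 := C10_chart1 (p i) (L i) (hLc i) ν ρ h0
      obtain ⟨P1, hP1, P2, hP2, h3⟩ := Filter.eventually_prod_iff.mp h2
      rw [eventually_nhdsWithin_iff] at hP2
      obtain ⟨δ, hδ, h4⟩ := Metric.eventually_nhds_iff.mp hP2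
      refine ⟨δ, hδ, ?_⟩
      filter_upwards [hP1] with lam hlam _ s hs hsδ
      have h5 := h3 hlam (h4 (by rwa [dist_zero_right]) hs : P2 s)
      simp only at h5
      have h6 : ∑ j, lam j * Real.log ‖pt (p i) (L i) s j‖ =
          ∑ j, lam j * (p i j * Real.log ‖s‖ + (L i s j).re) :=
        Finset.sum_congr rfl fun j _ => by rw [C10_logpt _ _ hs]
      rw [h6]
      exact h5
  choose ρs hρs hchart' using hchart
  obtain ⟨ρ', hρ', hρle⟩ : ∃ ρ' : ℝ, 0 < ρ' ∧ ∀ i, ρ' ≤ ρs i := by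
    obtain ⟨_⟩ := nonempty_fintype ι
    by_cases hne : Nonempty ι
    · obtain ⟨i₀, hi₀⟩ := Finite.exists_min ρs
      exact ⟨ρs i₀, hρs i₀, hi₀⟩
    · exact ⟨1, one_pos, fun i => absurd ⟨i⟩ hne⟩
  obtain ⟨K, hKc, hKW, hKcov⟩ := hK ρ' hρ'
  -- the compact part
  have hcomp : ∀ᶠ (lam : Fin n → ℝ) in 𝓝 ν, ∀ y ∈ K, ∑ j, lam j * Real.log ‖y j‖ ≠ ρ := by
    refine hKc.eventually_forall_of_forall_eventually
      (P := fun (lam : Fin n → ℝ) (y : Fin n → ℂ) => ∑ j, lam j * Real.log ‖y j‖ ≠ ρ) ?_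
    intro y hy
    have hyW := hKW hy
    have hy0 : ∀ j, y j ≠ 0 := by
      have := hyW.1
      rw [hI.W_eq] at this
      exact this.2
    refine (C10_cont y hy0 ν).eventually_ne ?_
    obtain ⟨r', ℓ, hd, hy', hne⟩ := hpt y hyW
    have h1 := hcon _ _ _ hd hne
    rw [← hlogre] at h1
    have h2 : ∀ j, Complex.exp (ℓ 0 j) = y j := fun j => congrFun hy' j
    simp only [h2] at h1
    exact h1
  have hall : ∀ᶠ (lam : Fin n → ℝ) in 𝓝 ν, (∀ i, ∑ j, ν j * p i j = 0 → ∑ j, lam j * p i j = 0) →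
      ∀ y ∈ W \ E, ∑ j, lam j * Real.log ‖y j‖ ≠ ρ := by
    filter_upwards [hcomp, Filter.eventually_all.mpr hchart'] with lam h1 h2 h3 y hy
    rcases hKcov y hy with h4 | ⟨i, s, hs0, _, hs, rfl⟩
    · exact h1 y h4
    · exact h2 i (h3 i) s hs0 (lt_of_lt_of_le hs (hρle i))
  -- rational approximation
  obtain ⟨δ, hδ, hall'⟩ := Metric.eventually_nhds_iff.mp hall
  obtain ⟨C, hC⟩ : ∃ C : ℝ, ∀ i, ∑ j, |(p i j : ℝ)| ≤ C := by
    obtain ⟨_⟩ := nonempty_fintype ι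
    exact ⟨∑ i, ∑ j, |(p i j : ℝ)|, fun i =>
      Finset.single_le_sum (f := fun i => ∑ j, |(p i j : ℝ)|)
        (fun i _ => Finset.sum_nonneg fun j _ => abs_nonneg _) (Finset.mem_univ i)⟩
  obtain ⟨ε, hε, hεδ, hε1, hεC⟩ : ∃ ε : ℝ, 0 < ε ∧ ε < δ ∧ ε < 1 ∧ ε * C < 1 := by
    have h1 : Tendsto (fun ε : ℝ => ε * C) (𝓝[>] 0) (𝓝 (0 * C)) :=
      (tendsto_id.mul_const C).mono_left nhdsWithin_le_nhds
    rw [zero_mul] at h1
    have h2 : ∀ᶠ ε : ℝ in 𝓝[>] 0, ε * C < 1 := h1.eventually_lt_const one_pos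
    have h3 : ∀ᶠ ε : ℝ in 𝓝[>] 0, ε ∈ Set.Ioo 0 (min δ 1) :=
      Ioo_mem_nhdsGT (lt_min hδ one_pos)
    obtain ⟨ε, h4, h5⟩ := (h2.and h3).exists
    exact ⟨ε, h5.1, lt_of_lt_of_le h5.2 (min_le_left _ _),
      lt_of_lt_of_le h5.2 (min_le_right _ _), h4⟩
  obtain ⟨N₀, hN₀⟩ := exists_nat_gt (1 / |ν j₀|)
  obtain ⟨q, hqN, hq, a, ha⟩ := dirichlet ν ε hε N₀
  have hqr : (0 : ℝ) < q := by exact_mod_cast hq
  have hq1 : (1 : ℝ) ≤ q := by exact_mod_cast hq
  have ha0 : a ≠ 0 := by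
    rintro rfl
    have h1 := ha j₀
    rw [Pi.zero_apply, Int.cast_zero, sub_zero, abs_mul, abs_of_pos hqr] at h1
    have h2 : 1 < (N₀ : ℝ) * |ν j₀| := by
      rw [div_lt_iff₀ (abs_pos.mpr hj₀)] at hN₀
      exact hN₀
    have h3 : (N₀ : ℝ) * |ν j₀| ≤ q * |ν j₀| :=
      mul_le_mul_of_nonneg_right (by exact_mod_cast hqN) (abs_nonneg _)
    linarith
  obtain ⟨Z, hZ, hhit⟩ := hit_values hW a ha0
  -- a value on the circle which is not excluded
  obtain ⟨x, hxre, hxZ, hxE⟩ : ∃ x : ℂ, x.re = q * ρ ∧ Complex.exp x ∉ Z ∧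
      ∀ y ∈ E, ∏ j, (y j) ^ (a j) ≠ Complex.exp x := by
    by_contra hno
    push Not at hno
    set T : Set ℂ := Z ∪ (fun y : Fin n → ℂ => ∏ j, (y j) ^ (a j)) '' E with hT
    have hTc : T.Countable := hZ.union (hE.image _).countable
    set f : ℝ → ℂ := fun θ => Complex.exp (((q * ρ : ℝ) : ℂ) + θ * Complex.I) with hf
    have hinj : Set.InjOn f (Set.Ioo 0 1) := by
      intro θ hθ θ' hθ' h
      have hpi := Real.pi_gt_three
      have h1 : ∀ t : ℝ, (((q * ρ : ℝ) : ℂ) + t * Complex.I).im = t := by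
        intro t
        simp
      have h2 := Complex.exp_inj_of_neg_pi_lt_of_le_pi
        (by rw [h1]; linarith [hθ.1]) (by rw [h1]; linarith [hθ.2])
        (by rw [h1]; linarith [hθ'.1]) (by rw [h1]; linarith [hθ'.2]) h
      have h3 := congrArg Complex.im h2
      rwa [h1, h1] at h3
    have himg : Set.MapsTo f (Set.Ioo 0 1) T := by
      intro θ hθ
      by_cases h1 : f θ ∈ Z
      · exact Or.inl h1
      · have h2 : (((q * ρ : ℝ) : ℂ) + θ * Complex.I).re = q * ρ := by simp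
        obtain ⟨y, hy, hy'⟩ := hno _ h2 h1
        exact Or.inr ⟨y, hy, hy'⟩
    have hcount : (Set.Ioo (0 : ℝ) 1).Countable := by
      exact Set.MapsTo.countable_of_injOn himg hinj hTc
    exact absurd hcount (by
      rw [Cardinal.Real.Ioo_countable_iff]
      norm_num)
  obtain ⟨t₀, r', ℓ, hd, hexp, _⟩ := hhit _ hxZ
  set y : Fin n → ℂ := fun j => Complex.exp (ℓ t₀ j) with hy
  have hyW : y ∈ W := hd.mem t₀ (Metric.mem_ball_self hd.pos)
  have hyE : y ∉ E := by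
    intro h
    apply hxE y h
    rw [← hexp, Complex.exp_sum]
    refine Finset.prod_congr rfl fun j _ => ?_
    rw [hy]
    exact (Complex.exp_int_mul _ _).symm
  have hre : (∑ j, (a j : ℂ) * ℓ t₀ j).re = q * ρ := by
    have h1 := congrArg norm hexp
    rw [Complex.norm_exp, Complex.norm_exp, hxre] at h1
    exact Real.exp_injective h1
  have hlam := hall' (y := fun j => (a j : ℝ) / q) (by
    rw [dist_pi_lt_iff hδ]
    intro j
    rw [Real.dist_eq]
    have h1 : (a j : ℝ) / q - ν j = -((q * ν j - a j) / q) := by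
      field_simp
      ring
    rw [h1, abs_neg, abs_div, abs_of_pos hqr, div_lt_iff₀ hqr]
    have := ha j
    nlinarith) (by
    intro i hi
    have h1 : ∑ j, (a j : ℝ) * p i j = 0 := by
      have h2 : |∑ j, (a j : ℝ) * p i j| < 1 := by
        have h3 : ∑ j, (a j : ℝ) * p i j = ∑ j, -(q * ν j - a j) * p i j := by
          have h4 : ∑ j, -(q * ν j - a j) * (p i j : ℝ) =
              ∑ j, (a j : ℝ) * p i j - q * ∑ j, ν j * p i j := by
            rw [Finset.mul_sum, ← Finset.sum_sub_distrib]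
            exact Finset.sum_congr rfl fun j _ => by ring
          rw [h4, hi, mul_zero, sub_zero]
        rw [h3]
        refine lt_of_le_of_lt (Finset.abs_sum_le_sum_abs _ _) ?_
        refine lt_of_le_of_lt ?_ hεC
        have h5 : ∀ j ∈ Finset.univ, |-(q * ν j - a j) * (p i j : ℝ)| ≤ ε * |(p i j : ℝ)| := by
          intro j _
          rw [abs_mul, abs_neg]
          exact mul_le_mul_of_nonneg_right (ha j).le (abs_nonneg _)
        refine (Finset.sum_le_sum h5).trans ?_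
        rw [← Finset.mul_sum]
        exact mul_le_mul_of_nonneg_left (hC i) hε.le
      have h6 : |∑ j, a j * p i j| < 1 := by exact_mod_cast h2
      have h7 : ∑ j, a j * p i j = 0 := Int.abs_lt_one_iff.mp h6
      exact_mod_cast h7
    simp only [div_mul_eq_mul_div]
    rw [← Finset.sum_div, h1, zero_div]) y ⟨hyW, hyE⟩
  apply hlam
  have h1 := hlogre ℓ t₀ (fun j => (a j : ℝ))
  have h2 : (∑ j, (((a j : ℝ) : ℝ) : ℂ) * ℓ t₀ j).re = q * ρ := by
    simpa using hre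
  rw [h2] at h1
  have h3 : ∑ j, (a j : ℝ) / q * Real.log ‖y j‖ =
      (∑ j, (a j : ℝ) * Real.log ‖Complex.exp (ℓ t₀ j)‖) / q := by
    rw [Finset.sum_div]
    exact Finset.sum_congr rfl fun j _ => by rw [hy]; ring
  rw [h3, h1]
  field_simp

end XW
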