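import Pool.Agent.Lib.MP_228259_lc.DefsC

/-!
C2a: tschirnhaus, delta = -alpha_D/(D+1).
-/

namespace XW

open Filter Topology MvPolynomial

private theorem binom_ext (T δ : ℂ) (D i : ℕ) (hi : i ≤ D) :
    (T + δ) ^ i = ∑ k ∈ Finset.range (D + 1), T ^ k * δ ^ (i - k) * (i.choose k : ℂ) := by
  rw [add_pow]
  refine Finset.sum_subset (Finset.range_mono (by omega)) fun k _ hk => ?_
  rw [Finset.mem_range, not_lt] at hk
  rw [Nat.choose_eq_zero_of_lt (by omega)]
  simp

theorem tschirnhaus (D : ℕ) (α : Fin (D + 1) → ℂ → ℂ) (hα : ∀ i, AnalyticAt ℂ (α i) 0) :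
    ∃ (β : Fin (D + 1) → ℂ → ℂ) (δ : ℂ → ℂ), (∀ i, AnalyticAt ℂ (β i) 0) ∧
      AnalyticAt ℂ δ 0 ∧ (∀ s, β (Fin.last D) s = 0) ∧
      ∀ s T : ℂ, (T + δ s) ^ (D + 1) + ∑ i, α i s * (T + δ s) ^ (i : ℕ) =
        T ^ (D + 1) + ∑ i, β i s * T ^ (i : ℕ) := by
  let δ : ℂ → ℂ := fun s => - α (Fin.last D) s / ((D : ℂ) + 1)
  have hD : ((D : ℂ) + 1) ≠ 0 := Nat.cast_add_one_ne_zero D
  have hδ : AnalyticAt ℂ δ 0 := by
    have h1 := hα (Fin.last D)
    exact (h1.neg).div analyticAt_const hD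
  refine ⟨fun k s => ((D + 1).choose k : ℂ) * δ s ^ (D + 1 - k) +
    ∑ i : Fin (D + 1), α i s * ((i : ℕ).choose k : ℂ) * δ s ^ ((i : ℕ) - k), δ, ?_, hδ, ?_, ?_⟩
  · intro k
    refine AnalyticAt.add (analyticAt_const.mul (hδ.pow _)) ?_
    refine Finset.analyticAt_fun_sum _ fun i _ => ?_
    exact ((hα i).mul analyticAt_const).mul (hδ.pow _)
  · intro s
    have h1 : ∑ i : Fin (D + 1), α i s * ((i : ℕ).choose (Fin.last D : ℕ) : ℂ) *
        δ s ^ ((i : ℕ) - (Fin.last D : ℕ)) = α (Fin.last D) s := by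
      rw [Finset.sum_eq_single (Fin.last D)]
      · simp
      · intro i _ hi
        have h2 : (i : ℕ) < D := by
          have := i.2
          have h3 : (i : ℕ) ≠ D := fun h => hi (Fin.ext h)
          omega
        rw [Fin.val_last, Nat.choose_eq_zero_of_lt h2]
        simp
      · intro h
        exact absurd (Finset.mem_univ _) h
    change ((D + 1).choose (Fin.last D : ℕ) : ℂ) * δ s ^ (D + 1 - (Fin.last D : ℕ)) + _ = 0
    rw [h1, Fin.val_last]
    have h2 : D + 1 - D = 1 := by omega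
    rw [h2, pow_one, Nat.choose_succ_self_right]
    simp only [δ]
    push_cast
    field_simp
    ring
  · intro s T
    have h1 : (T + δ s) ^ (D + 1) = T ^ (D + 1) +
        ∑ k ∈ Finset.range (D + 1), ((D + 1).choose k : ℂ) * δ s ^ (D + 1 - k) * T ^ k := by
      rw [add_pow, Finset.sum_range_succ]
      simp only [Nat.sub_self, pow_zero, mul_one, Nat.choose_self, Nat.cast_one]
      rw [add_comm]
      congr 1
      exact Finset.sum_congr rfl fun k _ => by ring
    have h2 : ∀ i : Fin (D + 1), α i s * (T + δ s) ^ (i : ℕ) =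
        ∑ k ∈ Finset.range (D + 1), α i s * ((i : ℕ).choose k : ℂ) * δ s ^ ((i : ℕ) - k) * T ^ k := by
      intro i
      rw [binom_ext T (δ s) D i (by have := i.2; omega), Finset.mul_sum]
      exact Finset.sum_congr rfl fun k _ => by ring
    rw [h1, Finset.sum_congr rfl fun i _ => h2 i, Finset.sum_comm, add_assoc,
      ← Finset.sum_add_distrib, ← Fin.sum_univ_eq_sum_range (fun k =>
        ((D + 1).choose k : ℂ) * δ s ^ (D + 1 - k) * T ^ k +
        ∑ i : Fin (D + 1), α i s * ((i : ℕ).choose k : ℂ) * δ s ^ ((i : ℕ) - k) * T ^ k)]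
    congr 1
    refine Finset.sum_congr rfl fun k _ => ?_
    rw [add_mul, Finset.sum_mul]

end XW
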