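import Pool.Agent.Lib.MP_228259_lc.DefsC

/-!
C2b: newton_step.
-/

namespace XW

open Filter Topology MvPolynomial

theorem newton_step (D : ℕ) (α : Fin D → ℂ → ℂ) (hα : ∀ i, AnalyticAt ℂ (α i) 0)
    (hne : ∃ i, ¬ ∀ᶠ s in 𝓝 (0 : ℂ), α i s = 0) :
    ∃ (b m : ℕ) (β : Fin D → ℂ → ℂ), 0 < b ∧ (∀ i, AnalyticAt ℂ (β i) 0) ∧
      (∃ i, β i 0 ≠ 0) ∧
      ∀ i, ∀ᶠ s in 𝓝 (0 : ℂ), α i (s ^ b) = s ^ (m * (D - i)) * β i s := by
  classical
  -- local forms
  have hloc : ∀ i, ¬ (∀ᶠ s in 𝓝 (0 : ℂ), α i s = 0) → ∃ (k : ℕ) (g : ℂ → ℂ), AnalyticAt ℂ g 0 ∧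
      g 0 ≠ 0 ∧ ∀ᶠ s in 𝓝 (0 : ℂ), α i s = s ^ k * g s := by
    intro i hi
    obtain ⟨k, g, hg, hg0, hk⟩ := ((hα i).exists_eventuallyEq_pow_smul_nonzero_iff).mpr hi
    refine ⟨k, g, hg, hg0, ?_⟩
    filter_upwards [hk] with s hs
    rw [hs, sub_zero, smul_eq_mul]
  choose! k g hg hg0 hk using hloc
  set F : Finset (Fin D) := Finset.univ.filter fun i => ¬ ∀ᶠ s in 𝓝 (0 : ℂ), α i s = 0 with hF
  have hFne : F.Nonempty := by
    obtain ⟨i, hi⟩ := hne
    exact ⟨i, Finset.mem_filter.mpr ⟨Finset.mem_univ _, hi⟩⟩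
  let b : ℕ := Nat.factorial D
  have hb : 0 < b := Nat.factorial_pos D
  have hdiv : ∀ i : Fin D, (b / (D - i)) * (D - i) = b := by
    intro i
    have hi := i.2
    exact Nat.div_mul_cancel (Nat.dvd_factorial (by omega) (by omega))
  obtain ⟨i0, hi0, hmin⟩ := F.exists_min_image (fun i => k i * (b / (D - i))) hFne
  set m : ℕ := k i0 * (b / (D - i0)) with hm
  have hle : ∀ i ∈ F, m * (D - i) ≤ b * k i := by
    intro i hi
    calc m * (D - i) ≤ (k i * (b / (D - i))) * (D - i) := Nat.mul_le_mul_right _ (hmin i hi)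
      _ = k i * ((b / (D - i)) * (D - i)) := by ring
      _ = b * k i := by rw [hdiv i, mul_comm]
  have heq : m * (D - i0) = b * k i0 := by
    calc m * (D - i0) = k i0 * ((b / (D - i0)) * (D - i0)) := by rw [hm]; ring
      _ = b * k i0 := by rw [hdiv i0, mul_comm]
  have hpow : AnalyticAt ℂ (fun s : ℂ => s ^ b) 0 := analyticAt_id.pow b
  have hpow0 : (0 : ℂ) ^ b = 0 := zero_pow hb.ne'
  refine ⟨b, m, fun i => if i ∈ F then fun s => s ^ (b * k i - m * (D - i)) * g i (s ^ b)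
    else fun _ => 0, hb, ?_, ⟨i0, ?_⟩, ?_⟩
  · intro i
    by_cases hi : i ∈ F
    · simp only [hi, if_true]
      refine (analyticAt_id.pow _).mul ?_
      have h1 : AnalyticAt ℂ (g i) 0 := hg i (Finset.mem_filter.mp hi).2
      exact AnalyticAt.comp_of_eq h1 hpow hpow0
    · simp only [hi, if_false]
      exact analyticAt_const
  · simp only [hi0, if_true]
    rw [heq, Nat.sub_self, pow_zero, one_mul, hpow0]
    exact hg0 i0 (Finset.mem_filter.mp hi0).2
  · intro i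
    have ht : Tendsto (fun s : ℂ => s ^ b) (𝓝 0) (𝓝 0) := by
      have := hpow.continuousAt.tendsto
      rwa [hpow0] at this
    by_cases hi : i ∈ F
    · simp only [hi, if_true]
      filter_upwards [ht.eventually (hk i (Finset.mem_filter.mp hi).2)] with s hs
      rw [hs, ← pow_mul, ← mul_assoc, ← pow_add, Nat.add_sub_cancel' (hle i hi)]
    · simp only [hi, if_false, mul_zero]
      have h1 : ∀ᶠ s in 𝓝 (0 : ℂ), α i s = 0 := by
        by_contra hcon
        exact hi (Finset.mem_filter.mpr ⟨Finset.mem_univ _, hcon⟩)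
      exact ht.eventually h1

end XW
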