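import Pool.Agent.Lib.MP_228259_lc.C1
import Pool.Agent.Lib.MP_228259_lc.C2a
import Pool.Agent.Lib.MP_228259_lc.C2b

/-!
C3: see /team-store/XW_blueprint.md
C3 puiseux. Strong induction on D. D = 0, 1 trivial. D >= 2: tschirnhaus; if all beta_i eventually 0: all roots = delta. Otherwise newton_step; the new polynomial at s = 0 has zero subleading coefficient (beta_{D-1} = 0 => new one is 0 for s <> 0 hence at 0) and is not U^D so it has two different roots, so it is a product of two coprime monic polynomials of degrees p, q >= 1; analytic_hensel; induction; undo the substitutions (s -> s^b etc., common b by substituting again).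
-/

namespace XW

open Filter Topology MvPolynomial

/-- a monic polynomial in terms of its coefficients -/
private lemma c3_monic_eval (G : Polynomial ℂ) (hG : G.Monic) (T : ℂ) :
    G.eval T = T ^ G.natDegree + ∑ i : Fin G.natDegree, G.coeff i * T ^ (i : ℕ) := by
  rw [Polynomial.eval_eq_sum_range, Finset.sum_range_succ, ← Polynomial.leadingCoeff, hG,
    one_mul, add_comm, Finset.sum_range]

/-- a monic polynomial with vanishing subleading coefficient that is not a power of the variable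
is a product of two coprime monic polynomials of smaller degree -/
private lemma c3_split (D : ℕ) (γ : Fin D → ℂ) (hlast : ∀ i : Fin D, (i : ℕ) + 1 = D → γ i = 0)
    (hne : ∃ i, γ i ≠ 0) :
    ∃ (p q : ℕ) (g₀ : Fin p → ℂ) (h₀ : Fin q → ℂ), D = p + q ∧ 0 < p ∧ 0 < q ∧
      (∀ T : ℂ, ¬ (T ^ p + ∑ i, g₀ i * T ^ (i : ℕ) = 0 ∧
        T ^ q + ∑ i, h₀ i * T ^ (i : ℕ) = 0)) ∧
      ∀ T : ℂ, T ^ D + ∑ i, γ i * T ^ (i : ℕ) =
        (T ^ p + ∑ i, g₀ i * T ^ (i : ℕ)) * (T ^ q + ∑ i, h₀ i * T ^ (i : ℕ)) := by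
  obtain ⟨i₀, hi₀⟩ := hne
  have hD : 0 < D := lt_of_le_of_lt (Nat.zero_le _) i₀.2
  set R : Polynomial ℂ := ∑ i : Fin D, Polynomial.C (γ i) * Polynomial.X ^ (i : ℕ) with hR
  set Q : Polynomial ℂ := Polynomial.X ^ D + R with hQ
  have hRdeg : R.degree < D := Polynomial.degree_sum_fin_lt γ
  have hmonic : Q.Monic := Polynomial.monic_X_pow_add hRdeg
  have hQdeg : Q.natDegree = D := by
    have : Q.degree = D := by
      rw [hQ, Polynomial.degree_add_eq_left_of_degree_lt, Polynomial.degree_X_pow]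
      rwa [Polynomial.degree_X_pow]
    exact Polynomial.natDegree_eq_of_degree_eq_some this
  have hQeval : ∀ T, Q.eval T = T ^ D + ∑ i, γ i * T ^ (i : ℕ) := by
    intro T
    rw [hQ, hR, Polynomial.eval_add, Polynomial.eval_pow, Polynomial.eval_X,
      Polynomial.eval_finsetSum]
    congr 1
    refine Finset.sum_congr rfl fun i _ => ?_
    simp
  have hcoeff : ∀ i : Fin D, Q.coeff i = γ i := by
    intro i
    rw [hQ, hR, Polynomial.coeff_add, Polynomial.coeff_X_pow, if_neg (by omega), zero_add,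
      Polynomial.finsetSum_coeff, Finset.sum_eq_single i]
    · simp
    · intro k _ hk
      rw [Polynomial.coeff_C_mul_X_pow, if_neg]
      exact fun h => hk (Fin.ext h.symm)
    · intro h
      exact absurd (Finset.mem_univ i) h
  obtain ⟨c, hc⟩ := IsAlgClosed.exists_root Q (by
    have : Q.degree = D := by
      rw [Polynomial.degree_eq_natDegree hmonic.ne_zero, hQdeg]
    rw [this]
    exact_mod_cast hD.ne')
  obtain ⟨h, hQh, hnd⟩ := Polynomial.exists_eq_pow_rootMultiplicity_mul_and_not_dvd Q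
    hmonic.ne_zero c
  set p := Q.rootMultiplicity c with hp
  have hp0 : 0 < p := (Polynomial.rootMultiplicity_pos hmonic.ne_zero).mpr hc
  have hGm : ((Polynomial.X - Polynomial.C c) ^ p).Monic := (Polynomial.monic_X_sub_C c).pow p
  have hhm : h.Monic := by
    have := hmonic
    rw [hQh] at this
    exact hGm.of_mul_monic_left this
  have hGdeg : ((Polynomial.X - Polynomial.C c) ^ p).natDegree = p := by
    rw [(Polynomial.monic_X_sub_C c).natDegree_pow, Polynomial.natDegree_X_sub_C, mul_one]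
  have hdeg : D = p + h.natDegree := by
    rw [← hQdeg, hQh, hGm.natDegree_mul hhm, hGdeg]
  have hhc : h.eval c ≠ 0 := fun h0 => hnd (Polynomial.dvd_iff_isRoot.mpr h0)
  have hq0 : 0 < h.natDegree := by
    rcases Nat.eq_zero_or_pos h.natDegree with h0 | h0
    · exfalso
      have h1 : h = 1 := hhm.natDegree_eq_zero.mp h0
      have hpD : p = D := by omega
      have hQc : Q = (Polynomial.X - Polynomial.C c) ^ D := by
        rw [hQh, h1, mul_one, hpD]
      have hnc : Q.nextCoeff = 0 := by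
        rw [Polynomial.nextCoeff_of_natDegree_pos (by omega), hQdeg]
        have := hcoeff ⟨D - 1, by omega⟩
        rw [this]
        exact hlast _ (by simp only; omega)
      rw [hQc, (Polynomial.monic_X_sub_C c).nextCoeff_pow, Polynomial.nextCoeff_X_sub_C] at hnc
      have hc0 : c = 0 := by
        rw [nsmul_eq_mul] at hnc
        rcases mul_eq_zero.mp hnc with h2 | h2
        · exact absurd (by exact_mod_cast h2) hD.ne'
        · exact neg_eq_zero.mp h2
      apply hi₀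
      rw [← hcoeff i₀, hQc, hc0, map_zero, sub_zero, Polynomial.coeff_X_pow, if_neg (by omega)]
    · exact h0
  have hGe : ∀ T, ((Polynomial.X - Polynomial.C c) ^ p).eval T = T ^ p +
      ∑ i : Fin p, ((Polynomial.X - Polynomial.C c) ^ p).coeff i * T ^ (i : ℕ) := by
    intro T
    have := c3_monic_eval _ hGm T
    rw [hGdeg] at this
    exact this
  refine ⟨p, h.natDegree, fun i => ((Polynomial.X - Polynomial.C c) ^ p).coeff i,
    fun i => h.coeff i, hdeg, hp0, hq0, ?_, ?_⟩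
  · rintro T ⟨h1, h2⟩
    rw [← hGe T] at h1
    rw [← c3_monic_eval h hhm T] at h2
    have h3 : T = c := by
      rw [Polynomial.eval_pow] at h1
      have := eq_zero_of_pow_eq_zero h1
      rw [Polynomial.eval_sub, Polynomial.eval_X, Polynomial.eval_C] at this
      exact sub_eq_zero.mp this
    rw [h3] at h2
    exact hhc h2
  · intro T
    rw [← hQeval T, ← hGe T, ← c3_monic_eval h hhm T, ← Polynomial.eval_mul, ← hQh]

/-- rescaling of the roots -/
private lemma c3_scale (D : ℕ) (γ θ : Fin D → ℂ)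
    (h : ∀ X : ℂ, X ^ D + ∑ i, γ i * X ^ (i : ℕ) = ∏ i, (X - θ i)) (u T : ℂ) :
    T ^ D + ∑ i : Fin D, u ^ (D - (i : ℕ)) * γ i * T ^ (i : ℕ) = ∏ i, (T - u * θ i) := by
  by_cases hu : u = 0
  · subst hu
    have h1 : ∀ i : Fin D, (0 : ℂ) ^ (D - (i : ℕ)) * γ i * T ^ (i : ℕ) = 0 := by
      intro i
      rw [zero_pow (by have := i.2; omega), zero_mul, zero_mul]
    rw [Finset.sum_congr rfl fun i _ => h1 i, Finset.sum_const_zero, add_zero]
    simp
  · have h1 := h (T / u)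
    have h2 : ∏ i, (T - u * θ i) = u ^ D * ∏ i, (T / u - θ i) := by
      have h3 : u ^ D = ∏ _i : Fin D, u := by
        rw [Finset.prod_const, Finset.card_univ, Fintype.card_fin]
      rw [h3, ← Finset.prod_mul_distrib]
      refine Finset.prod_congr rfl fun i _ => ?_
      rw [mul_sub, mul_div_cancel₀ _ hu]
    rw [h2, ← h1, mul_add, Finset.mul_sum]
    congr 1
    · rw [← mul_pow, mul_div_cancel₀ _ hu]
    · refine Finset.sum_congr rfl fun i _ => ?_
      have h4 : u ^ D = u ^ (D - (i : ℕ)) * u ^ (i : ℕ) := by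
        rw [← pow_add]
        congr 1
        have := i.2
        omega
      rw [h4, div_pow]
      have hui : u ^ (i : ℕ) ≠ 0 := pow_ne_zero _ hu
      field_simp

/-- the statement of `puiseux` for `D` -/
private def C3Claim (D : ℕ) : Prop :=
  ∀ α : Fin D → ℂ → ℂ, (∀ i, AnalyticAt ℂ (α i) 0) →
    ∃ (b : ℕ) (θ : Fin D → ℂ → ℂ), 0 < b ∧ (∀ i, AnalyticAt ℂ (θ i) 0) ∧
      ∀ᶠ s in 𝓝 (0 : ℂ), ∀ T : ℂ,
        T ^ D + ∑ i, α i (s ^ b) * T ^ (i : ℕ) = ∏ i, (T - θ i s)

private lemma c3_tendsto_pow {b : ℕ} (hb : 0 < b) :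
    Tendsto (fun s : ℂ => s ^ b) (𝓝 0) (𝓝 0) := by
  have h := (continuous_pow b : Continuous fun s : ℂ => s ^ b).tendsto 0
  simpa [zero_pow hb.ne'] using h

private lemma c3_analytic_comp {f : ℂ → ℂ} (hf : AnalyticAt ℂ f 0) {b : ℕ} (hb : 0 < b) :
    AnalyticAt ℂ (fun s => f (s ^ b)) 0 := by
  have h1 : AnalyticAt ℂ (fun s : ℂ => s ^ b) 0 := analyticAt_id.pow b
  refine AnalyticAt.fun_comp (g := f) (f := fun s : ℂ => s ^ b) ?_ h1
  rw [zero_pow hb.ne']
  exact hf

/-- the case with two different roots at `s = 0` -/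
private lemma c3_step (D : ℕ) (IH : ∀ D' < D, C3Claim D') (γ : Fin D → ℂ → ℂ)
    (hγ : ∀ i, AnalyticAt ℂ (γ i) 0) (hlast : ∀ i : Fin D, (i : ℕ) + 1 = D → γ i 0 = 0)
    (hne : ∃ i, γ i 0 ≠ 0) :
    ∃ (b : ℕ) (θ : Fin D → ℂ → ℂ), 0 < b ∧ (∀ i, AnalyticAt ℂ (θ i) 0) ∧
      ∀ᶠ s in 𝓝 (0 : ℂ), ∀ T : ℂ,
        T ^ D + ∑ i, γ i (s ^ b) * T ^ (i : ℕ) = ∏ i, (T - θ i s) := by
  obtain ⟨p, q, g₀, h₀, hD, hp, hq, hcop, hfac⟩ := c3_split D (fun i => γ i 0) hlast hne
  subst hD
  obtain ⟨g, h, hg, hh, -, -, hgh⟩ := analytic_hensel p q g₀ h₀ hcop γ hγ hfac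
  obtain ⟨b₁, θ₁, hb₁, hθ₁, e₁⟩ := IH p (by omega) g hg
  obtain ⟨b₂, θ₂, hb₂, hθ₂, e₂⟩ := IH q (by omega) h hh
  refine ⟨b₁ * b₂, Fin.append (fun i s => θ₁ i (s ^ b₂)) (fun i s => θ₂ i (s ^ b₁)),
    Nat.mul_pos hb₁ hb₂, ?_, ?_⟩
  · intro i
    refine Fin.addCases (fun i => ?_) (fun i => ?_) i
    · rw [Fin.append_left]
      exact c3_analytic_comp (hθ₁ i) hb₂
    · rw [Fin.append_right]
      exact c3_analytic_comp (hθ₂ i) hb₁
  · filter_upwards [(c3_tendsto_pow (Nat.mul_pos hb₁ hb₂)).eventually hgh,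
      (c3_tendsto_pow hb₂).eventually e₁, (c3_tendsto_pow hb₁).eventually e₂] with s h1 h2 h3
    intro T
    rw [h1 T, Fin.prod_univ_add]
    congr 1
    · rw [mul_comm b₁ b₂, pow_mul, h2 T]
      refine Finset.prod_congr rfl fun i _ => ?_
      rw [Fin.append_left]
    · rw [pow_mul, h3 T]
      refine Finset.prod_congr rfl fun i _ => ?_
      rw [Fin.append_right]

theorem puiseux (D : ℕ) (α : Fin D → ℂ → ℂ) (hα : ∀ i, AnalyticAt ℂ (α i) 0) :
    ∃ (b : ℕ) (θ : Fin D → ℂ → ℂ), 0 < b ∧ (∀ i, AnalyticAt ℂ (θ i) 0) ∧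
      ∀ᶠ s in 𝓝 (0 : ℂ), ∀ T : ℂ,
        T ^ D + ∑ i, α i (s ^ b) * T ^ (i : ℕ) = ∏ i, (T - θ i s) := by
  revert α
  refine Nat.strong_induction_on (p := C3Claim) D ?_
  intro D IH α hα
  rcases D with _ | D
  · refine ⟨1, fun i => i.elim0, one_pos, fun i => i.elim0, Eventually.of_forall fun s T => ?_⟩
    simp
  obtain ⟨β, δ, hβ, hδ, hβlast, hαβ⟩ := tschirnhaus D α hα
  have hαβ' : ∀ s T : ℂ, T ^ (D + 1) + ∑ i, α i s * T ^ (i : ℕ) =
      (T - δ s) ^ (D + 1) + ∑ i, β i s * (T - δ s) ^ (i : ℕ) := by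
    intro s T
    rw [← hαβ s (T - δ s), sub_add_cancel]
  by_cases hall : ∀ i, ∀ᶠ s in 𝓝 (0 : ℂ), β i s = 0
  · refine ⟨1, fun _ => δ, one_pos, fun _ => hδ, ?_⟩
    filter_upwards [eventually_all.mpr hall] with s hs
    intro T
    rw [pow_one, hαβ' s T, Finset.prod_const, Finset.card_univ, Fintype.card_fin]
    simp [hs]
  push Not at hall
  obtain ⟨i₁, hi₁⟩ := hall
  obtain ⟨b, m, γ, hb, hγ, hγne, hβγ⟩ := newton_step (D + 1) β hβ ⟨i₁, by
    rw [Filter.not_eventually]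
    exact hi₁⟩
  have hγlast : ∀ i : Fin (D + 1), (i : ℕ) + 1 = D + 1 → γ i 0 = 0 := by
    intro i hi
    have hi' : i = Fin.last D := Fin.ext (by simp only [Fin.val_last]; omega)
    subst hi'
    have h1 : ∀ᶠ s in 𝓝[≠] (0 : ℂ), γ (Fin.last D) s = 0 := by
      filter_upwards [(hβγ (Fin.last D)).filter_mono nhdsWithin_le_nhds,
        self_mem_nhdsWithin] with s h2 h3
      rw [hβlast] at h2
      rcases mul_eq_zero.mp h2.symm with h4 | h4
      · exact absurd h4 (pow_ne_zero _ h3)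
      · exact h4
    have h2 : Tendsto (γ (Fin.last D)) (𝓝[≠] 0) (𝓝 (γ (Fin.last D) 0)) :=
      (hγ (Fin.last D)).continuousAt.tendsto.mono_left nhdsWithin_le_nhds
    have h3 : Tendsto (γ (Fin.last D)) (𝓝[≠] 0) (𝓝 0) :=
      tendsto_const_nhds.congr' (h1.mono fun s hs => hs.symm)
    exact tendsto_nhds_unique h2 h3
  obtain ⟨c, θ, hc, hθ, hθe⟩ := c3_step (D + 1) IH γ hγ hγlast hγne
  refine ⟨b * c, fun i s => δ (s ^ (b * c)) + (s ^ c) ^ m * θ i s, Nat.mul_pos hb hc,
    fun i => ?_, ?_⟩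
  · refine (c3_analytic_comp hδ (Nat.mul_pos hb hc)).add ?_
    exact ((analyticAt_id.pow c).pow m).mul (hθ i)
  · filter_upwards [hθe, (c3_tendsto_pow hc).eventually (eventually_all.mpr hβγ)] with s h1 h2
    intro T
    rw [hαβ' (s ^ (b * c)) T]
    have h3 := c3_scale (D + 1) (fun i => γ i (s ^ c)) (fun i => θ i s) h1 ((s ^ c) ^ m)
      (T - δ (s ^ (b * c)))
    have h4 : ∀ i : Fin (D + 1), β i (s ^ (b * c)) =
        ((s ^ c) ^ m) ^ (D + 1 - (i : ℕ)) * γ i (s ^ c) := by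
      intro i
      rw [mul_comm b c, pow_mul, h2 i, pow_mul (s ^ c) m]
    rw [Finset.sum_congr rfl fun i _ => by rw [h4 i], h3]
    refine Finset.prod_congr rfl fun i _ => ?_
    ring

end XW
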