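import Pool.Agent.Lib.MP_228259_lc.DefsC

/-!
C4a: see /team-store/XW_blueprint.md
C4a pres_alg. K = FractionRing B, u_i algebraic over C(phi); primitive element theta = sum c_i u_i (or Field.exists_primitive_element and then write it with denominators in B: better use a linear combination; alternatively take any primitive element alpha = x/y, and replace it by x and ... as you like) times h(phi) to be integral over C[phi]; chi = minimal polynomial, coefficients in C[phi] = C[F] (phi transcendental, C[F] integrally closed: minpoly.isIntegrallyClosed...); divisibility: Gauss/monic. g common denominator of the coordinates of u_i in the basis theta^k.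
-/

namespace XW

open Filter Topology MvPolynomial

private theorem c4a_abs {R B : Type*} [CommRing R] [IsDomain R] [CharZero R]
    [CommRing B] [IsDomain B] [Algebra R B] [FaithfulSMul R B] {m : ℕ} (u : Fin m → B)
    (halg : ∀ i, IsAlgebraic R (u i)) :
    ∃ θ : B, IsIntegral R θ ∧ ∀ i, ∃ (g : R) (A : Polynomial R), g ≠ 0 ∧
      algebraMap R B g * u i = Polynomial.aeval θ A := by
  let K := FractionRing B
  let F := FractionRing R
  have : CharZero F := charZero_of_injective_algebraMap (IsFractionRing.injective R F)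
  have : FaithfulSMul R K := by
    rw [faithfulSMul_iff_algebraMap_injective, IsScalarTower.algebraMap_eq R B K]
    exact (IsFractionRing.injective B K).comp (FaithfulSMul.algebraMap_injective R B)
  let : Algebra F K := FractionRing.liftAlgebra R K
  have : IsScalarTower R F K := FractionRing.isScalarTower_liftAlgebra R K
  let v : Fin m → K := fun i => algebraMap B K (u i)
  have hv : ∀ i, IsIntegral F (v i) := fun i => by
    have h1 : IsAlgebraic R (v i) := (halg i).algebraMap
    exact (h1.extendScalars (IsFractionRing.injective R F)).isIntegral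
  let E := IntermediateField.adjoin F (Set.range v)
  have : FiniteDimensional F E := IntermediateField.finiteDimensional_adjoin (by
    rintro _ ⟨i, rfl⟩
    exact hv i)
  obtain ⟨α, hα⟩ := Field.exists_primitive_element F E
  have hcoe : ∀ r : R, algebraMap B K (algebraMap R B r) = algebraMap R K r := fun r =>
    (IsScalarTower.algebraMap_apply R B K r).symm
  have claim1 : ∀ x ∈ E, ∃ h : R, h ≠ 0 ∧ ∃ b : B, algebraMap R K h * x = algebraMap B K b := by
    intro x hx
    have hx' : x ∈ Algebra.adjoin F (Set.range v) := by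
      rw [← IntermediateField.adjoin_toSubalgebra_of_isAlgebraic (fun y hy => by
        obtain ⟨i, rfl⟩ := hy
        exact (hv i).isAlgebraic)]
      exact hx
    clear hx
    induction hx' using Algebra.adjoin_induction with
    | mem x hx =>
      obtain ⟨i, rfl⟩ := hx
      exact ⟨1, one_ne_zero, u i, by rw [map_one, one_mul]⟩
    | algebraMap r =>
      obtain ⟨n, d, hd, rfl⟩ := IsFractionRing.div_surjective (A := R) r
      have hd0 : d ≠ 0 := nonZeroDivisors.ne_zero hd
      refine ⟨d, hd0, algebraMap R B n, ?_⟩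
      rw [hcoe, map_div₀, ← IsScalarTower.algebraMap_apply R F K,
        ← IsScalarTower.algebraMap_apply R F K]
      refine mul_div_cancel₀ _ ?_
      rw [Ne, FaithfulSMul.algebraMap_eq_zero_iff]
      exact hd0
    | add x y _ _ h1 h2 =>
      obtain ⟨a, ha, b, hb⟩ := h1
      obtain ⟨c, hc, d, hd⟩ := h2
      refine ⟨a * c, mul_ne_zero ha hc, algebraMap R B c * b + algebraMap R B a * d, ?_⟩
      rw [map_mul, map_add, map_mul, map_mul, hcoe, hcoe, ← hb, ← hd]
      ring
    | mul x y _ _ h1 h2 =>
      obtain ⟨a, ha, b, hb⟩ := h1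
      obtain ⟨c, hc, d, hd⟩ := h2
      refine ⟨a * c, mul_ne_zero ha hc, b * d, ?_⟩
      rw [map_mul, map_mul, ← hb, ← hd]
      ring
  obtain ⟨h, hh, b, hb⟩ := claim1 α α.2
  have hhK : algebraMap R K h ≠ 0 := by
    rw [Ne, FaithfulSMul.algebraMap_eq_zero_iff]
    exact hh
  have hbalg : IsAlgebraic R b := by
    have h1 : IsAlgebraic F (α : K) := by
      have h2 : IsAlgebraic F α := Algebra.IsAlgebraic.isAlgebraic α
      exact h2.algebraMap
    have h2 : IsAlgebraic R (α : K) := (IsFractionRing.isAlgebraic_iff R F K).mpr h1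
    have h3 : IsAlgebraic R (algebraMap B K b) := by
      rw [← hb]
      exact (isAlgebraic_algebraMap h).mul h2
    exact (isAlgebraic_algebraMap_iff (IsFractionRing.injective B K)).mp h3
  obtain ⟨y, hy, hyint⟩ := hbalg.exists_integral_multiple
  have hyK : algebraMap R K y ≠ 0 := by
    rw [Ne, FaithfulSMul.algebraMap_eq_zero_iff]
    exact hy
  refine ⟨y • b, hyint, fun i => ?_⟩
  -- `v i` is a polynomial in `θ` over `F`
  have hθ : (α : K) = algebraMap F K (algebraMap R F (y * h))⁻¹ * algebraMap B K (y • b) := by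
    rw [map_inv₀, ← IsScalarTower.algebraMap_apply R F K, Algebra.smul_def, map_mul (algebraMap B K),
      hcoe, ← hb, map_mul, ← mul_assoc (algebraMap R K y),
      inv_mul_cancel_left₀ (mul_ne_zero hyK hhK)]
  obtain ⟨p, hp⟩ : ∃ p : Polynomial F, Polynomial.aeval (α : K) p = v i := by
    have h1 : (⟨v i, IntermediateField.subset_adjoin F _ ⟨i, rfl⟩⟩ : E) ∈
        (IntermediateField.adjoin F {α}).toSubalgebra := by
      rw [hα]
      exact IntermediateField.mem_top
    rw [IntermediateField.adjoin_simple_toSubalgebra_of_isAlgebraic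
      (Algebra.IsAlgebraic.isAlgebraic α), Algebra.adjoin_singleton_eq_range_aeval] at h1
    obtain ⟨p, hp⟩ := h1
    refine ⟨p, ?_⟩
    have hp' : Polynomial.aeval α p = ⟨v i, IntermediateField.subset_adjoin F _ ⟨i, rfl⟩⟩ := hp
    have h2 := congrArg (algebraMap E K) hp'
    rw [← Polynomial.aeval_algebraMap_apply] at h2
    exact h2
  have hp2 : Polynomial.aeval (algebraMap B K (y • b))
      (p.comp (Polynomial.C (algebraMap R F (y * h))⁻¹ * Polynomial.X)) = v i := by
    rw [Polynomial.aeval_comp, map_mul, Polynomial.aeval_C, Polynomial.aeval_X, ← hθ, hp]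
  set P : Polynomial F := p.comp (Polynomial.C (algebraMap R F (y * h))⁻¹ * Polynomial.X) with hP
  obtain ⟨g, hgm, hg⟩ := IsLocalization.integerNormalization_spec (nonZeroDivisors R) P
  refine ⟨g, IsLocalization.integerNormalization (nonZeroDivisors R) P,
    nonZeroDivisors.ne_zero hgm, ?_⟩
  have h3 := congrArg (Polynomial.aeval (algebraMap B K (y • b))) hg
  apply IsFractionRing.injective B K
  rw [← Polynomial.aeval_algebraMap_apply]
  rw [Polynomial.aeval_map_algebraMap] at h3
  rw [h3, map_mul, hcoe]
  have h4 : (g • P : Polynomial F) = Polynomial.C (algebraMap R F g) * P := by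
    rw [← Polynomial.smul_eq_C_mul, algebraMap_smul]
  rw [h4, map_mul, hp2, Polynomial.aeval_C, ← IsScalarTower.algebraMap_apply R F K]

theorem pres_alg {B : Type*} [CommRing B] [IsDomain B] [Algebra ℂ B] {m : ℕ} (u : Fin m → B)
    (hgen : Algebra.adjoin ℂ (Set.range u) = ⊤) (φ : B) (hφ : Transcendental ℂ φ)
    (halg : ∀ i, ∃ F : Polynomial (Polynomial ℂ), F ≠ 0 ∧ ev φ (u i) F = 0) :
    ∃ (θ : B) (g : Polynomial ℂ) (χ : Polynomial (Polynomial ℂ))
      (A : Fin m → Polynomial (Polynomial ℂ)), g ≠ 0 ∧ χ.Monic ∧ 0 < χ.natDegree ∧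
      ev φ θ χ = 0 ∧ (∀ G, ev φ θ G = 0 → χ ∣ G) ∧
      ∀ i, Polynomial.aeval φ g * u i = ev φ θ (A i) := by
  let : Algebra (Polynomial ℂ) B :=
    ((Polynomial.aeval φ : Polynomial ℂ →ₐ[ℂ] B).toRingHom).toAlgebra
  have hmap : ∀ r : Polynomial ℂ, algebraMap (Polynomial ℂ) B r = Polynomial.aeval φ r :=
    fun r => rfl
  have hev : ∀ (θ : B) (G : Polynomial (Polynomial ℂ)), ev φ θ G = Polynomial.aeval θ G :=
    fun θ G => rfl
  have : FaithfulSMul (Polynomial ℂ) B := by
    rw [faithfulSMul_iff_algebraMap_injective]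
    exact transcendental_iff_injective.mp hφ
  obtain ⟨θ, hθ, hA⟩ := c4a_abs (R := Polynomial ℂ) u (fun i => by
    obtain ⟨F, hF, hF0⟩ := halg i
    exact ⟨F, hF, hF0⟩)
  choose g A hg hgA using hA
  refine ⟨θ, ∏ i, g i, minpoly (Polynomial ℂ) θ,
    fun i => Polynomial.C (∏ j ∈ Finset.univ.erase i, g j) * A i,
    Finset.prod_ne_zero_iff.mpr fun i _ => hg i, minpoly.monic hθ, minpoly.natDegree_pos hθ,
    ?_, fun G hG => ?_, fun i => ?_⟩
  · rw [hev, minpoly.aeval]
  · exact minpoly.isIntegrallyClosed_dvd hθ hG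
  · rw [hev, map_mul, Polynomial.aeval_C, ← hgA i, ← hmap,
      ← Finset.mul_prod_erase Finset.univ g (Finset.mem_univ i), map_mul]
    ring

end XW
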