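import Pool.Agent.Lib.MP_228259_lc.DefsC

/-!
C4b: points of the affine curve from the points of the plane model.
-/

namespace XW

open Filter Topology MvPolynomial

/-- evaluation as ring homomorphism -/
noncomputable def c4bEv {B : Type*} [CommRing B] [Algebra ℂ B] (φ θ : B) :
    Polynomial (Polynomial ℂ) →+* B :=
  Polynomial.eval₂RingHom (Polynomial.aeval φ : Polynomial ℂ →ₐ[ℂ] B).toRingHom θ

lemma c4bEv_eq {B : Type*} [CommRing B] [Algebra ℂ B] (φ θ : B)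
    (G : Polynomial (Polynomial ℂ)) : c4bEv φ θ G = ev φ θ G := rfl

lemma c4bEv_C {B : Type*} [CommRing B] [Algebra ℂ B] (φ θ : B)
    (g : Polynomial ℂ) : c4bEv φ θ (Polynomial.C g) = Polynomial.aeval φ g := by
  change Polynomial.eval₂ _ _ _ = _
  rw [Polynomial.eval₂_C]
  rfl

lemma c4bEv_X {B : Type*} [CommRing B] [Algebra ℂ B] (φ θ : B) :
    c4bEv φ θ Polynomial.X = θ := by
  change Polynomial.eval₂ _ _ _ = _
  rw [Polynomial.eval₂_X]

/-- the graph of the evaluation on `B` -/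
noncomputable def c4bGraph {B : Type*} [CommRing B] [Algebra ℂ B] (φ θ : B) (g : Polynomial ℂ)
    (f θ₀ : ℂ) : Subalgebra ℂ (B × ℂ) where
  carrier := {b | ∃ (N : ℕ) (G : Polynomial (Polynomial ℂ)),
    Polynomial.aeval φ g ^ N * b.1 = c4bEv φ θ G ∧ g.eval f ^ N * b.2 = c4bEv f θ₀ G}
  mul_mem' := by
    rintro ⟨b, z⟩ ⟨b', z'⟩ ⟨N, G, h1, h2⟩ ⟨N', G', h1', h2'⟩
    refine ⟨N + N', G * G', ?_, ?_⟩
    · rw [map_mul, ← h1, ← h1', pow_add]
      change _ * (b * b') = _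
      ring
    · rw [map_mul, ← h2, ← h2', pow_add]
      change _ * (z * z') = _
      ring
  add_mem' := by
    rintro ⟨b, z⟩ ⟨b', z'⟩ ⟨N, G, h1, h2⟩ ⟨N', G', h1', h2'⟩
    refine ⟨N + N', Polynomial.C (g ^ N') * G + Polynomial.C (g ^ N) * G', ?_, ?_⟩
    · rw [map_add, map_mul, map_mul, c4bEv_C, c4bEv_C, map_pow, map_pow, ← h1, ← h1', pow_add]
      change _ * (b + b') = _
      ring
    · rw [map_add, map_mul, map_mul, c4bEv_C, c4bEv_C, map_pow, map_pow, ← h2, ← h2', pow_add,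
        Polynomial.coe_aeval_eq_eval]
      change _ * (z + z') = _
      ring
  algebraMap_mem' := by
    intro c
    refine ⟨0, Polynomial.C (Polynomial.C c), ?_, ?_⟩
    · rw [c4bEv_C, Polynomial.aeval_C, pow_zero, one_mul]
      rfl
    · rw [c4bEv_C, Polynomial.aeval_C, pow_zero, one_mul]
      rfl

theorem pres_points {B : Type*} [CommRing B] [IsDomain B] [Algebra ℂ B] {m : ℕ}
    (u : Fin m → B) (hgen : Algebra.adjoin ℂ (Set.range u) = ⊤) (φ θ : B)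
    (hφ : Transcendental ℂ φ) (g : Polynomial ℂ)
    (χ : Polynomial (Polynomial ℂ)) (A : Fin m → Polynomial (Polynomial ℂ)) (hg : g ≠ 0)
    (hχ : ∀ G, ev φ θ G = 0 → χ ∣ G)
    (hA : ∀ i, Polynomial.aeval φ g * u i = ev φ θ (A i)) (f θ₀ : ℂ)
    (hf : g.eval f ≠ 0) (hfθ : ev f θ₀ χ = 0) :
    ∃ ψ : B →ₐ[ℂ] ℂ, ψ φ = f ∧ ψ θ = θ₀ := by
  classical
  let Γ := c4bGraph φ θ g f θ₀
  let p : Γ →ₐ[ℂ] B := (AlgHom.fst ℂ B ℂ).comp Γ.val
  let q : Γ →ₐ[ℂ] ℂ := (AlgHom.snd ℂ B ℂ).comp Γ.val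
  have hφΓ : (φ, f) ∈ Γ := by
    refine ⟨0, Polynomial.C Polynomial.X, ?_, ?_⟩
    · rw [c4bEv_C, Polynomial.aeval_X, pow_zero, one_mul]
    · rw [c4bEv_C, Polynomial.aeval_X, pow_zero, one_mul]
  have hθΓ : (θ, θ₀) ∈ Γ := by
    refine ⟨0, Polynomial.X, ?_, ?_⟩
    · rw [c4bEv_X, pow_zero, one_mul]
    · rw [c4bEv_X, pow_zero, one_mul]
  have huΓ : ∀ i, (u i, ev f θ₀ (A i) / g.eval f) ∈ Γ := by
    intro i
    refine ⟨1, A i, ?_, ?_⟩
    · rw [pow_one]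
      exact hA i
    · rw [pow_one]
      change g.eval f * (ev f θ₀ (A i) / g.eval f) = ev f θ₀ (A i)
      field_simp
  have hsurj : Function.Surjective p := by
    rw [← AlgHom.range_eq_top, eq_top_iff, ← hgen]
    apply Algebra.adjoin_le
    rintro _ ⟨i, rfl⟩
    exact ⟨⟨_, huΓ i⟩, rfl⟩
  have hinj : Function.Injective p := by
    rw [injective_iff_map_eq_zero]
    rintro ⟨⟨b, z⟩, N, G, h1, h2⟩ h3
    have hb : b = 0 := h3
    subst hb
    change Polynomial.aeval φ g ^ N * 0 = c4bEv φ θ G at h1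
    change g.eval f ^ N * z = c4bEv f θ₀ G at h2
    rw [mul_zero] at h1
    obtain ⟨G', rfl⟩ := hχ G h1.symm
    have h4 : c4bEv f θ₀ χ = 0 := hfθ
    rw [map_mul, h4, zero_mul] at h2
    have hz : z = 0 := (mul_eq_zero.1 h2).resolve_left (pow_ne_zero _ hf)
    subst hz
    rfl
  let e : Γ ≃ₐ[ℂ] B := AlgEquiv.ofBijective p ⟨hinj, hsurj⟩
  refine ⟨q.comp (e.symm : B →ₐ[ℂ] Γ), ?_, ?_⟩
  · have h1 : e.symm φ = ⟨_, hφΓ⟩ := by
      rw [AlgEquiv.symm_apply_eq]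
      rfl
    change q (e.symm φ) = f
    rw [h1]
    rfl
  · have h1 : e.symm θ = ⟨_, hθΓ⟩ := by
      rw [AlgEquiv.symm_apply_eq]
      rfl
    change q (e.symm θ) = θ₀
    rw [h1]
    rfl

end XW
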