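import Pool.Agent.Lib.MP_228259_lc.C4a
import Pool.Agent.Lib.MP_228259_lc.C4b
import Pool.Agent.Lib.MP_228259_lc.C4c

/-!
C4d: see /team-store/XW_blueprint.md
C4d presentation. B = subalgebra of Frac(C[y]/I) generated by y_j and y_j^(-1) (or a localization); points of W = AlgHoms B -> C; combine.
-/

namespace XW

open Filter Topology MvPolynomial

/-- an algebra with the properties needed for `presentation` -/
private theorem c4d_exists {n : ℕ} {I : Ideal (MvPolynomial (Fin n) ℂ)} {W : Set (Fin n → ℂ)}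
    (hI : CurveData I W) (hXI : ∀ j, (MvPolynomial.X j : MvPolynomial (Fin n) ℂ) ∉ I) :
    ∃ (B : Type) (_ : CommRing B) (_ : IsDomain B) (_ : Algebra ℂ B) (y z : Fin n → B),
      (∀ j, y j * z j = 1) ∧ Algebra.adjoin ℂ (Set.range (Fin.append y z)) = ⊤ ∧
      (∀ f : MvPolynomial (Fin n) ℂ, MvPolynomial.aeval y f = 0 ↔ f ∈ I) ∧
      ∀ w ∈ W, ∃ ψ : B →ₐ[ℂ] ℂ, ∀ j, ψ (y j) = w j := by
  have hp : I.IsPrime := hI.prime
  let A := MvPolynomial (Fin n) ℂ ⧸ I
  have : IsDomain A := Ideal.Quotient.isDomain I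
  let x : Fin n → A := fun j => Ideal.Quotient.mk I (MvPolynomial.X j)
  have hx : ∀ j, x j ≠ 0 := fun j h => hXI j (Ideal.Quotient.eq_zero_iff_mem.mp h)
  let s : A := ∏ j, x j
  have hs : s ≠ 0 := Finset.prod_ne_zero_iff.mpr fun j _ => hx j
  let B := Localization.Away s
  have hdom : IsDomain B := IsLocalization.isDomain_localization
    (powers_le_nonZeroDivisors_of_noZeroDivisors hs)
  have hinj : Function.Injective (algebraMap A B) :=
    IsLocalization.injective B (powers_le_nonZeroDivisors_of_noZeroDivisors hs)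
  let y : Fin n → B := fun j => algebraMap A B (x j)
  have hsu : IsUnit (algebraMap A B s) := IsLocalization.Away.algebraMap_isUnit s
  have hyu : ∀ j, IsUnit (y j) := fun j => by
    have h1 : y j ∣ algebraMap A B s := by
      rw [map_prod]
      exact Finset.dvd_prod_of_mem (fun j => algebraMap A B (x j)) (Finset.mem_univ j)
    exact isUnit_of_dvd_unit h1 hsu
  have hz : ∀ j, ∃ z, y j * z = 1 := fun j => (hyu j).exists_right_inv
  choose z hz using hz
  have haeval : ∀ f : MvPolynomial (Fin n) ℂ,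
      MvPolynomial.aeval y f = algebraMap A B (Ideal.Quotient.mk I f) := by
    intro f
    have h1 : (MvPolynomial.aeval y : MvPolynomial (Fin n) ℂ →ₐ[ℂ] B) =
        ((IsScalarTower.toAlgHom ℂ A B).comp (Ideal.Quotient.mkₐ ℂ I)) := by
      ext j
      rw [MvPolynomial.aeval_X]
      rfl
    rw [h1]
    rfl
  refine ⟨B, inferInstance, hdom, inferInstance, y, z, hz, ?_, fun f => ?_, fun w hw => ?_⟩
  · rw [eq_top_iff]
    intro b _
    have hy : ∀ j, y j ∈ Algebra.adjoin ℂ (Set.range (Fin.append y z)) := fun j =>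
      Algebra.subset_adjoin ⟨Fin.castAdd n j, Fin.append_left y z j⟩
    have hzm : ∀ j, z j ∈ Algebra.adjoin ℂ (Set.range (Fin.append y z)) := fun j =>
      Algebra.subset_adjoin ⟨Fin.natAdd n j, Fin.append_right y z j⟩
    have hAm : ∀ a : A, algebraMap A B a ∈ Algebra.adjoin ℂ (Set.range (Fin.append y z)) := by
      intro a
      obtain ⟨f, rfl⟩ := Ideal.Quotient.mk_surjective a
      rw [← haeval]
      induction f using MvPolynomial.induction_on with
      | C c =>
        rw [MvPolynomial.aeval_C]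
        exact Subalgebra.algebraMap_mem _ c
      | add p q h1 h2 =>
        rw [map_add]
        exact add_mem h1 h2
      | mul_X p i h1 =>
        rw [map_mul, MvPolynomial.aeval_X]
        exact mul_mem h1 (hy i)
    obtain ⟨⟨a, ⟨_, k, rfl⟩⟩, hb⟩ := IsLocalization.surj (Submonoid.powers s) b
    have h2 : b = algebraMap A B a * (∏ j, z j) ^ k := by
      have h3 : algebraMap A B s * ∏ j, z j = 1 := by
        rw [map_prod, ← Finset.prod_mul_distrib]
        exact Finset.prod_eq_one fun j _ => hz j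
      have hb' : b * algebraMap A B s ^ k = algebraMap A B a := by
        rw [← map_pow]
        exact hb
      rw [← hb', mul_assoc, ← mul_pow, h3, one_pow, mul_one]
    rw [h2]
    exact mul_mem (hAm a) (pow_mem (prod_mem fun j _ => hzm j) k)
  · rw [haeval, map_eq_zero_iff _ hinj, Ideal.Quotient.eq_zero_iff_mem]
  · rw [hI.W_eq] at hw
    obtain ⟨hw1, hw2⟩ := hw
    let g : A →ₐ[ℂ] ℂ := Ideal.Quotient.liftₐ I (MvPolynomial.aeval w) (fun f hf => by
      rw [MvPolynomial.aeval_eq_eval]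
      exact hw1 f hf)
    have hgx : ∀ j, g (x j) = w j := fun j => by
      exact MvPolynomial.aeval_X w j
    have hgs : ∀ t : Submonoid.powers s, IsUnit (g t) := by
      rintro ⟨_, k, rfl⟩
      show IsUnit (g (s ^ k))
      rw [map_pow]
      refine IsUnit.pow k ?_
      rw [isUnit_iff_ne_zero, map_prod]
      refine Finset.prod_ne_zero_iff.mpr fun j _ => ?_
      rw [hgx]
      exact hw2 j
    refine ⟨IsLocalization.liftAlgHom (M := Submonoid.powers s) (S := B) (f := g) hgs, fun j => ?_⟩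
    show IsLocalization.liftAlgHom (M := Submonoid.powers s) (S := B) (f := g) hgs
      (algebraMap A B (x j)) = w j
    rw [IsLocalization.liftAlgHom_apply, IsLocalization.lift_eq]
    exact hgx j

theorem presentation {n : ℕ} {I : Ideal (MvPolynomial (Fin n) ℂ)} {W : Set (Fin n → ℂ)}
    (hI : CurveData I W) (a : Fin n → ℤ) (ha : a ≠ 0) :
    ∃ (g : Polynomial ℂ) (χ : Polynomial (Polynomial ℂ))
      (A : Fin n → Polynomial (Polynomial ℂ)), Pres W a g χ A := by
  have hXI : ∀ j, (MvPolynomial.X j : MvPolynomial (Fin n) ℂ) ∉ I := by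
    intro j hj
    obtain ⟨w, hw, -⟩ := hI.free a ha 0
    rw [hI.W_eq] at hw
    have h1 := hw.1 _ hj
    rw [MvPolynomial.eval_X] at h1
    exact hw.2 j h1
  obtain ⟨B, _, _, _, y, z, hyz, hgen, hy, hW⟩ := c4d_exists hI hXI
  let K := FractionRing B
  have hinj : Function.Injective (algebraMap B K) := IsFractionRing.injective B K
  let φ : B := (∏ j, y j ^ (a j).toNat) * ∏ j, z j ^ (-(a j)).toNat
  have hyz' : (∏ j, y j ^ (-(a j)).toNat) * ∏ j, z j ^ (-(a j)).toNat = 1 := by
    rw [← Finset.prod_mul_distrib]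
    refine Finset.prod_eq_one fun j _ => ?_
    rw [← mul_pow, hyz, one_pow]
  have hφ : φ * ∏ j, y j ^ (-(a j)).toNat = ∏ j, y j ^ (a j).toNat := by
    show (∏ j, y j ^ (a j).toNat) * (∏ j, z j ^ (-(a j)).toNat) * _ = _
    rw [mul_assoc, mul_comm (∏ j, z j ^ (-(a j)).toNat), hyz', mul_one]
  -- values of `φ` under homomorphisms to fields
  have hval : ∀ {L : Type} [Field L] (ψ : B →+* L), (∀ j, ψ (y j) ≠ 0) ∧
      ψ φ = ∏ j, ψ (y j) ^ (a j) := by
    intro L _ ψ
    have h0 : ∀ j, ψ (y j) ≠ 0 := fun j h => by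
      have h1 := congrArg ψ (hyz j)
      rw [map_mul, h, zero_mul, map_one] at h1
      exact zero_ne_one h1
    refine ⟨h0, ?_⟩
    have h1 := congrArg ψ hφ
    rw [map_mul, map_prod, map_prod] at h1
    simp only [map_pow] at h1
    rw [← c4c_key a (fun j => ψ (y j)) h0] at h1
    exact mul_right_cancel₀ (Finset.prod_ne_zero_iff.mpr fun j _ => pow_ne_zero _ (h0 j)) h1
  obtain ⟨hyK0, hφK⟩ := hval (algebraMap B K)
  have hyK : ∀ f : MvPolynomial (Fin n) ℂ,
      MvPolynomial.aeval (fun j => algebraMap B K (y j)) f = 0 ↔ f ∈ I := by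
    intro f
    rw [← hy f, ← map_eq_zero_iff _ hinj, ← MvPolynomial.aeval_algebraMap_apply]
    rfl
  obtain ⟨htr, halg⟩ := trdeg_facts hI (fun j => algebraMap B K (y j)) hyK hyK0 a ha
  rw [← hφK] at htr halg
  have hφt : Transcendental ℂ φ := by
    intro h
    exact htr h.algebraMap
  have hevK : ∀ (θ : B) (G : Polynomial (Polynomial ℂ)), ev (algebraMap B K φ)
      (algebraMap B K θ) G = algebraMap B K (ev φ θ G) := fun θ G =>
    (c4c_ev_map (IsScalarTower.toAlgHom ℂ B K) φ θ G).symm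
  obtain ⟨θ, g, χ, A, hg, hmon, hdeg, hθ, hdvd, hA⟩ := pres_alg (Fin.append y z) hgen φ hφt
    (fun i => by
      have hmem : algebraMap B K (Fin.append y z i) ∈
          IntermediateField.adjoin ℂ (Set.range fun j => algebraMap B K (y j)) := by
        refine Fin.addCases (fun j => ?_) (fun j => ?_) i
        · rw [Fin.append_left]
          exact IntermediateField.subset_adjoin ℂ _ ⟨j, rfl⟩
        · rw [Fin.append_right]
          have h1 : algebraMap B K (z j) = (algebraMap B K (y j))⁻¹ := by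
            refine eq_inv_of_mul_eq_one_right ?_
            rw [← map_mul, hyz, map_one]
          rw [h1]
          exact inv_mem (IntermediateField.subset_adjoin ℂ _ ⟨j, rfl⟩)
      obtain ⟨F, hF, hF0⟩ := halg _ hmem
      refine ⟨F, hF, ?_⟩
      rw [hevK] at hF0
      exact (map_eq_zero_iff _ hinj).mp hF0)
  -- values at a homomorphism
  have hpt : ∀ ψ : B →ₐ[ℂ] ℂ, g.eval (ψ φ) ≠ 0 → ∀ j,
      ψ (y j) = ev (ψ φ) (ψ θ) (A (Fin.castAdd n j)) / g.eval (ψ φ) := by
    intro ψ hψ j
    have h1 := congrArg ψ (hA (Fin.castAdd n j))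
    rw [Fin.append_left, map_mul, c4c_ev_map, ← Polynomial.aeval_algHom_apply,
      Polynomial.coe_aeval_eq_eval] at h1
    rw [← h1]
    field_simp
  refine ⟨g, χ, fun j => A (Fin.castAdd n j), hg, hmon, hdeg, ?_, ?_⟩
  · intro f θ₀ hf hfθ
    obtain ⟨ψ, hψφ, hψθ⟩ := pres_points (Fin.append y z) hgen φ θ hφt g χ A hg hdvd hA f θ₀ hf hfθ
    have h1 := hpt ψ (by rw [hψφ]; exact hf)
    rw [hψφ, hψθ] at h1
    obtain ⟨h2, h3⟩ := hval ψ.toRingHom
    have h4 : (fun j => ev f θ₀ (A (Fin.castAdd n j)) / g.eval f) = fun j => ψ (y j) :=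
      funext fun j => (h1 j).symm
    refine ⟨?_, ?_⟩
    · rw [h4, hI.W_eq]
      refine ⟨fun F hF => ?_, h2⟩
      have h5 : MvPolynomial.aeval (fun j => ψ (y j)) F = ψ (MvPolynomial.aeval y F) :=
        (MvPolynomial.comp_aeval_apply y ψ F).symm
      rw [(hy F).mpr hF, map_zero, MvPolynomial.aeval_eq_eval] at h5
      exact h5
    · have h6 : (∏ j, (ev f θ₀ (A (Fin.castAdd n j)) / g.eval f) ^ (a j)) =
          ∏ j, ψ (y j) ^ (a j) := Finset.prod_congr rfl fun j _ => by rw [h1 j]
      rw [h6]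
      exact h3.symm.trans hψφ
  · intro w hw hgw
    obtain ⟨ψ, hψ⟩ := hW w hw
    obtain ⟨h2, h3⟩ := hval ψ.toRingHom
    have h4 : ψ φ = ∏ j, (w j) ^ (a j) := by
      refine h3.trans (Finset.prod_congr rfl fun j _ => ?_)
      show ψ (y j) ^ (a j) = _
      rw [hψ]
    rw [← h4] at hgw ⊢
    refine ⟨ψ θ, ?_, fun j => ?_⟩
    · rw [← c4c_ev_map, hθ, map_zero]
    · rw [← hψ j]
      exact hpt ψ hgw j

end XW
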