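import Pool.Agent.Lib.MP_228259_lc.DefsC

/-!
C6: see /team-store/XW_blueprint.md
C6 chart_of_meromorphic. Y_j(s) = s^(p_j) u_j(s), u_j analytic, u_j(0) <> 0 (meromorphicOrderAt finite since Y_j <> 0 near 0); L_j = log(u_j(s)/u_j(0)) + log u_j(0) on a small ball.
-/

namespace XW

open Filter Topology MvPolynomial

theorem chart_of_meromorphic {n : ℕ} {W : Set (Fin n → ℂ)} (hW0 : ∀ y ∈ W, ∀ j, y j ≠ 0)
    (Y : ℂ → Fin n → ℂ) (hY : ∀ j, MeromorphicAt (fun s => Y s j) 0)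
    (hW : ∀ᶠ s in 𝓝[≠] (0 : ℂ), Y s ∈ W) :
    ∃ (r : ℝ) (p : Fin n → ℤ) (L : ℂ → Fin n → ℂ), SChart W r p L ∧
      ∀ s : ℂ, s ≠ 0 → ‖s‖ < r → pt p L s = Y s := by
  have hex : ∀ j, ∃ (p : ℤ) (u : ℂ → ℂ), AnalyticAt ℂ u 0 ∧ u 0 ≠ 0 ∧
      ∀ᶠ s in 𝓝[≠] (0 : ℂ), Y s j = s ^ p * u s := by
    intro j
    have hne : meromorphicOrderAt (fun s => Y s j) 0 ≠ ⊤ := by
      rw [meromorphicOrderAt_ne_top_iff_eventually_ne_zero (hY j)]
      filter_upwards [hW] with s hs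
      exact hW0 _ hs j
    obtain ⟨u, hu, hu0, huY⟩ := (meromorphicOrderAt_ne_top_iff (hY j)).mp hne
    refine ⟨(meromorphicOrderAt (fun s => Y s j) 0).untop₀, u, hu, hu0, ?_⟩
    filter_upwards [huY] with s hs
    rw [hs, sub_zero, smul_eq_mul]
  choose p u hu hu0 hYu using hex
  set L : ℂ → Fin n → ℂ := fun s j => Complex.log (u j s / u j 0) + Complex.log (u j 0) with hL
  have hquot : ∀ j, AnalyticAt ℂ (fun s => u j s / u j 0) 0 := fun j => (hu j).div_const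
  have hLan : ∀ j, AnalyticAt ℂ (fun s => L s j) 0 := by
    intro j
    refine AnalyticAt.add ?_ analyticAt_const
    refine (hquot j).clog ?_
    simp only [div_self (hu0 j)]
    exact Complex.one_mem_slitPlane
  have hune : ∀ j, ∀ᶠ s in 𝓝 (0 : ℂ), u j s ≠ 0 := fun j =>
    (hu j).continuousAt.eventually_ne (hu0 j)
  have hexp : ∀ j, ∀ᶠ s in 𝓝 (0 : ℂ), Complex.exp (L s j) = u j s := by
    intro j
    filter_upwards [hune j] with s hs
    rw [hL]
    simp only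
    rw [Complex.exp_add, Complex.exp_log (div_ne_zero hs (hu0 j)), Complex.exp_log (hu0 j),
      div_mul_cancel₀ _ (hu0 j)]
  have hall : ∀ᶠ s in 𝓝 (0 : ℂ), (∀ j, DifferentiableAt ℂ (fun s => L s j) s) ∧
      (∀ j, Complex.exp (L s j) = u j s) ∧ (s ≠ 0 → Y s ∈ W) ∧
      (∀ j, s ≠ 0 → Y s j = s ^ p j * u j s) := by
    refine (eventually_all.mpr fun j => ?_).and ((eventually_all.mpr hexp).and
      ((eventually_nhdsWithin_iff.mp hW).and (eventually_all.mpr fun j =>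
        eventually_nhdsWithin_iff.mp (hYu j))))
    filter_upwards [(hLan j).eventually_analyticAt] with s hs
    exact hs.differentiableAt
  obtain ⟨r, hr, hball⟩ := Metric.eventually_nhds_iff_ball.mp hall
  have hpt : ∀ s : ℂ, s ≠ 0 → ‖s‖ < r → pt p L s = Y s := by
    intro s hs hsr
    obtain ⟨-, h2, -, h4⟩ := hball s (by rwa [mem_ball_zero_iff])
    funext j
    rw [pt, h2 j, h4 j hs]
  refine ⟨r, p, L, ⟨hr, fun j s hs => ?_, fun s hs hsr => ?_⟩, hpt⟩
  · exact ((hball s hs).1 j).differentiableWithinAt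
  · rw [hpt s hs hsr]
    exact (hball s (by rwa [mem_ball_zero_iff])).2.2.1 hs

end XW
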