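import Pool.Agent.Lib.MP_228259_lc.C3
import Pool.Agent.Lib.MP_228259_lc.C6

/-!
C8a: see /team-store/XW_blueprint.md
C8a branches_finite. puiseux for the coefficients s |-> chi_i(f0 + s) (m = natDegree chi), Y_i(s) = A(f0+s^b, theta_i(s))/g(f0+s^b), chart_of_meromorphic, r = common radius (SChart restricts to smaller radius); toW/ofW. Last clause: g(f0) <> 0: Y_i analytic at 0, Y_i(0) in W by toW so nonzero coordinates, p_i = 0, pt 0 L 0 = Y_i(0).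
-/

namespace XW

open Filter Topology MvPolynomial

/-- `ev` in terms of coefficients -/
lemma c8a_ev_eq (φ θ : ℂ) (G : Polynomial (Polynomial ℂ)) :
    ev φ θ G = ∑ i ∈ Finset.range (G.natDegree + 1), (G.coeff i).eval φ * θ ^ i := by
  unfold ev
  rw [Polynomial.eval₂_eq_sum_range]
  refine Finset.sum_congr rfl fun i _ => ?_
  change (Polynomial.aeval φ) (G.coeff i) * θ ^ i = _
  rw [Polynomial.coe_aeval_eq_eval]

lemma c8a_ev_monic (φ θ : ℂ) (G : Polynomial (Polynomial ℂ)) (hG : G.Monic) :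
    ev φ θ G = θ ^ G.natDegree + ∑ i : Fin G.natDegree, (G.coeff i).eval φ * θ ^ (i : ℕ) := by
  rw [c8a_ev_eq, Finset.sum_range_succ, ← Polynomial.leadingCoeff, hG, Polynomial.eval_one,
    one_mul, add_comm, Finset.sum_range]

lemma c8a_ev_analytic {φ θ : ℂ → ℂ} {s₀ : ℂ} (hφ : AnalyticAt ℂ φ s₀) (hθ : AnalyticAt ℂ θ s₀)
    (G : Polynomial (Polynomial ℂ)) : AnalyticAt ℂ (fun s => ev (φ s) (θ s) G) s₀ := by
  have h : (fun s => ev (φ s) (θ s) G) = fun s =>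
      ∑ i ∈ Finset.range (G.natDegree + 1), (G.coeff i).eval (φ s) * θ s ^ i := by
    funext s
    exact c8a_ev_eq _ _ _
  rw [h]
  refine Finset.analyticAt_fun_sum _ fun i _ => ?_
  refine AnalyticAt.mul ?_ (hθ.pow i)
  have := hφ.aeval_polynomial (G.coeff i)
  simpa [Polynomial.coe_aeval_eq_eval] using this

lemma c8a_eval_analytic {φ : ℂ → ℂ} {s₀ : ℂ} (hφ : AnalyticAt ℂ φ s₀) (g : Polynomial ℂ) :
    AnalyticAt ℂ (fun s => g.eval (φ s)) s₀ := by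
  have := hφ.aeval_polynomial g
  simpa [Polynomial.coe_aeval_eq_eval] using this

/-- restriction of a chart to a smaller disc -/
lemma SChart.restrict {n : ℕ} {W : Set (Fin n → ℂ)} {r r' : ℝ} {p : Fin n → ℤ}
    {L : ℂ → Fin n → ℂ} (h : SChart W r p L) (hr' : 0 < r') (hle : r' ≤ r) : SChart W r' p L :=
  ⟨hr', fun j => (h.diff j).mono (Metric.ball_subset_ball hle),
    fun s hs hsr => h.mem s hs (lt_of_lt_of_le hsr hle)⟩

lemma SChart.analytic {n : ℕ} {W : Set (Fin n → ℂ)} {r : ℝ} {p : Fin n → ℤ}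
    {L : ℂ → Fin n → ℂ} (h : SChart W r p L) (j : Fin n) : AnalyticAt ℂ (fun s => L s j) 0 :=
  (h.diff j).analyticAt (Metric.ball_mem_nhds _ h.pos)

/-- finitely many positive numbers have a positive lower bound -/
lemma c8a_common {m : ℕ} (R : Fin m → ℝ) (hR : ∀ i, 0 < R i) (r₀ : ℝ) (hr₀ : 0 < r₀) :
    ∃ r, 0 < r ∧ r ≤ r₀ ∧ ∀ i, r ≤ R i := by
  have h1 : ∀ᶠ ρ in 𝓝[>] (0 : ℝ), 0 < ρ ∧ ρ ≤ r₀ ∧ ∀ i, ρ ≤ R i := by
    refine (eventually_mem_nhdsWithin (s := Set.Ioi (0 : ℝ))).and (Eventually.and ?_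
      (eventually_all.mpr fun i => ?_))
    · exact (eventually_le_nhds hr₀).filter_mono nhdsWithin_le_nhds
    · exact (eventually_le_nhds (hR i)).filter_mono nhdsWithin_le_nhds
  exact h1.exists

lemma c8a_punctured (f₀ : ℂ) {b : ℕ} (hb : 0 < b) (g : Polynomial ℂ) (hg : g ≠ 0) :
    ∀ᶠ s in 𝓝[≠] (0 : ℂ), g.eval (f₀ + s ^ b) ≠ 0 := by
  have h1 : ∀ᶠ x in 𝓝[≠] f₀, g.eval x ≠ 0 := by
    have hfin : {x | g.eval x = 0}.Finite := by
      have := Polynomial.finite_setOfPred_isRoot hg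
      exact this
    have h2 : ({x | g.eval x = 0} \ {f₀})ᶜ ∈ 𝓝 f₀ := by
      refine IsOpen.mem_nhds (hfin.subset Set.sdiff_subset).isClosed.isOpen_compl ?_
      simp
    refine eventually_nhdsWithin_iff.mpr ?_
    filter_upwards [h2] with x hx hx0 hgx
    exact hx ⟨hgx, hx0⟩
  have h3 : Tendsto (fun s : ℂ => f₀ + s ^ b) (𝓝[≠] 0) (𝓝[≠] f₀) := by
    refine tendsto_nhdsWithin_iff.mpr ⟨?_, ?_⟩
    · have h4 : Tendsto (fun s : ℂ => f₀ + s ^ b) (𝓝 0) (𝓝 (f₀ + 0 ^ b)) :=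
        (continuous_const.add (continuous_pow b)).tendsto 0
      rw [zero_pow hb.ne', add_zero] at h4
      exact h4.mono_left nhdsWithin_le_nhds
    · filter_upwards [self_mem_nhdsWithin] with s hs
      intro h5
      have h6 : f₀ + s ^ b = f₀ := h5
      have h7 : s ^ b = 0 := by simpa using h6
      exact (pow_ne_zero b hs) h7
  exact h3.eventually h1

/-- a chart with continuous nonvanishing limit has no zeros or poles -/
lemma c8a_p_zero {p : ℤ} {E Z : ℂ → ℂ} (hE : AnalyticAt ℂ E 0) (hE0 : E 0 ≠ 0)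
    (hZ : AnalyticAt ℂ Z 0) (hZ0 : Z 0 ≠ 0)
    (h : ∀ᶠ s in 𝓝[≠] (0 : ℂ), s ^ p * E s = Z s) : p = 0 ∧ E 0 = Z 0 := by
  have h1 : meromorphicOrderAt Z 0 = p := by
    rw [meromorphicOrderAt_eq_int_iff hZ.meromorphicAt]
    refine ⟨E, hE, hE0, ?_⟩
    filter_upwards [h] with s hs
    rw [← hs, sub_zero, smul_eq_mul]
  have h2 : meromorphicOrderAt Z 0 = (0 : ℤ) := by
    rw [meromorphicOrderAt_eq_int_iff hZ.meromorphicAt]
    refine ⟨Z, hZ, hZ0, Eventually.of_forall fun s => ?_⟩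
    simp
  have h3 : p = 0 := by
    rw [h1] at h2
    exact_mod_cast h2
  refine ⟨h3, ?_⟩
  subst h3
  have h4 : Tendsto E (𝓝[≠] 0) (𝓝 (E 0)) :=
    hE.continuousAt.tendsto.mono_left nhdsWithin_le_nhds
  have h5 : Tendsto Z (𝓝[≠] 0) (𝓝 (Z 0)) :=
    hZ.continuousAt.tendsto.mono_left nhdsWithin_le_nhds
  refine tendsto_nhds_unique h4 (h5.congr' ?_)
  filter_upwards [h] with s hs
  rw [← hs, zpow_zero, one_mul]

theorem branches_finite {n : ℕ} {W : Set (Fin n → ℂ)} (hW0 : ∀ y ∈ W, ∀ j, y j ≠ 0)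
    {a : Fin n → ℤ} {g : Polynomial ℂ} {χ : Polynomial (Polynomial ℂ)}
    {A : Fin n → Polynomial (Polynomial ℂ)} (hP : Pres W a g χ A) (f₀ : ℂ) :
    ∃ (m b : ℕ) (r : ℝ) (p : Fin m → Fin n → ℤ) (L : Fin m → ℂ → Fin n → ℂ),
      0 < m ∧ 0 < b ∧ 0 < r ∧ (∀ i, SChart W r (p i) (L i)) ∧
      (∀ i, ∀ s : ℂ, s ≠ 0 → ‖s‖ < r → ∏ j, (pt (p i) (L i) s j) ^ (a j) = f₀ + s ^ b) ∧
      (∀ s : ℂ, s ≠ 0 → ‖s‖ < r → ∀ y ∈ W, ∏ j, (y j) ^ (a j) = f₀ + s ^ b →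
        ∃ i, y = pt (p i) (L i) s) ∧
      (g.eval f₀ ≠ 0 → (∀ i, p i = 0) ∧ ∀ y ∈ W, ∏ j, (y j) ^ (a j) = f₀ →
        ∃ i, y = pt (p i) (L i) 0) := by
  set m := χ.natDegree with hm
  have hα : ∀ i : Fin m, AnalyticAt ℂ (fun s => (χ.coeff i).eval (f₀ + s)) 0 := fun i =>
    c8a_eval_analytic (analyticAt_const.add analyticAt_id) _
  obtain ⟨b, θ, hb, hθ, hroots⟩ := puiseux m (fun i s => (χ.coeff i).eval (f₀ + s)) hα
  have hroots' : ∀ᶠ s in 𝓝 (0 : ℂ), ∀ T : ℂ, ev (f₀ + s ^ b) T χ = ∏ i, (T - θ i s) := by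
    filter_upwards [hroots] with s hs
    intro T
    rw [c8a_ev_monic _ _ _ hP.monic]
    exact hs T
  have hfan : AnalyticAt ℂ (fun s : ℂ => f₀ + s ^ b) 0 :=
    analyticAt_const.add (analyticAt_id.pow b)
  set Y : Fin m → ℂ → Fin n → ℂ := fun i s j =>
    ev (f₀ + s ^ b) (θ i s) (A j) / g.eval (f₀ + s ^ b) with hYdef
  have hYmer : ∀ i j, MeromorphicAt (fun s => Y i s j) 0 := fun i j =>
    (c8a_ev_analytic hfan (hθ i) (A j)).meromorphicAt.div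
      (c8a_eval_analytic hfan g).meromorphicAt
  have hroot0 : ∀ i (s : ℂ), (∀ T : ℂ, ev (f₀ + s ^ b) T χ = ∏ i, (T - θ i s)) →
      ev (f₀ + s ^ b) (θ i s) χ = 0 := by
    intro i s hs
    rw [hs]
    exact Finset.prod_eq_zero (Finset.mem_univ i) (sub_self _)
  have hgne := c8a_punctured f₀ hb g hP.g_ne
  have hgood : ∀ᶠ s in 𝓝[≠] (0 : ℂ), g.eval (f₀ + s ^ b) ≠ 0 ∧
      (∀ T : ℂ, ev (f₀ + s ^ b) T χ = ∏ i, (T - θ i s)) :=
    hgne.and (hroots'.filter_mono nhdsWithin_le_nhds)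
  have hYW : ∀ i, ∀ᶠ s in 𝓝[≠] (0 : ℂ), Y i s ∈ W := by
    intro i
    filter_upwards [hgood] with s hs
    exact (hP.toW _ _ hs.1 (hroot0 i s hs.2)).1
  choose R p L hSC hpt using fun i => chart_of_meromorphic hW0 (Y i) (hYmer i) (hYW i)
  obtain ⟨r₀, hr₀, hball⟩ := Metric.eventually_nhds_iff_ball.mp
    (eventually_nhdsWithin_iff.mp hgood)
  obtain ⟨r, hr, hrr₀, hrR⟩ := c8a_common R (fun i => (hSC i).pos) r₀ hr₀
  have hlocal : ∀ s : ℂ, s ≠ 0 → ‖s‖ < r → g.eval (f₀ + s ^ b) ≠ 0 ∧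
      (∀ T : ℂ, ev (f₀ + s ^ b) T χ = ∏ i, (T - θ i s)) := fun s hs hsr =>
    hball s (by rw [mem_ball_zero_iff]; exact lt_of_lt_of_le hsr hrr₀) hs
  have hptr : ∀ i, ∀ s : ℂ, s ≠ 0 → ‖s‖ < r → pt (p i) (L i) s = Y i s := fun i s hs hsr =>
    hpt i s hs (lt_of_lt_of_le hsr (hrR i))
  refine ⟨m, b, r, p, L, hP.deg_pos, hb, hr, fun i => (hSC i).restrict hr (hrR i), ?_, ?_, ?_⟩
  · intro i s hs hsr
    obtain ⟨h1, h2⟩ := hlocal s hs hsr
    rw [hptr i s hs hsr]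
    exact (hP.toW _ _ h1 (hroot0 i s h2)).2
  · intro s hs hsr y hy hya
    obtain ⟨h1, h2⟩ := hlocal s hs hsr
    obtain ⟨θ', h3, h4⟩ := hP.ofW y hy (by rw [hya]; exact h1)
    rw [hya] at h3 h4
    rw [h2] at h3
    obtain ⟨i, -, hi⟩ := Finset.prod_eq_zero_iff.mp h3
    refine ⟨i, ?_⟩
    rw [hptr i s hs hsr]
    funext j
    rw [h4 j, sub_eq_zero.mp hi]
  · intro hg0
    have h00 : f₀ + (0 : ℂ) ^ b = f₀ := by rw [zero_pow hb.ne', add_zero]
    have hgan := c8a_eval_analytic hfan g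
    have hYan : ∀ i j, AnalyticAt ℂ (fun s => Y i s j) 0 := by
      intro i j
      refine (c8a_ev_analytic hfan (hθ i) (A j)).div hgan ?_
      simp only [h00]
      exact hg0
    have hroots0 : ∀ T : ℂ, ev (f₀ + (0 : ℂ) ^ b) T χ = ∏ i, (T - θ i 0) :=
      hroots'.self_of_nhds
    have hY0W : ∀ i, Y i 0 ∈ W := fun i =>
      (hP.toW _ _ (by rw [h00]; exact hg0) (hroot0 i 0 hroots0)).1
    have hkey : ∀ i j, p i j = 0 ∧ Complex.exp (L i 0 j) = Y i 0 j := by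
      intro i j
      refine c8a_p_zero (p := p i j) (E := fun s => Complex.exp (L i s j))
        (Z := fun s => Y i s j) ((hSC i).analytic j).cexp' (Complex.exp_ne_zero _) (hYan i j)
        (hW0 _ (hY0W i) j) ?_
      have h5 : ∀ᶠ s in 𝓝[≠] (0 : ℂ), s ≠ 0 ∧ ‖s‖ < r := by
        refine (eventually_mem_nhdsWithin (s := {0}ᶜ)).and ?_
        refine Filter.Eventually.filter_mono nhdsWithin_le_nhds ?_
        filter_upwards [Metric.ball_mem_nhds (0 : ℂ) hr] with s hs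
        rwa [mem_ball_zero_iff] at hs
      filter_upwards [h5] with s hs
      have h6 := congrFun (hptr i s hs.1 hs.2) j
      exact h6
    have hp0 : ∀ i, p i = 0 := fun i => funext fun j => (hkey i j).1
    have hpt0 : ∀ i, pt (p i) (L i) 0 = Y i 0 := by
      intro i
      funext j
      rw [pt, (hkey i j).1, zpow_zero, one_mul, (hkey i j).2]
    refine ⟨hp0, ?_⟩
    intro y hy hya
    obtain ⟨θ', h3, h4⟩ := hP.ofW y hy (by rw [hya]; exact hg0)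
    rw [hya, ← h00] at h3 h4
    rw [hroots0] at h3
    obtain ⟨i, -, hi⟩ := Finset.prod_eq_zero_iff.mp h3
    refine ⟨i, ?_⟩
    rw [hpt0 i]
    funext j
    rw [h4 j, sub_eq_zero.mp hi]

end XW
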