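import Pool.Agent.Lib.MP_228259_lc.C4d
import Pool.Agent.Lib.MP_228259_lc.C8a

/-!
C7: see /team-store/XW_blueprint.md

-/

namespace XW

open Filter Topology MvPolynomial

theorem has_charts {n : ℕ} {I : Ideal (MvPolynomial (Fin n) ℂ)} {W : Set (Fin n → ℂ)}
    (hI : CurveData I W) : HasCharts W := by
  intro a ha lam
  obtain ⟨g, χ, A, hP⟩ := presentation hI a ha
  have hW0 : ∀ y ∈ W, ∀ j, y j ≠ 0 := by
    intro y hy
    rw [hI.W_eq] at hy
    exact hy.2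
  obtain ⟨m, b, r, p, L, hm, hb, hr, hch, hprod, -, -⟩ := branches_finite hW0 hP lam
  exact ⟨b, r, p ⟨0, hm⟩, L ⟨0, hm⟩, hb, hch _, hprod _⟩

end XW
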