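import Pool.Agent.Lib.MP_228259_lc.DefsC

/-!
C8b: see /team-store/XW_blueprint.md
C8b compact_part. It is the image of the compact {(f,theta) : f in K, chi(f,theta)=0} under the continuous map of toW (ofW gives surjectivity).
-/

namespace XW

open Filter Topology MvPolynomial

private theorem c8b_ev (f θ : ℂ) (G : Polynomial (Polynomial ℂ)) :
    ev f θ G = ∑ i ∈ Finset.range (G.natDegree + 1), (G.coeff i).eval f * θ ^ i := by
  rw [ev, Polynomial.eval₂_eq_sum_range]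
  rfl

private theorem c8b_cont (G : Polynomial (Polynomial ℂ)) :
    Continuous fun q : ℂ × ℂ => ev q.1 q.2 G := by
  simp only [c8b_ev]
  exact continuous_finsetSum _ fun i _ =>
    ((G.coeff i).continuous.comp continuous_fst).mul (continuous_snd.pow i)

private theorem c8b_bound (χ : Polynomial (Polynomial ℂ)) (hm : χ.Monic) (hd : 0 < χ.natDegree)
    (f θ : ℂ) (h : ev f θ χ = 0) (M : ℝ)
    (hM : ∑ i ∈ Finset.range χ.natDegree, ‖(χ.coeff i).eval f‖ ≤ M) : ‖θ‖ ≤ max 1 M := by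
  by_contra hcon
  push Not at hcon
  have h1 : 1 < ‖θ‖ := lt_of_le_of_lt (le_max_left _ _) hcon
  have h2 : M < ‖θ‖ := lt_of_le_of_lt (le_max_right _ _) hcon
  rw [c8b_ev, Finset.sum_range_succ] at h
  have h3 : χ.coeff χ.natDegree = 1 := hm
  rw [h3, Polynomial.eval_one, one_mul] at h
  have h4 : θ ^ χ.natDegree = -∑ i ∈ Finset.range χ.natDegree, (χ.coeff i).eval f * θ ^ i := by
    linear_combination h
  have h5 : ‖θ‖ ^ χ.natDegree ≤
      (∑ i ∈ Finset.range χ.natDegree, ‖(χ.coeff i).eval f‖) * ‖θ‖ ^ (χ.natDegree - 1) := by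
    rw [← norm_pow, h4, norm_neg, Finset.sum_mul]
    refine (norm_sum_le _ _).trans (Finset.sum_le_sum fun i hi => ?_)
    rw [norm_mul, norm_pow]
    refine mul_le_mul_of_nonneg_left ?_ (norm_nonneg _)
    exact pow_le_pow_right₀ h1.le (by have := Finset.mem_range.mp hi; omega)
  have h6 : ‖θ‖ ^ χ.natDegree = ‖θ‖ * ‖θ‖ ^ (χ.natDegree - 1) := by
    rw [← pow_succ']
    congr 1
    omega
  rw [h6] at h5
  have h7 : 0 < ‖θ‖ ^ (χ.natDegree - 1) := pow_pos (by linarith) _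
  have h8 := le_of_mul_le_mul_right h5 h7
  linarith

theorem compact_part {n : ℕ} {W : Set (Fin n → ℂ)}
    {a : Fin n → ℤ} {g : Polynomial ℂ} {χ : Polynomial (Polynomial ℂ)}
    {A : Fin n → Polynomial (Polynomial ℂ)} (hP : Pres W a g χ A) (K : Set ℂ)
    (hK : IsCompact K) (hKg : ∀ f ∈ K, g.eval f ≠ 0) :
    IsCompact {y ∈ W | ∏ j, (y j) ^ (a j) ∈ K} := by
  have hbd : ∃ M : ℝ, ∀ f ∈ K, ∑ i ∈ Finset.range χ.natDegree, ‖(χ.coeff i).eval f‖ ≤ M := by
    have hc : ContinuousOn (fun f : ℂ =>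
        ∑ i ∈ Finset.range χ.natDegree, ‖(χ.coeff i).eval f‖) K :=
      (continuous_finsetSum _ fun i _ => ((χ.coeff i).continuous).norm).continuousOn
    obtain ⟨M, hM⟩ := hK.exists_bound_of_continuousOn hc
    exact ⟨M, fun f hf => (le_abs_self _).trans (by simpa only [Real.norm_eq_abs] using hM f hf)⟩
  obtain ⟨M, hM⟩ := hbd
  have hZ : IsCompact {q : ℂ × ℂ | q.1 ∈ K ∧ ev q.1 q.2 χ = 0} := by
    refine IsCompact.of_isClosed_subset (hK.prod (isCompact_closedBall (0 : ℂ) (max 1 M))) ?_ ?_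
    · exact (hK.isClosed.preimage continuous_fst).inter
        (isClosed_eq (c8b_cont χ) continuous_const)
    · rintro ⟨f, θ⟩ ⟨hf, h⟩
      refine ⟨hf, ?_⟩
      rw [mem_closedBall_zero_iff]
      exact c8b_bound χ hP.monic hP.deg_pos f θ h M (hM f hf)
  have hΦ : ContinuousOn (fun q : ℂ × ℂ => fun j => ev q.1 q.2 (A j) / g.eval q.1)
      {q : ℂ × ℂ | q.1 ∈ K ∧ ev q.1 q.2 χ = 0} := by
    refine continuousOn_pi.mpr fun j => ?_
    exact (c8b_cont (A j)).continuousOn.div (g.continuous.comp continuous_fst).continuousOn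
      fun q hq => hKg q.1 hq.1
  have himg := hZ.image_of_continuousOn hΦ
  convert himg using 1
  ext y
  constructor
  · rintro ⟨hy, hyK⟩
    obtain ⟨θ, h1, h2⟩ := hP.ofW y hy (hKg _ hyK)
    exact ⟨(∏ j, (y j) ^ (a j), θ), ⟨hyK, h1⟩, (funext h2).symm⟩
  · rintro ⟨⟨f, θ⟩, ⟨hf, h⟩, rfl⟩
    obtain ⟨h1, h2⟩ := hP.toW f θ (hKg f hf) h
    exact ⟨h1, by rw [h2]; exact hf⟩

end XW
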