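import Pool.Agent.Lib.MP_228259_lc.C3
import Pool.Agent.Lib.MP_228259_lc.C6
import Pool.Agent.Lib.MP_228259_lc.C8a

/-!
C8i: see /team-store/XW_blueprint.md
C8i branches_infinity. chi~(s,T) = s^(M D) chi(1/s, T/s^M) monic in T with polynomial coefficients in s for M large; puiseux; f = s^(-b), theta = theta~_i(s)/s^(bM).
-/

namespace XW

open Filter Topology MvPolynomial

lemma c8i_ev_meromorphic {φ θ : ℂ → ℂ} {s₀ : ℂ} (hφ : MeromorphicAt φ s₀)
    (hθ : MeromorphicAt θ s₀) (G : Polynomial (Polynomial ℂ)) :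
    MeromorphicAt (fun s => ev (φ s) (θ s) G) s₀ := by
  have hpoly : ∀ g : Polynomial ℂ, MeromorphicAt (fun s => g.eval (φ s)) s₀ := by
    intro g
    have h : (fun s => g.eval (φ s)) = fun s =>
        ∑ i ∈ Finset.range (g.natDegree + 1), g.coeff i * φ s ^ i := by
      funext s
      exact Polynomial.eval_eq_sum_range _
    rw [h]
    exact MeromorphicAt.fun_sum fun i _ => (MeromorphicAt.const _ _).mul (hφ.pow i)
  have h : (fun s => ev (φ s) (θ s) G) = fun s =>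
      ∑ i ∈ Finset.range (G.natDegree + 1), (G.coeff i).eval (φ s) * θ s ^ i := by
    funext s
    exact c8a_ev_eq _ _ _
  rw [h]
  exact MeromorphicAt.fun_sum fun i _ => (hpoly _).mul (hθ.pow i)

lemma c8i_punctured {b : ℕ} (hb : 0 < b) (g : Polynomial ℂ) (hg : g ≠ 0) :
    ∀ᶠ s in 𝓝[≠] (0 : ℂ), g.eval (s ^ b)⁻¹ ≠ 0 := by
  have h1 : ∀ᶠ x in Bornology.cobounded ℂ, g.eval x ≠ 0 := by
    have hfin : {x | g.eval x = 0}.Finite := Polynomial.finite_setOfPred_isRoot hg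
    have h2 := Bornology.isCobounded_def.mp hfin.isBounded.compl
    filter_upwards [h2] with x hx
    exact hx
  have h3 : Tendsto (fun s : ℂ => s ^ b) (𝓝[≠] 0) (𝓝[≠] 0) := by
    refine tendsto_nhdsWithin_iff.mpr ⟨?_, ?_⟩
    · have h4 : Tendsto (fun s : ℂ => s ^ b) (𝓝 0) (𝓝 (0 ^ b)) := (continuous_pow b).tendsto 0
      rw [zero_pow hb.ne'] at h4
      exact h4.mono_left nhdsWithin_le_nhds
    · filter_upwards [self_mem_nhdsWithin] with s hs
      exact pow_ne_zero b hs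
  exact (tendsto_inv₀_nhdsNE_zero.comp h3).eventually h1

/-- the coefficients at infinity -/
lemma c8i_coeff (P : Polynomial ℂ) (K : ℕ) (hK : P.natDegree ≤ K) (u : ℂ) (hu : u ≠ 0) :
    u ^ K * P.eval u⁻¹ =
      ∑ k ∈ Finset.range (P.natDegree + 1), P.coeff k * u ^ (K - k) := by
  rw [Polynomial.eval_eq_sum_range, Finset.mul_sum]
  refine Finset.sum_congr rfl fun k hk => ?_
  have hk' : k ≤ K := by
    have := Finset.mem_range.mp hk
    omega
  have h1 : u ^ K = u ^ (K - k) * u ^ k := by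
    rw [← pow_add]
    congr 1
    omega
  have huk : u ^ k ≠ 0 := pow_ne_zero _ hu
  rw [h1, inv_pow]
  field_simp

theorem branches_infinity {n : ℕ} {W : Set (Fin n → ℂ)} (hW0 : ∀ y ∈ W, ∀ j, y j ≠ 0)
    {a : Fin n → ℤ} {g : Polynomial ℂ} {χ : Polynomial (Polynomial ℂ)}
    {A : Fin n → Polynomial (Polynomial ℂ)} (hP : Pres W a g χ A) :
    ∃ (m b : ℕ) (r : ℝ) (p : Fin m → Fin n → ℤ) (L : Fin m → ℂ → Fin n → ℂ),
      0 < b ∧ 0 < r ∧ (∀ i, SChart W r (p i) (L i)) ∧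
      (∀ i, ∀ s : ℂ, s ≠ 0 → ‖s‖ < r → ∏ j, (pt (p i) (L i) s j) ^ (a j) = (s ^ b)⁻¹) ∧
      (∀ s : ℂ, s ≠ 0 → ‖s‖ < r → ∀ y ∈ W, ∏ j, (y j) ^ (a j) = (s ^ b)⁻¹ →
        ∃ i, y = pt (p i) (L i) s) := by
  set m := χ.natDegree with hm
  -- a bound for the degrees of the coefficients
  set M : ℕ := ∑ i ∈ Finset.range m, (χ.coeff i).natDegree with hM
  have hMle : ∀ i : Fin m, (χ.coeff i).natDegree ≤ M * (m - (i : ℕ)) := by
    intro i
    have h1 : (χ.coeff i).natDegree ≤ M :=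
      Finset.single_le_sum (f := fun i => (χ.coeff i).natDegree) (fun _ _ => Nat.zero_le _)
        (Finset.mem_range.mpr i.2)
    have h2 : 1 ≤ m - (i : ℕ) := by have := i.2; omega
    calc (χ.coeff i).natDegree ≤ M * 1 := by rw [mul_one]; exact h1
      _ ≤ M * (m - (i : ℕ)) := Nat.mul_le_mul_left _ h2
  set α : Fin m → ℂ → ℂ := fun i u =>
    ∑ k ∈ Finset.range ((χ.coeff i).natDegree + 1),
      (χ.coeff i).coeff k * u ^ (M * (m - (i : ℕ)) - k) with hαdef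
  have hα : ∀ i : Fin m, AnalyticAt ℂ (α i) 0 := by
    intro i
    rw [hαdef]
    exact Finset.analyticAt_fun_sum _ fun k _ => analyticAt_const.mul (analyticAt_id.pow _)
  obtain ⟨b, θ, hb, hθ, hroots⟩ := puiseux m α hα
  have hroots' : ∀ᶠ s in 𝓝[≠] (0 : ℂ), s ≠ 0 ∧ ∀ T : ℂ, ev (s ^ b)⁻¹ T χ = 0 ↔
      ∃ i, T = θ i s / (s ^ b) ^ M := by
    filter_upwards [hroots.filter_mono nhdsWithin_le_nhds, self_mem_nhdsWithin] with s hs hs0
    refine ⟨hs0, fun T => ?_⟩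
    have hu : s ^ b ≠ 0 := pow_ne_zero _ hs0
    set u := s ^ b with hudef
    have h1 := hs (u ^ M * T)
    have h2 : (u ^ M * T) ^ m + ∑ i, α i u * (u ^ M * T) ^ (i : ℕ) =
        u ^ (M * m) * ev u⁻¹ T χ := by
      rw [c8a_ev_monic _ _ _ hP.monic, mul_add, Finset.mul_sum, mul_pow, ← pow_mul]
      congr 1
      refine Finset.sum_congr rfl fun i _ => ?_
      have h3 := c8i_coeff (χ.coeff i) (M * (m - (i : ℕ))) (hMle i) u hu
      have h4 : α i u = u ^ (M * (m - (i : ℕ))) * (χ.coeff i).eval u⁻¹ := by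
        rw [h3]
      have h5 : u ^ (M * m) = u ^ (M * (m - (i : ℕ))) * (u ^ M) ^ (i : ℕ) := by
        rw [← pow_mul u M (i : ℕ), ← pow_add, ← mul_add]
        congr 2
        have := i.2
        omega
      rw [h4, h5, mul_pow]
      ring
    rw [h2] at h1
    constructor
    · intro h0
      rw [h0, mul_zero] at h1
      obtain ⟨i, -, hi⟩ := Finset.prod_eq_zero_iff.mp h1.symm
      refine ⟨i, ?_⟩
      rw [eq_div_iff (pow_ne_zero _ hu), mul_comm]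
      exact sub_eq_zero.mp hi
    · rintro ⟨i, hi⟩
      have h6 : ∏ i, (u ^ M * T - θ i s) = 0 := by
        refine Finset.prod_eq_zero (Finset.mem_univ i) ?_
        rw [hi, mul_div_cancel₀ _ (pow_ne_zero _ hu), sub_self]
      rw [h6] at h1
      exact (mul_eq_zero.mp h1).resolve_left (pow_ne_zero _ hu)
  have hpow : MeromorphicAt (fun s : ℂ => s ^ b) 0 := (analyticAt_id.pow b).meromorphicAt
  have hfmer : MeromorphicAt (fun s : ℂ => (s ^ b)⁻¹) 0 := hpow.inv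
  have hθmer : ∀ i, MeromorphicAt (fun s : ℂ => θ i s / (s ^ b) ^ M) 0 := fun i =>
    (hθ i).meromorphicAt.div (hpow.pow M)
  set Y : Fin m → ℂ → Fin n → ℂ := fun i s j =>
    ev (s ^ b)⁻¹ (θ i s / (s ^ b) ^ M) (A j) / g.eval (s ^ b)⁻¹ with hYdef
  have hgmer : MeromorphicAt (fun s : ℂ => g.eval (s ^ b)⁻¹) 0 := by
    have h : (fun s : ℂ => g.eval (s ^ b)⁻¹) = fun s =>
        ∑ i ∈ Finset.range (g.natDegree + 1), g.coeff i * ((s ^ b)⁻¹) ^ i := by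
      funext s
      exact Polynomial.eval_eq_sum_range _
    rw [h]
    exact MeromorphicAt.fun_sum fun i _ => (MeromorphicAt.const _ _).mul (hfmer.pow i)
  have hYmer : ∀ i j, MeromorphicAt (fun s => Y i s j) 0 := fun i j =>
    (c8i_ev_meromorphic hfmer (hθmer i) (A j)).div hgmer
  have hgood : ∀ᶠ s in 𝓝[≠] (0 : ℂ), g.eval (s ^ b)⁻¹ ≠ 0 ∧
      (∀ T : ℂ, ev (s ^ b)⁻¹ T χ = 0 ↔ ∃ i, T = θ i s / (s ^ b) ^ M) := by
    filter_upwards [c8i_punctured hb g hP.g_ne, hroots'] with s h1 h2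
    exact ⟨h1, h2.2⟩
  have hYW : ∀ i, ∀ᶠ s in 𝓝[≠] (0 : ℂ), Y i s ∈ W := by
    intro i
    filter_upwards [hgood] with s hs
    exact (hP.toW _ _ hs.1 ((hs.2 _).mpr ⟨i, rfl⟩)).1
  choose R p L hSC hpt using fun i => chart_of_meromorphic hW0 (Y i) (hYmer i) (hYW i)
  obtain ⟨r₀, hr₀, hball⟩ := Metric.eventually_nhds_iff_ball.mp
    (eventually_nhdsWithin_iff.mp hgood)
  obtain ⟨r, hr, hrr₀, hrR⟩ := c8a_common R (fun i => (hSC i).pos) r₀ hr₀
  have hlocal : ∀ s : ℂ, s ≠ 0 → ‖s‖ < r → g.eval (s ^ b)⁻¹ ≠ 0 ∧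
      (∀ T : ℂ, ev (s ^ b)⁻¹ T χ = 0 ↔ ∃ i, T = θ i s / (s ^ b) ^ M) := fun s hs hsr =>
    hball s (by rw [mem_ball_zero_iff]; exact lt_of_lt_of_le hsr hrr₀) hs
  have hptr : ∀ i, ∀ s : ℂ, s ≠ 0 → ‖s‖ < r → pt (p i) (L i) s = Y i s := fun i s hs hsr =>
    hpt i s hs (lt_of_lt_of_le hsr (hrR i))
  refine ⟨m, b, r, p, L, hb, hr, fun i => (hSC i).restrict hr (hrR i), ?_, ?_⟩
  · intro i s hs hsr
    obtain ⟨h1, h2⟩ := hlocal s hs hsr
    rw [hptr i s hs hsr]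
    exact (hP.toW _ _ h1 ((h2 _).mpr ⟨i, rfl⟩)).2
  · intro s hs hsr y hy hya
    obtain ⟨h1, h2⟩ := hlocal s hs hsr
    obtain ⟨θ', h3, h4⟩ := hP.ofW y hy (by rw [hya]; exact h1)
    rw [hya] at h3 h4
    obtain ⟨i, hi⟩ := (h2 θ').mp h3
    refine ⟨i, ?_⟩
    rw [hptr i s hs hsr]
    funext j
    rw [h4 j, hi]

end XW
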