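import Pool.Agent.Lib.MP_228259_lc.C4d
import Pool.Agent.Lib.MP_228259_lc.C5a
import Pool.Agent.Lib.MP_228259_lc.C8a
import Pool.Agent.Lib.MP_228259_lc.C8i
import Pool.Agent.Lib.MP_228259_lc.C8b

/-!
C8c: see /team-store/XW_blueprint.md
C8c cover. E = {y in W : g(y^a) = 0} finite by fiber_finite over the roots of g. Family: branches over each root of g and over infinity. Given rho': K = {y in W : f=y^a, |f| <= 1/eps^b.., |f - f0| >= eps^b for roots f0}, compact_part. Last clause: branches_finite at f0 = y^a with g(f0) <> 0; nonconstant because y^a = f0 + s^b.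
-/

namespace XW

open Filter Topology MvPolynomial

/-- restriction of a chart to a smaller radius -/
private theorem c8c_restrict {n : ℕ} {W : Set (Fin n → ℂ)} {r r' : ℝ} {p : Fin n → ℤ}
    {L : ℂ → Fin n → ℂ} (h : SChart W r p L) (h0 : 0 < r') (hr : r' ≤ r) : SChart W r' p L where
  pos := h0
  diff := fun j => (h.diff j).mono (Metric.ball_subset_ball hr)
  mem := fun s hs hs' => h.mem s hs (hs'.trans_le hr)

/-- the `b`-th power is not constant near any point -/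
private theorem c8c_pow (b : ℕ) (hb : 0 < b) (s₀ : ℂ) : ¬ ∀ᶠ s in 𝓝 s₀, s ^ b = s₀ ^ b := by
  intro h
  have h1 : {s : ℂ | s ^ b = s₀ ^ b}.Finite := by
    have h2 : (Polynomial.X ^ b - Polynomial.C (s₀ ^ b) : Polynomial ℂ) ≠ 0 :=
      Polynomial.X_pow_sub_C_ne_zero hb _
    refine (Polynomial.rootSet_finite (Polynomial.X ^ b - Polynomial.C (s₀ ^ b)) ℂ).subset ?_
    intro s hs
    rw [Polynomial.mem_rootSet]
    refine ⟨h2, ?_⟩
    have h3 : s ^ b = s₀ ^ b := hs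
    simp [h3]
  exact infinite_of_mem_nhds s₀ h h1

theorem cover {n : ℕ} {I : Ideal (MvPolynomial (Fin n) ℂ)} {W : Set (Fin n → ℂ)}
    (hI : CurveData I W) (a : Fin n → ℤ) (ha : a ≠ 0) :
    ∃ (E : Set (Fin n → ℂ)) (ι : Type) (_ : Finite ι) (r : ℝ) (p : ι → Fin n → ℤ)
      (L : ι → ℂ → Fin n → ℂ), E.Finite ∧ (∀ i, SChart W r (p i) (L i)) ∧
      (∀ i, ∀ s₀ : ℂ, s₀ ≠ 0 → ‖s₀‖ < r →
        ¬ ∀ᶠ s in 𝓝 s₀, pt (p i) (L i) s = pt (p i) (L i) s₀) ∧
      (∀ ρ' : ℝ, 0 < ρ' → ∃ K : Set (Fin n → ℂ), IsCompact K ∧ K ⊆ W \ E ∧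
        ∀ y ∈ W \ E, y ∈ K ∨ ∃ (i : ι) (s : ℂ), s ≠ 0 ∧ ‖s‖ < r ∧ ‖s‖ < ρ' ∧
          y = pt (p i) (L i) s) ∧
      (∀ y ∈ W \ E, ∃ (ρ : ℝ) (ℓ : ℂ → Fin n → ℂ), LogDisc W 0 ρ ℓ ∧
        (fun j => Complex.exp (ℓ 0 j)) = y ∧ ¬ ∀ᶠ t in 𝓝 (0 : ℂ), ℓ t = ℓ 0) := by
  classical
  obtain ⟨g, χ, A, hP⟩ := presentation hI a ha
  have hW0 : ∀ y ∈ W, ∀ j, y j ≠ 0 := by
    intro y hy
    rw [hI.W_eq] at hy
    exact hy.2
  obtain ⟨mi, bi, ri, pi', Li, hbi, hri, hSi, hpi, hci⟩ := branches_infinity hW0 hP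
  choose mf bf rf pf Lf hmf hbf hrf hSf hpf hcf hgf using fun f₀ : ℂ => branches_finite hW0 hP f₀
  set R : Finset ℂ := g.roots.toFinset with hR
  have hRmem : ∀ f, f ∈ R ↔ g.eval f = 0 := by
    intro f
    rw [hR, Multiset.mem_toFinset, Polynomial.mem_roots hP.g_ne]
    rfl
  -- common radius
  obtain ⟨r, hr0, hrr, hrR⟩ : ∃ r : ℝ, 0 < r ∧ r ≤ ri ∧ ∀ f ∈ R, r ≤ rf f := by
    have h1 : ∀ S : Finset ℂ, ∃ r : ℝ, 0 < r ∧ r ≤ ri ∧ ∀ f ∈ S, r ≤ rf f := by
      intro S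
      induction S using Finset.induction_on with
      | empty => exact ⟨ri, hri, le_rfl, by simp⟩
      | insert f S _ ih =>
        obtain ⟨r, h1, h2, h3⟩ := ih
        refine ⟨min r (rf f), lt_min h1 (hrf f), (min_le_left _ _).trans h2, ?_⟩
        intro f' hf'
        rcases Finset.mem_insert.mp hf' with rfl | h
        · exact min_le_right _ _
        · exact (min_le_left _ _).trans (h3 f' h)
    exact h1 R
  let ι : Type := (Σ f : R, Fin (mf f)) ⊕ Fin mi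
  let p : ι → Fin n → ℤ := Sum.elim (fun c => pf c.1 c.2) pi'
  let L : ι → ℂ → Fin n → ℂ := Sum.elim (fun c => Lf c.1 c.2) Li
  set E : Set (Fin n → ℂ) := {y | y ∈ W ∧ g.eval (∏ j, (y j) ^ (a j)) = 0} with hE
  have hEfin : E.Finite := by
    have h1 : E ⊆ ⋃ f ∈ (R : Set ℂ), {y ∈ W | ∏ j, (y j) ^ (a j) = f} := by
      rintro y ⟨hy, hg⟩
      rw [Set.mem_iUnion₂]
      exact ⟨_, Finset.mem_coe.mpr ((hRmem _).mpr hg), hy, rfl⟩
    exact (Set.Finite.biUnion R.finite_toSet fun f _ => fiber_finite hI a ha f).subset h1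
  refine ⟨E, ι, inferInstance, r, p, L, hEfin, ?_, ?_, ?_, ?_⟩
  · rintro (⟨⟨f, hf⟩, i⟩ | i)
    · exact c8c_restrict (hSf f i) hr0 (hrR f hf)
    · exact c8c_restrict (hSi i) hr0 hrr
  · rintro (⟨⟨f, hf⟩, i⟩ | i) s₀ hs₀ hs₀r hconst
    · have h1 : ∀ᶠ s in 𝓝 s₀, s ^ bf f = s₀ ^ bf f := by
        have hne : ∀ᶠ s in 𝓝 s₀, s ≠ 0 := isOpen_ne.mem_nhds hs₀
        have hlt : ∀ᶠ s in 𝓝 s₀, ‖s‖ < r :=
          (isOpen_lt continuous_norm continuous_const).mem_nhds hs₀r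
        filter_upwards [hconst, hne, hlt] with s h2 h3 h4
        have h5 := hpf f i s h3 (h4.trans_le (hrR f hf))
        have h6 := hpf f i s₀ hs₀ (hs₀r.trans_le (hrR f hf))
        have h7 : pt (pf f i) (Lf f i) s = pt (pf f i) (Lf f i) s₀ := h2
        rw [h7, h6] at h5
        exact (add_left_cancel h5).symm
      exact c8c_pow _ (hbf f) s₀ h1
    · have h1 : ∀ᶠ s in 𝓝 s₀, s ^ bi = s₀ ^ bi := by
        have hne : ∀ᶠ s in 𝓝 s₀, s ≠ 0 := isOpen_ne.mem_nhds hs₀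
        have hlt : ∀ᶠ s in 𝓝 s₀, ‖s‖ < r :=
          (isOpen_lt continuous_norm continuous_const).mem_nhds hs₀r
        filter_upwards [hconst, hne, hlt] with s h2 h3 h4
        have h5 := hpi i s h3 (h4.trans_le hrr)
        have h6 := hpi i s₀ hs₀ (hs₀r.trans_le hrr)
        have h7 : pt (pi' i) (Li i) s = pt (pi' i) (Li i) s₀ := h2
        rw [h7, h6] at h5
        exact (inv_injective h5).symm
      exact c8c_pow _ hbi s₀ h1
  · intro ρ' hρ'
    set ε : ℝ := min r ρ' with hε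
    have hε0 : 0 < ε := lt_min hr0 hρ'
    set K₀ : Set ℂ := {f | ‖f‖ ≤ (ε ^ bi)⁻¹ ∧ ∀ f₀ ∈ R, ε ^ bf f₀ ≤ ‖f - f₀‖} with hK₀
    have hK₀c : IsCompact K₀ := by
      refine IsCompact.of_isClosed_subset (isCompact_closedBall (0 : ℂ) ((ε ^ bi)⁻¹)) ?_ ?_
      · have h1 : K₀ = {f | ‖f‖ ≤ (ε ^ bi)⁻¹} ∩
            ⋂ f₀ ∈ R, {f | ε ^ bf f₀ ≤ ‖f - f₀‖} := by
          ext f
          simp only [hK₀, Set.mem_inter_iff, Set.mem_iInter]
          rfl
        rw [h1]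
        refine (isClosed_le continuous_norm continuous_const).inter ?_
        refine isClosed_biInter fun f₀ _ => ?_
        exact isClosed_le continuous_const (continuous_id.sub continuous_const).norm
      · intro f hf
        rw [mem_closedBall_zero_iff]
        exact hf.1
    have hK₀g : ∀ f ∈ K₀, g.eval f ≠ 0 := by
      intro f hf h
      have h1 := hf.2 f ((hRmem f).mpr h)
      rw [sub_self, norm_zero] at h1
      exact absurd h1 (not_le.mpr (pow_pos hε0 _))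
    refine ⟨{y ∈ W | ∏ j, (y j) ^ (a j) ∈ K₀}, compact_part hP K₀ hK₀c hK₀g, ?_, ?_⟩
    · rintro y ⟨hy, hyK⟩
      exact ⟨hy, fun h => hK₀g _ hyK h.2⟩
    · rintro y ⟨hy, hyE⟩
      have hgy : g.eval (∏ j, (y j) ^ (a j)) ≠ 0 := fun h => hyE ⟨hy, h⟩
      by_cases hyK : ∏ j, (y j) ^ (a j) ∈ K₀
      · exact Or.inl ⟨hy, hyK⟩
      · right
        set f : ℂ := ∏ j, (y j) ^ (a j) with hf
        by_cases h1 : ‖f‖ ≤ (ε ^ bi)⁻¹
        · have h2 : ∃ f₀ ∈ R, ‖f - f₀‖ < ε ^ bf f₀ := by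
            by_contra h3
            push Not at h3
            exact hyK ⟨h1, h3⟩
          obtain ⟨f₀, hf₀, h3⟩ := h2
          obtain ⟨s, hs⟩ := IsAlgClosed.exists_pow_nat_eq (f - f₀) (hbf f₀)
          have hne : f - f₀ ≠ 0 := by
            intro h
            rw [sub_eq_zero] at h
            exact hgy (h ▸ (hRmem f₀).mp hf₀)
          have hs0 : s ≠ 0 := by
            intro h
            rw [h, zero_pow (hbf f₀).ne'] at hs
            exact hne hs.symm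
          have hsε : ‖s‖ < ε := by
            refine lt_of_pow_lt_pow_left₀ (bf f₀) hε0.le ?_
            rw [← norm_pow, hs]
            exact h3
          have hsr : ‖s‖ < r := hsε.trans_le (min_le_left _ _)
          obtain ⟨i, hi⟩ := hcf f₀ s hs0 (hsr.trans_le (hrR f₀ hf₀)) y hy (by
            rw [hs, ← hf]
            ring)
          exact ⟨Sum.inl ⟨⟨f₀, hf₀⟩, i⟩, s, hs0, hsr, hsε.trans_le (min_le_right _ _), hi⟩
        · push Not at h1
          have hεb : 0 < ε ^ bi := pow_pos hε0 _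
          have hf0 : f ≠ 0 := by
            intro h
            rw [h, norm_zero] at h1
            exact absurd h1 (not_lt.mpr (inv_nonneg.mpr hεb.le))
          obtain ⟨s, hs⟩ := IsAlgClosed.exists_pow_nat_eq (f⁻¹) hbi
          have hs0 : s ≠ 0 := by
            intro h
            rw [h, zero_pow hbi.ne'] at hs
            exact inv_ne_zero hf0 hs.symm
          have hsε : ‖s‖ < ε := by
            refine lt_of_pow_lt_pow_left₀ bi hε0.le ?_
            rw [← norm_pow, hs, norm_inv]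
            exact inv_lt_of_inv_lt₀ hεb h1
          have hsr : ‖s‖ < r := hsε.trans_le (min_le_left _ _)
          obtain ⟨i, hi⟩ := hci s hs0 (hsr.trans_le hrr) y hy (by
            rw [hs, ← hf, inv_inv])
          exact ⟨Sum.inr i, s, hs0, hsr, hsε.trans_le (min_le_right _ _), hi⟩
  · rintro y ⟨hy, hyE⟩
    have hgy : g.eval (∏ j, (y j) ^ (a j)) ≠ 0 := fun h => hyE ⟨hy, h⟩
    set f₀ : ℂ := ∏ j, (y j) ^ (a j) with hf₀
    obtain ⟨hp0, hc⟩ := hgf f₀ hgy
    obtain ⟨i, hi⟩ := hc y hy hf₀.symm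
    have hpt : ∀ t : ℂ, (fun j => Complex.exp (Lf f₀ i t j)) = pt (pf f₀ i) (Lf f₀ i) t := by
      intro t
      funext j
      rw [pt, hp0 i, Pi.zero_apply, zpow_zero, one_mul]
    refine ⟨rf f₀, Lf f₀ i, ⟨hrf f₀, (hSf f₀ i).diff, ?_⟩, ?_, ?_⟩
    · intro t ht
      rw [hpt]
      by_cases ht0 : t = 0
      · rw [ht0, ← hi]
        exact hy
      · exact (hSf f₀ i).mem t ht0 (by rwa [mem_ball_zero_iff] at ht)
    · rw [hpt, ← hi]
    · intro hconst
      have h1 : ∀ᶠ t in 𝓝 (0 : ℂ), t ^ bf f₀ = 0 ^ bf f₀ := by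
        have hlt : ∀ᶠ t : ℂ in 𝓝 (0 : ℂ), ‖t‖ < rf f₀ :=
          (isOpen_lt continuous_norm continuous_const).mem_nhds (by simpa using hrf f₀)
        filter_upwards [hconst, hlt] with t h2 h3
        by_cases ht0 : t = 0
        · rw [ht0]
        · have h4 := hpf f₀ i t ht0 h3
          have h5 : pt (pf f₀ i) (Lf f₀ i) t = y := by
            rw [← hpt, h2, hpt, ← hi]
          rw [h5, ← hf₀] at h4
          rw [zero_pow (hbf f₀).ne']
          have h6 : f₀ + 0 = f₀ + t ^ bf f₀ := by rw [add_zero]; exact h4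
          exact (add_left_cancel h6).symm
      exact c8c_pow _ (hbf f₀) 0 h1

end XW
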