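import Mathlib

/-!
Definitions for the exponential closedness theorem of `X × W`, `W` a curve (MP_228259_lc).
-/

namespace XW

open Filter Topology

/-- the point of `(ℂˣ)ⁿ` with coordinates `s ^ p_j * exp (L_j(s))` -/
noncomputable def pt {n : ℕ} (p : Fin n → ℤ) (L : ℂ → Fin n → ℂ) (s : ℂ) : Fin n → ℂ :=
  fun j => s ^ (p j) * Complex.exp (L s j)

/-- a punctured analytic disc inside `W`, in the form `s ↦ pt p L s` -/
structure SChart {n : ℕ} (W : Set (Fin n → ℂ)) (r : ℝ) (p : Fin n → ℤ)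
    (L : ℂ → Fin n → ℂ) : Prop where
  pos : 0 < r
  diff : ∀ j, DifferentiableOn ℂ (fun s => L s j) (Metric.ball 0 r)
  mem : ∀ s : ℂ, s ≠ 0 → ‖s‖ < r → pt p L s ∈ W

/-- an analytic disc in `log W` -/
structure LogDisc {n : ℕ} (W : Set (Fin n → ℂ)) (t₀ : ℂ) (r : ℝ)
    (ℓ : ℂ → Fin n → ℂ) : Prop where
  pos : 0 < r
  diff : ∀ j, DifferentiableOn ℂ (fun t => ℓ t j) (Metric.ball t₀ r)
  mem : ∀ t ∈ Metric.ball t₀ r, (fun j => Complex.exp (ℓ t j)) ∈ W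

/-- for every monomial `y ^ a` and every `lam` there is a chart of `W` on which
`y ^ a = lam + s ^ b`. -/
def HasCharts {n : ℕ} (W : Set (Fin n → ℂ)) : Prop :=
  ∀ a : Fin n → ℤ, a ≠ 0 → ∀ lam : ℂ,
    ∃ (b : ℕ) (r : ℝ) (p : Fin n → ℤ) (L : ℂ → Fin n → ℂ),
      0 < b ∧ SChart W r p L ∧
      ∀ s : ℂ, s ≠ 0 → ‖s‖ < r → ∏ j, (pt p L s j) ^ (a j) = lam + s ^ b

/-- every real value is taken by `Re (ν · log y)`, with a non locally constant `ν · log y` -/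
def HitsReal {n : ℕ} (W : Set (Fin n → ℂ)) : Prop :=
  ∀ ν : Fin n → ℝ, ν ≠ 0 → ∀ ρ : ℝ,
    ∃ (t₀ : ℂ) (r : ℝ) (ℓ : ℂ → Fin n → ℂ), LogDisc W t₀ r ℓ ∧
      (∑ j, (ν j : ℂ) * ℓ t₀ j).re = ρ ∧
      ¬ ∀ᶠ t in 𝓝 t₀, ∑ j, (ν j : ℂ) * ℓ t j = ∑ j, (ν j : ℂ) * ℓ t₀ j

/-- `P` has no zero whose exponential lies in `W` -/
def Bad {n : ℕ} (W : Set (Fin n → ℂ)) (P : MvPolynomial (Fin n) ℂ) : Prop :=
  ∀ z : Fin n → ℂ, (fun j => Complex.exp (z j)) ∈ W → MvPolynomial.eval z P ≠ 0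

/-- derivative of `H` in the direction `v` -/
noncomputable def dirD {n : ℕ} (v : Fin n → ℂ) (H : MvPolynomial (Fin n) ℂ) :
    MvPolynomial (Fin n) ℂ :=
  ∑ j, MvPolynomial.C (v j) * MvPolynomial.pderiv j H

/-- an integer vector as complex vector -/
def zc {n : ℕ} (p : Fin n → ℤ) : Fin n → ℂ := fun j => (p j : ℂ)

/-- a rational vector as complex vector -/
def qc {n : ℕ} (q : Fin n → ℚ) : Fin n → ℂ := fun j => (q j : ℂ)

/-- a real vector as complex vector -/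
def rc {n : ℕ} (κ : Fin n → ℝ) : Fin n → ℂ := fun j => (κ j : ℂ)

/-- the linear form `∑ q_j X_j` -/
noncomputable def lin {n : ℕ} (q : Fin n → ℚ) : MvPolynomial (Fin n) ℂ :=
  ∑ j, MvPolynomial.C (q j : ℂ) * MvPolynomial.X j

/-- `P = ∑_{i ≤ d} H ^ (E i) * B i` is the decomposition of `P` in homogeneous parts,
with the powers of the homogeneous `H` (degree `h`) taken out; `d` is the degree. -/
structure Dec {n : ℕ} (P H : MvPolynomial (Fin n) ℂ) (d h : ℕ) (E : ℕ → ℕ)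
    (B : ℕ → MvPolynomial (Fin n) ℂ) : Prop where
  hom : H.IsHomogeneous h
  hpos : 0 < h
  comp : ∀ i, i ≤ d → MvPolynomial.homogeneousComponent i P = H ^ (E i) * B i
  sum : P = ∑ i ∈ Finset.range (d + 1), H ^ (E i) * B i
  deg : ∀ i, i ≤ d → B i ≠ 0 → E i * h ≤ i ∧ (B i).IsHomogeneous (i - E i * h)
  ndvd : ∀ i, i ≤ d → B i = 0 ∨ ¬ H ∣ B i
  degree : P.totalDegree = d
  top : B d ≠ 0
  epos : 0 < E d

end XW
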