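import Pool.Agent.Lib.MP_228259_lc.Defs

namespace XW

open Filter Topology

/-- `W` is the trace on `(ℂˣ)ⁿ` of the zero set of the prime ideal `I`; it is multiplicatively
free and any two coordinates are algebraically dependent (so `W` is a curve). -/
structure CurveData {n : ℕ} (I : Ideal (MvPolynomial (Fin n) ℂ)) (W : Set (Fin n → ℂ)) :
    Prop where
  prime : I.IsPrime
  W_eq : W = {y | (∀ f ∈ I, MvPolynomial.eval y f = 0) ∧ ∀ j, y j ≠ 0}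
  free : ∀ m : Fin n → ℤ, m ≠ 0 → ∀ c : ℂ, ∃ y ∈ W, ∏ j, (y j) ^ (m j) ≠ c
  curve : ∀ i j : Fin n, i ≠ j → ∃ f ∈ I, f ≠ 0 ∧ f.vars ⊆ {i, j}

/-- evaluation of a bivariate polynomial `G(F)(T)` at `F = φ`, `T = θ` in a `ℂ`-algebra -/
noncomputable def ev {B : Type*} [CommRing B] [Algebra ℂ B] (φ θ : B)
    (G : Polynomial (Polynomial ℂ)) : B :=
  Polynomial.eval₂ (Polynomial.aeval φ : Polynomial ℂ →ₐ[ℂ] B).toRingHom θ G

/-- `W` is presented, outside finitely many fibres of `f = y ^ a`, by one monic equation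
`χ(f, θ) = 0` and `y_j = A_j(f, θ) / g(f)`. -/
structure Pres {n : ℕ} (W : Set (Fin n → ℂ)) (a : Fin n → ℤ) (g : Polynomial ℂ)
    (χ : Polynomial (Polynomial ℂ)) (A : Fin n → Polynomial (Polynomial ℂ)) : Prop where
  g_ne : g ≠ 0
  monic : χ.Monic
  deg_pos : 0 < χ.natDegree
  toW : ∀ f θ : ℂ, g.eval f ≠ 0 → ev f θ χ = 0 →
    (fun j => ev f θ (A j) / g.eval f) ∈ W ∧ ∏ j, (ev f θ (A j) / g.eval f) ^ (a j) = f
  ofW : ∀ y ∈ W, g.eval (∏ j, (y j) ^ (a j)) ≠ 0 →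
    ∃ θ : ℂ, ev (∏ j, (y j) ^ (a j)) θ χ = 0 ∧
      ∀ j, y j = ev (∏ j, (y j) ^ (a j)) θ (A j) / g.eval (∏ j, (y j) ^ (a j))

end XW
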