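import Pool.Agent.Lib.MP_228259_lc.DefsC

namespace XW

open MvPolynomial

/-- evaluation of a polynomial in `x` with coefficients in `ℂ[y]` -/
noncomputable def ev2 {n : ℕ} (x y : Fin n → ℂ)
    (F : MvPolynomial (Fin n) (MvPolynomial (Fin n) ℂ)) : ℂ :=
  eval x (map (eval y) F)

end XW
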