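import Pool.Agent.Lib.MP_228259_lc.DefsC

/-!
E1: see /team-store/XW_blueprint.md
E1 hasCharts_diff. Chart of HasCharts a lam: pt s = e implies lam + s^b = prod e^a, so at most b values of s per e in E: shrink the radius to avoid the nonzero ones.
-/

namespace XW

open Filter Topology MvPolynomial

theorem hasCharts_diff {n : ℕ} {W : Set (Fin n → ℂ)} (hW : HasCharts W)
    (E : Set (Fin n → ℂ)) (hE : E.Finite) : HasCharts (W \ E) := by
  intro a ha lam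
  obtain ⟨b, r, p, L, hb, hc, hs⟩ := hW a ha lam
  have hfin : {s : ℂ | s ≠ 0 ∧ ‖s‖ < r ∧ pt p L s ∈ E}.Finite := by
    have h1 : {s : ℂ | s ≠ 0 ∧ ‖s‖ < r ∧ pt p L s ∈ E} ⊆
        ⋃ e ∈ E, {s : ℂ | s ^ b = ∏ j, (e j) ^ (a j) - lam} := by
      rintro s ⟨h1, h2, h3⟩
      rw [Set.mem_iUnion₂]
      refine ⟨pt p L s, h3, ?_⟩
      show s ^ b = ∏ j, (pt p L s j) ^ (a j) - lam
      rw [hs s h1 h2]
      ring
    refine (hE.biUnion fun e _ => ?_).subset h1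
    refine (Multiset.finite_toSet (Polynomial.nthRoots b (∏ j, (e j) ^ (a j) - lam))).subset ?_
    intro s hs'
    exact (Polynomial.mem_nthRoots hb).2 hs'
  have h0 : (0 : ℂ) ∈ {s : ℂ | s ≠ 0 ∧ ‖s‖ < r ∧ pt p L s ∈ E}ᶜ := fun h => h.1 rfl
  obtain ⟨r', hr', hball⟩ := Metric.isOpen_iff.1 hfin.isClosed.isOpen_compl 0 h0
  refine ⟨b, min r r', p, L, hb, ⟨lt_min hc.pos hr', fun j => ?_, ?_⟩, ?_⟩
  · exact (hc.diff j).mono (Metric.ball_subset_ball (min_le_left _ _))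
  · intro s h1 h2
    have h3 : ‖s‖ < r := lt_of_lt_of_le h2 (min_le_left _ _)
    refine ⟨hc.mem s h1 h3, fun h4 => ?_⟩
    have h5 : s ∈ Metric.ball (0 : ℂ) r' := by
      rw [mem_ball_zero_iff]
      exact lt_of_lt_of_le h2 (min_le_right _ _)
    exact hball h5 ⟨h1, h3, h4⟩
  · intro s h1 h2
    exact hs s h1 (lt_of_lt_of_le h2 (min_le_left _ _))

end XW
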