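import Pool.Agent.Lib.MP_228259_lc.DefsC

/-!
E2: see /team-store/XW_blueprint.md
E2 hitsReal_diff. LogDisc at t0 with g = nu.l not locally constant, Re g(t0) = rho. g is an open map near t0: near t0 there are infinitely many t with Re g(t) = rho (values g(t0) + i eta). For e in E, exp l(t) = e with l(t) close to l(t0) determines l(t) (exp is locally injective), so g(t) = one value; so for small eta <> 0 avoid finitely many values. Shrink the disc around t1 so that it avoids E (exp l(t1) not in E, E finite, continuity).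
-/

namespace XW

open Filter Topology MvPolynomial

theorem hitsReal_diff {n : ℕ} {W : Set (Fin n → ℂ)} (hW : HitsReal W)
    (E : Set (Fin n → ℂ)) (hE : E.Finite) : HitsReal (W \ E) := by
  intro ν hν ρ
  obtain ⟨t₀, r, ℓ, hL, hρ, hnc⟩ := hW ν hν ρ
  have hball : Metric.ball t₀ r ∈ 𝓝 t₀ := Metric.ball_mem_nhds _ hL.pos
  have han : ∀ j, AnalyticAt ℂ (fun t => ℓ t j) t₀ := fun j => (hL.diff j).analyticAt hball
  set g : ℂ → ℂ := fun t => ∑ j, (ν j : ℂ) * ℓ t j with hg
  have hgd : DifferentiableOn ℂ g (Metric.ball t₀ r) :=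
    DifferentiableOn.fun_sum fun j _ => (hL.diff j).const_mul _
  have hga : AnalyticOnNhd ℂ g (Metric.ball t₀ r) := hgd.analyticOnNhd Metric.isOpen_ball
  have hnc' : ∀ t1 ∈ Metric.ball t₀ r, ¬ ∀ᶠ t in 𝓝 t1, g t = g t1 := by
    intro t1 ht1 h
    have h1 : Set.EqOn g (fun _ => g t1) (Metric.ball t₀ r) :=
      hga.eqOn_of_preconnected_of_eventuallyEq analyticOnNhd_const
        (convex_ball _ _).isPreconnected ht1 h
    apply hnc
    filter_upwards [hball] with t ht
    have h2 := h1 ht
    have h3 := h1 (Metric.mem_ball_self hL.pos)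
    simp only at h2 h3
    change g t = g t₀
    rw [h2, h3]
  have hav : ∀ e ∈ E, ∀ᶠ t in 𝓝[≠] t₀, (fun j => Complex.exp (ℓ t j)) ≠ e := by
    intro e _
    by_cases hall : ∀ j, ∀ᶠ t in 𝓝 t₀, Complex.exp (ℓ t j) = e j
    · exfalso
      apply hnc
      have hev : ∀ᶠ t in 𝓝 t₀, ∀ j, ℓ t j = ℓ t₀ j := by
        rw [eventually_all]
        intro j
        have h1 := hall j
        have h2 := h1.self_of_nhds
        have h3 : ∀ᶠ t in 𝓝 t₀, ‖ℓ t j - ℓ t₀ j‖ < 1 := by
          have hc : ContinuousAt (fun t => ‖ℓ t j - ℓ t₀ j‖) t₀ :=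
            ((han j).continuousAt.sub continuousAt_const).norm
          exact hc.eventually_lt (continuousAt_const (y := (1 : ℝ))) (by simp)
        filter_upwards [h1, h3] with t ht1 ht3
        obtain ⟨m, hm⟩ := Complex.exp_eq_exp_iff_exists_int.1 (ht1.trans h2.symm)
        have h4 : ℓ t j - ℓ t₀ j = (m : ℂ) * (2 * Real.pi * Complex.I) := by
          rw [hm]; ring
        have hm0 : m = 0 := by
          by_contra hne
          have h5 : (1 : ℝ) ≤ |(m : ℝ)| := by
            exact_mod_cast Int.one_le_abs hne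
          rw [h4, norm_mul, norm_mul, norm_mul, Complex.norm_I, Complex.norm_intCast] at ht3
          have h6 : ‖(2 : ℂ)‖ = 2 := by simp
          have h7 : ‖(Real.pi : ℂ)‖ = Real.pi := by
            rw [Complex.norm_real, Real.norm_eq_abs, abs_of_pos Real.pi_pos]
          rw [h6, h7] at ht3
          have := Real.pi_gt_three
          nlinarith
        rw [hm0] at h4
        have h8 : ℓ t j - ℓ t₀ j = 0 := by rw [h4]; simp
        exact sub_eq_zero.1 h8
      filter_upwards [hev] with t ht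
      simp only [ht]
    · push Not at hall
      obtain ⟨j, hj⟩ := hall
      have h1 : AnalyticAt ℂ (fun t => Complex.exp (ℓ t j)) t₀ := (han j).cexp
      rcases h1.eventually_eq_or_eventually_ne (analyticAt_const (v := e j)) with h | h
      · exact absurd h (by
          intro h'
          exact (Filter.not_frequently.2 (h'.mono fun t ht hne => hne ht)) (hj))
      · filter_upwards [h] with t ht heq
        exact ht (congrFun heq j)
  have hav2 : ∀ᶠ t in 𝓝[≠] t₀, ∀ e ∈ E, (fun j => Complex.exp (ℓ t j)) ≠ e :=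
    (hE.eventually_all).2 hav
  rw [eventually_nhdsWithin_iff] at hav2
  obtain ⟨V, hV, hVo, ht0V⟩ := eventually_nhds_iff.1 (hav2.and hball)
  -- the map g is open at t₀
  have hopen : 𝓝 (g t₀) ≤ map g (𝓝 t₀) :=
    (hga t₀ (Metric.mem_ball_self hL.pos)).eventually_constant_or_nhds_le_map_nhds.resolve_left
      (hnc' t₀ (Metric.mem_ball_self hL.pos))
  have himg : g '' V ∈ 𝓝 (g t₀) := hopen (image_mem_map (hVo.mem_nhds ht0V))
  obtain ⟨ε, hε, hεV⟩ := Metric.mem_nhds_iff.1 himg
  have hmem : g t₀ + ((ε / 2 : ℝ) : ℂ) * Complex.I ∈ Metric.ball (g t₀) ε := by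
    rw [Metric.mem_ball, dist_eq_norm]
    have : g t₀ + ((ε / 2 : ℝ) : ℂ) * Complex.I - g t₀ = ((ε / 2 : ℝ) : ℂ) * Complex.I := by ring
    rw [this, norm_mul, Complex.norm_I, Complex.norm_real, Real.norm_eq_abs,
      abs_of_pos (by linarith)]
    linarith
  obtain ⟨t1, ht1V, ht1⟩ := hεV hmem
  have hne : t1 ≠ t₀ := by
    intro h
    rw [h] at ht1
    have h1 : ((ε / 2 : ℝ) : ℂ) * Complex.I = 0 := by
      have := ht1
      linear_combination -this
    have h2 := mul_eq_zero.1 h1
    rcases h2 with h2 | h2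
    · have : ε / 2 = 0 := by exact_mod_cast h2
      linarith
    · exact Complex.I_ne_zero h2
  have hVd : IsOpen (V \ {t₀}) := hVo.sdiff isClosed_singleton
  obtain ⟨r1, hr1, hr1V⟩ := Metric.isOpen_iff.1 hVd t1 ⟨ht1V, hne⟩
  refine ⟨t1, r1, ℓ, ⟨hr1, ?_, ?_⟩, ?_, ?_⟩
  · intro j
    refine (hL.diff j).mono ?_
    intro t ht
    exact (hV t (hr1V ht).1).2
  · intro t ht
    have h1 := hV t (hr1V ht).1
    refine ⟨hL.mem t h1.2, ?_⟩
    intro hmemE
    exact h1.1 (hr1V ht).2 _ hmemE rfl
  · change (g t1).re = ρ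
    rw [ht1, Complex.add_re]
    have h1 : (((ε / 2 : ℝ) : ℂ) * Complex.I).re = 0 := by simp
    rw [h1, add_zero]
    exact hρ
  · exact hnc' t1 (hV t1 ht1V).2

end XW
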