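import Pool.Agent.Lib.MP_228259_lc.C4a
import Pool.Agent.Lib.MP_228259_lc.C4b
import Pool.Agent.Lib.MP_228259_lc.C4c

/-!
E3a: see /team-store/XW_blueprint.md
E3a pres_fun. As C4d, with B generated by y, 1/y_j, 1/U and phi = V/U.
-/

namespace XW

open Filter Topology MvPolynomial

private theorem e3a_ev_hom {B B' : Type*} [CommRing B] [Algebra ℂ B] [CommRing B'] [Algebra ℂ B']
    (ψ : B →ₐ[ℂ] B') (φ θ : B) (G : Polynomial (Polynomial ℂ)) :
    ψ (ev φ θ G) = ev (ψ φ) (ψ θ) G := by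
  unfold ev
  have h := Polynomial.hom_eval₂ G
    (Polynomial.aeval φ : Polynomial ℂ →ₐ[ℂ] B).toRingHom ψ.toRingHom θ
  have h2 : ψ.toRingHom.comp (Polynomial.aeval φ : Polynomial ℂ →ₐ[ℂ] B).toRingHom =
      (Polynomial.aeval (ψ φ) : Polynomial ℂ →ₐ[ℂ] B').toRingHom := by
    ext p
    · simp
    · simp
  rw [h2] at h
  exact h

private theorem e3a_ev_eq {B : Type*} [CommRing B] [Algebra ℂ B] (φ θ : B)
    (G : Polynomial (Polynomial ℂ)) : ev φ θ G = Polynomial.aevalAeval φ θ G := by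
  induction G using Polynomial.induction_on' with
  | add p q hp hq =>
    rw [map_add, ← hp, ← hq]
    unfold ev
    rw [Polynomial.eval₂_add]
  | monomial n a =>
    unfold ev
    rw [Polynomial.eval₂_monomial]
    simp

private theorem e3a_ev_swap {B : Type*} [CommRing B] [Algebra ℂ B] (φ θ : B)
    (G : Polynomial (Polynomial ℂ)) :
    ev θ φ (Polynomial.Bivariate.swap G) = ev φ θ G := by
  rw [e3a_ev_eq, e3a_ev_eq, Polynomial.Bivariate.aevalAeval_swap]

/-- exchange and transitivity -/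
private theorem e3a_exchange {K : Type*} [Field K] [Algebra ℂ K] (t φ : K)
    (ht : Transcendental ℂ t)
    (h : ∃ F : Polynomial (Polynomial ℂ), F ≠ 0 ∧ ev t φ F = 0) (x : K)
    (hx : ∃ F : Polynomial (Polynomial ℂ), F ≠ 0 ∧ ev t x F = 0) :
    ∃ F : Polynomial (Polynomial ℂ), F ≠ 0 ∧ ev φ x F = 0 := by
  let _ : Algebra (Polynomial ℂ) K := (Polynomial.aeval φ : Polynomial ℂ →ₐ[ℂ] K).toRingHom.toAlgebra
  have key : ∀ z : K, IsAlgebraic (Polynomial ℂ) z ↔
      ∃ F : Polynomial (Polynomial ℂ), F ≠ 0 ∧ ev φ z F = 0 := fun z => Iff.rfl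
  rw [← key]
  have htS : t ∈ Subalgebra.algebraicClosure (Polynomial ℂ) K := by
    rw [Subalgebra.mem_algebraicClosure, key]
    obtain ⟨F, hF, hF0⟩ := h
    refine ⟨Polynomial.Bivariate.swap F, ?_, ?_⟩
    · intro h0
      exact hF ((map_eq_zero_iff _ (Polynomial.Bivariate.swap (R := ℂ)).injective).1 h0)
    · rw [e3a_ev_swap]; exact hF0
  obtain ⟨F, hF, hF0⟩ := hx
  refine IsAlgebraic.restrictScalars (Polynomial ℂ)
    (S := Subalgebra.algebraicClosure (Polynomial ℂ) K) ?_
  let κ : ℂ →+* Subalgebra.algebraicClosure (Polynomial ℂ) K :=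
    (algebraMap (Polynomial ℂ) (Subalgebra.algebraicClosure (Polynomial ℂ) K)).comp Polynomial.C
  let f : Polynomial ℂ →+* Subalgebra.algebraicClosure (Polynomial ℂ) K :=
    Polynomial.eval₂RingHom κ ⟨t, htS⟩
  have hcomp : (algebraMap (Subalgebra.algebraicClosure (Polynomial ℂ) K) K).comp f =
      (Polynomial.aeval t : Polynomial ℂ →ₐ[ℂ] K).toRingHom := by
    refine Polynomial.ringHom_ext (fun a => ?_) ?_
    · have h1 : f (Polynomial.C a) = κ a := Polynomial.eval₂_C _ _
      have h2 : (algebraMap (Subalgebra.algebraicClosure (Polynomial ℂ) K) K) (κ a) =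
          algebraMap (Polynomial ℂ) K (Polynomial.C a) := rfl
      have h3 : algebraMap (Polynomial ℂ) K (Polynomial.C a) =
          (Polynomial.aeval φ : Polynomial ℂ →ₐ[ℂ] K) (Polynomial.C a) := rfl
      rw [RingHom.comp_apply, h1, h2, h3, Polynomial.aeval_C]
      exact (Polynomial.aeval_C _ _).symm
    · have h1 : f Polynomial.X = ⟨t, htS⟩ := Polynomial.eval₂_X _ _
      rw [RingHom.comp_apply, h1]
      exact (Polynomial.aeval_X t).symm
  have hinj : Function.Injective f := by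
    refine Function.Injective.of_comp
      (f := (algebraMap (Subalgebra.algebraicClosure (Polynomial ℂ) K) K)) ?_
    have h1 : (algebraMap (Subalgebra.algebraicClosure (Polynomial ℂ) K) K) ∘ f =
        (Polynomial.aeval t : Polynomial ℂ →ₐ[ℂ] K) := by
      funext p
      exact congrArg (fun g : Polynomial ℂ →+* K => g p) hcomp
    rw [h1]
    exact transcendental_iff_injective.1 ht
  refine ⟨F.map f, ?_, ?_⟩
  · intro h0
    exact hF ((Polynomial.map_eq_zero_iff hinj).1 h0)
  · rw [Polynomial.aeval_def, Polynomial.eval₂_map, hcomp]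
    exact hF0

private theorem e3a_const {K : Type*} [Field K] [Algebra ℂ K] (x : K) (h : IsAlgebraic ℂ x) :
    ∃ c : ℂ, x = algebraMap ℂ K c := by
  have h1 : IsIntegral ℂ x := h.isIntegral
  have h2 := IsAlgClosed.degree_eq_one_of_irreducible ℂ (minpoly.irreducible h1)
  obtain ⟨c, hc⟩ := minpoly.mem_range_of_degree_eq_one ℂ x h2
  exact ⟨c, hc.symm⟩

private theorem e3a_aeval {n : ℕ} {B B' : Type*} [CommRing B] [Algebra ℂ B] [CommRing B']
    [Algebra ℂ B'] (ψ : B →ₐ[ℂ] B') (y : Fin n → B) (G : MvPolynomial (Fin n) ℂ) :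
    ψ (aeval y G) = aeval (fun j => ψ (y j)) G := by
  induction G using MvPolynomial.induction_on with
  | C a => simp
  | add p q hp hq => rw [map_add, map_add, map_add, hp, hq]
  | mul_X p j hp => rw [map_mul, map_mul, map_mul, hp, aeval_X, aeval_X]

theorem pres_fun {n : ℕ} {I : Ideal (MvPolynomial (Fin n) ℂ)} {W : Set (Fin n → ℂ)}
    (hI : CurveData I W) (U V : MvPolynomial (Fin n) ℂ) (hV : V ∉ I)
    (hnc : ∀ c : ℂ, U - C c * V ∉ I) :
    ∃ (g : Polynomial ℂ) (χ : Polynomial (Polynomial ℂ))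
      (A : Fin n → Polynomial (Polynomial ℂ)), g ≠ 0 ∧ χ.Monic ∧ 0 < χ.natDegree ∧
      ∀ f θ : ℂ, g.eval f ≠ 0 → ev f θ χ = 0 →
        (fun j => ev f θ (A j) / g.eval f) ∈ W ∧
        eval (fun j => ev f θ (A j) / g.eval f) U ≠ 0 ∧
        eval (fun j => ev f θ (A j) / g.eval f) V =
          f * eval (fun j => ev f θ (A j) / g.eval f) U := by
  classical
  have hprime := hI.prime
  have hn : 0 < n := by
    rcases Nat.eq_zero_or_pos n with rfl | h
    · exfalso
      obtain ⟨a, rfl⟩ : ∃ a, U = C a := ⟨_, MvPolynomial.eq_C_of_isEmpty U⟩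
      obtain ⟨b, rfl⟩ : ∃ b, V = C b := ⟨_, MvPolynomial.eq_C_of_isEmpty V⟩
      have hv0 : b ≠ 0 := by
        rintro rfl
        apply hV
        rw [C_0]
        exact I.zero_mem
      apply hnc (a / b)
      rw [← C_mul, div_mul_cancel₀ _ hv0, sub_self]
      exact I.zero_mem
    · exact h
  -- the function field
  let Q := MvPolynomial (Fin n) ℂ ⧸ I
  have : IsDomain Q := Ideal.Quotient.isDomain I
  let K := FractionRing Q
  let y : Fin n → K := fun j => algebraMap Q K (Ideal.Quotient.mk I (X j))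
  have hyae : ∀ G : MvPolynomial (Fin n) ℂ,
      aeval y G = algebraMap Q K (Ideal.Quotient.mk I G) := by
    intro G
    have h1 : aeval y = (IsScalarTower.toAlgHom ℂ Q K).comp (Ideal.Quotient.mkₐ ℂ I) := by
      refine MvPolynomial.algHom_ext fun j => ?_
      rw [aeval_X]
      rfl
    rw [h1]
    rfl
  have hy : ∀ G : MvPolynomial (Fin n) ℂ, aeval y G = 0 ↔ G ∈ I := by
    intro G
    rw [hyae, map_eq_zero_iff _ (IsFractionRing.injective Q K)]
    exact Ideal.Quotient.eq_zero_iff_mem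
  have hy0 : ∀ j, y j ≠ 0 := by
    intro j hj
    have h1 : (X j : MvPolynomial (Fin n) ℂ) ∈ I := by
      rw [← hy, aeval_X]
      exact hj
    obtain ⟨w, hw, -⟩ := hI.free (Pi.single j 1) (by
      intro h0
      have := congrFun h0 j
      simp at this) 0
    rw [hI.W_eq] at hw
    exact hw.2 j (by simpa using hw.1 _ h1)
  obtain ⟨ht, hall⟩ := trdeg_facts hI y hy hy0 (Pi.single ⟨0, hn⟩ 1) (by
    intro h0
    have := congrFun h0 ⟨0, hn⟩
    simp at this)
  have hUI : U ∉ I := by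
    have h1 := hnc 0
    rwa [C_0, zero_mul, sub_zero] at h1
  have hu0 : aeval y U ≠ 0 := fun h => hUI ((hy U).1 h)
  have hv0 : aeval y V ≠ 0 := fun h => hV ((hy V).1 h)
  have hmemA : ∀ G : MvPolynomial (Fin n) ℂ, aeval y G ∈ Algebra.adjoin ℂ (Set.range y) := by
    intro G
    rw [Algebra.adjoin_range_eq_range_aeval]
    exact ⟨G, rfl⟩
  have hmemF : ∀ G : MvPolynomial (Fin n) ℂ,
      aeval y G ∈ IntermediateField.adjoin ℂ (Set.range y) := fun G =>
    IntermediateField.algebra_adjoin_le_adjoin ℂ _ (hmemA G)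
  have hφ : Transcendental ℂ (aeval y V / aeval y U) := by
    intro halg
    obtain ⟨c, hc⟩ := e3a_const _ halg
    rw [div_eq_iff hu0] at hc
    have hc0 : c ≠ 0 := by
      rintro rfl
      rw [map_zero, zero_mul] at hc
      exact hv0 hc
    apply hnc c⁻¹
    rw [← hy, map_sub, map_mul, hc, aeval_C, ← mul_assoc, ← map_mul, inv_mul_cancel₀ hc0, map_one,
      one_mul, sub_self]
  have halgF : ∀ x ∈ IntermediateField.adjoin ℂ (Set.range y),
      ∃ F : Polynomial (Polynomial ℂ), F ≠ 0 ∧ ev (aeval y V / aeval y U) x F = 0 := by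
    intro x hx
    exact e3a_exchange _ _ ht (hall _ (div_mem (hmemF V) (hmemF U))) x (hall x hx)
  -- the ring
  let ι := Fin n ⊕ (Fin n ⊕ Unit)
  let gen : ι → K := Sum.elim y (Sum.elim (fun j => (y j)⁻¹) (fun _ => (aeval y U)⁻¹))
  let e : ι ≃ Fin (Fintype.card ι) := Fintype.equivFin ι
  let B := Algebra.adjoin ℂ (Set.range gen)
  let u : Fin (Fintype.card ι) → B := fun i => ⟨gen (e.symm i), Algebra.subset_adjoin ⟨_, rfl⟩⟩
  have hgen : Algebra.adjoin ℂ (Set.range u) = ⊤ := by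
    rw [← Algebra.adjoin_adjoin_coe_preimage (R := ℂ) (s := Set.range gen)]
    congr 1
    ext x
    constructor
    · rintro ⟨i, rfl⟩
      exact ⟨_, rfl⟩
    · rintro ⟨i, hi⟩
      refine ⟨e i, Subtype.ext ?_⟩
      change gen (e.symm (e i)) = x
      rw [Equiv.symm_apply_apply, hi]
  have hmemB : ∀ G : MvPolynomial (Fin n) ℂ, aeval y G ∈ B := by
    intro G
    refine Algebra.adjoin_mono ?_ (hmemA G)
    rintro _ ⟨j, rfl⟩
    exact ⟨Sum.inl j, rfl⟩
  have hinvB : (aeval y U)⁻¹ ∈ B := Algebra.subset_adjoin ⟨Sum.inr (Sum.inr ()), rfl⟩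
  let φ : B := ⟨aeval y V / aeval y U, by
    rw [div_eq_mul_inv]
    exact mul_mem (hmemB V) hinvB⟩
  have hφB : Transcendental ℂ φ := fun h => hφ (h.algHom B.val)
  have hgenF : ∀ i : ι, gen i ∈ IntermediateField.adjoin ℂ (Set.range y) := by
    rintro (j | j | j)
    · exact IntermediateField.subset_adjoin ℂ _ ⟨j, rfl⟩
    · exact inv_mem (IntermediateField.subset_adjoin ℂ _ ⟨j, rfl⟩)
    · exact inv_mem (hmemF U)
  have halg : ∀ i, ∃ F : Polynomial (Polynomial ℂ), F ≠ 0 ∧ ev φ (u i) F = 0 := by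
    intro i
    obtain ⟨F, hF, hF0⟩ := halgF _ (hgenF (e.symm i))
    refine ⟨F, hF, ?_⟩
    have h1 := e3a_ev_hom B.val φ (u i) F
    have h2 : B.val (ev φ (u i) F) = 0 := by
      rw [h1]; exact hF0
    exact Subtype.ext h2
  obtain ⟨θ, g, χ, A, hg, hχm, hχd, hχ0, hχdvd, hA⟩ := pres_alg u hgen φ hφB halg
  refine ⟨g, χ, fun j => A (e (Sum.inl j)), hg, hχm, hχd, fun f θ₀ hf hfθ => ?_⟩
  obtain ⟨ψ, hψφ, hψθ⟩ := pres_points u hgen φ θ hφB g χ A hg hχdvd hA f θ₀ hf hfθ
  have hc : ∀ i, ev f θ₀ (A i) / g.eval f = ψ (u i) := by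
    intro i
    have h1 := congrArg ψ (hA i)
    rw [map_mul, e3a_ev_hom, hψφ, hψθ, ← Polynomial.aeval_algHom_apply, hψφ,
      Polynomial.coe_aeval_eq_eval] at h1
    rw [← h1, mul_div_cancel_left₀ _ hf]
  have hfun : (fun j => ev f θ₀ (A (e (Sum.inl j))) / g.eval f) =
      fun j => ψ (u (e (Sum.inl j))) := by
    funext j
    exact hc _
  have huval : ∀ i : ι, B.val (u (e i)) = gen i := by
    intro i
    change gen (e.symm (e i)) = gen i
    rw [Equiv.symm_apply_apply]
  have hBval : ∀ G : MvPolynomial (Fin n) ℂ,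
      B.val (aeval (fun j => u (e (Sum.inl j))) G) = aeval y G := by
    intro G
    rw [e3a_aeval B.val]
    congr 2
    funext j
    exact huval (Sum.inl j)
  have hψev : ∀ G : MvPolynomial (Fin n) ℂ,
      eval (fun j => ψ (u (e (Sum.inl j)))) G = ψ (aeval (fun j => u (e (Sum.inl j))) G) := by
    intro G
    rw [e3a_aeval ψ]
    rfl
  beta_reduce
  rw [hfun]
  have hU1 : aeval (fun j => u (e (Sum.inl j))) U * u (e (Sum.inr (Sum.inr ()))) = 1 := by
    apply Subtype.ext
    change B.val (aeval (fun j => u (e (Sum.inl j))) U * u (e (Sum.inr (Sum.inr ())))) = 1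
    rw [map_mul, hBval, huval]
    exact mul_inv_cancel₀ hu0
  have hV1 : aeval (fun j => u (e (Sum.inl j))) V =
      φ * aeval (fun j => u (e (Sum.inl j))) U := by
    apply Subtype.ext
    change B.val (aeval (fun j => u (e (Sum.inl j))) V) =
      B.val (φ * aeval (fun j => u (e (Sum.inl j))) U)
    rw [map_mul, hBval, hBval]
    exact (div_mul_cancel₀ _ hu0).symm
  refine ⟨?_, ?_, ?_⟩
  · rw [hI.W_eq]
    refine ⟨fun G hG => ?_, fun j => ?_⟩
    · have h1 : aeval (fun j => u (e (Sum.inl j))) G = 0 := by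
        apply Subtype.ext
        exact (hBval G).trans ((hy G).2 hG)
      rw [hψev, h1, map_zero]
    · have h1 : u (e (Sum.inl j)) * u (e (Sum.inr (Sum.inl j))) = 1 := by
        apply Subtype.ext
        change B.val (u (e (Sum.inl j)) * u (e (Sum.inr (Sum.inl j)))) = 1
        rw [map_mul, huval, huval]
        exact mul_inv_cancel₀ (hy0 j)
      have h2 := congrArg ψ h1
      rw [map_mul, map_one] at h2
      exact left_ne_zero_of_mul_eq_one h2
  · rw [hψev]
    have h2 := congrArg ψ hU1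
    rw [map_mul, map_one] at h2
    exact left_ne_zero_of_mul_eq_one h2
  · rw [hψev, hψev, hV1, map_mul, hψφ]

end XW
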