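import Pool.Agent.Lib.MP_228259_lc.E3a
import Pool.Agent.Lib.MP_228259_lc.C3
import Pool.Agent.Lib.MP_228259_lc.C6

/-!
E3b: see /team-store/XW_blueprint.md
E3b chart_pole. Puiseux for chi(s^b, T) = (f0 = 0), one root theta(s), Y_j(s) = A_j(s^b,theta(s))/g(s^b); chart_of_meromorphic; U/V = s^(-b) for s <> 0 small.
-/

namespace XW

open Filter Topology MvPolynomial

private theorem e3b_ev_sum (f θ : ℂ) (G : Polynomial (Polynomial ℂ)) :
    ev f θ G = ∑ i ∈ Finset.range (G.natDegree + 1), (G.coeff i).eval f * θ ^ i := by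
  unfold ev
  rw [Polynomial.eval₂_eq_sum_range]
  refine Finset.sum_congr rfl fun i _ => ?_
  show Polynomial.aeval f (G.coeff i) * θ ^ i = _
  rw [Polynomial.coe_aeval_eq_eval]

private theorem e3b_ev_monic (f θ : ℂ) (χ : Polynomial (Polynomial ℂ)) (hχ : χ.Monic) :
    ev f θ χ = θ ^ χ.natDegree +
      ∑ i : Fin χ.natDegree, (χ.coeff i).eval f * θ ^ (i : ℕ) := by
  rw [e3b_ev_sum, Finset.sum_range_succ]
  have h1 : χ.coeff χ.natDegree = 1 := hχ.coeff_natDegree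
  rw [h1, Polynomial.eval_one, one_mul, add_comm,
    Finset.sum_range fun i => (χ.coeff i).eval f * θ ^ i]

private theorem e3b_poly_analytic (p : Polynomial ℂ) {F : ℂ → ℂ} {z : ℂ}
    (hF : AnalyticAt ℂ F z) : AnalyticAt ℂ (fun s => p.eval (F s)) z := by
  have h := hF.aeval_polynomial p
  simpa [Polynomial.coe_aeval_eq_eval] using h

private theorem e3b_ev_analytic (G : Polynomial (Polynomial ℂ)) {F Θ : ℂ → ℂ} {z : ℂ}
    (hF : AnalyticAt ℂ F z) (hΘ : AnalyticAt ℂ Θ z) :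
    AnalyticAt ℂ (fun s => ev (F s) (Θ s) G) z := by
  have h1 : (fun s => ev (F s) (Θ s) G) =
      fun s => ∑ i ∈ Finset.range (G.natDegree + 1), (G.coeff i).eval (F s) * (Θ s) ^ i := by
    funext s
    exact e3b_ev_sum _ _ _
  rw [h1]
  refine Finset.analyticAt_fun_sum _ fun i _ => ?_
  exact (e3b_poly_analytic (G.coeff i) hF).mul (hΘ.pow i)

private theorem e3b_poly_ne (g : Polynomial ℂ) (hg : g ≠ 0) :
    ∀ᶠ f in 𝓝[≠] (0 : ℂ), g.eval f ≠ 0 := by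
  have hfin : ((g.roots.toFinset : Set ℂ) \ {0}).Finite :=
    g.roots.toFinset.finite_toSet.subset Set.sdiff_subset
  have h1 : ((g.roots.toFinset : Set ℂ) \ {0})ᶜ ∈ 𝓝 (0 : ℂ) :=
    hfin.isClosed.isOpen_compl.mem_nhds fun h => h.2 rfl
  filter_upwards [nhdsWithin_le_nhds h1, self_mem_nhdsWithin] with f h2 h3 h4
  apply h2
  refine ⟨?_, h3⟩
  rw [Finset.mem_coe, Multiset.mem_toFinset, Polynomial.mem_roots hg]
  exact h4

private theorem e3b_pow_tendsto {b : ℕ} (hb : 0 < b) :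
    Tendsto (fun s : ℂ => s ^ b) (𝓝[≠] 0) (𝓝[≠] 0) := by
  refine tendsto_nhdsWithin_iff.2 ⟨?_, ?_⟩
  · have h1 : Tendsto (fun s : ℂ => s ^ b) (𝓝 0) (𝓝 (0 ^ b)) := (continuous_pow b).tendsto 0
    rw [zero_pow hb.ne'] at h1
    exact h1.mono_left nhdsWithin_le_nhds
  · filter_upwards [self_mem_nhdsWithin] with s hs
    exact pow_ne_zero b hs

theorem chart_pole {n : ℕ} {I : Ideal (MvPolynomial (Fin n) ℂ)} {W : Set (Fin n → ℂ)}
    (hI : CurveData I W) (U V : MvPolynomial (Fin n) ℂ) (hV : V ∉ I)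
    (hnc : ∀ c : ℂ, U - C c * V ∉ I) :
    ∃ (r : ℝ) (p : Fin n → ℤ) (L : ℂ → Fin n → ℂ), SChart W r p L ∧
      Tendsto (fun s => ‖eval (pt p L s) U / eval (pt p L s) V‖) (𝓝[≠] 0) atTop := by
  obtain ⟨g, χ, A, hg, hχ, hχd, hP⟩ := pres_fun hI U V hV hnc
  obtain ⟨b, θ, hb, hθ, hev⟩ := puiseux χ.natDegree (fun i s => (χ.coeff i).eval s)
    (fun i => e3b_poly_analytic (χ.coeff i) analyticAt_id)
  set i0 : Fin χ.natDegree := ⟨0, hχd⟩ with hi0
  have hpow : AnalyticAt ℂ (fun s : ℂ => s ^ b) 0 := analyticAt_id.pow b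
  have hroot : ∀ᶠ s in 𝓝 (0 : ℂ), ev (s ^ b) (θ i0 s) χ = 0 := by
    filter_upwards [hev] with s hs
    rw [e3b_ev_monic _ _ _ hχ, hs (θ i0 s)]
    exact Finset.prod_eq_zero (Finset.mem_univ i0) (sub_self _)
  have hgne : ∀ᶠ s in 𝓝[≠] (0 : ℂ), g.eval (s ^ b) ≠ 0 :=
    (e3b_pow_tendsto hb).eventually (e3b_poly_ne g hg)
  set Y : ℂ → Fin n → ℂ := fun s j => ev (s ^ b) (θ i0 s) (A j) / g.eval (s ^ b) with hY
  have hall : ∀ᶠ s in 𝓝[≠] (0 : ℂ), Y s ∈ W ∧ eval (Y s) U ≠ 0 ∧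
      eval (Y s) V = s ^ b * eval (Y s) U := by
    filter_upwards [nhdsWithin_le_nhds hroot, hgne] with s h1 h2
    exact hP (s ^ b) (θ i0 s) h2 h1
  have hYm : ∀ j, MeromorphicAt (fun s => Y s j) 0 := by
    intro j
    exact (e3b_ev_analytic (A j) hpow (hθ i0)).meromorphicAt.div
      (e3b_poly_analytic g hpow).meromorphicAt
  have hW0 : ∀ y ∈ W, ∀ j, y j ≠ 0 := by
    intro y hy
    rw [hI.W_eq] at hy
    exact hy.2
  obtain ⟨r, p, L, hSC, hpt⟩ := chart_of_meromorphic hW0 Y hYm (hall.mono fun s hs => hs.1)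
  refine ⟨r, p, L, hSC, ?_⟩
  have hball : ∀ᶠ s in 𝓝[≠] (0 : ℂ), pt p L s = Y s := by
    have h1 : Metric.ball (0 : ℂ) r ∈ 𝓝 (0 : ℂ) := Metric.ball_mem_nhds _ hSC.pos
    filter_upwards [nhdsWithin_le_nhds h1, self_mem_nhdsWithin] with s h2 h3
    exact hpt s h3 (by rwa [mem_ball_zero_iff] at h2)
  have heq : (fun s : ℂ => ‖s ^ b‖⁻¹) =ᶠ[𝓝[≠] 0]
      (fun s => ‖eval (pt p L s) U / eval (pt p L s) V‖) := by
    filter_upwards [hball, hall, self_mem_nhdsWithin] with s h1 h2 h3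
    rw [h1, h2.2.2, ← norm_inv]
    congr 1
    have h4 : s ^ b ≠ 0 := pow_ne_zero b h3
    have h5 := h2.2.1
    field_simp
  refine Tendsto.congr' heq ?_
  have h1 : Tendsto (fun s : ℂ => ‖s ^ b‖) (𝓝[≠] 0) (𝓝[>] 0) := by
    refine tendsto_nhdsWithin_iff.2 ⟨?_, ?_⟩
    · have h2 := ((e3b_pow_tendsto hb).mono_right nhdsWithin_le_nhds).norm
      rwa [norm_zero] at h2
    · filter_upwards [self_mem_nhdsWithin] with s hs
      exact norm_pos_iff.2 (pow_ne_zero b hs)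
  exact tendsto_inv_nhdsGT_zero.comp h1

end XW
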