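import Pool.Agent.Lib.MP_228259_lc.C5b

/-!
E4: order_exists.
-/

namespace XW

open Filter Topology MvPolynomial

theorem order_exists {n : ℕ} {I : Ideal (MvPolynomial (Fin n) ℂ)} {W : Set (Fin n → ℂ)}
    (hI : CurveData I W) {r : ℝ} {p : Fin n → ℤ} {L : ℂ → Fin n → ℂ} (hc : SChart W r p L)
    (hnc : ¬ ∃ y, ∀ᶠ s in 𝓝[≠] (0 : ℂ), pt p L s = y) (F : MvPolynomial (Fin n) ℂ)
    (hF : F ∉ I) :
    ∃ (m : ℤ) (γ : ℂ), γ ≠ 0 ∧
      Tendsto (fun s => eval (pt p L s) F / s ^ m) (𝓝[≠] 0) (𝓝 γ) := by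
  classical
  have hball : Metric.ball (0 : ℂ) r ∈ 𝓝 (0 : ℂ) := Metric.ball_mem_nhds _ hc.pos
  have hpt : ∀ j, MeromorphicAt (fun s => pt p L s j) 0 := by
    intro j
    have h1 : AnalyticAt ℂ (fun s => L s j) 0 := (hc.diff j).analyticAt hball
    have h2 : AnalyticAt ℂ (fun s => Complex.exp (L s j)) 0 := h1.cexp
    have h3 : MeromorphicAt (fun s : ℂ => s ^ (p j)) 0 := (MeromorphicAt.id 0).zpow (p j)
    exact h3.mul h2.meromorphicAt
  have hmer : MeromorphicAt (fun s => eval (pt p L s) F) 0 := by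
    have h1 : (fun s => eval (pt p L s) F) =
        fun s => ∑ d ∈ F.support, coeff d F * ∏ i, (pt p L s i) ^ (d i) := by
      funext s
      rw [eval_eq']
    rw [h1]
    have h2 : ∀ d : Fin n →₀ ℕ, MeromorphicAt
        (fun s => coeff d F * ∏ i, (pt p L s i) ^ (d i)) 0 := by
      intro d
      have h3 : MeromorphicAt (fun s => ∏ i, (pt p L s i) ^ (d i)) 0 :=
        MeromorphicAt.fun_prod fun i _ => (hpt i).fun_pow _
      exact (MeromorphicAt.const (coeff d F) 0).mul h3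
    exact MeromorphicAt.fun_sum fun d _ => h2 d
  by_cases htop : meromorphicOrderAt (fun s => eval (pt p L s) F) 0 = ⊤
  · exfalso
    rw [meromorphicOrderAt_eq_top_iff] at htop
    have hfin := zero_finite hI F hF
    set Z := {y ∈ W | MvPolynomial.eval y F = 0} with hZ
    have hmem : ∀ᶠ s in 𝓝[≠] (0 : ℂ), pt p L s ∈ Z := by
      have h1 : ∀ᶠ s in 𝓝[≠] (0 : ℂ), s ∈ Metric.ball (0 : ℂ) r :=
        nhdsWithin_le_nhds hball
      have h2 : ∀ᶠ s in 𝓝[≠] (0 : ℂ), s ≠ 0 := eventually_mem_nhdsWithin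
      filter_upwards [htop, h1, h2] with s hs1 hs2 hs3
      refine ⟨hc.mem s hs3 ?_, hs1⟩
      simpa using hs2
    have hdich : ∀ y : Fin n → ℂ, (∀ᶠ s in 𝓝[≠] (0 : ℂ), pt p L s = y) ∨
        ∀ᶠ s in 𝓝[≠] (0 : ℂ), pt p L s ≠ y := by
      intro y
      by_cases h : ∀ j, ∀ᶠ s in 𝓝[≠] (0 : ℂ), pt p L s j - y j = 0
      · left
        filter_upwards [eventually_all.mpr h] with s hs
        funext j
        exact sub_eq_zero.mp (hs j)
      · right
        rw [not_forall] at h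
        obtain ⟨j, hj⟩ := h
        have h1 := ((hpt j).sub (MeromorphicAt.const (y j) 0)).eventually_eq_zero_or_eventually_ne_zero
        rcases h1 with h1 | h1
        · exact absurd h1 hj
        · filter_upwards [h1] with s hs hcon
          apply hs
          simp [hcon]
    have hall : ∀ y ∈ Z, ∀ᶠ s in 𝓝[≠] (0 : ℂ), pt p L s ≠ y := by
      intro y _
      rcases hdich y with h | h
      · exact absurd ⟨y, h⟩ hnc
      · exact h
    have hnot : ∀ᶠ s in 𝓝[≠] (0 : ℂ), ∀ y ∈ Z, pt p L s ≠ y :=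
      (eventually_all_finite hfin).mpr hall
    obtain ⟨s, hs1, hs2⟩ := (hmem.and hnot).exists
    exact hs2 _ hs1 rfl
  · obtain ⟨m, hm⟩ := WithTop.ne_top_iff_exists.mp htop
    obtain ⟨g, hg1, hg2, hg3⟩ := (meromorphicOrderAt_eq_int_iff hmer).mp hm.symm
    refine ⟨m, g 0, hg2, ?_⟩
    have h1 : Tendsto g (𝓝[≠] 0) (𝓝 (g 0)) := hg1.continuousAt.tendsto.mono_left nhdsWithin_le_nhds
    refine h1.congr' ?_
    have h2 : ∀ᶠ s in 𝓝[≠] (0 : ℂ), s ≠ 0 := eventually_mem_nhdsWithin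
    filter_upwards [hg3, h2] with s hs1 hs2
    rw [hs1, sub_zero, smul_eq_mul, mul_div_cancel_left₀ _ (zpow_ne_zero m hs2)]

end XW
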