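import Pool.Agent.Lib.MP_228259_lc.Defs

/-!
P1: see /team-store/XW_blueprint.md
P1 hurwitz. Pick a small closed disc around z0 in the ball with G <> 0 on the boundary circle (isolated zeros, G analytic). By compactness and hlim (joint filter) |F_i| >= delta on the circle eventually and |F_i(z0)| < delta/2 eventually. If F_i has no zero in the closed disc then 1/F_i is holomorphic there and the maximum principle gives |1/F_i(z0)| <= 1/delta, contradiction. (If l = bot it is trivial.)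
-/

namespace XW

open Filter Topology MvPolynomial

theorem hurwitz {ι : Type*} {l : Filter ι} {F : ι → ℂ → ℂ} {G : ℂ → ℂ} {z₀ : ℂ} {r : ℝ}
    (hr : 0 < r) (hF : ∀ᶠ i in l, DifferentiableOn ℂ (F i) (Metric.ball z₀ r))
    (hG : DifferentiableOn ℂ G (Metric.ball z₀ r))
    (hlim : ∀ z ∈ Metric.ball z₀ r,
      Tendsto (fun q : ι × ℂ => F q.1 q.2) (l ×ˢ 𝓝 z) (𝓝 (G z)))
    (h0 : G z₀ = 0) (hne : ¬ ∀ᶠ z in 𝓝 z₀, G z = 0) :
    ∀ᶠ i in l, ∃ z ∈ Metric.ball z₀ r, F i z = 0 := by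
  have hz₀ : z₀ ∈ Metric.ball z₀ r := Metric.mem_ball_self hr
  have hGa : AnalyticAt ℂ G z₀ := hG.analyticAt (Metric.isOpen_ball.mem_nhds hz₀)
  have hne' : ∀ᶠ z in 𝓝[≠] z₀, G z ≠ 0 :=
    hGa.eventually_eq_zero_or_eventually_ne_zero.resolve_left hne
  rw [eventually_nhdsWithin_iff, Metric.eventually_nhds_iff] at hne'
  obtain ⟨ε, hε, hne''⟩ := hne'
  set ρ : ℝ := min ε r / 2 with hρ
  have hm : 0 < min ε r := lt_min hε hr
  have hρ0 : 0 < ρ := by rw [hρ]; linarith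
  have hρε : ρ < ε := by
    have := min_le_left ε r
    rw [hρ]; linarith
  have hρr : ρ < r := by
    have := min_le_right ε r
    rw [hρ]; linarith
  have hsub : Metric.closedBall z₀ ρ ⊆ Metric.ball z₀ r := Metric.closedBall_subset_ball hρr
  have hsph : Metric.sphere z₀ ρ ⊆ Metric.ball z₀ r := Metric.sphere_subset_closedBall.trans hsub
  have hcomp : IsCompact (Metric.sphere z₀ ρ) := isCompact_sphere z₀ ρ
  have hnon : (Metric.sphere z₀ ρ).Nonempty := by
    refine ⟨z₀ + ρ, ?_⟩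
    simp [abs_of_pos hρ0]
  obtain ⟨x, hx, hxmin⟩ := hcomp.exists_isMinOn hnon
    ((hG.continuousOn.mono hsph).norm)
  have hxpos : 0 < ‖G x‖ := by
    rw [norm_pos_iff]
    apply hne''
    · rw [Metric.mem_sphere] at hx
      rw [hx]; exact hρε
    · intro h
      rw [Set.mem_singleton_iff] at h
      rw [Metric.mem_sphere, h, dist_self] at hx
      exact hρ0.ne hx
  set δ : ℝ := ‖G x‖ / 2 with hδ
  have hδ0 : 0 < δ := by rw [hδ]; linarith
  have h1 : {q : ι × ℂ | δ < ‖F q.1 q.2‖} ∈ l ×ˢ 𝓝ˢ (Metric.sphere z₀ ρ) := by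
    apply hcomp.mem_prod_nhdsSet_of_forall
    intro y hy
    have h2 := (hlim y (hsph hy)).norm
    have h3 : δ < ‖G y‖ := by
      have h4 : ‖G x‖ ≤ ‖G y‖ := hxmin hy
      rw [hδ]
      linarith
    exact h2.eventually (lt_mem_nhds h3)
  have h2 : ∀ᶠ i in l, ∀ y ∈ Metric.sphere z₀ ρ, δ < ‖F i y‖ := by
    rw [mem_prod_iff] at h1
    obtain ⟨t₁, ht₁, t₂, ht₂, ht⟩ := h1
    filter_upwards [ht₁] with i hi y hy
    exact ht (Set.mk_mem_prod hi (subset_of_mem_nhdsSet ht₂ hy))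
  have h3 : ∀ᶠ i in l, ‖F i z₀‖ < δ := by
    have h4 := (hlim z₀ hz₀).norm
    rw [h0, norm_zero] at h4
    have h5 : Tendsto (fun i : ι => (i, z₀)) l (l ×ˢ 𝓝 z₀) :=
      tendsto_id.prodMk tendsto_const_nhds
    have h6 := h4.comp h5
    exact h6.eventually (gt_mem_nhds hδ0)
  filter_upwards [hF, h2, h3] with i hFi hi2 hi3
  by_contra hcon
  push Not at hcon
  have hd : DifferentiableOn ℂ (fun z => (F i z)⁻¹) (Metric.ball z₀ r) := hFi.inv hcon
  have hdc : DiffContOnCl ℂ (fun z => (F i z)⁻¹) (Metric.ball z₀ ρ) := by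
    apply DifferentiableOn.diffContOnCl
    rw [closure_ball z₀ hρ0.ne']
    exact hd.mono hsub
  have h7 : ‖(F i z₀)⁻¹‖ ≤ δ⁻¹ := by
    apply Complex.norm_le_of_forall_mem_frontier_norm_le Metric.isBounded_ball hdc
    · intro z hz
      rw [frontier_ball z₀ hρ0.ne'] at hz
      rw [norm_inv]
      exact inv_anti₀ hδ0 (hi2 z hz).le
    · exact subset_closure (Metric.mem_ball_self hρ0)
  rw [norm_inv] at h7
  have h8 : 0 < ‖F i z₀‖ := norm_pos_iff.2 (hcon z₀ hz₀)
  have h9 := (inv_le_inv₀ h8 hδ0).1 h7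
  linarith

end XW
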