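import Pool.Agent.Lib.MP_228259_lc.E3b
import Pool.Agent.Lib.MP_228259_lc.E4
import Pool.Agent.Lib.MP_228259_lc.P1
import Pool.Agent.Lib.MP_228259_lc.DefsE

/-!
E5: see /team-store/XW_blueprint.md
E5 nonsplit. Kronecker substitution: M > all exponents of F, e(alpha) = sum_j alpha_j M^j (injective on the support), kappa(lam)_j = lam^(M^j). c_alpha = coeff alpha F. alpha* = the element with c_alpha not in I with maximal e. Some beta has c_beta/c_{alpha*} nonconstant (otherwise all ratios are constant, contradiction to hF; if c_alpha in I then c_beta - c c_alpha in I...). chart_pole (U = c_beta, V = c_{alpha*}) gives a chart with |c_beta/c_alpha*| -> infinity (so nonconstant); order_exists: c_alpha(pt s) = s^(n_alpha)(gamma_alpha + o(1)), n_beta < n_{alpha*}. Choose tau = a/b > 0 rational maximising so that max_alpha (e(alpha) - tau n_alpha) is attained at alpha* and at least one other alpha (tau = smallest positive value where alpha*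 is not the unique maximum). lam = K^b (K natural), s = e^w, w = -a log K + zeta, z = l(w) + 2 pi i kappa(lam), l(w) = p w + L(e^w) = O(log K). Each monomial: (2 pi i kappa + l)^alpha = (2 pi i)^|alpha| lam^(e(alpha)) (1 + o(1)). After division by K^(max) : F(z, exp z) -> sum_{alpha in J} gamma_alpha (2 pi i)^|alpha| e^(n_alpha zeta) with distinct n_alpha, |J| >= 2: has a zero zeta0, not locally zero. hurwitz. s small and <> 0, so pt s in W minus E (pt s in E for arbitrarily small s would make pt constant).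
-/

namespace XW

open Filter Topology MvPolynomial

private theorem E5_diff_eval {n : ℕ} (c : MvPolynomial (Fin n) ℂ) {f : ℂ → Fin n → ℂ}
    {S : Set ℂ} (hf : ∀ j, DifferentiableOn ℂ (fun s => f s j) S) :
    DifferentiableOn ℂ (fun s => eval (f s) c) S := by
  simp only [eval_eq']
  refine DifferentiableOn.fun_sum fun d _ => ?_
  refine DifferentiableOn.const_mul ?_ _
  exact DifferentiableOn.fun_finsetProd fun j _ => (hf j).pow _

private theorem E5_slope {σ : Type} (S : Finset σ) (e : σ → ℕ) (N : σ → ℤ)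
    (he : Set.InjOn e S) (α₀ : σ) (h₀ : α₀ ∈ S) (hmax : ∀ α ∈ S, e α ≤ e α₀)
    (hβ : ∃ β ∈ S, N β < N α₀) :
    ∃ a b : ℕ, 0 < a ∧ 0 < b ∧
      (∀ α ∈ S, (b : ℤ) * e α - a * N α ≤ b * e α₀ - a * N α₀) ∧
      ∃ α₁ ∈ S, N α₁ < N α₀ ∧ (b : ℤ) * e α₁ - a * N α₁ = b * e α₀ - a * N α₀ := by
  classical
  obtain ⟨β, hβS, hβN⟩ := hβ
  obtain ⟨α₁, h1, h2⟩ := Finset.exists_min_image (S.filter fun α => N α < N α₀)
    (fun α => ((e α₀ : ℚ) - e α) / ((N α₀ : ℚ) - N α)) ⟨β, by simp [hβS, hβN]⟩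
  rw [Finset.mem_filter] at h1
  obtain ⟨h1S, h1N⟩ := h1
  have hne : e α₁ ≠ e α₀ := by
    intro h
    have := he h1S h₀ h
    rw [this] at h1N
    exact lt_irrefl _ h1N
  have hlt : e α₁ < e α₀ := lt_of_le_of_ne (hmax _ h1S) hne
  have ha : ((e α₀ - e α₁ : ℕ) : ℤ) = (e α₀ : ℤ) - e α₁ := by
    push_cast [hlt.le]
    ring
  have hb : (((N α₀ - N α₁).toNat : ℕ) : ℤ) = N α₀ - N α₁ := Int.toNat_of_nonneg (by omega)
  refine ⟨e α₀ - e α₁, (N α₀ - N α₁).toNat, by omega, by omega, ?_, α₁, h1S, h1N, ?_⟩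
  · intro α hα
    rw [ha, hb]
    by_cases hN : N α < N α₀
    · have h3 := h2 α (by simp [hα, hN])
      have h4 : (0 : ℚ) < (N α₀ : ℚ) - N α₁ := by
        have : (N α₁ : ℚ) < N α₀ := by exact_mod_cast h1N
        linarith
      have h5 : (0 : ℚ) < (N α₀ : ℚ) - N α := by
        have : (N α : ℚ) < N α₀ := by exact_mod_cast hN
        linarith
      rw [div_le_div_iff₀ h4 h5] at h3
      have h6 : ((e α₀ : ℤ) - e α₁) * (N α₀ - N α) ≤ ((e α₀ : ℤ) - e α) * (N α₀ - N α₁) := by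
        exact_mod_cast h3
      nlinarith [h6]
    · have h3 : (e α : ℤ) ≤ e α₀ := by exact_mod_cast hmax α hα
      have h4 : (e α₁ : ℤ) < e α₀ := by exact_mod_cast hlt
      nlinarith [mul_nonneg (sub_nonneg.mpr h4.le) (sub_nonneg.mpr (not_lt.mp hN)),
        mul_nonneg (sub_nonneg.mpr h3) (sub_nonneg.mpr h1N.le)]
  · rw [ha, hb]
    ring

private theorem E5_laurent {σ : Type} (J : Finset σ) (g : σ → ℂ) (hg : ∀ α ∈ J, g α ≠ 0)
    (N : σ → ℤ) (hN : Set.InjOn N J) (h2 : ∃ α ∈ J, ∃ β ∈ J, N α < N β) :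
    ∃ ζ₀ : ℂ, ∑ α ∈ J, g α * Complex.exp (N α * ζ₀) = 0 ∧
      ¬ ∀ᶠ ζ in 𝓝 ζ₀, ∑ α ∈ J, g α * Complex.exp (N α * ζ) = 0 := by
  classical
  obtain ⟨α, hα, β, hβ, hαβ⟩ := h2
  obtain ⟨α₀, h0, hmin⟩ := Finset.exists_min_image J N ⟨α, hα⟩
  set Q : Polynomial ℂ := ∑ α ∈ J, Polynomial.C (g α) * Polynomial.X ^ ((N α - N α₀).toNat)
    with hQ
  have hcoeff : ∀ α ∈ J, Q.coeff ((N α - N α₀).toNat) = g α := by
    intro α hα
    rw [hQ, Polynomial.finsetSum_coeff]
    simp only [Polynomial.coeff_C_mul_X_pow]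
    rw [Finset.sum_eq_single α]
    · simp
    · intro γ hγ hγα
      rw [if_neg]
      intro h
      apply hγα
      apply hN hγ hα
      have h1 := hmin γ hγ
      have h2 := hmin α hα
      omega
    · intro h
      exact absurd hα h
  have hfac : ∀ ζ : ℂ, ∑ α ∈ J, g α * Complex.exp (N α * ζ) =
      Complex.exp (N α₀ * ζ) * Q.eval (Complex.exp ζ) := by
    intro ζ
    rw [hQ, Polynomial.eval_finsetSum, Finset.mul_sum]
    refine Finset.sum_congr rfl fun α hα => ?_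
    rw [Polynomial.eval_mul, Polynomial.eval_C, Polynomial.eval_pow, Polynomial.eval_X,
      Complex.exp_int_mul, Complex.exp_int_mul]
    have h1 : Complex.exp ζ ^ (N α) =
        Complex.exp ζ ^ (N α₀) * Complex.exp ζ ^ ((N α - N α₀).toNat) := by
      rw [← zpow_natCast, ← zpow_add₀ (Complex.exp_ne_zero ζ)]
      congr 1
      have := hmin α hα
      omega
    rw [h1]
    ring
  have hQ0 : Q.coeff 0 ≠ 0 := by
    have := hcoeff α₀ h0
    rw [sub_self, Int.toNat_zero] at this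
    rw [this]
    exact hg _ h0
  have hQne : Q ≠ 0 := fun h => hQ0 (by rw [h, Polynomial.coeff_zero])
  have hdeg : 0 < Q.natDegree := by
    have h1 : Q.coeff ((N β - N α₀).toNat) ≠ 0 := by
      rw [hcoeff β hβ]
      exact hg _ hβ
    have h2 := Polynomial.le_natDegree_of_ne_zero h1
    have h3 := hmin α hα
    omega
  obtain ⟨u, hu⟩ := IsAlgClosed.exists_root Q (by
    intro h
    rw [Polynomial.degree_eq_natDegree hQne] at h
    have : Q.natDegree = 0 := by exact_mod_cast h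
    omega)
  have hu0 : u ≠ 0 := by
    rintro rfl
    rw [Polynomial.IsRoot.def, ← Polynomial.coeff_zero_eq_eval_zero] at hu
    exact hQ0 hu
  refine ⟨Complex.log u, ?_, ?_⟩
  · rw [hfac, Complex.exp_log hu0, hu.eq_zero, mul_zero]
  · intro hev
    have h1 : ∀ᶠ ζ in 𝓝 (Complex.log u), Q.eval (Complex.exp ζ) = 0 := by
      filter_upwards [hev] with ζ hζ
      rw [hfac] at hζ
      exact (mul_eq_zero.mp hζ).resolve_left (Complex.exp_ne_zero _)
    have h2 : AnalyticOnNhd ℂ (fun ζ => Q.eval (Complex.exp ζ)) Set.univ := by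
      refine DifferentiableOn.analyticOnNhd ?_ isOpen_univ
      exact ((Polynomial.differentiable Q).comp Complex.differentiable_exp).differentiableOn
    have h3 := h2.eqOn_zero_of_preconnected_of_eventuallyEq_zero isPreconnected_univ
      (Set.mem_univ (Complex.log u)) h1
    apply hQne
    apply Polynomial.eq_zero_of_infinite_isRoot
    refine Set.Infinite.mono (s := {0}ᶜ) ?_ (Set.finite_singleton (0 : ℂ)).infinite_compl
    intro v hv
    have := h3 (Set.mem_univ (Complex.log v))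
    simp only [Pi.zero_apply] at this
    rw [Complex.exp_log hv] at this
    exact this


/-- `log K / K ^ m → 0` -/
private theorem E5_log (m : ℕ) (hm : 0 < m) :
    Tendsto (fun K : ℕ => ((Real.log K : ℝ) : ℂ) / (K : ℂ) ^ m) atTop (𝓝 0) := by
  have h1 : Tendsto (fun x : ℝ => Real.log x / x ^ (m : ℝ)) atTop (𝓝 0) :=
    (isLittleO_log_rpow_atTop (by exact_mod_cast hm)).tendsto_div_nhds_zero
  have h2 := h1.comp (tendsto_natCast_atTop_atTop (R := ℝ))
  have h3 := (Complex.continuous_ofReal.tendsto 0).comp h2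
  rw [Complex.ofReal_zero] at h3
  refine h3.congr fun K => ?_
  simp

private theorem E5_inv (m : ℕ) (hm : 0 < m) :
    Tendsto (fun K : ℕ => 1 / (K : ℂ) ^ m) atTop (𝓝 0) := by
  have h1 : Tendsto (fun K : ℕ => 1 / (K : ℝ) ^ m) atTop (𝓝 0) := by
    have := (tendsto_pow_atTop (α := ℝ) hm.ne').comp (tendsto_natCast_atTop_atTop (R := ℝ))
    refine this.inv_tendsto_atTop.congr fun K => ?_
    simp
  have h3 := (Complex.continuous_ofReal.tendsto 0).comp h1
  rw [Complex.ofReal_zero] at h3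
  refine h3.congr fun K => ?_
  simp

/-- the logarithm `w = ζ - a log K` -/
private noncomputable def E5w (a : ℕ) (q : ℕ × ℂ) : ℂ := q.2 - a * ((Real.log q.1 : ℝ) : ℂ)

private theorem E5w_exp (a : ℕ) (q : ℕ × ℂ) (hq : 0 < q.1) :
    Complex.exp (E5w a q) * (q.1 : ℂ) ^ a = Complex.exp q.2 := by
  have h1 : Complex.exp (((Real.log q.1 : ℝ) : ℂ)) = (q.1 : ℂ) := by
    rw [← Complex.ofReal_exp, Real.exp_log (by exact_mod_cast hq)]
    simp
  rw [E5w, Complex.exp_sub, Complex.exp_nat_mul, h1]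
  have h2 : (q.1 : ℂ) ^ a ≠ 0 := pow_ne_zero _ (by exact_mod_cast hq.ne')
  field_simp

private theorem E5w_tend (a : ℕ) (ha : 0 < a) (z : ℂ) :
    Tendsto (fun q : ℕ × ℂ => Complex.exp (E5w a q)) (atTop ×ˢ 𝓝 z) (𝓝[≠] 0) := by
  rw [tendsto_nhdsWithin_iff]
  refine ⟨?_, Eventually.of_forall fun q => Complex.exp_ne_zero _⟩
  have h1 : Tendsto (fun q : ℕ × ℂ => (1 / (q.1 : ℂ) ^ a) * Complex.exp q.2)
      (atTop ×ˢ 𝓝 z) (𝓝 (0 * Complex.exp z)) := by
    refine Tendsto.mul ?_ ?_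
    · exact (E5_inv a ha).comp tendsto_fst
    · exact (Complex.continuous_exp.tendsto z).comp tendsto_snd
  rw [zero_mul] at h1
  refine h1.congr' ?_
  filter_upwards [tendsto_fst.eventually (eventually_gt_atTop 0)] with q hq
  rw [← E5w_exp a q hq]
  have h2 : (q.1 : ℂ) ^ a ≠ 0 := pow_ne_zero _ (by exact_mod_cast hq.ne')
  field_simp

private theorem E5w_div (a : ℕ) (m : ℕ) (hm : 0 < m) (z : ℂ) :
    Tendsto (fun q : ℕ × ℂ => E5w a q / (q.1 : ℂ) ^ m) (atTop ×ˢ 𝓝 z) (𝓝 0) := by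
  have h1 : Tendsto (fun q : ℕ × ℂ => q.2 * (1 / (q.1 : ℂ) ^ m) -
      a * (((Real.log q.1 : ℝ) : ℂ) / (q.1 : ℂ) ^ m)) (atTop ×ˢ 𝓝 z) (𝓝 (z * 0 - a * 0)) := by
    refine Tendsto.sub (Tendsto.mul tendsto_snd ((E5_inv m hm).comp tendsto_fst)) ?_
    exact Tendsto.const_mul _ ((E5_log m hm).comp tendsto_fst)
  rw [mul_zero, mul_zero, sub_zero] at h1
  refine h1.congr fun q => ?_
  rw [E5w]
  ring

/-- the point `z = l(w) + 2 pi i K ^ (b M ^ j)` -/
private noncomputable def E5z {n : ℕ} (p : Fin n → ℤ) (L : ℂ → Fin n → ℂ) (a : ℕ)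
    (m : Fin n → ℕ) (q : ℕ × ℂ) (j : Fin n) : ℂ :=
  p j * E5w a q + L (Complex.exp (E5w a q)) j + (q.1 : ℂ) ^ (m j) * (2 * Real.pi * Complex.I)

private theorem E5z_exp {n : ℕ} (p : Fin n → ℤ) (L : ℂ → Fin n → ℂ) (a : ℕ)
    (m : Fin n → ℕ) (q : ℕ × ℂ) (j : Fin n) :
    Complex.exp (E5z p L a m q j) = pt p L (Complex.exp (E5w a q)) j := by
  have h1 : Complex.exp ((q.1 : ℂ) ^ (m j) * (2 * Real.pi * Complex.I)) = 1 := by
    have := Complex.exp_nat_mul_two_pi_mul_I (q.1 ^ (m j))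
    push_cast at this
    exact this
  rw [E5z, Complex.exp_add, Complex.exp_add, h1, mul_one, Complex.exp_int_mul]
  rfl

private theorem E5z_div {n : ℕ} (p : Fin n → ℤ) (L : ℂ → Fin n → ℂ) (a : ℕ) (ha : 0 < a)
    (m : Fin n → ℕ) (hm : ∀ j, 0 < m j) (hL : ∀ j, ContinuousAt (fun s => L s j) 0) (z : ℂ)
    (j : Fin n) :
    Tendsto (fun q : ℕ × ℂ => E5z p L a m q j / (q.1 : ℂ) ^ (m j)) (atTop ×ˢ 𝓝 z)
      (𝓝 (2 * Real.pi * Complex.I)) := by
  have h0 : Tendsto (fun q : ℕ × ℂ => L (Complex.exp (E5w a q)) j) (atTop ×ˢ 𝓝 z)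
      (𝓝 (L 0 j)) :=
    (hL j).tendsto.comp ((E5w_tend a ha z).mono_right nhdsWithin_le_nhds)
  have h1 : Tendsto (fun q : ℕ × ℂ => p j * (E5w a q / (q.1 : ℂ) ^ (m j)) +
      L (Complex.exp (E5w a q)) j * (1 / (q.1 : ℂ) ^ (m j)) + (2 * Real.pi * Complex.I))
      (atTop ×ˢ 𝓝 z) (𝓝 (p j * 0 + L 0 j * 0 + (2 * Real.pi * Complex.I))) := by
    refine Tendsto.add (Tendsto.add ?_ ?_) tendsto_const_nhds
    · exact Tendsto.const_mul _ (E5w_div a _ (hm j) z)
    · exact h0.mul ((E5_inv _ (hm j)).comp tendsto_fst)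
  rw [mul_zero, mul_zero, zero_add, zero_add] at h1
  refine h1.congr' ?_
  filter_upwards [tendsto_fst.eventually (eventually_gt_atTop 0)] with q hq
  rw [E5z]
  have h2 : (q.1 : ℂ) ^ (m j) ≠ 0 := pow_ne_zero _ (by exact_mod_cast hq.ne')
  field_simp

/-- one summand -/
private theorem E5_term {n : ℕ} (p : Fin n → ℤ) (L : ℂ → Fin n → ℂ) (a b : ℕ) (ha : 0 < a)
    (hb : 0 < b) (M : ℕ) (hM : 0 < M) (hL : ∀ j, ContinuousAt (fun s => L s j) 0)
    (c : MvPolynomial (Fin n) ℂ) (N : ℤ) (γ : ℂ)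
    (hγ : Tendsto (fun s => eval (pt p L s) c / s ^ N) (𝓝[≠] 0) (𝓝 γ)) (α : Fin n →₀ ℕ)
    (ms : ℤ) (hD : (b : ℤ) * (∑ j, α j * M ^ (j : ℕ) : ℕ) - a * N ≤ ms) (z : ℂ) :
    Tendsto (fun q : ℕ × ℂ => eval (pt p L (Complex.exp (E5w a q))) c *
      (∏ j, E5z p L a (fun j => b * M ^ (j : ℕ)) q j ^ (α j)) / (q.1 : ℂ) ^ ms) (atTop ×ˢ 𝓝 z)
      (𝓝 (if (b : ℤ) * (∑ j, α j * M ^ (j : ℕ) : ℕ) - a * N = ms then
        γ * (∏ j, (2 * Real.pi * Complex.I) ^ (α j)) * Complex.exp (N * z) else 0)) := by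
  have h1 := hγ.comp (E5w_tend a ha z)
  have h2 : Tendsto (fun q : ℕ × ℂ => Complex.exp (N * q.2)) (atTop ×ˢ 𝓝 z)
      (𝓝 (Complex.exp (N * z))) :=
    ((Complex.continuous_exp.comp (continuous_const.mul continuous_id)).tendsto z).comp
      tendsto_snd
  have h3 : Tendsto (fun q : ℕ × ℂ => ∏ j, (E5z p L a (fun j => b * M ^ (j : ℕ)) q j /
      (q.1 : ℂ) ^ (b * M ^ (j : ℕ))) ^ (α j)) (atTop ×ˢ 𝓝 z)
      (𝓝 (∏ j, (2 * Real.pi * Complex.I) ^ (α j))) := by
    refine tendsto_finsetProd _ fun j _ => ?_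
    exact (E5z_div p L a ha (fun j => b * M ^ (j : ℕ))
      (fun j => Nat.mul_pos hb (pow_pos hM _)) hL z j).pow _
  have h4 : Tendsto (fun q : ℕ × ℂ => (q.1 : ℂ) ^
      ((b : ℤ) * (∑ j, α j * M ^ (j : ℕ) : ℕ) - a * N - ms)) (atTop ×ˢ 𝓝 z)
      (𝓝 (if (b : ℤ) * (∑ j, α j * M ^ (j : ℕ) : ℕ) - a * N = ms then 1 else 0)) := by
    by_cases h : (b : ℤ) * (∑ j, α j * M ^ (j : ℕ) : ℕ) - a * N = ms
    · rw [if_pos h, h, sub_self]
      simp only [zpow_zero]
      exact tendsto_const_nhds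
    · rw [if_neg h]
      have hlt : (b : ℤ) * (∑ j, α j * M ^ (j : ℕ) : ℕ) - a * N - ms < 0 := by omega
      rw [tendsto_zero_iff_norm_tendsto_zero]
      have h5 := ((tendsto_zpow_atTop_zero (𝕜 := ℝ) hlt).comp
        (tendsto_natCast_atTop_atTop (R := ℝ))).comp
        (tendsto_fst (f := (atTop : Filter ℕ)) (g := 𝓝 z))
      refine h5.congr fun q => ?_
      simp
  have h5 := ((h1.mul h2).mul h3).mul h4
  have h6 : (γ * Complex.exp (N * z) * ∏ j, (2 * Real.pi * Complex.I) ^ (α j)) *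
      (if (b : ℤ) * (∑ j, α j * M ^ (j : ℕ) : ℕ) - a * N = ms then 1 else 0) =
      (if (b : ℤ) * (∑ j, α j * M ^ (j : ℕ) : ℕ) - a * N = ms then
        γ * (∏ j, (2 * Real.pi * Complex.I) ^ (α j)) * Complex.exp (N * z) else 0) := by
    split_ifs
    · ring
    · ring
  rw [h6] at h5
  refine h5.congr' ?_
  filter_upwards [tendsto_fst.eventually (eventually_gt_atTop 0)] with q hq
  have hK : (q.1 : ℂ) ≠ 0 := by exact_mod_cast hq.ne'
  have e1 : Complex.exp (N * q.2) = Complex.exp (E5w a q) ^ N * (q.1 : ℂ) ^ ((a : ℤ) * N) := by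
    rw [Complex.exp_int_mul, ← E5w_exp a q hq, mul_zpow, zpow_mul, zpow_natCast]
  have e2 : ∏ j, (E5z p L a (fun j => b * M ^ (j : ℕ)) q j /
      (q.1 : ℂ) ^ (b * M ^ (j : ℕ))) ^ (α j) =
      (∏ j, E5z p L a (fun j => b * M ^ (j : ℕ)) q j ^ (α j)) /
        (q.1 : ℂ) ^ ((b : ℤ) * (∑ j, α j * M ^ (j : ℕ) : ℕ)) := by
    simp only [div_pow]
    rw [Finset.prod_div_distrib]
    congr 1
    rw [← Nat.cast_mul, zpow_natCast, Finset.mul_sum, ← Finset.prod_pow_eq_pow_sum]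
    refine Finset.prod_congr rfl fun j _ => ?_
    rw [← pow_mul]
    congr 1
    ring
  have e3 : Complex.exp (E5w a q) ^ N ≠ 0 := zpow_ne_zero _ (Complex.exp_ne_zero _)
  simp only [Function.comp_apply]
  rw [e1, e2, zpow_sub₀ hK, zpow_sub₀ hK]
  have e4 : (q.1 : ℂ) ^ ((a : ℤ) * N) ≠ 0 := zpow_ne_zero _ hK
  have e5 : (q.1 : ℂ) ^ ((b : ℤ) * (∑ j, α j * M ^ (j : ℕ) : ℕ)) ≠ 0 := zpow_ne_zero _ hK
  have e6 : (q.1 : ℂ) ^ ms ≠ 0 := zpow_ne_zero _ hK
  field_simp


theorem nonsplit {n : ℕ} {I : Ideal (MvPolynomial (Fin n) ℂ)} {W : Set (Fin n → ℂ)}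
    (hI : CurveData I W) (E : Set (Fin n → ℂ)) (hE : E.Finite)
    (F : MvPolynomial (Fin n) (MvPolynomial (Fin n) ℂ))
    (hF : ∃ α β, coeff α F ∉ I ∧ ∀ c : ℂ, coeff β F - C c * coeff α F ∉ I) :
    ∃ z : Fin n → ℂ, (fun j => Complex.exp (z j)) ∈ W \ E ∧
      ev2 z (fun j => Complex.exp (z j)) F = 0 := by
  classical
  -- weights
  set M : ℕ := F.totalDegree + 1 with hMdef
  have hM : 0 < M := Nat.succ_pos _
  set e : (Fin n →₀ ℕ) → ℕ := fun α => ∑ j, α j * M ^ (j : ℕ) with he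
  have hlt : ∀ α ∈ F.support, ∀ j, α j < M := by
    intro α hα j
    have h1 := monomial_le_degreeOf j hα
    have h2 := degreeOf_le_totalDegree F j
    omega
  have hinj : Set.InjOn e F.support := by
    intro α hα β hβ hαβ
    have h1 : finFunctionFinEquiv (fun j : Fin n => (⟨α j, hlt α hα j⟩ : Fin M)) =
        finFunctionFinEquiv (fun j : Fin n => (⟨β j, hlt β hβ j⟩ : Fin M)) := by
      apply Fin.ext
      rw [finFunctionFinEquiv_apply, finFunctionFinEquiv_apply]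
      exact hαβ
    have h2 := finFunctionFinEquiv.injective h1
    ext j
    have h3 := congrFun h2 j
    exact congrArg Fin.val h3
  set S : Finset (Fin n →₀ ℕ) := F.support.filter fun α => coeff α F ∉ I with hS
  have hSsub : ∀ α, coeff α F ∉ I → α ∈ S := by
    intro α hα
    rw [hS, Finset.mem_filter, mem_support_iff]
    exact ⟨fun h => hα (by rw [h]; exact I.zero_mem), hα⟩
  obtain ⟨α', β', hα', hβ'⟩ := hF
  obtain ⟨α₀, h0S, hmax⟩ := Finset.exists_max_image S e ⟨α', hSsub α' hα'⟩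
  have h0I : coeff α₀ F ∉ I := (Finset.mem_filter.mp h0S).2
  obtain ⟨β, hβ⟩ : ∃ β, ∀ c : ℂ, coeff β F - C c * coeff α₀ F ∉ I := by
    by_contra hcon
    push Not at hcon
    obtain ⟨c₁, h1⟩ := hcon α'
    obtain ⟨c₂, h2⟩ := hcon β'
    have hc1 : c₁ ≠ 0 := by
      rintro rfl
      apply hα'
      simpa using h1
    apply hβ' (c₂ / c₁)
    have h3 : coeff β' F - C (c₂ / c₁) * coeff α' F =
        (coeff β' F - C c₂ * coeff α₀ F) -
          C (c₂ / c₁) * (coeff α' F - C c₁ * coeff α₀ F) := by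
      have h4 : (C c₂ : MvPolynomial (Fin n) ℂ) = C (c₂ / c₁) * C c₁ := by
        rw [← C_mul, div_mul_cancel₀ _ hc1]
      rw [h4]
      ring
    rw [h3]
    exact I.sub_mem h2 (I.mul_mem_left _ h1)
  have hβI : coeff β F ∉ I := by
    have := hβ 0
    simpa using this
  -- the chart
  obtain ⟨r, p, L, hch, hpole⟩ := chart_pole hI (coeff β F) (coeff α₀ F) h0I hβ
  have hnc : ¬ ∃ y, ∀ᶠ s in 𝓝[≠] (0 : ℂ), pt p L s = y := by
    rintro ⟨y, hy⟩
    have h1 : Tendsto (fun s => ‖eval (pt p L s) (coeff β F) / eval (pt p L s) (coeff α₀ F)‖)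
        (𝓝[≠] (0 : ℂ)) (𝓝 (‖eval y (coeff β F) / eval y (coeff α₀ F)‖)) := by
      refine tendsto_const_nhds.congr' ?_
      filter_upwards [hy] with s hs
      rw [hs]
    exact not_tendsto_nhds_of_tendsto_atTop hpole _ h1
  have hord : ∀ α : Fin n →₀ ℕ, ∃ (m : ℤ) (γ : ℂ), coeff α F ∉ I → γ ≠ 0 ∧
      Tendsto (fun s => eval (pt p L s) (coeff α F) / s ^ m) (𝓝[≠] 0) (𝓝 γ) := by
    intro α
    by_cases h : coeff α F ∈ I
    · exact ⟨0, 0, fun h' => absurd h h'⟩
    · obtain ⟨m, γ, h1, h2⟩ := order_exists hI hch hnc (coeff α F) h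
      exact ⟨m, γ, fun _ => ⟨h1, h2⟩⟩
  choose N γ hNγ using hord
  have hβN : N β < N α₀ := by
    by_contra hge
    rw [not_lt] at hge
    obtain ⟨g1, t1⟩ := hNγ β hβI
    obtain ⟨g2, t2⟩ := hNγ α₀ h0I
    have t3 : Tendsto (fun s : ℂ => s ^ (N β - N α₀)) (𝓝[≠] 0)
        (𝓝 ((0 : ℂ) ^ (N β - N α₀))) := by
      have : ContinuousAt (fun s : ℂ => s ^ (N β - N α₀)) 0 :=
        continuousAt_zpow₀ 0 _ (Or.inr (by omega))
      exact this.tendsto.mono_left nhdsWithin_le_nhds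
    have t4 := ((t1.div t2 g2).mul t3).norm
    refine not_tendsto_nhds_of_tendsto_atTop hpole _ (t4.congr' ?_)
    filter_upwards [self_mem_nhdsWithin] with s hs
    have hs0 : s ≠ 0 := hs
    congr 1
    simp only [Pi.div_apply]
    rw [zpow_sub₀ hs0]
    have e1 : s ^ (N β) ≠ 0 := zpow_ne_zero _ hs0
    have e2 : s ^ (N α₀) ≠ 0 := zpow_ne_zero _ hs0
    by_cases h3 : eval (pt p L s) (coeff α₀ F) = 0
    · rw [h3]
      simp
    · field_simp
  obtain ⟨a, b, ha, hb, hle, α₁, h1S, h1N, h1e⟩ := E5_slope S e N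
    (hinj.mono fun α hα => (Finset.mem_filter.mp (Finset.mem_coe.mp hα)).1) α₀ h0S hmax
    ⟨β, hSsub β hβI, hβN⟩
  set ms : ℤ := b * e α₀ - a * N α₀ with hms
  set J : Finset (Fin n →₀ ℕ) := S.filter fun α => (b : ℤ) * e α - a * N α = ms with hJ
  have hJN : Set.InjOn N J := by
    intro α hα β hβ hαβ
    rw [Finset.mem_coe, hJ, Finset.mem_filter] at hα hβ
    have h1 : (b : ℤ) * e α = b * e β := by
      have h2 := hα.2.trans hβ.2.symm
      rw [hαβ] at h2
      linarith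
    have h3 : (e α : ℤ) = e β := mul_left_cancel₀ (by exact_mod_cast hb.ne') h1
    exact hinj (Finset.mem_filter.mp hα.1).1 (Finset.mem_filter.mp hβ.1).1
      (by exact_mod_cast h3)
  obtain ⟨ζ₀, hz0, hzne⟩ := E5_laurent J
    (fun α => γ α * ∏ j, (2 * Real.pi * Complex.I) ^ (α j)) (by
      intro α hα
      rw [hJ, Finset.mem_filter] at hα
      refine mul_ne_zero (hNγ α (Finset.mem_filter.mp hα.1).2).1 ?_
      exact Finset.prod_ne_zero_iff.mpr fun j _ => pow_ne_zero _ Complex.two_pi_I_ne_zero)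
    N hJN ⟨α₁, by rw [hJ, Finset.mem_filter]; exact ⟨h1S, h1e⟩, α₀,
      by rw [hJ, Finset.mem_filter]; exact ⟨h0S, rfl⟩, h1N⟩
  have hLc : ∀ j, ContinuousAt (fun s => L s j) 0 := by
    intro j
    exact ((hch.diff j).differentiableAt (Metric.ball_mem_nhds 0 hch.pos)).continuousAt
  -- the function
  set Φ : ℕ → ℂ → ℂ := fun K ζ => ∑ α ∈ F.support,
    eval (pt p L (Complex.exp (E5w a (K, ζ)))) (coeff α F) *
      (∏ j, E5z p L a (fun j => b * M ^ (j : ℕ)) (K, ζ) j ^ (α j)) / (K : ℂ) ^ ms with hΦ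
  have hsm : ∀ δ : ℝ, 0 < δ → ∀ᶠ K : ℕ in atTop, ∀ ζ ∈ Metric.ball ζ₀ 1,
      ‖Complex.exp (E5w a (K, ζ))‖ < δ := by
    intro δ hδ
    have h1 := ((E5_inv a ha).norm.const_mul (Real.exp (‖ζ₀‖ + 1)))
    rw [norm_zero, mul_zero] at h1
    filter_upwards [h1.eventually_lt_const hδ, eventually_gt_atTop 0] with K hK hK0 ζ hζ
    refine lt_of_le_of_lt ?_ hK
    have h2 := E5w_exp a (K, ζ) hK0
    have h3 : ((K : ℂ)) ^ a ≠ 0 := pow_ne_zero _ (by exact_mod_cast hK0.ne')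
    have h4 : Complex.exp (E5w a (K, ζ)) = Complex.exp ζ * (1 / (K : ℂ) ^ a) := by
      rw [← h2]
      field_simp
    rw [h4, norm_mul]
    refine mul_le_mul_of_nonneg_right ?_ (norm_nonneg _)
    refine (Complex.norm_exp_le_exp_norm ζ).trans (Real.exp_le_exp.mpr ?_)
    have h5 : ‖ζ - ζ₀‖ < 1 := by
      rw [← dist_eq_norm]
      exact hζ
    have h6 := norm_le_norm_add_norm_sub ζ₀ ζ
    rw [norm_sub_rev] at h5
    linarith
  have hsmall : ∀ᶠ K : ℕ in atTop, ∀ ζ ∈ Metric.ball ζ₀ 1,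
      ‖Complex.exp (E5w a (K, ζ))‖ < r := hsm r hch.pos
  have hbad : ∀ᶠ K : ℕ in atTop, ∀ ζ ∈ Metric.ball ζ₀ 1,
      pt p L (Complex.exp (E5w a (K, ζ))) ∉ E := by
    have h1 : ∀ᶠ s in 𝓝[≠] (0 : ℂ), ∀ y ∈ E, pt p L s ≠ y := by
      rw [Filter.eventually_all_finite hE]
      intro y _
      have hmer : ∀ j, MeromorphicAt (fun s => pt p L s j - y j) 0 := by
        intro j
        have h2 : AnalyticAt ℂ (fun s => Complex.exp (L s j)) 0 := by
          have h3 : AnalyticAt ℂ (fun s => L s j) 0 :=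
            (hch.diff j).analyticAt (Metric.ball_mem_nhds 0 hch.pos)
          exact h3.cexp
        exact (((MeromorphicAt.id 0).zpow (p j)).mul h2.meromorphicAt).sub
          (MeromorphicAt.const _ _)
      by_cases h : ∀ j, ∀ᶠ s in 𝓝[≠] (0 : ℂ), pt p L s j - y j = 0
      · exfalso
        apply hnc
        refine ⟨y, ?_⟩
        rw [← Filter.eventually_all] at h
        filter_upwards [h] with s hs
        funext j
        exact sub_eq_zero.mp (hs j)
      · push Not at h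
        obtain ⟨j, hj⟩ := h
        rcases (hmer j).eventually_eq_zero_or_eventually_ne_zero with h2 | h2
        · exact absurd (h2.mono fun x hx hne => hne hx) hj
        · filter_upwards [h2] with s hs heq
          exact hs (by rw [heq, sub_self])
    rw [eventually_nhdsWithin_iff, Metric.eventually_nhds_iff] at h1
    obtain ⟨δ, hδ, h1⟩ := h1
    filter_upwards [hsm δ hδ] with K hK ζ hζ hmem
    exact h1 (by rw [dist_zero_right]; exact hK ζ hζ) (Complex.exp_ne_zero _) _ hmem rfl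
  have hdiff : ∀ᶠ K : ℕ in atTop, DifferentiableOn ℂ (Φ K) (Metric.ball ζ₀ 1) := by
    filter_upwards [hsmall] with K hK
    have hw : Differentiable ℂ fun ζ : ℂ => E5w a (K, ζ) :=
      differentiable_id.sub (differentiable_const ((a : ℂ) * ((Real.log K : ℝ) : ℂ)))
    have hew : DifferentiableOn ℂ (fun ζ : ℂ => Complex.exp (E5w a (K, ζ)))
        (Metric.ball ζ₀ 1) := (Complex.differentiable_exp.comp hw).differentiableOn
    have hLw : ∀ j, DifferentiableOn ℂ (fun ζ : ℂ => L (Complex.exp (E5w a (K, ζ))) j)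
        (Metric.ball ζ₀ 1) := by
      intro j
      refine (hch.diff j).comp hew ?_
      intro ζ hζ
      rw [mem_ball_zero_iff]
      exact hK ζ hζ
    refine DifferentiableOn.fun_sum fun α _ => ?_
    refine DifferentiableOn.div_const ?_ _
    refine DifferentiableOn.mul ?_ ?_
    · refine E5_diff_eval _ fun j => ?_
      refine DifferentiableOn.mul ?_ ?_
      · exact hew.zpow (Or.inl fun ζ _ => Complex.exp_ne_zero _)
      · exact (hLw j).cexp
    · refine DifferentiableOn.fun_finsetProd fun j _ => DifferentiableOn.pow ?_ _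
      exact ((hw.differentiableOn.const_mul _).add (hLw j)).add
        (differentiableOn_const ((K : ℂ) ^ (b * M ^ (j : ℕ)) * (2 * Real.pi * Complex.I)))
  have hlim : ∀ z ∈ Metric.ball ζ₀ 1, Tendsto (fun q : ℕ × ℂ => Φ q.1 q.2) (atTop ×ˢ 𝓝 z)
      (𝓝 (∑ α ∈ J, (γ α * ∏ j, (2 * Real.pi * Complex.I) ^ (α j)) *
        Complex.exp (N α * z))) := by
    intro z _
    have hterm : ∀ α ∈ F.support, Tendsto (fun q : ℕ × ℂ =>
        eval (pt p L (Complex.exp (E5w a q))) (coeff α F) *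
          (∏ j, E5z p L a (fun j => b * M ^ (j : ℕ)) q j ^ (α j)) / (q.1 : ℂ) ^ ms)
        (atTop ×ˢ 𝓝 z) (𝓝 (if α ∈ J then
          (γ α * ∏ j, (2 * Real.pi * Complex.I) ^ (α j)) * Complex.exp (N α * z) else 0)) := by
      intro α hα
      by_cases h : coeff α F ∈ I
      · have hαJ : α ∉ J := by
          intro h'
          rw [hJ, Finset.mem_filter, hS, Finset.mem_filter] at h'
          exact h'.1.2 h
        rw [if_neg hαJ]
        refine tendsto_const_nhds.congr' ?_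
        have h2 : ∀ᶠ s in 𝓝[≠] (0 : ℂ), eval (pt p L s) (coeff α F) = 0 := by
          have h3 : ∀ᶠ s in 𝓝 (0 : ℂ), ‖s‖ < r := by
            filter_upwards [Metric.ball_mem_nhds (0 : ℂ) hch.pos] with s hs
            exact mem_ball_zero_iff.mp hs
          filter_upwards [self_mem_nhdsWithin, nhdsWithin_le_nhds h3] with s hs0 hsr
          have h4 := hch.mem s hs0 hsr
          rw [hI.W_eq] at h4
          exact h4.1 _ h
        filter_upwards [(E5w_tend a ha z).eventually h2] with q hq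
        rw [hq, zero_mul, zero_div]
      · have hαS : α ∈ S := hSsub α h
        have h1 := E5_term p L a b ha hb M hM hLc (coeff α F) (N α) (γ α) (hNγ α h).2 α ms
          (hle α hαS) z
        have h2 : (if (b : ℤ) * (∑ j, α j * M ^ (j : ℕ) : ℕ) - a * N α = ms then
            γ α * (∏ j, (2 * Real.pi * Complex.I) ^ (α j)) * Complex.exp (N α * z) else 0) =
            (if α ∈ J then
          (γ α * ∏ j, (2 * Real.pi * Complex.I) ^ (α j)) * Complex.exp (N α * z) else 0) := by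
          refine if_congr ?_ rfl rfl
          rw [hJ, Finset.mem_filter]
          exact ⟨fun h => ⟨hαS, h⟩, fun h => h.2⟩
        rw [h2] at h1
        exact h1
    have h1 := tendsto_finsetSum F.support hterm
    have h2 : ∑ α ∈ F.support, (if α ∈ J then
          (γ α * ∏ j, (2 * Real.pi * Complex.I) ^ (α j)) * Complex.exp (N α * z) else 0) =
        ∑ α ∈ J, (γ α * ∏ j, (2 * Real.pi * Complex.I) ^ (α j)) *
        Complex.exp (N α * z) := by
      rw [← Finset.sum_filter]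
      refine Finset.sum_congr ?_ fun _ _ => rfl
      ext α
      rw [Finset.mem_filter]
      exact ⟨fun h => h.2, fun h => ⟨(Finset.mem_filter.mp (Finset.mem_filter.mp h).1).1, h⟩⟩
    rw [h2] at h1
    exact h1
  have hGd : DifferentiableOn ℂ (fun z : ℂ => ∑ α ∈ J,
      (γ α * ∏ j, (2 * Real.pi * Complex.I) ^ (α j)) * Complex.exp (N α * z))
      (Metric.ball ζ₀ 1) := by
    refine DifferentiableOn.fun_sum fun α _ => ?_
    refine DifferentiableOn.const_mul ?_ _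
    exact (Complex.differentiable_exp.comp (differentiable_id.const_mul _)).differentiableOn
  have hhur := hurwitz one_pos hdiff hGd hlim hz0 hzne
  obtain ⟨K, ⟨⟨⟨ζ, hζ, hΦ0⟩, hs⟩, hb'⟩, hK⟩ :=
    (((hhur.and hsmall).and hbad).and (eventually_gt_atTop 0)).exists
  have hexp : (fun j => Complex.exp (E5z p L a (fun j => b * M ^ (j : ℕ)) (K, ζ) j)) =
      pt p L (Complex.exp (E5w a (K, ζ))) := funext fun j => E5z_exp p L a _ _ j
  refine ⟨E5z p L a (fun j => b * M ^ (j : ℕ)) (K, ζ), ?_, ?_⟩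
  · rw [hexp]
    exact ⟨hch.mem _ (Complex.exp_ne_zero _) (hs ζ hζ), hb' ζ hζ⟩
  · rw [hexp, ev2, eval_map, eval₂_eq']
    rw [hΦ] at hΦ0
    simp only at hΦ0
    rw [← Finset.sum_div] at hΦ0
    have hK0 : (K : ℂ) ^ ms ≠ 0 := zpow_ne_zero _ (by exact_mod_cast hK.ne')
    exact (div_eq_zero_iff.mp hΦ0).resolve_right hK0

end XW
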