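import Pool.Agent.Lib.MP_228259_lc.DefsE

/-!
E6a: the extension of a prime ideal to the fraction field of the coefficients.
-/

namespace XW

open Filter Topology MvPolynomial

lemma e6a_rename {n : ℕ} (f : MvPolynomial (Fin n) ℂ) :
    sumAlgEquiv ℂ (Fin n) (Fin n) (rename Sum.inr f) = C f :=
  DFunLike.congr_fun (sumAlgEquiv_comp_rename_inr (R := ℂ) (S₁ := Fin n) (S₂ := Fin n)) f

lemma e6a_symm_C {n : ℕ} (c : MvPolynomial (Fin n) ℂ) :
    (sumAlgEquiv ℂ (Fin n) (Fin n)).symm (C c) = rename Sum.inr c := by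
  rw [AlgEquiv.symm_apply_eq, e6a_rename]

lemma e6a_mem {n : ℕ} (P : Ideal (MvPolynomial (Fin n ⊕ Fin n) ℂ))
    (f : MvPolynomial (Fin n ⊕ Fin n) ℂ)
    (h : ∀ α, rename Sum.inr (coeff α (sumAlgEquiv ℂ (Fin n) (Fin n) f)) ∈ P) : f ∈ P := by
  classical
  obtain ⟨g, hg⟩ : ∃ g, g = sumAlgEquiv ℂ (Fin n) (Fin n) f := ⟨_, rfl⟩
  have hf : f = (sumAlgEquiv ℂ (Fin n) (Fin n)).symm g := by
    rw [hg, AlgEquiv.symm_apply_apply]
  rw [← hg] at h
  rw [hf, g.as_sum, map_sum]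
  refine P.sum_mem fun α _ => ?_
  have h1 : (monomial α (coeff α g) : MvPolynomial (Fin n) (MvPolynomial (Fin n) ℂ)) =
      C (coeff α g) * monomial α 1 := by
    rw [C_mul_monomial, mul_one]
  rw [h1, map_mul, e6a_symm_C]
  exact P.mul_mem_right _ (h α)

theorem extend_ideal {n : ℕ} (P : Ideal (MvPolynomial (Fin n ⊕ Fin n) ℂ)) (hP : P.IsPrime)
    (A : Type) [CommRing A] [IsDomain A] (K : Type) [Field K] [Algebra A K]
    [IsFractionRing A K] (π : MvPolynomial (Fin n) ℂ →+* A) (hπ : Function.Surjective π)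
    (hker : ∀ f, π f = 0 ↔ rename Sum.inr f ∈ P) :
    ∃ Q : Ideal (MvPolynomial (Fin n) K), Q.IsPrime ∧
      (∀ f : MvPolynomial (Fin n ⊕ Fin n) ℂ, f ∈ P ↔
        map ((algebraMap A K).comp π) (sumAlgEquiv ℂ (Fin n) (Fin n) f) ∈ Q) ∧
      (∀ g ∈ Q, ∃ (f : MvPolynomial (Fin n ⊕ Fin n) ℂ) (a : A), a ≠ 0 ∧ f ∈ P ∧
        C (algebraMap A K a) * g =
          map ((algebraMap A K).comp π) (sumAlgEquiv ℂ (Fin n) (Fin n) f)) := by
  classical
  let _ : Algebra (MvPolynomial (Fin n) A) (MvPolynomial (Fin n) K) :=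
    MvPolynomial.algebraMvPolynomial
  have hloc : IsLocalization ((nonZeroDivisors A).map (C (σ := Fin n)))
    (MvPolynomial (Fin n) K) := MvPolynomial.isLocalization (nonZeroDivisors A) K
  -- the surjection onto `A[x]`
  let ρ : MvPolynomial (Fin n ⊕ Fin n) ℂ →+* MvPolynomial (Fin n) A :=
    (MvPolynomial.map π).comp (sumAlgEquiv ℂ (Fin n) (Fin n)).toRingEquiv.toRingHom
  have hρ : Function.Surjective ρ := by
    intro a
    obtain ⟨g, hg⟩ := MvPolynomial.map_surjective (σ := Fin n) π hπ a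
    refine ⟨(sumAlgEquiv ℂ (Fin n) (Fin n)).symm g, ?_⟩
    change map π (sumAlgEquiv ℂ (Fin n) (Fin n) ((sumAlgEquiv ℂ (Fin n) (Fin n)).symm g)) = a
    rw [AlgEquiv.apply_symm_apply, hg]
  have hρk : RingHom.ker ρ ≤ P := by
    intro f hf
    rw [RingHom.mem_ker] at hf
    apply e6a_mem
    intro α
    rw [← hker]
    have h1 := congrArg (coeff α) hf
    change coeff α (map π (sumAlgEquiv ℂ (Fin n) (Fin n) f)) = coeff α 0 at h1
    rw [coeff_map, coeff_zero] at h1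
    exact h1
  have hP' : (P.map ρ).IsPrime := Ideal.map_isPrime_of_surjective hρ hρk
  have hcomap : ∀ f, ρ f ∈ P.map ρ ↔ f ∈ P := by
    intro f
    rw [← Ideal.mem_comap, Ideal.comap_map_of_surjective ρ hρ]
    have h1 : P ⊔ Ideal.comap ρ ⊥ = P := sup_eq_left.2 hρk
    rw [h1]
  have hdisj : Disjoint (((nonZeroDivisors A).map (C (σ := Fin n)) :
      Submonoid (MvPolynomial (Fin n) A)) : Set (MvPolynomial (Fin n) A)) (P.map ρ) := by
    rw [Set.disjoint_left]
    rintro _ ⟨a, ha, rfl⟩ h2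
    obtain ⟨b, rfl⟩ := hπ a
    have h3 : ρ (rename Sum.inr b) = C (π b) := by
      change map π (sumAlgEquiv ℂ (Fin n) (Fin n) (rename Sum.inr b)) = _
      rw [e6a_rename, map_C]
    have h4 : ρ (rename Sum.inr b) ∈ P.map ρ := by
      rw [h3]
      exact h2
    rw [hcomap, ← hker] at h4
    exact nonZeroDivisors.ne_zero ha h4
  refine ⟨(P.map ρ).map (algebraMap (MvPolynomial (Fin n) A) (MvPolynomial (Fin n) K)),
    IsLocalization.isPrime_of_isPrime_disjoint _ _ _ hP' hdisj, ?_, ?_⟩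
  · intro f
    have h1 : map ((algebraMap A K).comp π) (sumAlgEquiv ℂ (Fin n) (Fin n) f) =
        algebraMap (MvPolynomial (Fin n) A) (MvPolynomial (Fin n) K) (ρ f) := by
      rw [MvPolynomial.algebraMap_def]
      change _ = map (algebraMap A K) (map π (sumAlgEquiv ℂ (Fin n) (Fin n) f))
      rw [MvPolynomial.map_map]
    rw [h1, ← hcomap]
    have h2 := IsLocalization.under_map_of_isPrime_disjoint
      ((nonZeroDivisors A).map (C (σ := Fin n))) (MvPolynomial (Fin n) K) hP' hdisj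
    have h3 : ρ f ∈ ((P.map ρ).map
        (algebraMap (MvPolynomial (Fin n) A) (MvPolynomial (Fin n) K))).under
          (MvPolynomial (Fin n) A) ↔ ρ f ∈ P.map ρ := by rw [h2]
    rw [← h3]
    rfl
  · intro g hg
    rw [IsLocalization.mem_map_algebraMap_iff ((nonZeroDivisors A).map (C (σ := Fin n)))] at hg
    obtain ⟨⟨⟨x, hx⟩, ⟨_, a, ha, rfl⟩⟩, h⟩ := hg
    obtain ⟨f, rfl⟩ := hρ x
    refine ⟨f, a, nonZeroDivisors.ne_zero ha, (hcomap f).1 hx, ?_⟩
    have h1 : g * algebraMap (MvPolynomial (Fin n) A) (MvPolynomial (Fin n) K) (C a) =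
        algebraMap (MvPolynomial (Fin n) A) (MvPolynomial (Fin n) K) (ρ f) := h
    rw [MvPolynomial.algebraMap_def, map_C] at h1
    rw [mul_comm, h1]
    change map (algebraMap A K) (map π (sumAlgEquiv ℂ (Fin n) (Fin n) f)) = _
    rw [MvPolynomial.map_map]

end XW
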