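import Pool.Agent.Lib.MP_228259_lc.DefsE

/-!
E6b: the transcendence degree over the function field of the curve.
-/

namespace XW

open Filter Topology MvPolynomial

lemma e6b_alg {k E : Type} [Field k] [Field E] [Algebra k E] (s : Set E)
    (h : ∀ z : E, ∃ a ∈ Algebra.adjoin k s, ∃ b ∈ Algebra.adjoin k s, b ≠ 0 ∧ b * z = a) :
    Algebra.IsAlgebraic (Algebra.adjoin k s) E := by
  constructor
  intro z
  obtain ⟨a, ha, b, hb, hb0, hz⟩ := h z
  refine ⟨Polynomial.C ⟨b, hb⟩ * Polynomial.X - Polynomial.C ⟨a, ha⟩, ?_, ?_⟩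
  · intro h0
    have h1 := congrArg (fun p => Polynomial.coeff p 1) h0
    simp only [Polynomial.coeff_sub, Polynomial.coeff_C_mul, Polynomial.coeff_X_one, mul_one,
      Polynomial.coeff_zero, Polynomial.coeff_C_succ, sub_zero] at h1
    exact hb0 (congrArg Subtype.val h1)
  · rw [map_sub, map_mul, Polynomial.aeval_C, Polynomial.aeval_C, Polynomial.aeval_X]
    change b * z - a = 0
    rw [hz, sub_self]

lemma e6b_vars {k E σ : Type} [Field k] [Field E] [Algebra k E] (z : σ → E) (T : Finset σ)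
    (h : AlgebraicIndependent k (fun s : T => z s)) (f : MvPolynomial σ k)
    (hf : f.vars ⊆ T) (h0 : aeval z f = 0) : f = 0 := by
  obtain ⟨f', rfl⟩ := exists_rename_eq_of_vars_subset_range f (Subtype.val : T → σ)
    Subtype.val_injective (by
      intro i hi
      exact ⟨⟨i, hf hi⟩, rfl⟩)
  rw [aeval_rename] at h0
  rw [(algebraicIndependent_iff.1 h) f' h0, map_zero]

lemma e6b_core {n : ℕ} {K L : Type} [Field K] [Field L] [Algebra ℂ K] [Algebra K L]
    [Algebra ℂ L] [IsScalarTower ℂ K L] (y : Fin n → K) (x : Fin n → L)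
    (hy : Algebra.IsAlgebraic (Algebra.adjoin ℂ (Set.range y)) K)
    (hx : Algebra.IsAlgebraic (Algebra.adjoin K (Set.range x)) L)
    (hcurve : ∀ i j : Fin n, i ≠ j → ∃ f : MvPolynomial (Fin n) ℂ, f ≠ 0 ∧ f.vars ⊆ {i, j} ∧
      aeval y f = 0)
    (J : Finset (Fin n ⊕ Fin n)) (hJ : n ≤ J.card)
    (hind : AlgebraicIndependent ℂ
      (fun s : J => (Sum.elim x (fun j => algebraMap K L (y j)) s : L))) :
    ∃ J' : Finset (Fin n), n ≤ J'.card + 1 ∧ AlgebraicIndependent K (fun i : J' => x i) := by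
  classical
  -- the base
  have h1 : Algebra.trdeg ℂ K ≤ 1 := by
    obtain ⟨t, ht, hb⟩ := exists_isTranscendenceBasis_subset (R := ℂ) (Set.range y)
    rw [← hb.cardinalMk_eq_trdeg, Cardinal.mk_le_one_iff_set_subsingleton]
    intro a ha b hb'
    by_contra hne
    obtain ⟨i, rfl⟩ := ht ha
    obtain ⟨j, rfl⟩ := ht hb'
    have hij : i ≠ j := by
      rintro rfl
      exact hne rfl
    obtain ⟨f, hf0, hfv, hf⟩ := hcurve i j hij
    apply hf0
    have hmem : ∀ l : ({i, j} : Finset (Fin n)), y l ∈ t := by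
      rintro ⟨l, hl⟩
      rw [Finset.mem_insert, Finset.mem_singleton] at hl
      rcases hl with rfl | rfl
      · exact ha
      · exact hb'
    refine e6b_vars y {i, j} ?_ f hfv hf
    refine hb.1.comp (fun l : ({i, j} : Finset (Fin n)) => (⟨y l, hmem l⟩ : t)) ?_
    rintro ⟨l, hl⟩ ⟨m, hm⟩ hlm
    have hlm' : y l = y m := congrArg Subtype.val hlm
    apply Subtype.ext
    change l = m
    rw [Finset.mem_insert, Finset.mem_singleton] at hl hm
    rcases hl with rfl | rfl <;> rcases hm with rfl | rfl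
    · rfl
    · exact absurd hlm' hne
    · exact absurd hlm'.symm hne
    · rfl
  have h2 : (J.card : Cardinal) ≤ Algebra.trdeg ℂ L := by
    have h3 := hind.cardinalMk_le_trdeg
    rwa [Cardinal.mk_coe_finset] at h3
  have h3 : Algebra.trdeg ℂ K + Algebra.trdeg K L = Algebra.trdeg ℂ L :=
    _root_.trdeg_add_eq ℂ K (A := L)
  obtain ⟨t, ht, hb⟩ := exists_isTranscendenceBasis_subset (R := K) (Set.range x)
  have htf : t.Finite := (Set.finite_range x).subset ht
  have : Fintype t := htf.fintype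
  have h4 : (Fintype.card t : Cardinal) = Algebra.trdeg K L := by
    rw [← hb.cardinalMk_eq_trdeg, Cardinal.mk_fintype]
  choose σ hσ using fun s : t => ht s.2
  have hσi : Function.Injective σ := by
    intro s s' hss
    apply Subtype.ext
    rw [← hσ s, ← hσ s', hss]
  refine ⟨Finset.univ.image σ, ?_, ?_⟩
  · rw [Finset.card_image_of_injective _ hσi, Finset.card_univ]
    have h5 : (J.card : Cardinal) ≤ ((1 + Fintype.card t : ℕ) : Cardinal) := by
      refine h2.trans ?_
      rw [← h3, ← h4]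
      push_cast
      exact add_le_add_left h1 _
    have h6 : J.card ≤ 1 + Fintype.card t := by exact_mod_cast h5
    omega
  · have hmem : ∀ l : (Finset.univ.image σ : Finset (Fin n)), x l ∈ t := by
      rintro ⟨l, hl⟩
      rw [Finset.mem_image] at hl
      obtain ⟨s, _, rfl⟩ := hl
      change x (σ s) ∈ t
      rw [hσ s]
      exact s.2
    refine hb.1.comp (fun l : (Finset.univ.image σ : Finset (Fin n)) => (⟨x l, hmem l⟩ : t)) ?_
    rintro ⟨l, hl⟩ ⟨m, hm⟩ hlm
    have hlm' : x l = x m := congrArg Subtype.val hlm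
    apply Subtype.ext
    change l = m
    rw [Finset.mem_image] at hl hm
    obtain ⟨s, _, rfl⟩ := hl
    obtain ⟨s', _, rfl⟩ := hm
    rw [hσ s, hσ s'] at hlm'
    rw [Subtype.ext hlm']

theorem indep_K {n : ℕ} (P : Ideal (MvPolynomial (Fin n ⊕ Fin n) ℂ)) (hP : P.IsPrime)
    (A : Type) [CommRing A] [IsDomain A] (K : Type) [Field K] [Algebra A K]
    [IsFractionRing A K] (π : MvPolynomial (Fin n) ℂ →+* A) (hπ : Function.Surjective π)
    (hker : ∀ f, π f = 0 ↔ rename Sum.inr f ∈ P)
    (hcurve : ∀ i j : Fin n, i ≠ j → ∃ f : MvPolynomial (Fin n) ℂ, f ≠ 0 ∧ f.vars ⊆ {i, j} ∧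
      π f = 0)
    (J : Finset (Fin n ⊕ Fin n)) (hJ : n ≤ J.card)
    (hind : ∀ f ∈ P, f.vars ⊆ J → f = 0)
    (Q : Ideal (MvPolynomial (Fin n) K)) (hQ : Q.IsPrime)
    (hPQ : ∀ f : MvPolynomial (Fin n ⊕ Fin n) ℂ, f ∈ P ↔
        map ((algebraMap A K).comp π) (sumAlgEquiv ℂ (Fin n) (Fin n) f) ∈ Q)
    (hQP : ∀ g ∈ Q, ∃ (f : MvPolynomial (Fin n ⊕ Fin n) ℂ) (a : A), a ≠ 0 ∧ f ∈ P ∧
        C (algebraMap A K a) * g =
          map ((algebraMap A K).comp π) (sumAlgEquiv ℂ (Fin n) (Fin n) f)) :
    ∃ J' : Finset (Fin n), n ≤ J'.card + 1 ∧ ∀ g ∈ Q, g.vars ⊆ J' → g = 0 := by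
  classical
  let φ : MvPolynomial (Fin n) ℂ →+* K := (algebraMap A K).comp π
  let _ : Algebra ℂ K := (φ.comp C).toAlgebra
  have hdom : IsDomain (MvPolynomial (Fin n) K ⧸ Q) := Ideal.Quotient.isDomain Q
  let R := MvPolynomial (Fin n) K ⧸ Q
  let L := FractionRing R
  let y : Fin n → K := fun j => φ (X j)
  let q : MvPolynomial (Fin n) K →ₐ[K] L :=
    (IsScalarTower.toAlgHom K R L).comp (Ideal.Quotient.mkₐ K Q)
  let x : Fin n → L := fun i => q (X i)
  have hq : q = aeval x := by
    apply MvPolynomial.algHom_ext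
    intro i
    rw [aeval_X]
  have hφ : ∀ f, φ f = aeval y f := by
    have h1 : φ = (aeval y : MvPolynomial (Fin n) ℂ →ₐ[ℂ] K).toRingHom := by
      apply MvPolynomial.ringHom_ext
      · intro c
        change _ = aeval y (C c)
        rw [aeval_C]
        rfl
      · intro i
        change _ = aeval y (X i)
        rw [aeval_X]
    intro f
    exact DFunLike.congr_fun h1 f
  have hqz : ∀ g, q g = 0 ↔ g ∈ Q := by
    intro g
    change algebraMap R L (Ideal.Quotient.mk Q g) = 0 ↔ _
    rw [FaithfulSMul.algebraMap_eq_zero_iff, Ideal.Quotient.eq_zero_iff_mem]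
  have hy : Algebra.IsAlgebraic (Algebra.adjoin ℂ (Set.range y)) K := by
    apply e6b_alg
    intro z
    obtain ⟨a, b, hb, hz⟩ := IsFractionRing.div_surjective (A := A) z
    obtain ⟨a', rfl⟩ := hπ a
    obtain ⟨b', rfl⟩ := hπ b
    have hmem : ∀ f, algebraMap A K (π f) ∈ Algebra.adjoin ℂ (Set.range y) := by
      intro f
      have h1 : algebraMap A K (π f) = aeval y f := hφ f
      rw [h1, Algebra.adjoin_range_eq_range_aeval]
      exact ⟨f, rfl⟩
    have hb0 : algebraMap A K (π b') ≠ 0 := by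
      intro h
      rw [FaithfulSMul.algebraMap_eq_zero_iff] at h
      exact nonZeroDivisors.ne_zero hb h
    refine ⟨_, hmem a', _, hmem b', hb0, ?_⟩
    rw [← hz, mul_comm]
    exact div_mul_cancel₀ _ hb0
  have hx : Algebra.IsAlgebraic (Algebra.adjoin K (Set.range x)) L := by
    apply e6b_alg
    intro z
    obtain ⟨a, b, hb, hz⟩ := IsFractionRing.div_surjective (A := R) z
    obtain ⟨a', rfl⟩ := Ideal.Quotient.mk_surjective a
    obtain ⟨b', rfl⟩ := Ideal.Quotient.mk_surjective b
    have hmem : ∀ f, algebraMap R L (Ideal.Quotient.mk Q f) ∈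
        Algebra.adjoin K (Set.range x) := by
      intro f
      have h1 : algebraMap R L (Ideal.Quotient.mk Q f) = aeval x f := by
        rw [← hq]
        rfl
      rw [h1, Algebra.adjoin_range_eq_range_aeval]
      exact ⟨f, rfl⟩
    have hb0 : algebraMap R L (Ideal.Quotient.mk Q b') ≠ 0 := by
      intro h
      rw [FaithfulSMul.algebraMap_eq_zero_iff] at h
      exact nonZeroDivisors.ne_zero hb h
    refine ⟨_, hmem a', _, hmem b', hb0, ?_⟩
    rw [← hz, mul_comm]
    exact div_mul_cancel₀ _ hb0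
  have hΘ : ∀ f : MvPolynomial (Fin n ⊕ Fin n) ℂ,
      aeval (Sum.elim x (fun j => algebraMap K L (y j))) f =
        q (MvPolynomial.map φ (sumAlgEquiv ℂ (Fin n) (Fin n) f)) := by
    have h1 : (aeval (Sum.elim x (fun j => algebraMap K L (y j))) :
          MvPolynomial (Fin n ⊕ Fin n) ℂ →ₐ[ℂ] L).toRingHom =
        (q.toRingHom.comp (MvPolynomial.map φ)).comp
          (sumAlgEquiv ℂ (Fin n) (Fin n)).toRingEquiv.toRingHom := by
      apply MvPolynomial.ringHom_ext
      · intro c
        change aeval (Sum.elim x (fun j => algebraMap K L (y j))) (C c) =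
          q (MvPolynomial.map φ (sumAlgEquiv ℂ (Fin n) (Fin n) (C c)))
        rw [aeval_C, sumAlgEquiv_C_inl, map_C]
        have h2 : q (C (φ (C c))) = algebraMap K L (φ (C c)) := q.commutes _
        rw [h2]
        exact IsScalarTower.algebraMap_apply ℂ K L c
      · rintro (i | j)
        · change aeval (Sum.elim x (fun j => algebraMap K L (y j))) (X (Sum.inl i)) =
            q (MvPolynomial.map φ (sumAlgEquiv ℂ (Fin n) (Fin n) (X (Sum.inl i))))
          rw [aeval_X, sumAlgEquiv_X_inl, map_X]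
          rfl
        · change aeval (Sum.elim x (fun j => algebraMap K L (y j))) (X (Sum.inr j)) =
            q (MvPolynomial.map φ (sumAlgEquiv ℂ (Fin n) (Fin n) (X (Sum.inr j))))
          rw [aeval_X, sumAlgEquiv_X_inr, map_C]
          exact (q.commutes _).symm
    intro f
    exact DFunLike.congr_fun h1 f
  obtain ⟨J', hJ', hind'⟩ := e6b_core y x hy hx (by
      intro i j hij
      obtain ⟨f, hf0, hfv, hf⟩ := hcurve i j hij
      refine ⟨f, hf0, hfv, ?_⟩
      rw [← hφ]
      change algebraMap A K (π f) = 0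
      rw [hf, map_zero]) J hJ (by
      rw [algebraicIndependent_iff]
      intro f hf
      have h1 : aeval (Sum.elim x (fun j => algebraMap K L (y j)))
          (rename (Subtype.val : J → Fin n ⊕ Fin n) f) = 0 := by
        rw [aeval_rename]
        exact hf
      rw [hΘ, hqz] at h1
      have h2 := (hPQ _).2 h1
      have h3 := hind _ h2 (by
        intro s hs
        have h4 := vars_rename _ _ hs
        rw [Finset.mem_image] at h4
        obtain ⟨t, _, rfl⟩ := h4
        exact t.2)
      exact (rename_injective _ Subtype.val_injective) (by rw [h3, map_zero]))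
  refine ⟨J', hJ', fun g hg hgv => ?_⟩
  apply e6b_vars x J' hind' g hgv
  rw [← hq, hqz]
  exact hg

end XW
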