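import Pool.Agent.Lib.MP_228259_lc.E6a
import Pool.Agent.Lib.MP_228259_lc.E6b
import Pool.Agent.Lib.MP_228259_lc.F2a

/-!
E6c: over the generic point of the curve the variety is given by one equation.
-/

namespace XW

open Filter Topology MvPolynomial

lemma e6c_rename_inl {n : ℕ} (f : MvPolynomial (Fin n) ℂ) :
    sumAlgEquiv ℂ (Fin n) (Fin n) (rename Sum.inl f) = MvPolynomial.map C f := by
  have h : ((sumAlgEquiv ℂ (Fin n) (Fin n)).toAlgHom.toRingHom.comp
      (rename Sum.inl : MvPolynomial (Fin n) ℂ →ₐ[ℂ] _).toRingHom) =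
      (MvPolynomial.map C : MvPolynomial (Fin n) ℂ →+* MvPolynomial (Fin n) _) := by
    apply MvPolynomial.ringHom_ext
    · intro c
      change sumAlgEquiv ℂ (Fin n) (Fin n) (rename Sum.inl (C c)) = MvPolynomial.map C (C c)
      rw [rename_C, sumAlgEquiv_C_inl, map_C]
    · intro i
      change sumAlgEquiv ℂ (Fin n) (Fin n) (rename Sum.inl (X i)) = MvPolynomial.map C (X i)
      rw [rename_X, sumAlgEquiv_X_inl, map_X]
  exact DFunLike.congr_fun h f

lemma e6c_ev2 {n : ℕ} (x y : Fin n → ℂ) (f : MvPolynomial (Fin n ⊕ Fin n) ℂ) :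
    eval (Sum.elim x y) f = ev2 x y (sumAlgEquiv ℂ (Fin n) (Fin n) f) := by
  have h : (eval (Sum.elim x y) : MvPolynomial (Fin n ⊕ Fin n) ℂ →+* ℂ) =
      ((eval x).comp (MvPolynomial.map (eval y))).comp
        (sumAlgEquiv ℂ (Fin n) (Fin n)).toAlgHom.toRingHom := by
    apply MvPolynomial.ringHom_ext
    · intro c
      change eval (Sum.elim x y) (C c) =
        eval x (MvPolynomial.map (eval y) (sumAlgEquiv ℂ (Fin n) (Fin n) (C c)))
      rw [sumAlgEquiv_C_inl, map_C, eval_C, eval_C, eval_C]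
    · rintro (i | j)
      · change eval (Sum.elim x y) (X (Sum.inl i)) =
          eval x (MvPolynomial.map (eval y) (sumAlgEquiv ℂ (Fin n) (Fin n) (X (Sum.inl i))))
        rw [sumAlgEquiv_X_inl, map_X, eval_X, eval_X]
        rfl
      · change eval (Sum.elim x y) (X (Sum.inr j)) =
          eval x (MvPolynomial.map (eval y) (sumAlgEquiv ℂ (Fin n) (Fin n) (X (Sum.inr j))))
        rw [sumAlgEquiv_X_inr, map_C, eval_C, eval_X, eval_X]
        rfl
  exact DFunLike.congr_fun h f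

lemma e6c_clear {n : ℕ} (A : Type) [CommRing A] [IsDomain A] (K : Type) [Field K] [Algebra A K]
    [IsFractionRing A K] (π : MvPolynomial (Fin n) ℂ →+* A) (hπ : Function.Surjective π)
    (q : MvPolynomial (Fin n) K) :
    ∃ (f : MvPolynomial (Fin n ⊕ Fin n) ℂ) (b : A), b ≠ 0 ∧
      C (algebraMap A K b) * q =
        MvPolynomial.map ((algebraMap A K).comp π) (sumAlgEquiv ℂ (Fin n) (Fin n) f) := by
  classical
  let _ : Algebra (MvPolynomial (Fin n) A) (MvPolynomial (Fin n) K) :=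
    MvPolynomial.algebraMvPolynomial
  have hloc : IsLocalization ((nonZeroDivisors A).map (C (σ := Fin n)))
    (MvPolynomial (Fin n) K) := MvPolynomial.isLocalization (nonZeroDivisors A) K
  obtain ⟨⟨x, ⟨_, b, hb, rfl⟩⟩, h⟩ :=
    IsLocalization.surj ((nonZeroDivisors A).map (C (σ := Fin n))) q
  obtain ⟨g, rfl⟩ := MvPolynomial.map_surjective (σ := Fin n) π hπ x
  refine ⟨(sumAlgEquiv ℂ (Fin n) (Fin n)).symm g, b, nonZeroDivisors.ne_zero hb, ?_⟩
  rw [AlgEquiv.apply_symm_apply]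
  have h1 : q * algebraMap (MvPolynomial (Fin n) A) (MvPolynomial (Fin n) K) (C b) =
      algebraMap (MvPolynomial (Fin n) A) (MvPolynomial (Fin n) K) (MvPolynomial.map π g) := h
  rw [MvPolynomial.algebraMap_def, map_C, MvPolynomial.map_map] at h1
  rw [mul_comm, h1]

theorem one_equation {n : ℕ} (P : Ideal (MvPolynomial (Fin n ⊕ Fin n) ℂ)) (hP : P.IsPrime)
    (hcurve : ∀ i j : Fin n, i ≠ j → ∃ f : MvPolynomial (Fin n) ℂ, f ≠ 0 ∧ f.vars ⊆ {i, j} ∧
      rename Sum.inr f ∈ P)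
    (J : Finset (Fin n ⊕ Fin n)) (hJ : n ≤ J.card)
    (hind : ∀ f ∈ P, f.vars ⊆ J → f = 0) :
    ∃ (F : MvPolynomial (Fin n ⊕ Fin n) ℂ) (h : MvPolynomial (Fin n) ℂ),
      F ∈ P ∧ rename Sum.inr h ∉ P ∧
      (∀ x y : Fin n → ℂ, (∀ f : MvPolynomial (Fin n) ℂ, rename Sum.inr f ∈ P → eval y f = 0) →
        eval y h ≠ 0 → ev2 x y (sumAlgEquiv ℂ (Fin n) (Fin n) F) = 0 →
        ∀ f ∈ P, eval (Sum.elim x y) f = 0) ∧
      ((∀ α, rename Sum.inr (coeff α (sumAlgEquiv ℂ (Fin n) (Fin n) F)) ∈ P) ∨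
       ((∃ α, rename Sum.inr (coeff α (sumAlgEquiv ℂ (Fin n) (Fin n) F)) ∉ P) ∧
        ∀ R : MvPolynomial (Fin n) ℂ, R ≠ 0 → rename Sum.inl R ∈ P →
          ∀ β, rename Sum.inr (coeff β (sumAlgEquiv ℂ (Fin n) (Fin n) F)) ∉ P →
            β.degree ≤ R.totalDegree)) := by
  classical
  let I : Ideal (MvPolynomial (Fin n) ℂ) :=
    P.comap (rename Sum.inr : MvPolynomial (Fin n) ℂ →ₐ[ℂ] MvPolynomial (Fin n ⊕ Fin n) ℂ)
  have hI : I.IsPrime := Ideal.comap_isPrime _ _
  let A := MvPolynomial (Fin n) ℂ ⧸ I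
  have hdom : IsDomain A := Ideal.Quotient.isDomain I
  let K := FractionRing A
  let π : MvPolynomial (Fin n) ℂ →+* A := Ideal.Quotient.mk I
  have hπ : Function.Surjective π := Ideal.Quotient.mk_surjective
  have hker : ∀ f, π f = 0 ↔ rename Sum.inr f ∈ P := fun f => Ideal.Quotient.eq_zero_iff_mem
  obtain ⟨Q, hQ, hPQ, hQP⟩ := extend_ideal P hP A K π hπ hker
  obtain ⟨J', hJ', hind'⟩ := indep_K P hP A K π hπ hker
    (fun i j hij => by
      obtain ⟨f, hf0, hfv, hf⟩ := hcurve i j hij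
      exact ⟨f, hf0, hfv, (hker f).2 hf⟩) J hJ hind Q hQ hPQ hQP
  have hprin := principal_of_indep Q hQ J' hJ' hind'
  obtain ⟨φ, hφd⟩ : ∃ φ : MvPolynomial (Fin n) ℂ →+* K, φ = (algebraMap A K).comp π := ⟨_, rfl⟩
  rw [← hφd] at hPQ hQP
  have hφ : ∀ f, φ f = 0 ↔ rename Sum.inr f ∈ P := by
    intro f
    rw [← hker, hφd]
    change algebraMap A K (π f) = 0 ↔ _
    rw [FaithfulSMul.algebraMap_eq_zero_iff]
  obtain ⟨Θ, hΘd⟩ : ∃ Θ : MvPolynomial (Fin n ⊕ Fin n) ℂ →+* MvPolynomial (Fin n) K,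
      Θ = (MvPolynomial.map φ).comp (sumAlgEquiv ℂ (Fin n) (Fin n)).toAlgHom.toRingHom :=
    ⟨_, rfl⟩
  have hΘ : ∀ f, MvPolynomial.map φ (sumAlgEquiv ℂ (Fin n) (Fin n) f) = Θ f := by
    intro f
    rw [hΘd]
    rfl
  have hΘ0 : ∀ f, Θ f = 0 ↔
      ∀ α, rename Sum.inr (coeff α (sumAlgEquiv ℂ (Fin n) (Fin n) f)) ∈ P := by
    intro f
    rw [← hΘ]
    constructor
    · intro h α
      have h1 := congrArg (coeff α) h
      rw [coeff_map, coeff_zero] at h1
      exact (hφ _).1 h1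
    · intro h
      ext α
      rw [coeff_map, coeff_zero]
      exact (hφ _).2 (h α)
  have hΘr : ∀ g, Θ (rename Sum.inr g) = C (φ g) := by
    intro g
    rw [← hΘ, e6a_rename, map_C]
  have hzero : ∀ x y : Fin n → ℂ,
      (∀ f : MvPolynomial (Fin n) ℂ, rename Sum.inr f ∈ P → eval y f = 0) →
      ∀ f, Θ f = 0 → eval (Sum.elim x y) f = 0 := by
    intro x y hy f hf
    rw [e6c_ev2]
    unfold ev2
    have h1 : MvPolynomial.map (eval y) (sumAlgEquiv ℂ (Fin n) (Fin n) f) = 0 := by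
      ext α
      rw [coeff_map, coeff_zero]
      exact hy _ ((hΘ0 f).1 hf α)
    rw [h1, map_zero]
  have hone : (1 : MvPolynomial (Fin n ⊕ Fin n) ℂ) ∉ P :=
    (Ideal.ne_top_iff_one P).1 hP.ne_top
  rcases hprin with hbot | ⟨p, hp, hQp⟩
  · refine ⟨0, 1, P.zero_mem, by rwa [map_one], ?_, Or.inl fun α => ?_⟩
    · intro x y hy _ _ f hf
      apply hzero x y hy f
      have h1 := (hPQ f).1 hf
      rw [hbot, Ideal.mem_bot, hΘ] at h1
      exact h1
    · rw [map_zero, coeff_zero, map_zero]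
      exact P.zero_mem
  · obtain ⟨F, a, ha, hF, hFa⟩ := hQP p (by rw [hQp]; exact Ideal.mem_span_singleton_self p)
    rw [hΘ] at hFa
    obtain ⟨α, rfl⟩ := hπ a
    have hφα : algebraMap A K (π α) = φ α := by rw [hφd]; rfl
    rw [hφα] at hFa
    have hαP : rename Sum.inr α ∉ P := fun h => ha ((hker α).2 h)
    have key : ∀ G : MvPolynomial (Fin n ⊕ Fin n) ℂ, ∃ (h : MvPolynomial (Fin n) ℂ)
        (T : MvPolynomial (Fin n ⊕ Fin n) ℂ), rename Sum.inr h ∉ P ∧
          (G ∈ P → Θ (rename Sum.inr h * G - F * T) = 0) := by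
      intro G
      by_cases hG : G ∈ P
      · have h1 := (hPQ G).1 hG
        rw [hQp, Ideal.mem_span_singleton, hΘ] at h1
        obtain ⟨q, hq⟩ := h1
        obtain ⟨T, b, hb, hT⟩ := e6c_clear A K π hπ q
        rw [← hφd, hΘ] at hT
        obtain ⟨β, rfl⟩ := hπ b
        have hφβ : algebraMap A K (π β) = φ β := by rw [hφd]; rfl
        rw [hφβ] at hT
        refine ⟨α * β, T, ?_, fun _ => ?_⟩
        · intro h2
          rw [map_mul] at h2
          rcases hP.mem_or_mem h2 with h3 | h3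
          · exact hαP h3
          · exact hb ((hker β).2 h3)
        · rw [map_sub, map_mul Θ, map_mul Θ, hΘr, map_mul φ, C_mul, hq, ← hFa, ← hT]
          ring
      · exact ⟨1, 0, by rwa [map_one], fun h => absurd h hG⟩
    choose hh T hh1 hh2 using key
    obtain ⟨S, hS⟩ := (inferInstance :
      IsNoetherianRing (MvPolynomial (Fin n ⊕ Fin n) ℂ)).noetherian P
    have hSP : ∀ G ∈ S, G ∈ P := fun G hG => by
      rw [← hS]
      exact Submodule.subset_span hG
    have hΘF : Θ F ≠ 0 := by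
      rw [← hFa]
      refine mul_ne_zero ?_ hp.ne_zero
      rw [Ne, C_eq_zero, hφ]
      exact hαP
    refine ⟨F, ∏ G ∈ S, hh G, hF, ?_, ?_, Or.inr ⟨?_, ?_⟩⟩
    · rw [map_prod]
      intro h
      obtain ⟨G, _, hG⟩ := hP.prod_mem_iff.1 h
      exact hh1 G hG
    · intro x y hy hyh hxy f hf
      rw [map_prod, Finset.prod_ne_zero_iff] at hyh
      rw [← e6c_ev2] at hxy
      have h1 : P ≤ RingHom.ker (eval (Sum.elim x y) : MvPolynomial (Fin n ⊕ Fin n) ℂ →+* ℂ) := by
        rw [← hS]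
        refine Submodule.span_le.2 ?_
        intro G hG
        change eval (Sum.elim x y) G = 0
        have h2 := hzero x y hy _ (hh2 G (hSP G hG))
        rw [map_sub, map_mul, map_mul, hxy, zero_mul, sub_zero, eval_rename] at h2
        exact (mul_eq_zero.1 h2).resolve_left (hyh G hG)
      exact h1 hf
    · by_contra hcon
      push Not at hcon
      exact hΘF ((hΘ0 F).2 hcon)
    · intro R hR hRP β hβ
      have h1 := (hPQ _).1 hRP
      rw [hQp, Ideal.mem_span_singleton, e6c_rename_inl, MvPolynomial.map_map] at h1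
      obtain ⟨r, hr⟩ := h1
      have hR' : MvPolynomial.map (φ.comp C) R ≠ 0 := by
        intro h
        apply hR
        apply MvPolynomial.map_injective (φ.comp C) (φ.comp C).injective
        rw [h, map_zero]
      have hr0 : r ≠ 0 := by
        rintro rfl
        exact hR' (by rw [hr, mul_zero])
      have h2 : p.totalDegree ≤ R.totalDegree := by
        have h3 : (MvPolynomial.map (φ.comp C) R).totalDegree =
            p.totalDegree + r.totalDegree := by
          rw [hr, totalDegree_mul_of_isDomain hp.ne_zero hr0]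
        have h4 : (MvPolynomial.map (φ.comp C) R).totalDegree ≤ R.totalDegree := by
          refine Finset.sup_mono ?_
          exact support_map_subset _ _
        omega
      have h5 : (Θ F).totalDegree ≤ p.totalDegree := by
        rw [← hFa]
        refine (totalDegree_mul _ _).trans ?_
        rw [totalDegree_C, zero_add]
      have h6 : β ∈ (Θ F).support := by
        rw [mem_support_iff, ← hΘ, coeff_map]
        intro h7
        exact hβ ((hφ _).1 h7)
      have h8 := le_totalDegree h6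
      have h9 : β.degree = β.sum fun _ e => e := rfl
      omega

end XW
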