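import Pool.Agent.Lib.MP_228259_lc.DefsE

/-!
E6d: see /team-store/XW_blueprint.md
E6d mem_iff_coeff, sumAlgEquiv_mul_rename: bookkeeping with sumAlgEquiv (F = sum over beta of rename inr (coeff beta) * rename inl (monomial beta 1)).
-/

namespace XW

open Filter Topology MvPolynomial

theorem E6d_sae_inr {n : ℕ} (u : MvPolynomial (Fin n) ℂ) :
    sumAlgEquiv ℂ (Fin n) (Fin n) (rename Sum.inr u) = C u := by
  have h := congrArg (fun φ => φ u) (sumAlgEquiv_comp_rename_inr (R := ℂ) (S₁ := Fin n) (S₂ := Fin n))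
  exact h

theorem E6d_sae_inl {n : ℕ} (R : MvPolynomial (Fin n) ℂ) :
    sumAlgEquiv ℂ (Fin n) (Fin n) (rename Sum.inl R) = map C R := by
  have h := congrArg (fun φ => φ R) (sumAlgEquiv_comp_rename_inl (R := ℂ) (S₁ := Fin n) (S₂ := Fin n))
  exact h

theorem mem_iff_coeff {n : ℕ} (P : Ideal (MvPolynomial (Fin n ⊕ Fin n) ℂ))
    (F : MvPolynomial (Fin n ⊕ Fin n) ℂ)
    (hF : ∀ β, rename Sum.inr (coeff β (sumAlgEquiv ℂ (Fin n) (Fin n) F)) ∈ P) : F ∈ P := by
  set G := sumAlgEquiv ℂ (Fin n) (Fin n) F with hG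
  have h1 : F = ∑ β ∈ G.support, rename Sum.inr (coeff β G) *
      rename Sum.inl (monomial β (1 : ℂ)) := by
    apply (sumAlgEquiv ℂ (Fin n) (Fin n)).injective
    rw [← hG, map_sum]
    conv_lhs => rw [G.as_sum]
    refine Finset.sum_congr rfl fun β _ => ?_
    rw [map_mul, E6d_sae_inr, E6d_sae_inl, map_monomial, C_mul_monomial, map_one, mul_one]
  rw [h1]
  exact Ideal.sum_mem _ fun β _ => Ideal.mul_mem_right _ _ (hF β)

theorem sumAlgEquiv_mul_rename {n : ℕ} (u R : MvPolynomial (Fin n) ℂ) (β : Fin n →₀ ℕ) :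
    coeff β (sumAlgEquiv ℂ (Fin n) (Fin n) (rename Sum.inr u * rename Sum.inl R)) =
      u * C (coeff β R) := by
  rw [map_mul, E6d_sae_inr, E6d_sae_inl, coeff_C_mul, coeff_map]

end XW
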