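import Pool.Agent.Lib.MP_228259_lc.P22
import Pool.Agent.Lib.MP_228259_lc.C7
import Pool.Agent.Lib.MP_228259_lc.C10
import Pool.Agent.Lib.MP_228259_lc.P13b
import Pool.Agent.Lib.MP_228259_lc.F2b
import Pool.Agent.Lib.MP_228259_lc.E1
import Pool.Agent.Lib.MP_228259_lc.E2
import Pool.Agent.Lib.MP_228259_lc.E5
import Pool.Agent.Lib.MP_228259_lc.E6c
import Pool.Agent.Lib.MP_228259_lc.E6d
import Pool.Agent.Lib.MP_228259_lc.C5b

namespace XW

open Filter Topology MvPolynomial

theorem frozen_curve (n : ℕ) (P : Ideal (MvPolynomial (Fin n ⊕ Fin n) ℂ))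
    (V : Set (Fin n ⊕ Fin n → ℂ)) (hP : P.IsPrime)
    (hV : V = {p | (∀ f ∈ P, eval p f = 0) ∧ ∀ j : Fin n, p (Sum.inr j) ≠ 0})
    (hadd : ∀ m : Fin n → ℤ, m ≠ 0 → ∀ c : ℂ,
          ∃ p ∈ V, (∑ j : Fin n, (m j : ℂ) * p (Sum.inl j)) ≠ c)
    (hmul : ∀ m : Fin n → ℤ, m ≠ 0 → ∀ c : ℂ,
          ∃ p ∈ V, (∏ j : Fin n, p (Sum.inr j) ^ (m j)) ≠ c)
    (hrot : ∀ k : ℕ, 1 ≤ k → k ≤ n → ∀ M : Matrix (Fin k) (Fin n) ℤ,
          ∃ J : Finset (Fin k ⊕ Fin k),
            (M.map (Int.cast : ℤ → ℚ)).rank ≤ J.card ∧
            ∀ f : MvPolynomial (Fin k ⊕ Fin k) ℂ, f.vars ⊆ J →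
              (∀ p ∈ V, MvPolynomial.eval
                  (Sum.elim (fun i : Fin k => ∑ j : Fin n, (M i j : ℂ) * p (Sum.inl j))
                            (fun i : Fin k => ∏ j : Fin n, p (Sum.inr j) ^ (M i j))) f = 0) →
              f = 0)
    (hcurve : ∀ i j : Fin n, i ≠ j → ∃ f : MvPolynomial (Fin n) ℂ, f ≠ 0 ∧ f.vars ⊆ {i, j} ∧
      ∀ p ∈ V, eval (fun k => p (Sum.inr k)) f = 0) :
    ∃ z : Fin n → ℂ, ∀ f ∈ P,
        MvPolynomial.eval (Sum.elim z (fun i : Fin n => Complex.exp (z i))) f = 0 := by
  classical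
  rcases Nat.eq_zero_or_pos n with rfl | hn
  · refine ⟨fun j => j.elim0, fun f hf => ?_⟩
    by_contra h0
    obtain ⟨a, rfl⟩ := MvPolynomial.C_surjective (Fin 0 ⊕ Fin 0) f
    rw [eval_C] at h0
    have : (1 : MvPolynomial (Fin 0 ⊕ Fin 0) ℂ) ∈ P := by
      have h1 := P.mul_mem_left (C a⁻¹) hf
      rwa [← C_mul, inv_mul_cancel₀ h0, C_1] at h1
    exact hP.ne_top ((Ideal.eq_top_iff_one P).mpr this)
  have hsingle : ∀ i : Fin n, (Pi.single i (1 : ℤ) : Fin n → ℤ) ≠ 0 := by
    intro i h
    have := congrFun h i
    simp at this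
  have hVne : V.Nonempty := by
    obtain ⟨p, hp, -⟩ := hadd _ (hsingle ⟨0, hn⟩) 0
    exact ⟨p, hp⟩
  have hvan : ∀ f : MvPolynomial (Fin n ⊕ Fin n) ℂ, (∀ p ∈ V, eval p f = 0) → f ∈ P := by
    intro f hf
    refine vanish_mem P hP (Set.range Sum.inr) V ?_ hVne f hf
    rw [hV]
    ext p
    simp
  -- the curve
  let I : Ideal (MvPolynomial (Fin n) ℂ) := P.comap (rename Sum.inr : MvPolynomial (Fin n) ℂ →ₐ[ℂ] MvPolynomial (Fin n ⊕ Fin n) ℂ)
  have hIP : ∀ f, f ∈ I ↔ rename Sum.inr f ∈ P := fun f => Iff.rfl
  set W : Set (Fin n → ℂ) := {y | (∀ f ∈ I, eval y f = 0) ∧ ∀ j, y j ≠ 0} with hWdef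
  have hVW : ∀ p ∈ V, (fun j => p (Sum.inr j)) ∈ W := by
    intro p hp
    rw [hV] at hp
    refine ⟨fun f hf => ?_, hp.2⟩
    have := hp.1 _ ((hIP f).mp hf)
    rw [eval_rename] at this
    exact this
  have hI : CurveData I W := by
    refine ⟨hP.comap _, rfl, ?_, ?_⟩
    · intro m hm c
      obtain ⟨p, hp, hpc⟩ := hmul m hm c
      exact ⟨_, hVW p hp, hpc⟩
    · intro i j hij
      obtain ⟨f, hf0, hfv, hf⟩ := hcurve i j hij
      refine ⟨f, ?_, hf0, hfv⟩
      rw [hIP]
      apply hvan
      intro p hp
      rw [eval_rename]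
      exact hf p hp
  have hW1 : HasCharts W := has_charts hI
  have hW2 : HitsReal W := hits_real hI hW1
  -- the equation
  obtain ⟨J, hJ1, hJ2⟩ := hrot n hn le_rfl 1
  have hJ1' : n ≤ J.card := by
    have h1 : ((1 : Matrix (Fin n) (Fin n) ℤ).map (Int.cast : ℤ → ℚ)) = 1 := by
      ext i j
      simp [Matrix.one_apply]
    rw [h1, Matrix.rank_one, Fintype.card_fin] at hJ1
    exact hJ1
  have hJ2' : ∀ f ∈ P, f.vars ⊆ J → f = 0 := by
    intro f hf hfv
    refine hJ2 f hfv ?_
    intro p hp
    have h1 : (Sum.elim (fun i : Fin n => ∑ j : Fin n, (((1 : Matrix (Fin n) (Fin n) ℤ) i j : ℤ) : ℂ) * p (Sum.inl j))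
        (fun i : Fin n => ∏ j : Fin n, p (Sum.inr j) ^ ((1 : Matrix (Fin n) (Fin n) ℤ) i j))) = p := by
      ext i
      rcases i with i | i
      · simp [Matrix.one_apply]
      · simp only [Sum.elim_inr, Matrix.one_apply]
        rw [Finset.prod_eq_single i]
        · simp
        · intro b _ hb
          rw [if_neg hb.symm, zpow_zero]
        · simp
    rw [h1]
    rw [hV] at hp
    exact hp.1 f hf
  obtain ⟨F, h, hFP, hh, hFV, hF⟩ := one_equation P hP (by
    intro i j hij
    obtain ⟨f, hf0, hfv, hf⟩ := hcurve i j hij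
    refine ⟨f, hf0, hfv, hvan _ ?_⟩
    intro p hp
    rw [eval_rename]
    exact hf p hp) J hJ1' hJ2'
  set G := sumAlgEquiv ℂ (Fin n) (Fin n) F with hG
  set E : Set (Fin n → ℂ) := {y ∈ W | eval y h = 0} with hE
  have hEfin : E.Finite := zero_finite hI h (fun hmem => hh ((hIP h).mp hmem))
  have key : ∀ z : Fin n → ℂ, (fun j => Complex.exp (z j)) ∈ W \ E →
      ev2 z (fun j => Complex.exp (z j)) G = 0 → ∀ f ∈ P,
        MvPolynomial.eval (Sum.elim z (fun i : Fin n => Complex.exp (z i))) f = 0 := by
    intro z hz h0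
    refine hFV z _ ?_ ?_ h0
    · intro f hf
      exact hz.1.1 f ((hIP f).mpr hf)
    · intro h1
      exact hz.2 ⟨hz.1, h1⟩
  rcases hF with hall | ⟨⟨α, hα⟩, hmin⟩
  · -- V contains C^n × (W minus E)
    obtain ⟨b, r, p, L, hb, hc, -⟩ := hasCharts_diff hW1 E hEfin _ (hsingle ⟨0, hn⟩) 0
    have hr := hc.pos
    have hs0 : ((r / 2 : ℝ) : ℂ) ≠ 0 := by
      simp [hr.ne']
    have hs1 : ‖((r / 2 : ℝ) : ℂ)‖ < r := by
      rw [Complex.norm_real, Real.norm_of_nonneg (by linarith)]
      linarith
    have hy := hc.mem _ hs0 hs1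
    set y := pt p L ((r / 2 : ℝ) : ℂ) with hydef
    refine ⟨fun j => Complex.log (y j), ?_⟩
    have hexp : (fun j => Complex.exp (Complex.log (y j))) = y := by
      funext j
      exact Complex.exp_log (hy.1.2 j)
    refine key _ ?_ ?_
    · rw [hexp]; exact hy
    · rw [hexp, ev2]
      have : map (eval y) G = 0 := by
        ext β
        rw [coeff_map, coeff_zero]
        exact hy.1.1 _ ((hIP _).mpr (hall β))
      rw [this, map_zero]
  · by_cases hsp : ∃ α β, coeff α G ∉ I ∧ ∀ c : ℂ, coeff β G - C c * coeff α G ∉ I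
    · obtain ⟨z, hz1, hz2⟩ := nonsplit hI E hEfin G hsp
      exact ⟨z, key z hz1 hz2⟩
    · push Not at hsp
      have hα' : coeff α G ∉ I := fun hmem => hα ((hIP _).mp hmem)
      choose c hc using fun β => hsp α β hα'
      set R : MvPolynomial (Fin n) ℂ := ∑ β ∈ G.support, monomial β (c β) with hR
      have hRcoeff : ∀ β, coeff β G - coeff α G * C (coeff β R) ∈ I := by
        intro β
        have h1 : coeff β R = if β ∈ G.support then c β else 0 := by
          rw [hR, coeff_sum]
          simp only [coeff_monomial]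
          rw [Finset.sum_ite_eq' G.support β c]
        rw [h1]
        split_ifs with h2
        · have := hc β
          rwa [mul_comm (C (c β))] at this
        · rw [notMem_support_iff.mp h2]
          simp
      have hprod : rename Sum.inr (coeff α G) * rename Sum.inl R ∈ P := by
        have h1 : F - rename Sum.inr (coeff α G) * rename Sum.inl R ∈ P := by
          apply mem_iff_coeff
          intro β
          rw [map_sub, coeff_sub, sumAlgEquiv_mul_rename]
          exact (hIP _).mp (hRcoeff β)
        have := P.sub_mem hFP h1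
        simpa using this
      have hRP : rename Sum.inl R ∈ P := by
        rcases hP.mem_or_mem hprod with h1 | h1
        · exact absurd h1 hα
        · exact h1
      have hcα : coeff α R ≠ 0 := by
        intro h0
        apply hα'
        have := hRcoeff α
        rw [h0] at this
        simpa using this
      have hR0 : R ≠ 0 := by
        rintro h0
        exact hcα (by rw [h0, coeff_zero])
      have hdeg : ∀ R' : MvPolynomial (Fin n) ℂ, R' ≠ 0 → rename Sum.inl R' ∈ P →
          R.totalDegree ≤ R'.totalDegree := by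
        intro R' hR' hR'P
        refine Finset.sup_le fun β hβ => ?_
        have hdd : (β.sum fun _ e => e) = β.degree := rfl
        rw [hdd]
        refine hmin R' hR' hR'P β ?_
        intro hmem
        have h1 := hRcoeff β
        have h2 : coeff α G * C (coeff β R) ∈ I := by
          have := I.sub_mem ((hIP _).mpr hmem) h1
          simpa using this
        rcases hI.prime.mem_or_mem h2 with h3 | h3
        · exact hα' h3
        · have h4 : coeff β R ≠ 0 := by
            rwa [mem_support_iff] at hβ
          apply hI.prime.ne_top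
          rw [Ideal.eq_top_iff_one]
          have h5 := I.mul_mem_left (C (coeff β R)⁻¹) h3
          rwa [← C_mul, inv_mul_cancel₀ h4, C_1] at h5
      have hpos : 0 < R.totalDegree := by
        rcases Nat.eq_zero_or_pos R.totalDegree with h0 | h0
        · exfalso
          rw [totalDegree_eq_zero_iff_eq_C] at h0
          rw [h0, rename_C] at hRP
          have h6 : coeff 0 R ≠ 0 := by
            intro h7
            rw [h7, C_0] at h0
            exact hR0 h0
          apply hP.ne_top
          rw [Ideal.eq_top_iff_one]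
          have h5 := P.mul_mem_left (C (coeff 0 R)⁻¹) hRP
          rwa [← C_mul, inv_mul_cancel₀ h6, C_1] at h5
        · exact h0
      have hfac : ∀ (q : Fin n → ℚ) (c : ℂ), q ≠ 0 → ¬ (lin q - C c) ∣ R := by
        rintro q c hq ⟨Q, hQ⟩
        have hQ0 : Q ≠ 0 := by
          rintro rfl
          exact hR0 (by rw [hQ, mul_zero])
        have hl0 : lin q - C c ≠ 0 := by
          intro h0
          exact hR0 (by rw [hQ, h0, zero_mul])
        have hmem : rename Sum.inl (lin q - C c) * rename Sum.inl Q ∈ P := by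
          rw [← map_mul, ← hQ]; exact hRP
        rcases hP.mem_or_mem hmem with h1 | h1
        · -- additive freeness
          obtain ⟨a, q₀, k, hq₀, ha, -⟩ := primitive_vec q hq
          have ha0 : a ≠ 0 := by
            rintro rfl
            apply hq
            funext j
            have := ha j
            simp only [Pi.zero_apply, Int.cast_zero] at this
            rcases mul_eq_zero.mp this.symm with h2 | h2
            · exact absurd h2 hq₀
            · exact h2
          obtain ⟨p, hp, hpc⟩ := hadd a ha0 (q₀ * c)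
          apply hpc
          have h2 : eval p (rename Sum.inl (lin q - C c)) = 0 := by
            rw [hV] at hp
            exact hp.1 _ h1
          rw [eval_rename, map_sub, eval_C, lin, map_sum] at h2
          simp only [map_mul, eval_C, eval_X, Function.comp_apply] at h2
          have h3 : ∑ j, (q j : ℂ) * p (Sum.inl j) = c := by
            linear_combination h2
          rw [← h3, Finset.mul_sum]
          refine Finset.sum_congr rfl fun j _ => ?_
          have h4 : ((a j : ℤ) : ℂ) = (q₀ : ℂ) * (q j : ℂ) := by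
            have := ha j
            exact_mod_cast this
          rw [h4]; ring
        · have h2 := hdeg Q hQ0 h1
          rw [hQ, totalDegree_mul_of_isDomain hl0 hQ0] at h2
          have h3 : 0 < (lin q - C c).totalDegree := by
            rcases Nat.eq_zero_or_pos (lin q - C c).totalDegree with h4 | h4
            · exfalso
              rw [totalDegree_eq_zero_iff_eq_C] at h4
              apply hq
              funext j
              have h5 := congrArg (fun f => coeff (Finsupp.single j 1) f) h4
              have h6 : (0 : Fin n →₀ ℕ) ≠ Finsupp.single j 1 := by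
                intro h7
                have := congrArg (fun f => f j) h7
                simp at this
              simp only [lin, coeff_sub, coeff_sum, coeff_C_mul, coeff_X, coeff_C,
                if_neg h6] at h5
              simp only [Finsupp.single_left_inj (one_ne_zero : (1 : ℕ) ≠ 0)] at h5
              simpa using h5
            · exact h4
          omega
      obtain ⟨z, hz0, hzW⟩ := poly_part (hasCharts_diff hW1 E hEfin)
        (hitsReal_diff hW2 E hEfin) R hpos hfac
      refine ⟨z, key z hzW ?_⟩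
      have h1 : map (eval (fun j => Complex.exp (z j))) G =
          C (eval (fun j => Complex.exp (z j)) (coeff α G)) * R := by
        ext β
        rw [coeff_map, coeff_C_mul]
        have := hzW.1.1 _ (hRcoeff β)
        rw [map_sub, map_mul, eval_C] at this
        linear_combination this
      rw [ev2, h1, map_mul, hz0, mul_zero]

end XW
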