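import Pool.Agent.Lib.MP_228259_lc.Defs

/-!
P2a: see /team-store/XW_blueprint.md
P2a taylor1. H.eval is a polynomial map: use HasStrictFDerivAt of x |-> eval x H at A, or: both sides additive in H and prove for C, X, products by induction (MvPolynomial.induction_on): (F G)(A+eta x)-(FG)(A) etc. The derivative of eval in direction x is sum_j x_j eval A (pderiv j H).
-/

namespace XW

open Filter Topology MvPolynomial

theorem taylor1 {n : ℕ} (H : MvPolynomial (Fin n) ℂ) (A x₀ : Fin n → ℂ) :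
    Tendsto (fun q : ℂ × (Fin n → ℂ) => (eval (A + q.1 • q.2) H - eval A H) / q.1)
      (𝓝[≠] 0 ×ˢ 𝓝 x₀) (𝓝 (∑ j, x₀ j * eval A (pderiv j H))) := by
  classical
  induction H using MvPolynomial.induction_on with
  | C a => simp
  | add p q hp hq =>
    have h := hp.add hq
    simp only [map_add, mul_add, Finset.sum_add_distrib]
    refine h.congr (fun x => ?_)
    rw [← add_div]
    congr 1
    ring
  | mul_X p i hp =>
    have h1 : Tendsto (fun q : ℂ × (Fin n → ℂ) => q.1) (𝓝[≠] 0 ×ˢ 𝓝 x₀) (𝓝 0) :=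
      (tendsto_fst (f := 𝓝[≠] (0 : ℂ)) (g := 𝓝 x₀)).mono_right nhdsWithin_le_nhds
    have h2 : Tendsto (fun q : ℂ × (Fin n → ℂ) => q.2 i) (𝓝[≠] 0 ×ˢ 𝓝 x₀) (𝓝 (x₀ i)) :=
      ((continuous_apply i).tendsto x₀).comp (tendsto_snd (f := 𝓝[≠] (0 : ℂ)) (g := 𝓝 x₀))
    have h3 : Tendsto (fun q : ℂ × (Fin n → ℂ) => A i + q.1 * q.2 i)
        (𝓝[≠] 0 ×ˢ 𝓝 x₀) (𝓝 (A i + 0 * x₀ i)) := (h1.mul h2).const_add (A i)
    have h4 := (hp.mul h3).add (h2.const_mul (eval A p))
    have h5 : (∑ j, x₀ j * eval A (pderiv j p)) * (A i + 0 * x₀ i) + eval A p * x₀ i =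
        ∑ j, x₀ j * eval A (pderiv j (p * X i)) := by
      have h6 : ∀ j, x₀ j * eval A (pderiv j (p * X i)) =
          x₀ j * eval A (pderiv j p) * A i + (if j = i then eval A p * x₀ i else 0) := by
        intro j
        rw [pderiv_mul, pderiv_X]
        by_cases hj : j = i
        · subst hj
          simp
          ring
        · simp [hj, Ne.symm hj]
          ring
      rw [Finset.sum_congr rfl (fun j _ => h6 j), Finset.sum_add_distrib, ← Finset.sum_mul]
      simp
    rw [h5] at h4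
    refine h4.congr' ?_
    have h7 : ∀ᶠ q : ℂ × (Fin n → ℂ) in 𝓝[≠] 0 ×ˢ 𝓝 x₀, q.1 ≠ 0 := by
      have : ∀ᶠ η : ℂ in 𝓝[≠] 0, η ≠ 0 := by
        filter_upwards [self_mem_nhdsWithin] with η hη using hη
      exact this.prod_inl _
    filter_upwards [h7] with q hq
    simp only [map_mul, eval_X, Pi.add_apply, Pi.smul_apply, smul_eq_mul]
    field_simp
    ring

end XW
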