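import Pool.Agent.Lib.MP_228259_lc.P1
import Pool.Agent.Lib.MP_228259_lc.P2a

/-!
P10a: see /team-store/XW_blueprint.md
P10a real_root. Suppose omega.im <> 0. Rational kappa_m -> kappa (real vector). F_m(w) = H(kappa_m + w p) -> H(kappa + w p), zero at w = omega, not locally zero because dirD <> 0. hurwitz on a small ball on which im <> 0 and dirD, B stay <> 0 near: omega_m with H = 0, dirD <> 0, B <> 0, im <> 0 (use the ball radius small plus continuity, m large). Multiply kappa_m by a common denominator M > 0: M kappa_m integer, homogeneity of H, B, dirD p H (degree h-1) gives the same at (M kappa_m, M omega_m). Contradiction with hreal.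
-/

namespace XW

open Filter Topology MvPolynomial

/-- homogeneity of the evaluation -/
theorem p10_hom_eval {n : ℕ} {P : MvPolynomial (Fin n) ℂ} {m : ℕ} (hP : P.IsHomogeneous m)
    (c : ℂ) (x : Fin n → ℂ) : eval (c • x) P = c ^ m * eval x P := by
  rw [eval_eq', eval_eq', Finset.mul_sum]
  refine Finset.sum_congr rfl fun s hs => ?_
  have h1 : ∑ i, s i = m := by
    have h2 := hP (mem_support_iff.mp hs)
    rw [← h2, Finsupp.weight_apply, Finsupp.sum_fintype _ _ (by simp)]
    simp
  have h3 : ∏ i, (c • x) i ^ s i = c ^ m * ∏ i, x i ^ s i := by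
    simp only [Pi.smul_apply, smul_eq_mul, mul_pow]
    rw [Finset.prod_mul_distrib, Finset.prod_pow_eq_pow_sum, h1]
  rw [h3]
  ring

theorem p10_hom_dirD {n : ℕ} {H : MvPolynomial (Fin n) ℂ} {h : ℕ} (hH : H.IsHomogeneous h)
    (v : Fin n → ℂ) : (dirD v H).IsHomogeneous (h - 1) := by
  unfold dirD
  refine IsHomogeneous.sum _ _ _ fun j _ => ?_
  have h1 := (isHomogeneous_C (Fin n) (v j)).mul (IsHomogeneous.pderiv (i := j) hH)
  rwa [zero_add] at h1

theorem p10_eval_dirD {n : ℕ} (H : MvPolynomial (Fin n) ℂ) (v x : Fin n → ℂ) :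
    eval x (dirD v H) = ∑ j, v j * eval x (pderiv j H) := by
  unfold dirD
  simp

/-- a line is not contained in the zero set if the derivative does not vanish -/
theorem p10_not_locally_zero {n : ℕ} (H : MvPolynomial (Fin n) ℂ) (κ v : Fin n → ℂ) (ω : ℂ)
    (h0 : eval (κ + ω • v) H = 0) (h1 : eval (κ + ω • v) (dirD v H) ≠ 0) :
    ¬ ∀ᶠ w in 𝓝 ω, eval (κ + w • v) H = 0 := by
  intro hz
  have h2 := taylor1 H (κ + ω • v) v
  have h3 : Tendsto (fun η : ℂ => (η, v)) (𝓝[≠] 0) (𝓝[≠] 0 ×ˢ 𝓝 v) :=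
    tendsto_id.prodMk tendsto_const_nhds
  have h4 := h2.comp h3
  have h5 : ∀ᶠ η : ℂ in 𝓝[≠] 0, eval (κ + (ω + η) • v) H = 0 := by
    have h6 : Tendsto (fun η : ℂ => ω + η) (𝓝[≠] 0) (𝓝 ω) := by
      have h7 : Tendsto (fun η : ℂ => ω + η) (𝓝 0) (𝓝 (ω + 0)) :=
        (continuous_const.add continuous_id).tendsto 0
      rw [add_zero] at h7
      exact h7.mono_left nhdsWithin_le_nhds
    exact h6.eventually hz
  have h8 : Tendsto (fun _ : ℂ => (0 : ℂ)) (𝓝[≠] 0)
      (𝓝 (∑ j, v j * eval (κ + ω • v) (pderiv j H))) := by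
    refine h4.congr' ?_
    filter_upwards [h5] with η hη
    simp only [Function.comp_apply]
    have h9 : κ + ω • v + η • v = κ + (ω + η) • v := by
      rw [add_smul, add_assoc]
    rw [h9, hη, h0]
    simp
  have h10 := tendsto_nhds_unique h8 tendsto_const_nhds
  rw [p10_eval_dirD] at h1
  exact h1 h10

theorem real_root {n : ℕ} {H B : MvPolynomial (Fin n) ℂ} {h β : ℕ} (hH : H.IsHomogeneous h)
    (hBh : B.IsHomogeneous β) (p : Fin n → ℤ)
    (hreal : ∀ (κ : Fin n → ℤ) (ω : ℂ), eval (zc κ + ω • zc p) H = 0 →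
      eval (zc κ + ω • zc p) (dirD (zc p) H) ≠ 0 → eval (zc κ + ω • zc p) B ≠ 0 → ω.im = 0)
    (κ : Fin n → ℝ) (ω : ℂ) (h0 : eval (rc κ + ω • zc p) H = 0)
    (h1 : eval (rc κ + ω • zc p) (dirD (zc p) H) ≠ 0)
    (h2 : eval (rc κ + ω • zc p) B ≠ 0) : ω.im = 0 := by
  by_contra him
  -- continuity
  have hcont : ∀ Q : MvPolynomial (Fin n) ℂ,
      Continuous (fun q : (Fin n → ℝ) × ℂ => eval (rc q.1 + q.2 • zc p) Q) := by
    intro Q
    refine (MvPolynomial.continuous_eval Q).comp ?_
    refine Continuous.add ?_ ?_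
    · refine continuous_pi fun j => ?_
      simp only [rc]
      exact Complex.continuous_ofReal.comp ((continuous_apply j).comp continuous_fst)
    · exact continuous_snd.smul continuous_const
  have hev : ∀ᶠ q : (Fin n → ℝ) × ℂ in 𝓝 (κ, ω),
      eval (rc q.1 + q.2 • zc p) (dirD (zc p) H) ≠ 0 ∧ eval (rc q.1 + q.2 • zc p) B ≠ 0 ∧
        q.2.im ≠ 0 := by
    refine Filter.Eventually.and ?_ (Filter.Eventually.and ?_ ?_)
    · exact ((hcont _).tendsto (κ, ω)).eventually_ne h1
    · exact ((hcont _).tendsto (κ, ω)).eventually_ne h2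
    · exact ((Complex.continuous_im.comp continuous_snd).tendsto (κ, ω)).eventually_ne him
  rw [nhds_prod_eq, Filter.eventually_prod_iff] at hev
  obtain ⟨pa, hpa, pb, hpb, hpab⟩ := hev
  obtain ⟨r, hr, hrb⟩ := Metric.eventually_nhds_iff_ball.mp hpb
  have hur := hurwitz (l := 𝓝 κ) (F := fun κ' w => eval (rc κ' + w • zc p) H)
    (G := fun w => eval (rc κ + w • zc p) H) (z₀ := ω) (r := r) hr
    (Filter.Eventually.of_forall fun κ' => by
      refine Differentiable.differentiableOn ?_
      have h3 : Differentiable ℂ (fun w : ℂ => rc κ' + w • zc p) := by fun_prop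
      have h4 : Differentiable ℂ (fun x : Fin n → ℂ => eval x H) := by
        have h5 : (fun x : Fin n → ℂ => eval x H) = fun x => ∑ s ∈ H.support,
            coeff s H * ∏ i, x i ^ s i := by
          funext x
          rw [eval_eq']
        rw [h5]
        fun_prop
      exact h4.comp h3)
    (by
      refine Differentiable.differentiableOn ?_
      have h3 : Differentiable ℂ (fun w : ℂ => rc κ + w • zc p) := by fun_prop
      have h4 : Differentiable ℂ (fun x : Fin n → ℂ => eval x H) := by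
        have h5 : (fun x : Fin n → ℂ => eval x H) = fun x => ∑ s ∈ H.support,
            coeff s H * ∏ i, x i ^ s i := by
          funext x
          rw [eval_eq']
        rw [h5]
        fun_prop
      exact h4.comp h3)
    (fun z _ => by
      have h3 := (hcont H).tendsto (κ, z)
      rw [nhds_prod_eq] at h3
      exact h3) h0 (p10_not_locally_zero H (rc κ) (zc p) ω h0 h1)
  -- rational points
  have hden : Dense (Set.range (fun q : Fin n → ℚ => fun j => ((q j : ℚ) : ℝ))) := by
    have h3 : DenseRange (Pi.map (fun (_ : Fin n) (q : ℚ) => (q : ℝ))) :=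
      DenseRange.piMap fun _ => Rat.denseRange_cast
    exact h3
  obtain ⟨_, ⟨⟨w, hw, hw0⟩, hpaκ⟩, q, rfl⟩ :=
    mem_closure_iff_nhds.mp (hden κ) _ (hur.and hpa)
  have hx := hpab hpaκ (hrb w hw)
  obtain ⟨hD, hB, hwim⟩ := hx
  set M : ℕ := ∏ j, (q j).den with hM
  have hMpos : 0 < M := Finset.prod_pos fun j _ => (q j).den_pos
  have hMne : (M : ℂ) ≠ 0 := by exact_mod_cast hMpos.ne'
  have hz : ∀ j, ∃ k : ℤ, (k : ℂ) = (M : ℂ) * (((q j : ℚ) : ℝ) : ℂ) := by
    intro j
    obtain ⟨m, hm⟩ : (q j).den ∣ M := Finset.dvd_prod_of_mem (fun j => (q j).den) (Finset.mem_univ j)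
    refine ⟨m * (q j).num, ?_⟩
    have h3 : (((q j : ℚ) : ℝ) : ℂ) = ((q j).num : ℂ) / ((q j).den : ℂ) := by
      rw [Complex.ofReal_ratCast]
      exact Rat.cast_def (q j)
    have h4 : ((q j).den : ℂ) ≠ 0 := by exact_mod_cast (q j).den_nz
    rw [h3, hm]
    push_cast
    field_simp
  choose k hk using hz
  have hpt : zc k + ((M : ℂ) * w) • zc p =
      (M : ℂ) • (rc (fun j => ((q j : ℚ) : ℝ)) + w • zc p) := by
    funext j
    simp only [zc, rc, Pi.add_apply, Pi.smul_apply, smul_eq_mul]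
    rw [hk j]
    ring
  have h3 := hreal k ((M : ℂ) * w) (by rw [hpt, p10_hom_eval hH, hw0, mul_zero])
    (by
      rw [hpt, p10_hom_eval (p10_hom_dirD hH (zc p))]
      exact mul_ne_zero (pow_ne_zero _ hMne) hD)
    (by
      rw [hpt, p10_hom_eval hBh]
      exact mul_ne_zero (pow_ne_zero _ hMne) hB)
  rw [Complex.mul_im] at h3
  simp only [Complex.natCast_re, Complex.natCast_im, zero_mul, add_zero, mul_eq_zero,
    Nat.cast_eq_zero] at h3
  rcases h3 with h3 | h3
  · omega
  · exact hwim h3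

end XW
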