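import Pool.Agent.Lib.MP_228259_lc.P1
import Pool.Agent.Lib.MP_228259_lc.P2a
import Pool.Agent.Lib.MP_228259_lc.P10a

/-!
P10b: see /team-store/XW_blueprint.md
P10b nu_real. Suppose the quotient s = dH_j(kappa)/dirD has im <> 0. F_eps(w) = H(kappa + eps (e_j + w p))/eps -> dH_j(kappa) + w dirD (taylor1, eps real -> 0, eps <> 0), root w0 = -s not real. hurwitz: w near w0, im <> 0, H(kappa + eps e_j + eps w p) = 0; real vector kappa + eps e_j, omega = eps w not real, dirD, B <> 0 by continuity. Contradiction with real_root.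
-/

namespace XW

open Filter Topology MvPolynomial

theorem nu_real {n : ℕ} {H B : MvPolynomial (Fin n) ℂ} {h β : ℕ} (hH : H.IsHomogeneous h)
    (hBh : B.IsHomogeneous β) (p : Fin n → ℤ)
    (hreal : ∀ (κ : Fin n → ℤ) (ω : ℂ), eval (zc κ + ω • zc p) H = 0 →
      eval (zc κ + ω • zc p) (dirD (zc p) H) ≠ 0 → eval (zc κ + ω • zc p) B ≠ 0 → ω.im = 0)
    (κ : Fin n → ℝ) (h0 : eval (rc κ) H = 0)
    (h1 : eval (rc κ) (dirD (zc p) H) ≠ 0)
    (h2 : eval (rc κ) B ≠ 0) (j : Fin n) :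
    (eval (rc κ) (pderiv j H) / eval (rc κ) (dirD (zc p) H)).im = 0 := by
  by_contra him
  set D := eval (rc κ) (dirD (zc p) H) with hD
  set w0 : ℂ := - (eval (rc κ) (pderiv j H) / D) with hw0
  have him0 : w0.im ≠ 0 := by
    rw [hw0, Complex.neg_im]
    exact neg_ne_zero.mpr him
  set ej : Fin n → ℂ := Pi.single j 1 with hej
  -- continuity of the two polynomials at κ
  have hcont : ∀ Q : MvPolynomial (Fin n) ℂ, eval (rc κ) Q ≠ 0 →
      ∀ᶠ x in 𝓝 (rc κ), eval x Q ≠ 0 := fun Q hQ =>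
    ((MvPolynomial.continuous_eval Q).tendsto (rc κ)).eventually_ne hQ
  obtain ⟨δ, hδ, hball⟩ := Metric.eventually_nhds_iff_ball.mp ((hcont _ h1).and (hcont _ h2))
  have hdiffH : Differentiable ℂ (fun x : Fin n → ℂ => eval x H) := by
    have h5 : (fun x : Fin n → ℂ => eval x H) = fun x => ∑ s ∈ H.support,
        coeff s H * ∏ i, x i ^ s i := by
      funext x
      rw [eval_eq']
    rw [h5]
    fun_prop
  have hsum : ∀ w : ℂ, ∑ i, (ej + w • zc p) i * eval (rc κ) (pderiv i H) =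
      eval (rc κ) (pderiv j H) + w * D := by
    intro w
    rw [hD, p10_eval_dirD, Finset.mul_sum]
    simp only [Pi.add_apply, Pi.smul_apply, smul_eq_mul, add_mul, Finset.sum_add_distrib]
    congr 1
    · rw [Finset.sum_eq_single j]
      · simp [hej]
      · intro i _ hi
        simp [hej, hi]
      · intro hj
        exact absurd (Finset.mem_univ j) hj
    · exact Finset.sum_congr rfl fun i _ => by ring
  have hreal0 : ∀ᶠ ε : ℝ in 𝓝[≠] 0, ε ≠ 0 := by
    filter_upwards [self_mem_nhdsWithin] with ε hε using hε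
  have htoC : Tendsto (fun ε : ℝ => (ε : ℂ)) (𝓝[≠] 0) (𝓝[≠] 0) := by
    refine tendsto_nhdsWithin_iff.mpr ⟨?_, ?_⟩
    · have h3 : Tendsto (fun ε : ℝ => (ε : ℂ)) (𝓝 0) (𝓝 ((0 : ℝ) : ℂ)) :=
        Complex.continuous_ofReal.tendsto 0
      rw [Complex.ofReal_zero] at h3
      exact h3.mono_left nhdsWithin_le_nhds
    · filter_upwards [hreal0] with ε hε
      simpa using hε
  have hur := hurwitz (l := 𝓝[≠] (0 : ℝ))
    (F := fun ε w => eval (rc κ + (ε : ℂ) • (ej + w • zc p)) H / (ε : ℂ))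
    (G := fun w => eval (rc κ) (pderiv j H) + w * D) (z₀ := w0) (r := |w0.im|)
    (abs_pos.mpr him0)
    (Filter.Eventually.of_forall fun ε => by
      refine Differentiable.differentiableOn ?_
      have h3 : Differentiable ℂ (fun w : ℂ => rc κ + (ε : ℂ) • (ej + w • zc p)) := by fun_prop
      exact (hdiffH.comp h3).div_const _)
    (by
      refine Differentiable.differentiableOn ?_
      fun_prop)
    (fun z _ => by
      have h3 := taylor1 H (rc κ) (ej + z • zc p)
      have h4 : Tendsto (fun q : ℝ × ℂ => ((q.1 : ℂ), ej + q.2 • zc p)) (𝓝[≠] 0 ×ˢ 𝓝 z)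
          (𝓝[≠] 0 ×ˢ 𝓝 (ej + z • zc p)) := by
        refine Tendsto.prodMk (htoC.comp tendsto_fst) ?_
        have h5 : Continuous (fun w : ℂ => ej + w • zc p) := by fun_prop
        exact (h5.tendsto z).comp tendsto_snd
      have h5 := h3.comp h4
      rw [hsum] at h5
      refine h5.congr fun q => ?_
      simp only [Function.comp_apply]
      rw [h0, sub_zero])
    (by
      rw [hw0]
      field_simp
      ring)
    (by
      intro hz
      have h3 : ∀ᶠ z in 𝓝[≠] w0, eval (rc κ) (pderiv j H) + z * D = 0 :=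
        hz.filter_mono nhdsWithin_le_nhds
      have h4 : ∀ᶠ z in 𝓝[≠] w0, z ≠ w0 := by
        filter_upwards [self_mem_nhdsWithin] with z hz using hz
      obtain ⟨z, hz1, hz2⟩ := (h3.and h4).exists
      apply hz2
      rw [hw0]
      field_simp
      linear_combination hz1)
  -- smallness
  set C : ℝ := ‖ej‖ + (‖w0‖ + |w0.im|) * ‖zc p‖ with hC
  have hCpos : 0 ≤ C := by positivity
  have hsmall : ∀ᶠ ε : ℝ in 𝓝[≠] 0, |ε| * C < δ := by
    have h3 : Tendsto (fun ε : ℝ => |ε| * C) (𝓝 0) (𝓝 (|0| * C)) :=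
      (continuous_abs.mul continuous_const).tendsto 0
    rw [abs_zero, zero_mul] at h3
    exact (h3.eventually (gt_mem_nhds hδ)).filter_mono nhdsWithin_le_nhds
  obtain ⟨ε, ⟨⟨w, hw, hFw⟩, hsm⟩, hε⟩ := ((hur.and hsmall).and hreal0).exists
  have hεC : (ε : ℂ) ≠ 0 := by exact_mod_cast hε
  have hHw : eval (rc κ + (ε : ℂ) • (ej + w • zc p)) H = 0 := by
    rcases div_eq_zero_iff.mp hFw with h3 | h3
    · exact h3
    · exact absurd h3 hεC
  have hwim : w.im ≠ 0 := by
    intro h3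
    have h4 : |w.im - w0.im| ≤ ‖w - w0‖ := by
      rw [← Complex.sub_im]
      exact Complex.abs_im_le_norm _
    rw [Metric.mem_ball, dist_eq_norm] at hw
    rw [h3, zero_sub, abs_neg] at h4
    linarith
  have hwn : ‖w‖ ≤ ‖w0‖ + |w0.im| := by
    rw [Metric.mem_ball, dist_eq_norm] at hw
    calc ‖w‖ = ‖w0 + (w - w0)‖ := by congr 1; ring
      _ ≤ ‖w0‖ + ‖w - w0‖ := norm_add_le _ _
      _ ≤ ‖w0‖ + |w0.im| := by linarith
  have hin : rc κ + (ε : ℂ) • (ej + w • zc p) ∈ Metric.ball (rc κ) δ := by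
    rw [Metric.mem_ball, dist_eq_norm, add_sub_cancel_left, norm_smul]
    have h3 : ‖(ε : ℂ)‖ = |ε| := by simp
    rw [h3]
    refine lt_of_le_of_lt (mul_le_mul_of_nonneg_left ?_ (abs_nonneg ε)) hsm
    calc ‖ej + w • zc p‖ ≤ ‖ej‖ + ‖w • zc p‖ := norm_add_le _ _
      _ = ‖ej‖ + ‖w‖ * ‖zc p‖ := by rw [norm_smul]
      _ ≤ C := by
        rw [hC]
        have h4 := mul_le_mul_of_nonneg_right hwn (norm_nonneg (zc p))
        linarith
  obtain ⟨hDx, hBx⟩ := hball _ hin
  have hpt : rc κ + (ε : ℂ) • (ej + w • zc p) =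
      rc (κ + ε • Pi.single j 1) + ((ε : ℂ) * w) • zc p := by
    funext i
    by_cases hi : i = j
    · subst hi
      simp only [rc, hej, Pi.add_apply, Pi.smul_apply, smul_eq_mul, Pi.single_eq_same]
      push_cast
      ring
    · simp only [rc, hej, Pi.add_apply, Pi.smul_apply, smul_eq_mul, Pi.single_eq_of_ne hi]
      push_cast
      ring
  rw [hpt] at hDx hBx hHw
  have h3 := real_root hH hBh p hreal (κ + ε • Pi.single j 1) ((ε : ℂ) * w) hHw hDx hBx
  rw [Complex.im_ofReal_mul] at h3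
  rcases mul_eq_zero.mp h3 with h4 | h4
  · exact hε h4
  · exact hwim h4

end XW
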