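import Pool.Agent.Lib.MP_228259_lc.Defs

/-!
P20: see /team-store/XW_blueprint.md
degree argument: dirD v H has degree < h
-/

namespace XW

open Filter Topology MvPolynomial

theorem not_dvd_dirD {n : ℕ} {H : MvPolynomial (Fin n) ℂ} {h : ℕ}
    (hH : H.IsHomogeneous h) (hh : 0 < h) (v : Fin n → ℂ) (hv : dirD v H ≠ 0) :
    ¬ H ∣ dirD v H := by
  intro hdvd
  obtain ⟨G, hG⟩ := hdvd
  have hH0 : H ≠ 0 := by
    rintro rfl
    rw [zero_mul] at hG
    exact hv hG
  have hG0 : G ≠ 0 := by
    rintro rfl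
    rw [mul_zero] at hG
    exact hv hG
  have h1 : (dirD v H).IsHomogeneous (h - 1) := by
    unfold dirD
    refine IsHomogeneous.sum _ _ _ fun j _ => ?_
    have := (isHomogeneous_C (Fin n) (v j)).mul (hH.pderiv (i := j))
    rwa [zero_add] at this
  have h2 := h1.totalDegree hv
  rw [hG, totalDegree_mul_of_isDomain hH0 hG0, hH.totalDegree hH0] at h2
  omega

end XW
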