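import Pool.Agent.Lib.MP_228259_lc.Defs

/-!
P4b: see /team-store/XW_blueprint.md
P4b gp_root. R = leading coefficient in T of H~ (degree >= 1 in T). Then the one variable polynomial omega |-> H(kappa + omega v) has positive degree.
-/

namespace XW

open Filter Topology MvPolynomial

/-- the substitution `x_j ↦ x_j + v_j T` -/
noncomputable def P4b_psi {n : ℕ} (v : Fin n → ℂ) :
    MvPolynomial (Fin n) ℂ →ₐ[ℂ] Polynomial (MvPolynomial (Fin n) ℂ) :=
  aeval (fun j => Polynomial.C (X j) + Polynomial.C (C (v j)) * Polynomial.X)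

theorem P4b_psi_coeff {n : ℕ} (v : Fin n → ℂ) (F : MvPolynomial (Fin n) ℂ) :
    (P4b_psi v F).coeff 0 = F ∧ (P4b_psi v F).coeff 1 = dirD v F := by
  classical
  induction F using MvPolynomial.induction_on with
  | C a =>
    have h1 : P4b_psi v (C a) = Polynomial.C (C a) := by
      unfold P4b_psi
      rw [aeval_C]
      rfl
    rw [h1]
    refine ⟨by simp, ?_⟩
    rw [Polynomial.coeff_C, if_neg one_ne_zero]
    unfold dirD
    simp
  | add p q hp hq =>
    rw [map_add, Polynomial.coeff_add, Polynomial.coeff_add, hp.1, hp.2, hq.1, hq.2]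
    refine ⟨rfl, ?_⟩
    unfold dirD
    rw [← Finset.sum_add_distrib]
    refine Finset.sum_congr rfl fun j _ => ?_
    rw [map_add, mul_add]
  | mul_X p j hp =>
    have h1 : P4b_psi v (X j) = Polynomial.C (X j) + Polynomial.C (C (v j)) * Polynomial.X := by
      unfold P4b_psi
      rw [aeval_X]
    have h2 : P4b_psi v (p * X j) = P4b_psi v p * Polynomial.C (X j) +
        (P4b_psi v p * Polynomial.C (C (v j))) * Polynomial.X := by
      rw [map_mul, h1]
      ring
    rw [h2]
    constructor
    · rw [Polynomial.coeff_add, Polynomial.coeff_mul_C, Polynomial.mul_coeff_zero,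
        Polynomial.coeff_X_zero, mul_zero, add_zero, hp.1]
    · rw [Polynomial.coeff_add, Polynomial.coeff_mul_C, Polynomial.coeff_mul_X,
        Polynomial.coeff_mul_C, hp.1, hp.2]
      unfold dirD
      have h3 : ∀ i : Fin n, C (v i) * pderiv i (p * X j) =
          C (v i) * pderiv i p * X j + (if i = j then p * C (v j) else 0) := by
        intro i
        rw [pderiv_mul, pderiv_X, mul_add]
        by_cases hij : i = j
        · subst hij
          rw [Pi.single_eq_same, if_pos rfl]
          ring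
        · rw [if_neg hij, Pi.single_eq_of_ne (Ne.symm hij)]
          ring
      rw [Finset.sum_congr rfl (fun i _ => h3 i), Finset.sum_add_distrib, Finset.sum_mul,
        Finset.sum_ite_eq' Finset.univ j, if_pos (Finset.mem_univ j)]

theorem P4b_psi_eval {n : ℕ} (v : Fin n → ℂ) (κ : Fin n → ℂ) (ω : ℂ)
    (F : MvPolynomial (Fin n) ℂ) :
    ((P4b_psi v F).map (eval κ)).eval ω = eval (κ + ω • v) F := by
  induction F using MvPolynomial.induction_on with
  | C a =>
    have h1 : P4b_psi v (C a) = Polynomial.C (C a) := by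
      unfold P4b_psi
      rw [aeval_C]
      rfl
    rw [h1]
    simp
  | add p q hp hq =>
    rw [map_add, Polynomial.map_add, Polynomial.eval_add, hp, hq, map_add]
  | mul_X p j hp =>
    have h1 : P4b_psi v (X j) = Polynomial.C (X j) + Polynomial.C (C (v j)) * Polynomial.X := by
      unfold P4b_psi
      rw [aeval_X]
    rw [map_mul, Polynomial.map_mul, Polynomial.eval_mul, hp, h1, map_mul]
    congr 1
    simp
    ring

theorem P4b_natDegree_pos {n : ℕ} (v : Fin n → ℂ) (H : MvPolynomial (Fin n) ℂ)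
    (hv : dirD v H ≠ 0) : 0 < (P4b_psi v H).natDegree := by
  refine lt_of_lt_of_le one_pos (Polynomial.le_natDegree_of_ne_zero ?_)
  rw [(P4b_psi_coeff v H).2]
  exact hv

theorem gp_root {n : ℕ} (H : MvPolynomial (Fin n) ℂ) (v : Fin n → ℂ)
    (hv : dirD v H ≠ 0) :
    ∃ R : MvPolynomial (Fin n) ℂ, R ≠ 0 ∧ ∀ κ : Fin n → ℂ, eval κ R ≠ 0 →
      ∃ ω : ℂ, eval (κ + ω • v) H = 0 := by
  have hdeg := P4b_natDegree_pos v H hv
  have hne : P4b_psi v H ≠ 0 := by
    intro h
    rw [h, Polynomial.natDegree_zero] at hdeg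
    exact lt_irrefl _ hdeg
  refine ⟨(P4b_psi v H).leadingCoeff, Polynomial.leadingCoeff_ne_zero.mpr hne, fun κ hκ => ?_⟩
  have h1 : ((P4b_psi v H).map (eval κ)).degree ≠ 0 := by
    rw [Polynomial.degree_map_eq_of_leadingCoeff_ne_zero _ hκ]
    intro h2
    rw [Polynomial.natDegree_eq_of_degree_eq_some (n := 0) (by simpa using h2)] at hdeg
    exact lt_irrefl _ hdeg
  obtain ⟨ω, hω⟩ := IsAlgClosed.exists_root _ h1
  refine ⟨ω, ?_⟩
  rw [← P4b_psi_eval]
  exact hω

end XW
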