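import Pool.Agent.Lib.MP_228259_lc.Defs

/-!
P5a: see /team-store/XW_blueprint.md
P5a baire_poly. {kappa real : R_s(kappa) <> 0} is open and dense (a polynomial vanishing on a nonempty open set (a box) of R^n is 0: MvPolynomial.funext_set); dense_iInter_of_isOpen / countable; Fin n -> R is a Baire space.
-/

namespace XW

open Filter Topology MvPolynomial

theorem baire_poly {n : ℕ} {S : Type*} [Countable S] (R : S → MvPolynomial (Fin n) ℂ)
    (hR : ∀ s, R s ≠ 0) : ∃ κ : Fin n → ℝ, ∀ s, eval (rc κ) (R s) ≠ 0 := by
  have hcont : ∀ s, Continuous (fun κ : Fin n → ℝ => eval (rc κ) (R s)) := by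
    intro s
    have h1 : Continuous (fun κ : Fin n → ℝ => (rc κ : Fin n → ℂ)) := by
      apply continuous_pi
      intro j
      exact Complex.continuous_ofReal.comp (continuous_apply j)
    exact (MvPolynomial.continuous_eval (R s)).comp h1
  have hopen : ∀ s, IsOpen {κ : Fin n → ℝ | eval (rc κ) (R s) ≠ 0} := by
    intro s
    exact isOpen_ne_fun (hcont s) continuous_const
  have hdense : ∀ s, Dense {κ : Fin n → ℝ | eval (rc κ) (R s) ≠ 0} := by
    intro s
    rw [Metric.dense_iff]
    intro κ₀ ε hε
    by_contra hcon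
    rw [Set.not_nonempty_iff_eq_empty] at hcon
    apply hR s
    apply MvPolynomial.funext_set (fun j : Fin n => Complex.ofReal '' (Metric.ball (κ₀ j) (ε / 2)))
    · intro j
      apply Set.Infinite.image Complex.ofReal_injective.injOn
      rw [Real.ball_eq_Ioo]
      apply Set.Ioo_infinite
      linarith
    · intro x hx
      rw [map_zero]
      have h2 : ∀ j, ∃ t : ℝ, t ∈ Metric.ball (κ₀ j) (ε / 2) ∧ (t : ℂ) = x j := by
        intro j
        have := hx j (Set.mem_univ j)
        exact this
      choose κ hκ hκx using h2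
      have h3 : rc κ = x := by
        funext j
        exact hκx j
      by_contra h4
      have h5 : κ ∈ Metric.ball κ₀ ε ∩ {κ : Fin n → ℝ | eval (rc κ) (R s) ≠ 0} := by
        refine ⟨?_, ?_⟩
        · rw [Metric.mem_ball]
          refine lt_of_le_of_lt ((dist_pi_le_iff (by linarith : (0:ℝ) ≤ ε / 2)).2 ?_)
            (by linarith : ε / 2 < ε)
          intro j
          exact (Metric.mem_ball.1 (hκ j)).le
        · rw [Set.mem_ofPred_eq, h3]
          exact h4
      rw [hcon] at h5
      exact h5
  have h := dense_iInter_of_isOpen hopen hdense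
  obtain ⟨κ, hκ⟩ := h.nonempty
  refine ⟨κ, fun s => ?_⟩
  exact Set.mem_iInter.1 hκ s

end XW
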