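import Pool.Agent.Lib.MP_228259_lc.P4a
import Pool.Agent.Lib.MP_228259_lc.P4b
import Pool.Agent.Lib.MP_228259_lc.P5a
import Pool.Agent.Lib.MP_228259_lc.P10a
import Pool.Agent.Lib.MP_228259_lc.P20

/-!
P11: see /team-store/XW_blueprint.md
P11 dichotomy. Suppose not the first. For every q : Fin n -> Q there is j(q) with pderiv j H <> q_j dirD p H, and H does not divide G_q := pderiv j H - C q_j dirD p H (degree < h). gp for each G_q, gp for G * dirD p H, gp_root; countably many R's; baire_poly gives real kappa0; root omega of H(kappa0 + omega p), real by real_root; kappa = kappa0 + omega p.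
-/

namespace XW

open Filter Topology MvPolynomial

private theorem P11_not_dvd {n : ℕ} {H K : MvPolynomial (Fin n) ℂ} {h : ℕ}
    (hH : H.IsHomogeneous h) (hH0 : H ≠ 0) (hh : 0 < h) (hK : K.IsHomogeneous (h - 1))
    (hK0 : K ≠ 0) : ¬ H ∣ K := by
  rintro ⟨L, rfl⟩
  have hL : L ≠ 0 := right_ne_zero_of_mul hK0
  have h1 := hK.totalDegree hK0
  rw [totalDegree_mul_of_isDomain hH0 hL, hH.totalDegree hH0] at h1
  omega

private theorem P11_dirD_hom {n : ℕ} {H : MvPolynomial (Fin n) ℂ} {h : ℕ}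
    (hH : H.IsHomogeneous h) (v : Fin n → ℂ) : (dirD v H).IsHomogeneous (h - 1) := by
  apply IsHomogeneous.sum
  intro j _
  have h1 := (isHomogeneous_C (Fin n) (v j)).mul (hH.pderiv (i := j))
  rwa [zero_add] at h1

theorem dichotomy {n : ℕ} {H G : MvPolynomial (Fin n) ℂ} {h β : ℕ} (hirr : Irreducible H)
    (hH : H.IsHomogeneous h) (hGh : G.IsHomogeneous β) (hG : ¬ H ∣ G) (p : Fin n → ℤ)
    (hp : dirD (zc p) H ≠ 0)
    (hreal : ∀ (κ : Fin n → ℤ) (ω : ℂ), eval (zc κ + ω • zc p) H = 0 →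
      eval (zc κ + ω • zc p) (dirD (zc p) H) ≠ 0 → eval (zc κ + ω • zc p) G ≠ 0 → ω.im = 0) :
    (∃ q : Fin n → ℚ, ∀ j, pderiv j H = C (q j : ℂ) * dirD (zc p) H) ∨
    (∃ κ : Fin n → ℝ, eval (rc κ) H = 0 ∧ eval (rc κ) (dirD (zc p) H) ≠ 0 ∧
      eval (rc κ) G ≠ 0 ∧
      ∀ q : Fin n → ℚ, ∃ j, eval (rc κ) (pderiv j H) ≠ q j * eval (rc κ) (dirD (zc p) H)) := by
  by_cases hfirst : ∃ q : Fin n → ℚ, ∀ j, pderiv j H = C (q j : ℂ) * dirD (zc p) H
  · exact Or.inl hfirst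
  right
  push Not at hfirst
  choose J hJ using hfirst
  have hH0 : H ≠ 0 := hirr.ne_zero
  have hh : 0 < h := by
    rcases Nat.eq_zero_or_pos h with h0 | h0
    · exfalso
      subst h0
      have h1 : H.totalDegree = 0 := hH.totalDegree hH0
      obtain ⟨c, hc⟩ : ∃ c, H = C c := ⟨_, totalDegree_eq_zero_iff_eq_C.1 h1⟩
      apply hp
      rw [dirD, hc]
      simp
    · exact h0
  have hD := P11_dirD_hom hH (zc p)
  have hGq : ∀ q : Fin n → ℚ,
      ¬ H ∣ (pderiv (J q) H - C (q (J q) : ℂ) * dirD (zc p) H) := by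
    intro q
    apply P11_not_dvd hH hH0 hh
    · apply (hH.pderiv (i := J q)).sub
      have h1 := (isHomogeneous_C (Fin n) ((q (J q) : ℚ) : ℂ)).mul hD
      rwa [zero_add] at h1
    · exact sub_ne_zero.2 (hJ q)
  have hDd : ¬ H ∣ dirD (zc p) H := P11_not_dvd hH hH0 hh hD hp
  choose Rq hRq0 hRq using fun q => gp H hirr (zc p) hp _ (hGq q)
  obtain ⟨RG, hRG0, hRG⟩ := gp H hirr (zc p) hp G hG
  obtain ⟨RD, hRD0, hRD⟩ := gp H hirr (zc p) hp _ hDd
  obtain ⟨RR, hRR0, hRR⟩ := gp_root H (zc p) hp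
  obtain ⟨κ₀, hκ₀⟩ := baire_poly
    (S := (Fin n → ℚ) ⊕ Fin 3)
    (fun s => match s with
      | Sum.inl q => Rq q
      | Sum.inr i => if i = 0 then RG else if i = 1 then RD else RR)
    (by
      rintro (q | i)
      · exact hRq0 q
      · dsimp only
        split_ifs
        · exact hRG0
        · exact hRD0
        · exact hRR0)
  have hκq : ∀ q, eval (rc κ₀) (Rq q) ≠ 0 := fun q => hκ₀ (Sum.inl q)
  have hκG : eval (rc κ₀) RG ≠ 0 := hκ₀ (Sum.inr 0)
  have hκD : eval (rc κ₀) RD ≠ 0 := hκ₀ (Sum.inr 1)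
  have hκR : eval (rc κ₀) RR ≠ 0 := hκ₀ (Sum.inr 2)
  obtain ⟨ω, hω⟩ := hRR _ hκR
  have h1 := hRD _ ω hκD hω
  have h2 := hRG _ ω hκG hω
  have h3 : ω.im = 0 := real_root hH hGh p hreal κ₀ ω hω h1 h2
  have h4 : rc (fun j => κ₀ j + ω.re * p j) = rc κ₀ + ω • zc p := by
    funext j
    have hωr : ω = (ω.re : ℂ) := by
      apply Complex.ext
      · simp
      · simp [h3]
    simp only [rc, zc, Pi.add_apply, Pi.smul_apply, smul_eq_mul]
    conv_rhs => rw [hωr]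
    push_cast
    rfl
  refine ⟨fun j => κ₀ j + ω.re * p j, ?_, ?_, ?_, ?_⟩
  · rw [h4]; exact hω
  · rw [h4]; exact h1
  · rw [h4]; exact h2
  · intro q
    refine ⟨J q, ?_⟩
    rw [h4]
    have h5 := hRq q _ ω (hκq q) hω
    rw [map_sub, map_mul, eval_C] at h5
    exact sub_ne_zero.1 h5

end XW
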