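import Pool.Agent.Lib.MP_228259_lc.P5c

/-!
P12a: see /team-store/XW_blueprint.md
P12a dense_nu. The subgroup {sum nu_j k_j} of R is dense or cyclic (AddSubgroup.dense_or_cyclic); cyclic with generator g: nu_j = n_j g and sum nu_j p_j = 1 gives g rational => nu rational.
-/

namespace XW

open Filter Topology MvPolynomial

theorem dense_nu {n : ℕ} (ν : Fin n → ℝ) (p : Fin n → ℤ) (hp : ∑ j, ν j * p j = 1)
    (hirr : ∀ q : Fin n → ℚ, ∃ j, ν j ≠ q j) (x ε : ℝ) (hε : 0 < ε) :
    ∃ k : Fin n → ℤ, |∑ j, ν j * k j - x| < ε := by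
  classical
  let φ : (Fin n → ℤ) →+ ℝ :=
    { toFun := fun k => ∑ j, ν j * k j
      map_zero' := by simp
      map_add' := by
        intro k k'
        rw [← Finset.sum_add_distrib]
        refine Finset.sum_congr rfl fun j _ => ?_
        simp only [Pi.add_apply]
        push_cast
        ring }
  have hφ : ∀ k, φ k = ∑ j, ν j * k j := fun k => rfl
  rcases AddSubgroup.dense_or_cyclic φ.range with hd | ⟨g, hg⟩
  · obtain ⟨y, hy1, hy2⟩ := Metric.dense_iff.1 hd x ε hε
    obtain ⟨k, hk⟩ := hy2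
    refine ⟨k, ?_⟩
    rw [← hφ k, hk, ← Real.dist_eq]
    exact hy1
  · exfalso
    have hν : ∀ j, ∃ m : ℤ, ν j = m * g := by
      intro j
      have h1 : ν j ∈ φ.range := by
        refine ⟨Pi.single j 1, ?_⟩
        rw [hφ, Finset.sum_eq_single j]
        · simp
        · intro i _ hij
          simp [hij]
        · simp
      rw [hg, AddSubgroup.mem_closure_singleton] at h1
      obtain ⟨m, hm⟩ := h1
      exact ⟨m, by rw [← hm, zsmul_eq_mul]⟩
    choose m hm using hν
    have h1 : ((∑ j, m j * p j : ℤ) : ℝ) * g = 1 := by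
      rw [← hp]
      push_cast
      rw [Finset.sum_mul]
      refine Finset.sum_congr rfl fun j _ => ?_
      rw [hm j]
      ring
    have hM : ((∑ j, m j * p j : ℤ) : ℝ) ≠ 0 := by
      intro h
      rw [h, zero_mul] at h1
      exact zero_ne_one h1
    obtain ⟨j, hj⟩ := hirr fun j => (m j : ℚ) / ((∑ j, m j * p j : ℤ) : ℚ)
    apply hj
    rw [hm j]
    push_cast
    push_cast at hM h1
    rw [eq_div_iff hM]
    calc (m j : ℝ) * g * ∑ j, (m j : ℝ) * (p j : ℝ) = (m j : ℝ) * ((∑ j, (m j : ℝ) * (p j : ℝ)) * g) := by ring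
      _ = m j := by rw [h1, mul_one]

end XW
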