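import Pool.Agent.Lib.MP_228259_lc.P9
import Pool.Agent.Lib.MP_228259_lc.P12a

/-!
P12b: see /team-store/XW_blueprint.md
P12b irrational_contra. nu_j = re(dH_j/dirD). dH_j(2 pi i kappa) = (2 pi i)^(h-1) dirD nu_j =: eta nu_j. T(u) = sum_{i in filter} B_i(2 pi i kappa) u^(E i), degree E d >= 1, root u. HitsReal with rho = re(u/eta): t0, l. open mapping: nu.l covers a ball around nu.l(t0); dense_nu: k with |(u/eta) - 2 pi i nu.k - nu.l(t0)| < delta: t1 with nu.l(t1) + 2 pi i nu.k = u/eta. nu.l not locally constant at t1 (identity theorem on the ball). compact_regime at t1 (LogDisc with smaller radius) contradiction.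
-/

namespace XW

open Filter Topology MvPolynomial

private theorem P12b_eval_smul {n : ℕ} {K : MvPolynomial (Fin n) ℂ} {m : ℕ}
    (hK : K.IsHomogeneous m) (c : ℂ) (x : Fin n → ℂ) :
    eval (c • x) K = c ^ m * eval x K := by
  rw [eval_eq', eval_eq', Finset.mul_sum]
  refine Finset.sum_congr rfl fun d hd => ?_
  have h1 : ∑ i, d i = m := by
    have h2 := hK.degree_eq_sum_deg_support hd
    rw [h2]
    symm
    exact Finset.sum_subset (Finset.subset_univ _) fun i _ hi => by simpa using hi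
  have h3 : ∏ i, (c • x) i ^ (d i) = c ^ m * ∏ i, x i ^ (d i) := by
    rw [← h1, ← Finset.prod_pow_eq_pow_sum, ← Finset.prod_mul_distrib]
    refine Finset.prod_congr rfl fun i _ => ?_
    rw [Pi.smul_apply, smul_eq_mul, mul_pow]
  rw [h3]
  ring

/-- a sum of the form `∑ b_i u ^ (e_i)` has a zero if some exponent is positive with nonzero
coefficient and occurs once -/
private theorem P12b_root {s : Finset ℕ} (b : ℕ → ℂ) (e : ℕ → ℕ) (i₀ : ℕ) (hi₀ : i₀ ∈ s)
    (hb : b i₀ ≠ 0) (he : 0 < e i₀) (huniq : ∀ i ∈ s, e i = e i₀ → i = i₀) :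
    ∃ u : ℂ, ∑ i ∈ s, u ^ (e i) * b i = 0 := by
  classical
  let T : Polynomial ℂ := ∑ i ∈ s, Polynomial.C (b i) * Polynomial.X ^ (e i)
  have hcoeff : T.coeff (e i₀) = b i₀ := by
    rw [Polynomial.finsetSum_coeff, Finset.sum_eq_single i₀]
    · simp
    · intro i hi hne
      rw [Polynomial.coeff_C_mul_X_pow, if_neg]
      intro h
      exact hne (huniq i hi h.symm)
    · intro h
      exact absurd hi₀ h
  have hdeg : T.degree ≠ 0 := by
    intro h
    have h1 : T = Polynomial.C (T.coeff 0) := Polynomial.eq_C_of_degree_eq_zero h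
    rw [h1, Polynomial.coeff_C_of_ne_zero he.ne'] at hcoeff
    exact hb hcoeff.symm
  obtain ⟨u, hu⟩ := IsAlgClosed.exists_root T hdeg
  refine ⟨u, ?_⟩
  rw [Polynomial.IsRoot.def, Polynomial.eval_finsetSum] at hu
  rw [← hu]
  refine Finset.sum_congr rfl fun i _ => ?_
  rw [Polynomial.eval_mul, Polynomial.eval_C, Polynomial.eval_pow, Polynomial.eval_X]
  ring

theorem irrational_contra {n : ℕ} {W : Set (Fin n → ℂ)} {P H : MvPolynomial (Fin n) ℂ}
    (hbad : Bad W P) (hW : HitsReal W) {d h : ℕ} {E : ℕ → ℕ} {B : ℕ → MvPolynomial (Fin n) ℂ}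
    (hdec : Dec P H d h E B) (htame : ∀ i ≤ d, B i ≠ 0 → i + E d ≤ d + E i)
    (p : Fin n → ℤ) (κ : Fin n → ℝ) (h0 : eval (rc κ) H = 0)
    (h1 : eval (rc κ) (dirD (zc p) H) ≠ 0) (h2 : eval (rc κ) (B d) ≠ 0)
    (hre : ∀ j, (eval (rc κ) (pderiv j H) / eval (rc κ) (dirD (zc p) H)).im = 0)
    (hirr : ∀ q : Fin n → ℚ, ∃ j, eval (rc κ) (pderiv j H) ≠
      q j * eval (rc κ) (dirD (zc p) H)) : False := by
  classical
  set D : ℂ := eval (rc κ) (dirD (zc p) H) with hD
  set ν : Fin n → ℝ := fun j => (eval (rc κ) (pderiv j H) / D).re with hν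
  have hνc : ∀ j, eval (rc κ) (pderiv j H) = (ν j : ℂ) * D := by
    intro j
    have h3 : eval (rc κ) (pderiv j H) / D = ((ν j : ℝ) : ℂ) := by
      apply Complex.ext
      · simp [hν]
      · simpa using hre j
    rw [← h3, div_mul_cancel₀ _ h1]
  have hνp : ∑ j, ν j * p j = 1 := by
    have h3 : (∑ j, (ν j : ℂ) * (p j : ℂ)) * D = 1 * D := by
      rw [one_mul, Finset.sum_mul]
      conv_rhs => rw [hD, dirD, map_sum]
      refine Finset.sum_congr rfl fun j _ => ?_
      rw [map_mul, eval_C, hνc j, zc]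
      ring
    have h4 := mul_right_cancel₀ h1 h3
    exact_mod_cast h4
  have hνirr : ∀ q : Fin n → ℚ, ∃ j, ν j ≠ q j := by
    intro q
    obtain ⟨j, hj⟩ := hirr q
    refine ⟨j, fun h3 => hj ?_⟩
    rw [hνc j, h3]
    push_cast
    rfl
  set c : ℂ := (2 * Real.pi * Complex.I : ℂ) with hc
  have hc0 : c ≠ 0 := Complex.two_pi_I_ne_zero
  set η : ℂ := c ^ (h - 1) * D with hη
  have hη0 : η ≠ 0 := mul_ne_zero (pow_ne_zero _ hc0) h1
  have hpd : ∀ j, eval (c • rc κ) (pderiv j H) = η * ν j := by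
    intro j
    rw [P12b_eval_smul (hdec.hom.pderiv (i := j)), hνc j, hη]
    ring
  -- the root
  have hBd : eval (c • rc κ) (B d) ≠ 0 := by
    rw [P12b_eval_smul (hdec.deg d le_rfl hdec.top).2]
    exact mul_ne_zero (pow_ne_zero _ hc0) h2
  obtain ⟨u, hu⟩ := P12b_root
    (s := (Finset.range (d + 1)).filter (fun i => i + E d = d + E i))
    (fun i => eval (c • rc κ) (B i)) E d (by simp) hBd hdec.epos
    (by
      intro i hi hE
      have h3 := (Finset.mem_filter.1 hi).2
      omega)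
  -- the disc
  have hν0 : ν ≠ 0 := by
    intro h3
    rw [h3] at hνp
    simp at hνp
  obtain ⟨t₀, r, ℓ, hdisc, hRe, hnc⟩ := hW ν hν0 (u / η).re
  set g : ℂ → ℂ := fun t => ∑ j, (ν j : ℂ) * ℓ t j with hg
  have hgdiff : DifferentiableOn ℂ g (Metric.ball t₀ r) := by
    apply DifferentiableOn.fun_sum
    intro j _
    exact (hdisc.diff j).const_mul _
  have hgan : AnalyticOnNhd ℂ g (Metric.ball t₀ r) :=
    hgdiff.analyticOnNhd Metric.isOpen_ball
  have hgt₀ : AnalyticAt ℂ g t₀ := hgan t₀ (Metric.mem_ball_self hdisc.pos)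
  have hopen : 𝓝 (g t₀) ≤ map g (𝓝 t₀) :=
    hgt₀.eventually_constant_or_nhds_le_map_nhds.resolve_left hnc
  have himg : g '' (Metric.ball t₀ r) ∈ 𝓝 (g t₀) := by
    apply hopen
    rw [mem_map]
    exact mem_of_superset (Metric.ball_mem_nhds _ hdisc.pos) (Set.subset_preimage_image _ _)
  obtain ⟨δ, hδ, hball⟩ := Metric.mem_nhds_iff.1 himg
  obtain ⟨k, hk⟩ := dense_nu ν p hνp hνirr ((u / η - g t₀).im / (2 * Real.pi))
    (δ / (2 * Real.pi)) (by positivity)
  have hmem : u / η - c * ((∑ j, ν j * k j : ℝ) : ℂ) ∈ Metric.ball (g t₀) δ := by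
    rw [Metric.mem_ball, dist_eq_norm]
    have h5 : u / η - c * ((∑ j, ν j * k j : ℝ) : ℂ) - g t₀ =
        (((u / η - g t₀).im - 2 * Real.pi * ∑ j, ν j * k j : ℝ) : ℂ) * Complex.I := by
      have h6 : (u / η - g t₀).re = 0 := by
        rw [Complex.sub_re, sub_eq_zero]
        exact hRe.symm
      have h7 : u / η - g t₀ = ((u / η - g t₀).im : ℂ) * Complex.I := by
        apply Complex.ext
        · rw [h6]; simp
        · simp
      rw [sub_right_comm, h7, hc]
      push_cast
      simp only [Complex.mul_im, Complex.ofReal_re, Complex.I_im, mul_one, Complex.ofReal_im,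
        Complex.I_re, mul_zero, add_zero]
      ring
    rw [h5, norm_mul, Complex.norm_I, mul_one, Complex.norm_real, Real.norm_eq_abs]
    have h8 : (u / η - g t₀).im - 2 * Real.pi * ∑ j, ν j * k j =
        -(2 * Real.pi) * (∑ j, ν j * k j - (u / η - g t₀).im / (2 * Real.pi)) := by
      field_simp
      ring
    rw [h8, abs_mul, abs_neg, abs_of_pos Real.two_pi_pos]
    calc 2 * Real.pi * |∑ j, ν j * k j - (u / η - g t₀).im / (2 * Real.pi)|
        < 2 * Real.pi * (δ / (2 * Real.pi)) := mul_lt_mul_of_pos_left hk Real.two_pi_pos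
      _ = δ := by field_simp
  obtain ⟨t₁, ht₁, hgt₁⟩ := hball hmem
  -- the smaller disc
  have hr₁ : 0 < r - dist t₁ t₀ := by
    have := Metric.mem_ball.1 ht₁
    linarith
  have hsub : Metric.ball t₁ (r - dist t₁ t₀) ⊆ Metric.ball t₀ r := by
    intro t ht
    rw [Metric.mem_ball] at ht ⊢
    have := dist_triangle t t₁ t₀
    linarith
  have hdisc₁ : LogDisc W t₁ (r - dist t₁ t₀) ℓ :=
    ⟨hr₁, fun j => (hdisc.diff j).mono hsub, fun t ht => hdisc.mem t (hsub ht)⟩
  have hsumD : ∀ t, ∑ j, ℓ t j * eval (rc κ) (pderiv j H) = D * g t := by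
    intro t
    rw [hg, Finset.mul_sum]
    refine Finset.sum_congr rfl fun j _ => ?_
    rw [hνc j]
    ring
  have hfinal := compact_regime hbad hdec htame κ h0 h2 hdisc₁ k (by
    intro hcon
    apply hnc
    have h9 : g =ᶠ[𝓝 t₁] fun _ => g t₁ := by
      filter_upwards [hcon] with t ht
      rw [hsumD, hsumD] at ht
      exact mul_left_cancel₀ h1 ht
    have h10 : Set.EqOn g (fun _ => g t₁) (Metric.ball t₀ r) :=
      hgan.eqOn_of_preconnected_of_eventuallyEq analyticOnNhd_const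
        (convex_ball t₀ r).isPreconnected ht₁ h9
    filter_upwards [Metric.ball_mem_nhds t₀ hdisc.pos] with t ht
    have h11 := h10 ht
    have h12 := h10 (Metric.mem_ball_self hdisc.pos)
    simp only [hg] at h11 h12 ⊢
    rw [h11, h12])
  apply hfinal
  rw [← hu]
  refine Finset.sum_congr rfl fun i _ => ?_
  have h13 : ∑ j, (ℓ t₁ j + 2 * Real.pi * Complex.I * k j) * eval (c • rc κ) (pderiv j H) = u := by
    have h14 : ∑ j, (ℓ t₁ j + 2 * Real.pi * Complex.I * k j) * eval (c • rc κ) (pderiv j H) =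
        η * (g t₁ + c * ((∑ j, ν j * k j : ℝ) : ℂ)) := by
      rw [hg]
      push_cast
      rw [Finset.mul_sum, ← Finset.sum_add_distrib, Finset.mul_sum]
      refine Finset.sum_congr rfl fun j _ => ?_
      rw [hpd j, hc]
      ring
    rw [h14, hgt₁]
    field_simp
    ring
  rw [h13]

end XW
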