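import Pool.Agent.Lib.MP_228259_lc.Defs

/-!
P13a: see /team-store/XW_blueprint.md
P13a linear_of_pderiv. sum p_j q_j = 1 from the definition of dirD and dirD <> 0. Euler: h H = sum X_j pderiv j H = lin q * dirD p H; so lin q | H (lin q <> 0, not a unit), irreducible => associated.
-/

namespace XW

open Filter Topology MvPolynomial

theorem linear_of_pderiv {n : ℕ} {H : MvPolynomial (Fin n) ℂ} {h : ℕ} (hirr : Irreducible H)
    (hH : H.IsHomogeneous h) (hh : 0 < h) (p : Fin n → ℤ) (hp : dirD (zc p) H ≠ 0)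
    (q : Fin n → ℚ) (hq : ∀ j, pderiv j H = C (q j : ℂ) * dirD (zc p) H) :
    ∑ j, q j * p j = 1 ∧ ∃ lam : ℂ, lam ≠ 0 ∧ H = C lam * lin q := by
  constructor
  · have h1 : dirD (zc p) H = C (∑ j, (q j : ℂ) * (p j : ℂ)) * dirD (zc p) H := by
      conv_lhs => rw [dirD]
      rw [map_sum, Finset.sum_mul]
      refine Finset.sum_congr rfl fun j _ => ?_
      rw [hq j, ← mul_assoc, ← C_mul, zc, mul_comm (p j : ℂ)]
    have h2 : (C (∑ j, (q j : ℂ) * (p j : ℂ)) - 1 : MvPolynomial (Fin n) ℂ) * dirD (zc p) H = 0 := by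
      rw [sub_mul, one_mul, ← h1, sub_self]
    have h3 : (C (∑ j, (q j : ℂ) * (p j : ℂ)) : MvPolynomial (Fin n) ℂ) = C 1 := by
      rw [map_one]
      exact sub_eq_zero.1 ((mul_eq_zero.1 h2).resolve_right hp)
    have h4 : (∑ j, (q j : ℂ) * (p j : ℂ)) = 1 := C_injective _ _ h3
    have h5 : ((∑ j, q j * (p j : ℚ) : ℚ) : ℂ) = ((1 : ℚ) : ℂ) := by
      push_cast
      exact h4
    exact_mod_cast h5
  · have h1 := hH.sum_X_mul_pderiv
    have h2 : ∑ i, X i * pderiv i H = lin q * dirD (zc p) H := by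
      rw [lin, Finset.sum_mul]
      refine Finset.sum_congr rfl fun j _ => ?_
      rw [hq j]
      ring
    have hhc : (h : ℂ) ≠ 0 := by exact_mod_cast hh.ne'
    have h3 : H = lin q * (C ((h : ℂ)⁻¹) * dirD (zc p) H) := by
      have h4 : (C (h : ℂ) : MvPolynomial (Fin n) ℂ) * H = lin q * dirD (zc p) H := by
        rw [← h2, h1, nsmul_eq_mul, map_natCast]
      calc H = C ((h : ℂ)⁻¹) * (C (h : ℂ) * H) := by
            rw [← mul_assoc, ← C_mul, inv_mul_cancel₀ hhc, C_1, one_mul]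
        _ = _ := by rw [h4]; ring
    have h5 : ¬ IsUnit (lin q) := by
      intro hu
      obtain ⟨r, hr, hr'⟩ := isUnit_iff_eq_C_of_isReduced.1 hu
      have h6 : eval (fun _ => (0 : ℂ)) (lin q) = 0 := by
        simp [lin]
      rw [hr', eval_C] at h6
      exact hr.ne_zero h6
    rcases hirr.isUnit_or_isUnit h3 with h6 | h6
    · exact absurd h6 h5
    · obtain ⟨r, hr, hr'⟩ := isUnit_iff_eq_C_of_isReduced.1 h6
      refine ⟨r, hr.ne_zero, ?_⟩
      conv_lhs => rw [h3]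
      rw [hr', mul_comm]

end XW
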