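import Pool.Agent.Lib.MP_228259_lc.P2a

/-!
P2b: see /team-store/XW_blueprint.md
P2b lemmaL. P = sum_k H^(E k) B_k; with x = N(A + eta x'): H(x) = N^h H(A + eta x') = N^h eta (sum_j x0_j dH_j(A) + o(1)) by taylor1 and H(A)=0; B_k(x) = N^(k - E k h)(B_k(A)+o(1)). So the k-th summand divided by N^d eta^(E d) is (N^(k-d) eta^(E k - E d)) * (..)^(E k) * (..). Homogeneity: eval (c . x) H = c^h eval x H.
-/

namespace XW

open Filter Topology MvPolynomial

theorem P2b_eval_smul {n : ℕ} {φ : MvPolynomial (Fin n) ℂ} {m : ℕ} (h : φ.IsHomogeneous m)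
    (c : ℂ) (x : Fin n → ℂ) : eval (c • x) φ = c ^ m * eval x φ := by
  rw [eval_eq', eval_eq', Finset.mul_sum]
  apply Finset.sum_congr rfl
  intro d hd
  have h1 := h (mem_support_iff.1 hd)
  rw [Finsupp.weight_apply, Finsupp.sum_fintype _ _ (by simp)] at h1
  simp only [Pi.one_apply, smul_eq_mul, mul_one] at h1
  simp only [Pi.smul_apply, smul_eq_mul, mul_pow, Finset.prod_mul_distrib,
    Finset.prod_pow_eq_pow_sum, h1]
  ring

theorem lemmaL {n : ℕ} {ι : Type*} {l : Filter ι} {P H : MvPolynomial (Fin n) ℂ} {d h : ℕ}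
    {E : ℕ → ℕ} {B : ℕ → MvPolynomial (Fin n) ℂ} (hdec : Dec P H d h E B)
    (A : Fin n → ℂ) (hA : eval A H = 0) (x₀ : Fin n → ℂ) (N η : ι → ℂ)
    (x' : ι → Fin n → ℂ) (τ : ℕ → ℂ) (hN : ∀ᶠ i in l, N i ≠ 0)
    (hη : Tendsto η l (𝓝[≠] 0)) (hx : Tendsto x' l (𝓝 x₀))
    (hτ : ∀ k ≤ d, B k ≠ 0 →
      Tendsto (fun i => (N i) ^ ((k : ℤ) - d) * (η i) ^ ((E k : ℤ) - E d)) l (𝓝 (τ k))) :
    Tendsto (fun i => eval (N i • (A + η i • x' i)) P / ((N i) ^ d * (η i) ^ (E d))) l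
      (𝓝 (∑ k ∈ Finset.range (d + 1),
        τ k * (∑ j, x₀ j * eval A (pderiv j H)) ^ (E k) * eval A (B k))) := by
  classical
  have hD : Tendsto (fun i => (eval (A + η i • x' i) H - eval A H) / η i) l
      (𝓝 (∑ j, x₀ j * eval A (pderiv j H))) := by
    have h0 : Tendsto (fun i => (η i, x' i)) l (𝓝[≠] (0 : ℂ) ×ˢ 𝓝 x₀) := hη.prodMk hx
    have h1 := (taylor1 H A x₀).comp h0
    rw [Function.comp_def] at h1
    exact h1
  have hη0 : ∀ᶠ i in l, η i ≠ 0 := by
    have : ∀ᶠ z : ℂ in 𝓝[≠] 0, z ≠ 0 := by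
      filter_upwards [self_mem_nhdsWithin] with z hz using hz
    exact hη.eventually this
  have hη1 : Tendsto η l (𝓝 0) := hη.mono_right nhdsWithin_le_nhds
  have hx1 : Tendsto (fun i => A + η i • x' i) l (𝓝 A) := by
    have := (hη1.smul hx).const_add A
    simpa using this
  have hsum : ∀ i, eval (N i • (A + η i • x' i)) P / ((N i) ^ d * (η i) ^ (E d)) =
      ∑ k ∈ Finset.range (d + 1), (eval (N i • (A + η i • x' i)) H) ^ (E k) *
        eval (N i • (A + η i • x' i)) (B k) / ((N i) ^ d * (η i) ^ (E d)) := by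
    intro i
    rw [← Finset.sum_div]
    congr 1
    conv_lhs => rw [hdec.sum]
    simp [map_sum, map_mul, map_pow]
  simp_rw [hsum]
  apply tendsto_finsetSum
  intro k hk
  rw [Finset.mem_range] at hk
  by_cases hB : B k = 0
  · simp only [hB, map_zero, mul_zero, zero_div]
    exact tendsto_const_nhds
  obtain ⟨hle, hhom⟩ := hdec.deg k (by omega) hB
  have hb : Tendsto (fun i => eval (A + η i • x' i) (B k)) l (𝓝 (eval A (B k))) :=
    ((MvPolynomial.continuous_eval (B k)).tendsto A).comp hx1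
  have h1 := ((hτ k (by omega) hB).mul (hD.pow (E k))).mul hb
  refine h1.congr' ?_
  filter_upwards [hN, hη0] with i hNi hηi
  rw [P2b_eval_smul hdec.hom, P2b_eval_smul hhom, hA, sub_zero]
  rw [zpow_sub₀ hNi, zpow_sub₀ hηi, zpow_natCast, zpow_natCast, zpow_natCast, zpow_natCast]
  have h2 : (N i) ^ k = ((N i) ^ h) ^ (E k) * (N i) ^ (k - E k * h) := by
    rw [← pow_mul, ← pow_add]
    congr 1
    rw [mul_comm h]
    omega
  rw [h2, mul_pow, div_pow]
  field_simp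

end XW
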