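import Pool.Agent.Lib.MP_228259_lc.P1
import Pool.Agent.Lib.MP_228259_lc.P2b
import Pool.Agent.Lib.MP_228259_lc.P5c
import Pool.Agent.Lib.MP_228259_lc.P10a

/-!
P9: see /team-store/XW_blueprint.md
P9 compact_regime. dirichlet for kappa with eps -> 0 gives N_l >= l, k_l. z = l(t) + 2 pi i (k_l + k) = N (A + eta x'), A = 2 pi i kappa, eta = 1/N, x' = l(t) + 2 pi i k + 2 pi i (k_l - N kappa). lemmaL with tau_k = 1 iff k + E d = d + E k. If the stated limit vanishes at t0: it is T(g(t)), T a nonconstant polynomial (leading term B_d(A) u^(E d)), g(t) = sum_j (l_j(t) + 2 pi i k_j) dH_j(A) not locally constant at t0 (hnc and homogeneity dH_j(2 pi i kappa) = (2 pi i)^(h-1) dH_j(kappa)), so T(g) is not locally zero; hurwitz => zero of P, contradiction to Bad.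
-/

namespace XW

open Filter Topology MvPolynomial

/-- a continuous function with values in a finite set is locally constant -/
private theorem p9_const {g : ℂ → ℂ} {t₀ : ℂ} (hg : ContinuousAt g t₀) {S : Set ℂ}
    (hS : S.Finite) (h : ∀ᶠ t in 𝓝 t₀, g t ∈ S) : ∀ᶠ t in 𝓝 t₀, g t = g t₀ := by
  have h1 : (S \ {g t₀})ᶜ ∈ 𝓝 (g t₀) :=
    (hS.subset Set.sdiff_subset).isClosed.isOpen_compl.mem_nhds (by simp)
  filter_upwards [h, hg.eventually h1] with t ht1 ht2
  by_contra hne
  exact ht2 ⟨ht1, hne⟩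

theorem compact_regime {n : ℕ} {W : Set (Fin n → ℂ)} {P H : MvPolynomial (Fin n) ℂ}
    (hbad : Bad W P) {d h : ℕ} {E : ℕ → ℕ} {B : ℕ → MvPolynomial (Fin n) ℂ}
    (hdec : Dec P H d h E B) (htame : ∀ i ≤ d, B i ≠ 0 → i + E d ≤ d + E i)
    (κ : Fin n → ℝ) (hH0 : eval (rc κ) H = 0) (hBd : eval (rc κ) (B d) ≠ 0)
    {t₀ : ℂ} {r : ℝ} {ℓ : ℂ → Fin n → ℂ} (hdisc : LogDisc W t₀ r ℓ) (k : Fin n → ℤ)
    (hnc : ¬ ∀ᶠ t in 𝓝 t₀, ∑ j, ℓ t j * eval (rc κ) (pderiv j H) =
      ∑ j, ℓ t₀ j * eval (rc κ) (pderiv j H)) :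
    ∑ i ∈ (Finset.range (d + 1)).filter (fun i => i + E d = d + E i),
      (∑ j, (ℓ t₀ j + 2 * Real.pi * Complex.I * k j) *
        eval ((2 * Real.pi * Complex.I : ℂ) • rc κ) (pderiv j H)) ^ (E i) *
      eval ((2 * Real.pi * Complex.I : ℂ) • rc κ) (B i) ≠ 0 := by
  intro hzero
  have hpi : (2 * Real.pi * Complex.I : ℂ) ≠ 0 := by
    simp [Real.pi_ne_zero, Complex.I_ne_zero]
  set A : Fin n → ℂ := (2 * Real.pi * Complex.I : ℂ) • rc κ with hA
  have hHA : eval A H = 0 := by
    rw [hA, p10_hom_eval hdec.hom, hH0, mul_zero]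
  have hBdA : eval A (B d) ≠ 0 := by
    rw [hA, p10_hom_eval (hdec.deg d le_rfl hdec.top).2]
    exact mul_ne_zero (pow_ne_zero _ hpi) hBd
  -- simultaneous approximation
  have hdir : ∀ l : ℕ, ∃ N : ℕ, l + 1 ≤ N ∧ 0 < N ∧ ∃ a : Fin n → ℤ,
      ∀ j, |(N : ℝ) * κ j - a j| < 1 / ((l : ℝ) + 1) := fun l =>
    dirichlet κ (1 / ((l : ℝ) + 1)) (by positivity) (l + 1)
  choose N hN1 hN2 a ha using hdir
  set τ : ℕ → ℂ := fun i => if i + E d = d + E i then 1 else 0 with hτ
  set x₀ : ℂ → Fin n → ℂ := fun t j => ℓ t j + 2 * Real.pi * Complex.I * k j with hx₀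
  set x' : ℕ × ℂ → Fin n → ℂ := fun q j => ℓ q.2 j + 2 * Real.pi * Complex.I * k j +
    2 * Real.pi * Complex.I * ((a q.1 j : ℂ) - (N q.1 : ℂ) * (κ j : ℂ)) with hx'
  set Tp : Polynomial ℂ := ∑ i ∈ Finset.range (d + 1),
    Polynomial.C (τ i * eval A (B i)) * Polynomial.X ^ (E i) with hTp
  set g : ℂ → ℂ := fun t => ∑ j, x₀ t j * eval A (pderiv j H) with hg
  have hGT : ∀ t, (∑ i ∈ Finset.range (d + 1), τ i * (∑ j, x₀ t j * eval A (pderiv j H)) ^ (E i) *
      eval A (B i)) = Tp.eval (g t) := by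
    intro t
    rw [hTp, Polynomial.eval_finsetSum]
    refine Finset.sum_congr rfl fun i _ => ?_
    simp only [Polynomial.eval_mul, Polynomial.eval_C, Polynomial.eval_pow, Polynomial.eval_X, hg]
    ring
  -- the polynomial is not zero
  have hTne : Tp ≠ 0 := by
    intro h0
    have h1 : Tp.coeff (E d) = eval A (B d) := by
      rw [hTp, Polynomial.finsetSum_coeff]
      rw [Finset.sum_eq_single d]
      · simp [hτ]
      · intro i hi hid
        rw [Polynomial.coeff_C_mul, Polynomial.coeff_X_pow]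
        by_cases h2 : i + E d = d + E i
        · have h3 : E d ≠ E i := by omega
          rw [if_neg h3, mul_zero]
        · simp [hτ, h2]
      · intro h2
        exact absurd (Finset.self_mem_range_succ d) h2
    rw [h0, Polynomial.coeff_zero] at h1
    exact hBdA h1.symm
  have hNR : ∀ l, (N l : ℂ) ≠ 0 := fun l => by exact_mod_cast (hN2 l).ne'
  have hNtop : Tendsto (fun l => (N l : ℝ)) atTop atTop := by
    refine tendsto_atTop_mono (fun l => ?_) tendsto_natCast_atTop_atTop
    have := hN1 l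
    exact_mod_cast (by omega : l ≤ N l)
  have hNinv : Tendsto (fun l => ((N l : ℂ))⁻¹) atTop (𝓝 0) := by
    rw [tendsto_zero_iff_norm_tendsto_zero]
    have h1 := hNtop.inv_tendsto_atTop
    refine h1.congr fun l => ?_
    simp
  have hηlim : Tendsto (fun l => ((N l : ℂ))⁻¹) atTop (𝓝[≠] 0) := by
    rw [tendsto_nhdsWithin_iff]
    exact ⟨hNinv, Filter.Eventually.of_forall fun l => inv_ne_zero (hNR l)⟩
  have happ : ∀ j, Tendsto (fun l => (a l j : ℂ) - (N l : ℂ) * (κ j : ℂ)) atTop (𝓝 0) := by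
    intro j
    rw [tendsto_zero_iff_norm_tendsto_zero]
    refine squeeze_zero (fun _ => norm_nonneg _) (fun l => ?_)
      (tendsto_one_div_add_atTop_nhds_zero_nat (𝕜 := ℝ))
    have h1 : (a l j : ℂ) - (N l : ℂ) * (κ j : ℂ) = (((a l j : ℝ) - (N l : ℝ) * κ j : ℝ) : ℂ) := by
      push_cast
      ring
    rw [h1, Complex.norm_real, Real.norm_eq_abs, abs_sub_comm]
    exact (ha l j).le
  have hdiffP : Differentiable ℂ (fun x : Fin n → ℂ => eval x P) := by
    have h5 : (fun x : Fin n → ℂ => eval x P) = fun x => ∑ s ∈ P.support,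
        coeff s P * ∏ i, x i ^ s i := by
      funext x
      rw [eval_eq']
    rw [h5]
    fun_prop
  have hℓcont : ∀ t ∈ Metric.ball t₀ r, ∀ j, ContinuousAt (fun t => ℓ t j) t := fun t ht j =>
    ((hdisc.diff j).differentiableAt (Metric.isOpen_ball.mem_nhds ht)).continuousAt
  -- the point
  have hpt : ∀ l t, (N l : ℂ) • (A + ((N l : ℂ))⁻¹ • x' (l, t)) =
      fun j => ℓ t j + 2 * Real.pi * Complex.I * ((a l j + k j : ℤ) : ℂ) := by
    intro l t
    funext j
    have := hNR l
    simp only [hA, hx', rc, Pi.smul_apply, Pi.add_apply, smul_eq_mul]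
    push_cast
    field_simp
    ring
  have hur := hurwitz (l := (atTop : Filter ℕ))
    (F := fun l t => eval ((N l : ℂ) • (A + ((N l : ℂ))⁻¹ • x' (l, t))) P /
      ((N l : ℂ) ^ d * (((N l : ℂ))⁻¹) ^ (E d)))
    (G := fun t => ∑ i ∈ Finset.range (d + 1),
      τ i * (∑ j, x₀ t j * eval A (pderiv j H)) ^ (E i) * eval A (B i)) (z₀ := t₀) (r := r)
    hdisc.pos
    (Filter.Eventually.of_forall fun l => by
      refine DifferentiableOn.div_const ?_ _
      have h1 : DifferentiableOn ℂ (fun t => (N l : ℂ) • (A + ((N l : ℂ))⁻¹ • x' (l, t)))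
          (Metric.ball t₀ r) := by
        rw [differentiableOn_pi]
        intro j
        simp only [hpt]
        exact (hdisc.diff j).add_const _
      exact hdiffP.comp_differentiableOn h1)
    (by
      simp only [hGT]
      have h1 : DifferentiableOn ℂ g (Metric.ball t₀ r) := by
        simp only [hg, hx₀]
        refine DifferentiableOn.fun_sum fun j _ => ?_
        exact ((hdisc.diff j).add_const _).mul_const _
      exact Tp.differentiable.comp_differentiableOn h1)
    (fun t ht => by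
      refine lemmaL (l := (atTop : Filter ℕ) ×ˢ 𝓝 t) hdec A hHA (x₀ t) (fun q => (N q.1 : ℂ))
        (fun q => ((N q.1 : ℂ))⁻¹) x' τ (Filter.Eventually.of_forall fun q => hNR q.1)
        (hηlim.comp tendsto_fst) ?_ ?_
      · rw [tendsto_pi_nhds]
        intro j
        have h1 : Tendsto (fun q : ℕ × ℂ => ℓ q.2 j) (atTop ×ˢ 𝓝 t) (𝓝 (ℓ t j)) :=
          (hℓcont t ht j).tendsto.comp tendsto_snd
        have h2 := (h1.add_const (2 * Real.pi * Complex.I * k j)).add
          (((happ j).comp (tendsto_fst (f := (atTop : Filter ℕ)) (g := 𝓝 t))).const_mul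
            (2 * Real.pi * Complex.I))
        rw [mul_zero, add_zero] at h2
        exact h2
      · intro i hi hBi
        have h1 := htame i hi hBi
        have h2 : Tendsto (fun l => ((N l : ℂ)) ^ ((i : ℤ) - d) *
            (((N l : ℂ))⁻¹) ^ ((E i : ℤ) - E d)) atTop (𝓝 (τ i)) := by
          have h3 : ∀ l, ((N l : ℂ)) ^ ((i : ℤ) - d) * (((N l : ℂ))⁻¹) ^ ((E i : ℤ) - E d) =
              (((N l : ℂ))⁻¹) ^ (d + E i - (i + E d)) := by
            intro l
            have hne := hNR l
            rw [← zpow_natCast, inv_zpow', inv_zpow', ← zpow_add₀ hne]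
            congr 1
            omega
          simp only [h3]
          by_cases h4 : i + E d = d + E i
          · have h5 : d + E i - (i + E d) = 0 := by omega
            simp only [h5, pow_zero, hτ, if_pos h4]
            exact tendsto_const_nhds
          · have h5 : d + E i - (i + E d) ≠ 0 := by omega
            simp only [hτ, if_neg h4]
            have h6 := hNinv.pow (d + E i - (i + E d))
            rwa [zero_pow h5] at h6
        exact h2.comp tendsto_fst)
    (by
      rw [Finset.sum_filter] at hzero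
      rw [← hzero]
      refine Finset.sum_congr rfl fun i _ => ?_
      by_cases h1 : i + E d = d + E i
      · simp only [hτ, if_pos h1, one_mul, hx₀]
      · simp only [hτ, if_neg h1, zero_mul])
    (by
      intro hz
      apply hnc
      have h1 : ∀ᶠ t in 𝓝 t₀, g t ∈ {u : ℂ | Tp.IsRoot u} := by
        filter_upwards [hz] with t ht
        rw [hGT] at ht
        exact ht
      have hgc : ContinuousAt g t₀ := by
        have h2 : ∀ j, ContinuousAt (fun t => ℓ t j) t₀ :=
          hℓcont t₀ (Metric.mem_ball_self hdisc.pos)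
        simp only [hg, hx₀]
        refine tendsto_finsetSum _ fun j _ => ?_
        exact ((h2 j).add continuousAt_const).mul continuousAt_const
      have h2 := p9_const hgc (Polynomial.finite_setOfPred_isRoot hTne) h1
      filter_upwards [h2] with t ht
      have h3 : ∀ t, g t = (2 * Real.pi * Complex.I : ℂ) ^ (h - 1) *
          (∑ j, ℓ t j * eval (rc κ) (pderiv j H)) +
          ∑ j, 2 * Real.pi * Complex.I * k j * eval A (pderiv j H) := by
        intro t
        simp only [hg, hx₀, add_mul, Finset.sum_add_distrib]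
        congr 1
        rw [Finset.mul_sum]
        refine Finset.sum_congr rfl fun j _ => ?_
        rw [hA, p10_hom_eval (IsHomogeneous.pderiv (i := j) hdec.hom)]
        ring
      rw [h3 t, h3 t₀] at ht
      exact mul_left_cancel₀ (pow_ne_zero _ hpi) (add_right_cancel ht))
  obtain ⟨l, t, ht, hFt⟩ := hur.exists
  have hden : (N l : ℂ) ^ d * (((N l : ℂ))⁻¹) ^ (E d) ≠ 0 :=
    mul_ne_zero (pow_ne_zero _ (hNR l)) (pow_ne_zero _ (inv_ne_zero (hNR l)))
  have h1 : eval ((N l : ℂ) • (A + ((N l : ℂ))⁻¹ • x' (l, t))) P = 0 := by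
    rcases div_eq_zero_iff.mp hFt with h2 | h2
    · exact h2
    · exact absurd h2 hden
  refine hbad _ ?_ h1
  rw [hpt]
  have h2 : (fun j => Complex.exp (ℓ t j + 2 * Real.pi * Complex.I * ((a l j + k j : ℤ) : ℂ))) =
      fun j => Complex.exp (ℓ t j) := by
    funext j
    rw [Complex.exp_add]
    have h3 : Complex.exp (2 * Real.pi * Complex.I * ((a l j + k j : ℤ) : ℂ)) = 1 := by
      rw [mul_comm]
      exact Complex.exp_int_mul_two_pi_mul_I _
    rw [h3, mul_one]
  rw [h2]
  exact hdisc.mem t ht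

end XW
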