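import Pool.Agent.Lib.MP_228259_lc.P14a
import Pool.Agent.Lib.MP_228259_lc.P9
import Pool.Agent.Lib.MP_228259_lc.P5a
import Pool.Agent.Lib.MP_228259_lc.P13b

/-!
P14b: see /team-store/XW_blueprint.md
P14b exists_c. primitive_vec: a, q0, k1. Z from hit_values a. CC := {u : exp(q0 u) in Z} countable. Suppose for every c in CC the polynomial R_c(kappa) := sum_{filter} c^(E i) B_i(kappa - (q.kappa) p) is <> 0; also R := B_d(kappa - (q.kappa)p) <> 0 (as lin q does not divide B_d: B_d restricted to the hyperplane). baire_poly: real kappa0, kappa := kappa0 - (q.kappa0) p real, q.kappa = 0, B_d(kappa) <> 0, T_kappa(u) := sum (u)^(E i) B_i(2 pi i kappa) = (2 pi i)^(d-e) sum u^(E i) B_i(kappa) (all B_i in the filter have degree i - E i = d - e) has a root u (degree E d >= 1). If u in CC contradiction with R_u(kappa0) <> 0. Else exp(q0 u) not in Z: disc with exp(a.l(t0)) = exp(q0 u), a.l(t0) = q0 u + 2 pi i m; k := -m k1: q.(l(t0) + 2 pi i k) = u; compact_regime (grad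 (lin q) = q) contradiction. So some c in CC has R_c = 0, i.e. the sum vanishes at all x - (q.x)p, i.e. for all x with q.x = 0.
-/

namespace XW

open Filter Topology MvPolynomial

private theorem P14b_eval_smul {n : ℕ} {K : MvPolynomial (Fin n) ℂ} {m : ℕ}
    (hK : K.IsHomogeneous m) (c : ℂ) (x : Fin n → ℂ) :
    eval (c • x) K = c ^ m * eval x K := by
  rw [eval_eq', eval_eq', Finset.mul_sum]
  refine Finset.sum_congr rfl fun d hd => ?_
  have h1 : ∑ i, d i = m := by
    have h2 := hK.degree_eq_sum_deg_support hd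
    rw [h2]
    symm
    exact Finset.sum_subset (Finset.subset_univ _) fun i _ hi => by simpa using hi
  have h3 : ∏ i, (c • x) i ^ (d i) = c ^ m * ∏ i, x i ^ (d i) := by
    rw [← h1, ← Finset.prod_pow_eq_pow_sum, ← Finset.prod_mul_distrib]
    refine Finset.prod_congr rfl fun i _ => ?_
    rw [Pi.smul_apply, smul_eq_mul, mul_pow]
  rw [h3]
  ring

private theorem P14b_root {s : Finset ℕ} (b : ℕ → ℂ) (e : ℕ → ℕ) (i₀ : ℕ) (hi₀ : i₀ ∈ s)
    (hb : b i₀ ≠ 0) (he : 0 < e i₀) (huniq : ∀ i ∈ s, e i = e i₀ → i = i₀) :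
    ∃ u : ℂ, ∑ i ∈ s, u ^ (e i) * b i = 0 := by
  classical
  let T : Polynomial ℂ := ∑ i ∈ s, Polynomial.C (b i) * Polynomial.X ^ (e i)
  have hcoeff : T.coeff (e i₀) = b i₀ := by
    rw [Polynomial.finsetSum_coeff, Finset.sum_eq_single i₀]
    · simp
    · intro i hi hne
      rw [Polynomial.coeff_C_mul_X_pow, if_neg]
      intro h
      exact hne (huniq i hi h.symm)
    · intro h
      exact absurd hi₀ h
  have hdeg : T.degree ≠ 0 := by
    intro h
    have h1 : T = Polynomial.C (T.coeff 0) := Polynomial.eq_C_of_degree_eq_zero h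
    rw [h1, Polynomial.coeff_C_of_ne_zero he.ne'] at hcoeff
    exact hb hcoeff.symm
  obtain ⟨u, hu⟩ := IsAlgClosed.exists_root T hdeg
  refine ⟨u, ?_⟩
  rw [Polynomial.IsRoot.def, Polynomial.eval_finsetSum] at hu
  rw [← hu]
  refine Finset.sum_congr rfl fun i _ => ?_
  rw [Polynomial.eval_mul, Polynomial.eval_C, Polynomial.eval_pow, Polynomial.eval_X]
  ring

/-- the substitution `x ↦ x - (q·x) p` -/
private noncomputable def P14b_sub {n : ℕ} (p : Fin n → ℤ) (q : Fin n → ℚ) :
    MvPolynomial (Fin n) ℂ →ₐ[ℂ] MvPolynomial (Fin n) ℂ :=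
  aeval fun j => X j - C (p j : ℂ) * lin q

private theorem P14b_eval_lin {n : ℕ} (q : Fin n → ℚ) (x : Fin n → ℂ) :
    eval x (lin q) = ∑ j, (q j : ℂ) * x j := by
  simp [lin]

private theorem P14b_eval_sub {n : ℕ} (p : Fin n → ℤ) (q : Fin n → ℚ) (x : Fin n → ℂ)
    (F : MvPolynomial (Fin n) ℂ) :
    eval x (P14b_sub p q F) = eval (fun j => x j - (p j : ℂ) * ∑ i, (q i : ℂ) * x i) F := by
  induction F using MvPolynomial.induction_on with
  | C a => simp [P14b_sub]
  | add F G hF hG => rw [map_add, map_add, map_add, hF, hG]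
  | mul_X F j hF =>
    rw [map_mul, map_mul, map_mul, hF]
    congr 1
    simp [P14b_sub, P14b_eval_lin]

private theorem P14b_dvd {n : ℕ} (p : Fin n → ℤ) (q : Fin n → ℚ) (F : MvPolynomial (Fin n) ℂ) :
    lin q ∣ F - P14b_sub p q F := by
  induction F using MvPolynomial.induction_on with
  | C a => simp [P14b_sub]
  | add F G hF hG =>
    rw [map_add]
    have : F + G - (P14b_sub p q F + P14b_sub p q G) =
        (F - P14b_sub p q F) + (G - P14b_sub p q G) := by ring
    rw [this]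
    exact dvd_add hF hG
  | mul_X F j hF =>
    rw [map_mul]
    have h1 : P14b_sub p q (X j) = X j - C (p j : ℂ) * lin q := by simp [P14b_sub]
    rw [h1]
    have h2 : F * X j - P14b_sub p q F * (X j - C (p j : ℂ) * lin q) =
        (F - P14b_sub p q F) * X j + P14b_sub p q F * C (p j : ℂ) * lin q := by ring
    rw [h2]
    exact dvd_add (Dvd.dvd.mul_right hF _) (Dvd.intro_left _ rfl)

private theorem P14b_countable {Z : Set ℂ} (hZ : Z.Countable) (b : ℂ) (hb : b ≠ 0) :
    {u : ℂ | Complex.exp (b * u) ∈ Z}.Countable := by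
  have h1 : {u : ℂ | Complex.exp (b * u) ∈ Z} ⊆
      ⋃ z ∈ Z, Set.range fun m : ℤ => (Complex.log z + m * (2 * Real.pi * Complex.I)) / b := by
    intro u hu
    simp only [Set.mem_iUnion]
    refine ⟨Complex.exp (b * u), hu, ?_⟩
    have h2 : Complex.exp (Complex.log (Complex.exp (b * u))) = Complex.exp (b * u) :=
      Complex.exp_log (Complex.exp_ne_zero _)
    obtain ⟨m, hm⟩ := Complex.exp_eq_exp_iff_exists_int.1 h2.symm
    refine ⟨m, ?_⟩
    simp only
    rw [← hm]
    field_simp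
  exact (hZ.biUnion fun z _ => Set.countable_range _).mono h1

theorem exists_c {n : ℕ} {W : Set (Fin n → ℂ)} {P : MvPolynomial (Fin n) ℂ}
    (hbad : Bad W P) (hW : HasCharts W) (p : Fin n → ℤ) (q : Fin n → ℚ)
    (hqp : ∑ j, q j * p j = 1) {d : ℕ} {E : ℕ → ℕ} {B : ℕ → MvPolynomial (Fin n) ℂ}
    (hdec : Dec P (lin q) d 1 E B) (htame : ∀ i ≤ d, B i ≠ 0 → i + E d ≤ d + E i) :
    ∃ c : ℂ, ∀ x : Fin n → ℂ, ∑ j, (q j : ℂ) * x j = 0 →
      ∑ i ∈ (Finset.range (d + 1)).filter (fun i => i + E d = d + E i),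
        c ^ (E i) * eval x (B i) = 0 := by
  classical
  by_contra hcon
  push Not at hcon
  set F : Finset ℕ := (Finset.range (d + 1)).filter (fun i => i + E d = d + E i) with hF
  have hq0 : q ≠ 0 := by
    rintro rfl
    simp at hqp
  have hqpc : ∑ j, (q j : ℂ) * (p j : ℂ) = 1 := by exact_mod_cast congrArg (Rat.cast : ℚ → ℂ) hqp
  obtain ⟨a, q₀, k₁, hq₀, haq, hak⟩ := primitive_vec q hq0
  have ha0 : a ≠ 0 := by
    rintro rfl
    simp at hak
  have hq₀c : (q₀ : ℂ) ≠ 0 := by exact_mod_cast hq₀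
  have haqc : ∀ j, (a j : ℂ) = (q₀ : ℂ) * (q j : ℂ) := by
    intro j
    have := haq j
    exact_mod_cast congrArg (Rat.cast : ℚ → ℂ) this
  obtain ⟨Z, hZ, hhit⟩ := hit_values hW a ha0
  have hCC := P14b_countable hZ (q₀ : ℂ) hq₀c
  set CC : Set ℂ := {u : ℂ | Complex.exp ((q₀ : ℂ) * u) ∈ Z} with hCCdef
  have hCCc : Countable CC := hCC.to_subtype
  let R : ℂ → MvPolynomial (Fin n) ℂ := fun c =>
    ∑ i ∈ F, C (c ^ (E i)) * P14b_sub p q (B i)
  have hReval : ∀ c x, eval x (R c) = ∑ i ∈ F, c ^ (E i) *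
      eval (fun j => x j - (p j : ℂ) * ∑ i, (q i : ℂ) * x i) (B i) := by
    intro c x
    simp only [R, map_sum, map_mul, eval_C, P14b_eval_sub]
  have hR0 : ∀ c, R c ≠ 0 := by
    intro c hc
    obtain ⟨x, hx, hx'⟩ := hcon c
    apply hx'
    have h1 := hReval c x
    rw [hc, map_zero, hx] at h1
    rw [h1]
    simp only [mul_zero, sub_zero]
  have hRB : P14b_sub p q (B d) ≠ 0 := by
    intro h
    have h1 := P14b_dvd p q (B d)
    rw [h, sub_zero] at h1
    rcases hdec.ndvd d le_rfl with h2 | h2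
    · exact hdec.top h2
    · exact h2 h1
  obtain ⟨κ₀, hκ₀⟩ := baire_poly (S := CC ⊕ Unit)
    (fun s => match s with
      | Sum.inl c => R c.1
      | Sum.inr _ => P14b_sub p q (B d))
    (by
      rintro (c | i)
      · exact hR0 c.1
      · exact hRB)
  have hκc : ∀ c ∈ CC, eval (rc κ₀) (R c) ≠ 0 := fun c hc => hκ₀ (Sum.inl ⟨c, hc⟩)
  have hκB : eval (rc κ₀) (P14b_sub p q (B d)) ≠ 0 := hκ₀ (Sum.inr ())
  set κ : Fin n → ℝ := fun j => κ₀ j - p j * ∑ i, (q i : ℝ) * κ₀ i with hκ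
  have hκeq : (fun j => rc κ₀ j - (p j : ℂ) * ∑ i, (q i : ℂ) * rc κ₀ i) = rc κ := by
    funext j
    simp only [rc, hκ]
    push_cast
    rfl
  have hqκ : ∑ j, (q j : ℂ) * rc κ j = 0 := by
    rw [← hκeq]
    simp only [mul_sub, Finset.sum_sub_distrib]
    have h1 : ∑ j, (q j : ℂ) * ((p j : ℂ) * ∑ i, (q i : ℂ) * rc κ₀ i) =
        (∑ j, (q j : ℂ) * (p j : ℂ)) * ∑ i, (q i : ℂ) * rc κ₀ i := by
      rw [Finset.sum_mul]
      refine Finset.sum_congr rfl fun j _ => ?_
      ring
    rw [h1, hqpc, one_mul, sub_self]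
  have hBκ : eval (rc κ) (B d) ≠ 0 := by
    rw [← hκeq, ← P14b_eval_sub]
    exact hκB
  have hHκ : eval (rc κ) (lin q) = 0 := by
    rw [P14b_eval_lin]
    exact hqκ
  obtain ⟨u, hu⟩ := P14b_root (s := F) (fun i => eval (rc κ) (B i)) E d (by simp [hF]) hBκ
    hdec.epos
    (by
      intro i hi hE
      have h3 := (Finset.mem_filter.1 hi).2
      omega)
  by_cases huC : u ∈ CC
  · apply hκc u huC
    rw [hReval, hκeq]
    exact hu
  · obtain ⟨t₀, r, ℓ, hdisc, hexp, hnc⟩ := hhit (Complex.exp ((q₀ : ℂ) * u)) huC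
    obtain ⟨m, hm⟩ := Complex.exp_eq_exp_iff_exists_int.1 hexp
    have hsumq : ∀ t, ∑ j, (a j : ℂ) * ℓ t j = (q₀ : ℂ) * ∑ j, ℓ t j * (q j : ℂ) := by
      intro t
      rw [Finset.mul_sum]
      refine Finset.sum_congr rfl fun j _ => ?_
      rw [haqc j]
      ring
    have hpd : ∀ (x : Fin n → ℂ) j, eval x (pderiv j (lin q)) = (q j : ℂ) := by
      intro x j
      rw [lin, map_sum, map_sum, Finset.sum_eq_single j]
      · simp
      · intro i _ hij
        simp [pderiv_X, hij]
      · simp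
    have hfinal := compact_regime hbad hdec htame κ hHκ hBκ hdisc (fun j => -m * k₁ j) (by
      intro h1
      apply hnc
      filter_upwards [h1] with t ht
      simp only [hpd] at ht
      rw [hsumq, hsumq, ht])
    apply hfinal
    have h2 : ∑ j, (ℓ t₀ j + 2 * Real.pi * Complex.I * ((-m * k₁ j : ℤ) : ℂ)) *
        eval ((2 * Real.pi * Complex.I : ℂ) • rc κ) (pderiv j (lin q)) = u := by
      have h3 : (q₀ : ℂ) * ∑ j, (ℓ t₀ j + 2 * Real.pi * Complex.I * ((-m * k₁ j : ℤ) : ℂ)) *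
          eval ((2 * Real.pi * Complex.I : ℂ) • rc κ) (pderiv j (lin q)) = (q₀ : ℂ) * u := by
        have h4 : ∀ j, (q₀ : ℂ) * ((ℓ t₀ j + 2 * Real.pi * Complex.I * ((-m * k₁ j : ℤ) : ℂ)) *
            eval ((2 * Real.pi * Complex.I : ℂ) • rc κ) (pderiv j (lin q))) =
            (a j : ℂ) * ℓ t₀ j - (m : ℂ) * (2 * Real.pi * Complex.I) * ((a j * k₁ j : ℤ) : ℂ) := by
          intro j
          rw [hpd]
          push_cast
          rw [haqc j]
          ring
        rw [Finset.mul_sum, Finset.sum_congr rfl fun j _ => h4 j, Finset.sum_sub_distrib, hm,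
          ← Finset.mul_sum, ← Int.cast_sum, hak]
        push_cast
        ring
      exact mul_left_cancel₀ hq₀c h3
    calc ∑ i ∈ F, (∑ j, (ℓ t₀ j + 2 * Real.pi * Complex.I * ((-m * k₁ j : ℤ) : ℂ)) *
          eval ((2 * Real.pi * Complex.I : ℂ) • rc κ) (pderiv j (lin q))) ^ (E i) *
          eval ((2 * Real.pi * Complex.I : ℂ) • rc κ) (B i)
        = ∑ i ∈ F, (2 * Real.pi * Complex.I : ℂ) ^ (d - E d) * (u ^ (E i) * eval (rc κ) (B i)) := by
          refine Finset.sum_congr rfl fun i hi => ?_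
          rw [h2]
          by_cases hBi : B i = 0
          · rw [hBi]; simp
          · have hi1 := Finset.mem_filter.1 hi
            have hid : i ≤ d := by
              have := Finset.mem_range.1 hi1.1
              omega
            obtain ⟨hle, hhom⟩ := hdec.deg i hid hBi
            obtain ⟨hle', -⟩ := hdec.deg d le_rfl hdec.top
            rw [P14b_eval_smul hhom]
            have h5 : i - E i * 1 = d - E d := by
              have := hi1.2
              omega
            rw [h5]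
            ring
      _ = 0 := by rw [← Finset.mul_sum, hu, mul_zero]

end XW
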