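import Pool.Agent.Lib.MP_228259_lc.Defs

/-!
P15: see /team-store/XW_blueprint.md
P15 final_algebra. Let A_i be the coefficients of v^i in P((c + v) p + x - (q.x) p) in C[x][v]. For x: x = (c + v) p + (x - (q.x) p) with v = q.x - c. Invariance clear. A_0 = P(c p + x - (q.x)p): if zero then P vanishes on {q.x = c} so (lin q - c) | P (linear change of variables/ polynomial division by lin q - c: P(x) - P(x - (q.x - c) p) is divisible by q.x - c). Degrees: P = sum_i (q.x)^(E i) B_i, so sum_i A_i(x) v^i = sum_i (c+v)^(E i) B_i((c+v) p + x - (q.x)p); B_i has degree i - E i <= d - e; so all A_i have degree <= d - e and the degree d-e part of sum_i A_i v^i is sum_{filter} (c+v)^(E i) B_i(x - (q.x) p), which vanishes at v = 0 by hc (homogeneous part of A_0), so deg A_0 < d - e (if d = e then A_0 = 0 contradiction), and is a nonzero polynomial in v (leading term v^(E d) B_d(x - (q.x)p)), so some A_i, i >= 1, has degree >= d - e.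
-/

namespace XW

open Filter Topology MvPolynomial

section P15
variable {n : ℕ}

private def P15_LtP (k : ℕ) (f : MvPolynomial (Fin n) ℂ) : Prop :=
  ∀ u ∈ f.support, Finsupp.degree u < k

private theorem P15_LtP.zero (k : ℕ) : P15_LtP k (0 : MvPolynomial (Fin n) ℂ) := by
  intro u hu
  simp at hu

private theorem P15_LtP.add {k : ℕ} {f g : MvPolynomial (Fin n) ℂ} (hf : P15_LtP k f)
    (hg : P15_LtP k g) : P15_LtP k (f + g) := by
  classical
  intro u hu
  rcases Finset.mem_union.1 (support_add hu) with h | h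
  · exact hf u h
  · exact hg u h

private theorem P15_LtP.sum {ι : Type*} {k : ℕ} {s : Finset ι}
    {f : ι → MvPolynomial (Fin n) ℂ} (hf : ∀ i ∈ s, P15_LtP k (f i)) :
    P15_LtP k (∑ i ∈ s, f i) := by
  classical
  induction s using Finset.induction_on with
  | empty => simpa using P15_LtP.zero k
  | insert a s ha ih =>
    rw [Finset.sum_insert ha]
    exact (hf a (Finset.mem_insert_self a s)).add
      (ih fun i hi => hf i (Finset.mem_insert_of_mem hi))

private theorem P15_LtP.mono {k k' : ℕ} (h : k ≤ k') {f : MvPolynomial (Fin n) ℂ}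
    (hf : P15_LtP k f) : P15_LtP k' f := fun u hu => (hf u hu).trans_le h

private theorem P15_LtP.mul {k k' : ℕ} {f g : MvPolynomial (Fin n) ℂ} (hf : P15_LtP k f)
    (hg : P15_LtP (k' + 1) g) : P15_LtP (k + k') (f * g) := by
  classical
  intro u hu
  obtain ⟨u₁, hu₁, u₂, hu₂, rfl⟩ := Finset.mem_add.1 (support_mul f g hu)
  rw [map_add]
  have h1 := hf u₁ hu₁
  have h2 := hg u₂ hu₂
  omega

private theorem P15_LtP.of_hom {k : ℕ} {f : MvPolynomial (Fin n) ℂ} (hf : f.IsHomogeneous k) :
    P15_LtP (k + 1) f := by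
  intro u hu
  by_contra h
  have h1 : Finsupp.degree u ≠ k := by omega
  exact (mem_support_iff.1 hu) (hf.coeff_eq_zero h1)

private def P15_Lt (k : ℕ) (G : Polynomial (MvPolynomial (Fin n) ℂ)) : Prop :=
  ∀ l, P15_LtP k (G.coeff l)

private theorem P15_Lt.zero (k : ℕ) : P15_Lt k (0 : Polynomial (MvPolynomial (Fin n) ℂ)) := by
  intro l
  rw [Polynomial.coeff_zero]
  exact P15_LtP.zero k

private theorem P15_Lt.add {k : ℕ} {f g : Polynomial (MvPolynomial (Fin n) ℂ)}
    (hf : P15_Lt k f) (hg : P15_Lt k g) : P15_Lt k (f + g) := by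
  intro l
  rw [Polynomial.coeff_add]
  exact (hf l).add (hg l)

private theorem P15_Lt.sum {ι : Type*} {k : ℕ} {s : Finset ι}
    {f : ι → Polynomial (MvPolynomial (Fin n) ℂ)} (hf : ∀ i ∈ s, P15_Lt k (f i)) :
    P15_Lt k (∑ i ∈ s, f i) := by
  intro l
  rw [Polynomial.finsetSum_coeff]
  exact P15_LtP.sum fun i hi => hf i hi l

private theorem P15_Lt.mono {k k' : ℕ} (h : k ≤ k')
    {f : Polynomial (MvPolynomial (Fin n) ℂ)} (hf : P15_Lt k f) : P15_Lt k' f :=
  fun l => (hf l).mono h

private theorem P15_Lt.mul {k k' : ℕ} {f g : Polynomial (MvPolynomial (Fin n) ℂ)}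
    (hf : P15_Lt k f) (hg : P15_Lt (k' + 1) g) : P15_Lt (k + k') (f * g) := by
  intro l
  rw [Polynomial.coeff_mul]
  exact P15_LtP.sum fun i _ => (hf i.1).mul (hg i.2)

private theorem P15_Lt.C {k : ℕ} {f : MvPolynomial (Fin n) ℂ} (hf : P15_LtP k f) :
    P15_Lt k (Polynomial.C f) := by
  intro l
  rw [Polynomial.coeff_C]
  split_ifs
  · exact hf
  · exact P15_LtP.zero k

private theorem P15_Lt.X : P15_Lt 1 (Polynomial.X : Polynomial (MvPolynomial (Fin n) ℂ)) := by
  intro l
  rw [Polynomial.coeff_X]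
  split_ifs
  · exact P15_LtP.of_hom (isHomogeneous_one _ _)
  · exact P15_LtP.zero 1

private theorem P15_LtP_C (a : ℂ) : P15_LtP 1 (C a : MvPolynomial (Fin n) ℂ) :=
  P15_LtP.of_hom (isHomogeneous_C _ _)

private theorem P15_Lt.pow {f : Polynomial (MvPolynomial (Fin n) ℂ)} (hf : P15_Lt 1 f) (m : ℕ) :
    P15_Lt 1 (f ^ m) := by
  induction m with
  | zero =>
    rw [pow_zero, ← Polynomial.C_1]
    exact P15_Lt.C (by simpa using P15_LtP_C (n := n) 1)
  | succ m ih =>
    rw [pow_succ]
    exact ih.mul (k' := 0) hf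

private noncomputable def P15_lv (c : ℂ) : Polynomial (MvPolynomial (Fin n) ℂ) :=
  Polynomial.X + Polynomial.C (C c)

private theorem P15_Lt_lv (c : ℂ) : P15_Lt 1 (P15_lv (n := n) c) :=
  P15_Lt.X.add (P15_Lt.C (P15_LtP_C c))

private noncomputable def P15_sub (p : Fin n → ℤ) (q : Fin n → ℚ) :
    MvPolynomial (Fin n) ℂ →ₐ[ℂ] MvPolynomial (Fin n) ℂ :=
  aeval fun j => X j - C (p j : ℂ) * lin q

private noncomputable def P15_Φ (p : Fin n → ℤ) (q : Fin n → ℚ) (c : ℂ) :
    MvPolynomial (Fin n) ℂ →ₐ[ℂ] Polynomial (MvPolynomial (Fin n) ℂ) :=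
  aeval fun j => Polynomial.C (X j - C (p j : ℂ) * lin q) +
    Polynomial.C (C (p j : ℂ)) * P15_lv c

private theorem P15_lin_hom (q : Fin n → ℚ) : (lin q).IsHomogeneous 1 := by
  apply IsHomogeneous.sum
  intro j _
  exact isHomogeneous_C_mul_X _ _

private theorem P15_s_hom (p : Fin n → ℤ) (q : Fin n → ℚ) (j : Fin n) :
    (X j - C (p j : ℂ) * lin q : MvPolynomial (Fin n) ℂ).IsHomogeneous 1 :=
  (isHomogeneous_X _ _).sub ((P15_lin_hom q).C_mul _)

/-- the bound for one polynomial -/
private def P15_P (p : Fin n → ℤ) (q : Fin n → ℚ) (c : ℂ) (k : ℕ)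
    (F : MvPolynomial (Fin n) ℂ) : Prop :=
  P15_Lt (k + 1) (P15_Φ p q c F) ∧ P15_Lt k (P15_Φ p q c F - Polynomial.C (P15_sub p q F)) ∧
    P15_LtP (k + 1) (P15_sub p q F)

private theorem P15_P_C (p : Fin n → ℤ) (q : Fin n → ℚ) (c : ℂ) (a : ℂ) :
    P15_P p q c 0 (C a) := by
  have h1 : P15_Φ p q c (C a) = Polynomial.C (C a) := by
    rw [P15_Φ, aeval_C]
    rfl
  have h2 : P15_sub p q (C a) = C a := by
    rw [P15_sub, aeval_C]
    rfl
  refine ⟨?_, ?_, ?_⟩
  · rw [h1]
    exact P15_Lt.C (P15_LtP_C a)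
  · rw [h1, h2, sub_self]
    exact P15_Lt.zero 0
  · rw [h2]
    exact P15_LtP_C a

private theorem P15_P_X (p : Fin n → ℤ) (q : Fin n → ℚ) (c : ℂ) (j : Fin n) :
    P15_P p q c 1 (X j) := by
  have h1 : P15_Φ p q c (X j) = Polynomial.C (X j - C (p j : ℂ) * lin q) +
    Polynomial.C (C (p j : ℂ)) * P15_lv c := by rw [P15_Φ, aeval_X]
  have h2 : P15_sub p q (X j) = X j - C (p j : ℂ) * lin q := by rw [P15_sub, aeval_X]
  have h3 : P15_Lt 1 (Polynomial.C (C (p j : ℂ)) * P15_lv (n := n) c) :=
    (P15_Lt.C (P15_LtP_C _)).mul (k' := 0) (P15_Lt_lv c)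
  refine ⟨?_, ?_, ?_⟩
  · rw [h1]
    exact (P15_Lt.C (P15_LtP.of_hom (P15_s_hom p q j))).add (h3.mono (by omega))
  · rw [h1, h2, add_sub_cancel_left]
    exact h3
  · rw [h2]
    exact P15_LtP.of_hom (P15_s_hom p q j)

private theorem P15_P_mul {p : Fin n → ℤ} {q : Fin n → ℚ} {c : ℂ} {k k' : ℕ}
    {F F' : MvPolynomial (Fin n) ℂ} (h : P15_P p q c k F) (h' : P15_P p q c k' F') :
    P15_P p q c (k + k') (F * F') := by
  refine ⟨?_, ?_, ?_⟩
  · rw [map_mul]
    have := h.1.mul h'.1
    exact this.mono (by omega)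
  · rw [map_mul, map_mul, Polynomial.C_mul]
    have h1 : P15_Φ p q c F * P15_Φ p q c F' -
        Polynomial.C (P15_sub p q F) * Polynomial.C (P15_sub p q F') =
        (P15_Φ p q c F - Polynomial.C (P15_sub p q F)) * P15_Φ p q c F' +
        (P15_Φ p q c F' - Polynomial.C (P15_sub p q F')) * Polynomial.C (P15_sub p q F) := by
      ring
    rw [h1]
    apply P15_Lt.add
    · exact h.2.1.mul h'.1
    · have := h'.2.1.mul (P15_Lt.C h.2.2)
      rwa [add_comm] at this
  · rw [map_mul]
    have := h.2.2.mul h'.2.2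
    exact this.mono (by omega)

private theorem P15_P_add {p : Fin n → ℤ} {q : Fin n → ℚ} {c : ℂ} {k : ℕ}
    {F F' : MvPolynomial (Fin n) ℂ} (h : P15_P p q c k F) (h' : P15_P p q c k F') :
    P15_P p q c k (F + F') := by
  refine ⟨?_, ?_, ?_⟩
  · rw [map_add]
    exact h.1.add h'.1
  · rw [map_add, map_add, Polynomial.C_add, add_sub_add_comm]
    exact h.2.1.add h'.2.1
  · rw [map_add]
    exact h.2.2.add h'.2.2

private theorem P15_P_zero (p : Fin n → ℤ) (q : Fin n → ℚ) (c : ℂ) (k : ℕ) :
    P15_P p q c k 0 := by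
  refine ⟨?_, ?_, ?_⟩
  · rw [map_zero]; exact P15_Lt.zero _
  · rw [map_zero, map_zero, Polynomial.C_0, sub_zero]; exact P15_Lt.zero _
  · rw [map_zero]; exact P15_LtP.zero _

private theorem P15_P_pow (p : Fin n → ℤ) (q : Fin n → ℚ) (c : ℂ) (j : Fin n) (m : ℕ) :
    P15_P p q c m (X j ^ m) := by
  induction m with
  | zero => simpa using P15_P_C p q c 1
  | succ m ih =>
    rw [pow_succ]
    exact P15_P_mul ih (P15_P_X p q c j)

private theorem P15_P_prod (p : Fin n → ℤ) (q : Fin n → ℚ) (c : ℂ) (u : Fin n → ℕ)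
    (s : Finset (Fin n)) : P15_P p q c (∑ j ∈ s, u j) (∏ j ∈ s, X j ^ (u j)) := by
  classical
  induction s using Finset.induction_on with
  | empty => simpa using P15_P_C p q c 1
  | insert a s ha ih =>
    rw [Finset.sum_insert ha, Finset.prod_insert ha]
    exact P15_P_mul (P15_P_pow p q c a (u a)) ih

private theorem P15_P_hom (p : Fin n → ℤ) (q : Fin n → ℚ) (c : ℂ) {k : ℕ}
    {F : MvPolynomial (Fin n) ℂ} (hF : F.IsHomogeneous k) : P15_P p q c k F := by
  classical
  rw [F.as_sum]
  have h1 : ∀ s : Finset (Fin n →₀ ℕ), s ⊆ F.support →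
      P15_P p q c k (∑ u ∈ s, monomial u (coeff u F)) := by
    intro s
    induction s using Finset.induction_on with
    | empty => intro _; simpa using P15_P_zero p q c k
    | insert a s ha ih =>
      intro hs
      rw [Finset.sum_insert ha]
      apply P15_P_add _ (ih fun x hx => hs (Finset.mem_insert_of_mem hx))
      have h2 : a ∈ F.support := hs (Finset.mem_insert_self _ _)
      have h3 : Finsupp.degree a = k := by
        by_contra h
        exact (mem_support_iff.1 h2) (hF.coeff_eq_zero h)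
      have h4 : ∑ j, a j = k := by
        rw [← h3, Finsupp.degree_eq_sum]
      have h5 : (monomial a (coeff a F) : MvPolynomial (Fin n) ℂ) =
          C (coeff a F) * ∏ j, X j ^ (a j) := by
        rw [monomial_eq, Finsupp.prod_fintype]
        intro i
        simp
      rw [h5, ← h4]
      have h6 := P15_P_mul (P15_P_C p q c (coeff a F)) (P15_P_prod p q c a Finset.univ)
      rwa [zero_add] at h6
  exact h1 _ (Finset.Subset.refl _)

private theorem P15_sub_hom (p : Fin n → ℤ) (q : Fin n → ℚ) {k : ℕ}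
    {F : MvPolynomial (Fin n) ℂ} (hF : F.IsHomogeneous k) :
    (P15_sub p q F).IsHomogeneous k := by
  have h1 := hF.aeval (fun j => X j - C (p j : ℂ) * lin q) (fun j => P15_s_hom p q j)
  rwa [one_mul] at h1

private theorem P15_eval_lin (q : Fin n → ℚ) (x : Fin n → ℂ) :
    eval x (lin q) = ∑ j, (q j : ℂ) * x j := by
  simp [lin]

private theorem P15_eval_sub (p : Fin n → ℤ) (q : Fin n → ℚ) (x : Fin n → ℂ)
    (F : MvPolynomial (Fin n) ℂ) :
    eval x (P15_sub p q F) = eval (fun j => x j - (p j : ℂ) * ∑ i, (q i : ℂ) * x i) F := by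
  induction F using MvPolynomial.induction_on with
  | C a => simp [P15_sub]
  | add F G hF hG => rw [map_add, map_add, map_add, hF, hG]
  | mul_X F j hF =>
    rw [map_mul, map_mul, map_mul, hF]
    congr 1
    simp [P15_sub, P15_eval_lin]

private theorem P15_dvd (p : Fin n → ℤ) (q : Fin n → ℚ) (F : MvPolynomial (Fin n) ℂ) :
    lin q ∣ F - P15_sub p q F := by
  induction F using MvPolynomial.induction_on with
  | C a => simp [P15_sub]
  | add F G hF hG =>
    rw [map_add]
    have : F + G - (P15_sub p q F + P15_sub p q G) =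
        (F - P15_sub p q F) + (G - P15_sub p q G) := by ring
    rw [this]
    exact dvd_add hF hG
  | mul_X F j hF =>
    rw [map_mul]
    have h1 : P15_sub p q (X j) = X j - C (p j : ℂ) * lin q := by simp [P15_sub]
    rw [h1]
    have h2 : F * X j - P15_sub p q F * (X j - C (p j : ℂ) * lin q) =
        (F - P15_sub p q F) * X j + P15_sub p q F * C (p j : ℂ) * lin q := by ring
    rw [h2]
    exact dvd_add (Dvd.dvd.mul_right hF _) (Dvd.intro_left _ rfl)

/-- the constant coefficient -/
private theorem P15_dvd_zero (p : Fin n → ℤ) (q : Fin n → ℚ) (c : ℂ)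
    (F : MvPolynomial (Fin n) ℂ) :
    (lin q - C c) ∣ F - (P15_Φ p q c F).coeff 0 := by
  induction F using MvPolynomial.induction_on with
  | C a =>
    have h1 : P15_Φ p q c (C a) = Polynomial.C (C a) := by
      rw [P15_Φ, aeval_C]
      rfl
    rw [h1, Polynomial.coeff_C_zero, sub_self]
    exact dvd_zero _
  | add F G hF hG =>
    rw [map_add, Polynomial.coeff_add]
    have : F + G - ((P15_Φ p q c F).coeff 0 + (P15_Φ p q c G).coeff 0) =
        (F - (P15_Φ p q c F).coeff 0) + (G - (P15_Φ p q c G).coeff 0) := by ring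
    rw [this]
    exact dvd_add hF hG
  | mul_X F j hF =>
    rw [map_mul, Polynomial.mul_coeff_zero]
    have h1 : (P15_Φ p q c (X j)).coeff 0 = X j - C (p j : ℂ) * (lin q - C c) := by
      rw [P15_Φ, aeval_X, P15_lv, Polynomial.coeff_add, Polynomial.coeff_C_zero,
        Polynomial.coeff_C_mul, Polynomial.coeff_add, Polynomial.coeff_X_zero,
        Polynomial.coeff_C_zero]
      ring
    rw [h1]
    have h2 : F * X j - (P15_Φ p q c F).coeff 0 * (X j - C (p j : ℂ) * (lin q - C c)) =
        (F - (P15_Φ p q c F).coeff 0) * X j +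
          (P15_Φ p q c F).coeff 0 * C (p j : ℂ) * (lin q - C c) := by ring
    rw [h2]
    exact dvd_add (Dvd.dvd.mul_right hF _) (Dvd.intro_left _ rfl)

private theorem P15_Φ_lin (p : Fin n → ℤ) (q : Fin n → ℚ) (c : ℂ)
    (hqp : ∑ j, (q j : ℂ) * (p j : ℂ) = 1) : P15_Φ p q c (lin q) = P15_lv c := by
  have h1 : P15_Φ p q c (lin q) = ∑ j, Polynomial.C (C (q j : ℂ)) *
      (Polynomial.C (X j - C (p j : ℂ) * lin q) + Polynomial.C (C (p j : ℂ)) * P15_lv c) := by
    conv_lhs => rw [lin]
    rw [map_sum]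
    refine Finset.sum_congr rfl fun j _ => ?_
    rw [map_mul]
    congr 1
    · rw [P15_Φ, aeval_C]
      rfl
    · rw [P15_Φ, aeval_X]
  rw [h1]
  simp only [mul_add, Finset.sum_add_distrib]
  have h2 : ∑ j, (Polynomial.C (C (q j : ℂ)) *
      Polynomial.C (X j - C (p j : ℂ) * lin q) : Polynomial (MvPolynomial (Fin n) ℂ)) = 0 := by
    simp only [← Polynomial.C_mul]
    rw [← map_sum]
    have h3 : ∑ j, (C (q j : ℂ) * (X j - C (p j : ℂ) * lin q) : MvPolynomial (Fin n) ℂ) = 0 := by
      simp only [mul_sub, Finset.sum_sub_distrib]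
      have h4 : ∑ j, (C (q j : ℂ) * (C (p j : ℂ) * lin q) : MvPolynomial (Fin n) ℂ) =
          C (∑ j, (q j : ℂ) * (p j : ℂ)) * lin q := by
        rw [map_sum, Finset.sum_mul]
        refine Finset.sum_congr rfl fun j _ => ?_
        rw [C_mul, mul_assoc]
      rw [h4, hqp, C_1, one_mul]
      exact sub_self _
    rw [h3, Polynomial.C_0]
  have h5 : ∑ j, (Polynomial.C (C (q j : ℂ)) * (Polynomial.C (C (p j : ℂ)) * P15_lv c) :
      Polynomial (MvPolynomial (Fin n) ℂ)) = P15_lv c := by
    have h6 : ∀ j, (Polynomial.C (C (q j : ℂ)) * (Polynomial.C (C (p j : ℂ)) * P15_lv c) :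
        Polynomial (MvPolynomial (Fin n) ℂ)) =
        Polynomial.C (C ((q j : ℂ) * (p j : ℂ))) * P15_lv c := by
      intro j
      rw [C_mul, Polynomial.C_mul, mul_assoc]
    rw [Finset.sum_congr rfl fun j _ => h6 j, ← Finset.sum_mul, ← map_sum, ← map_sum, hqp,
      C_1, Polynomial.C_1, one_mul]
  rw [h2, h5, zero_add]

/-- evaluation -/
private theorem P15_eval (p : Fin n → ℤ) (q : Fin n → ℚ) (c : ℂ) (x : Fin n → ℂ)
    (F : MvPolynomial (Fin n) ℂ) :
    eval x F = ((P15_Φ p q c F).map (eval x)).eval (∑ j, (q j : ℂ) * x j - c) := by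
  induction F using MvPolynomial.induction_on with
  | C a =>
    have h1 : P15_Φ p q c (C a) = Polynomial.C (C a) := by
      rw [P15_Φ, aeval_C]
      rfl
    rw [h1]
    simp
  | add F G hF hG =>
    rw [map_add, map_add, Polynomial.map_add, Polynomial.eval_add, hF, hG]
  | mul_X F j hF =>
    rw [map_mul, map_mul, Polynomial.map_mul, Polynomial.eval_mul, ← hF]
    congr 1
    rw [P15_Φ, aeval_X, P15_lv]
    simp only [Polynomial.map_add, Polynomial.map_mul, Polynomial.map_C, Polynomial.map_X,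
      Polynomial.eval_add, Polynomial.eval_mul, Polynomial.eval_C, Polynomial.eval_X]
    simp only [map_sub, map_mul, eval_X, eval_C, P15_eval_lin]
    ring

private theorem P15_inv (p : Fin n → ℤ) (q : Fin n → ℚ) (c : ℂ)
    (hqp : ∑ j, (q j : ℂ) * (p j : ℂ) = 1) (x : Fin n → ℂ) (t : ℂ)
    (F : MvPolynomial (Fin n) ℂ) :
    (P15_Φ p q c F).map (eval (x + t • zc p)) = (P15_Φ p q c F).map (eval x) := by
  induction F using MvPolynomial.induction_on with
  | C a =>
    have h1 : P15_Φ p q c (C a) = Polynomial.C (C a) := by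
      rw [P15_Φ, aeval_C]
      rfl
    rw [h1]
    simp
  | add F G hF hG =>
    rw [map_add, Polynomial.map_add, Polynomial.map_add, hF, hG]
  | mul_X F j hF =>
    rw [map_mul, Polynomial.map_mul, Polynomial.map_mul, hF]
    congr 1
    have h2 : eval (x + t • zc p) (X j - C (p j : ℂ) * lin q) =
        eval x (X j - C (p j : ℂ) * lin q) := by
      simp only [map_sub, map_mul, eval_X, eval_C, P15_eval_lin, Pi.add_apply, Pi.smul_apply,
        smul_eq_mul, zc]
      have h3 : ∑ i, (q i : ℂ) * (x i + t * (p i : ℂ)) =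
          ∑ i, (q i : ℂ) * x i + t * ∑ i, (q i : ℂ) * (p i : ℂ) := by
        rw [Finset.mul_sum, ← Finset.sum_add_distrib]
        refine Finset.sum_congr rfl fun i _ => ?_
        ring
      rw [h3, hqp]
      ring
    rw [P15_Φ, aeval_X, P15_lv]
    simp only [Polynomial.map_add, Polynomial.map_mul, Polynomial.map_C, Polynomial.map_X,
      eval_C, h2]

end P15

theorem final_algebra {n : ℕ} {P : MvPolynomial (Fin n) ℂ} (p : Fin n → ℤ) (q : Fin n → ℚ)
    (hqp : ∑ j, q j * p j = 1) {d : ℕ} {E : ℕ → ℕ} {B : ℕ → MvPolynomial (Fin n) ℂ}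
    (hdec : Dec P (lin q) d 1 E B) (htame : ∀ i ≤ d, B i ≠ 0 → i + E d ≤ d + E i)
    (c : ℂ) (hc : ∀ x : Fin n → ℂ, ∑ j, (q j : ℂ) * x j = 0 →
      ∑ i ∈ (Finset.range (d + 1)).filter (fun i => i + E d = d + E i),
        c ^ (E i) * eval x (B i) = 0)
    (hnd : ¬ (lin q - C c) ∣ P) :
    ∃ (D : ℕ) (A : ℕ → MvPolynomial (Fin n) ℂ),
      (∀ x, eval x P = ∑ i ∈ Finset.range (D + 1),
        eval x (A i) * (∑ j, (q j : ℂ) * x j - c) ^ i) ∧
      (∀ i x (t : ℂ), eval (x + t • zc p) (A i) = eval x (A i)) ∧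
      A 0 ≠ 0 ∧ ∃ i, 1 ≤ i ∧ i ≤ D ∧ (A 0).totalDegree < (A i).totalDegree := by
  classical
  have hqpc : ∑ j, (q j : ℂ) * (p j : ℂ) = 1 := by
    exact_mod_cast congrArg (Rat.cast : ℚ → ℂ) hqp
  set F : Finset ℕ := (Finset.range (d + 1)).filter (fun i => i + E d = d + E i) with hF
  set Φ := P15_Φ p q c with hΦ
  set m : ℕ := d - E d with hm
  set G : Polynomial (MvPolynomial (Fin n) ℂ) :=
    ∑ i ∈ F, (P15_lv c) ^ (E i) * Polynomial.C (P15_sub p q (B i)) with hG
  have hEd : E d ≤ d := by
    have := (hdec.deg d le_rfl hdec.top).1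
    omega
  have hdF : d ∈ F := by simp [hF]
  -- the difference
  have hdiff : P15_Lt m (Φ P - G) := by
    have h1 : Φ P = ∑ i ∈ Finset.range (d + 1), (P15_lv c) ^ (E i) * Φ (B i) := by
      conv_lhs => rw [hdec.sum]
      rw [map_sum]
      refine Finset.sum_congr rfl fun i _ => ?_
      rw [map_mul, map_pow, hΦ, P15_Φ_lin p q c hqpc]
    have h2 : Φ P - G = ∑ i ∈ F, (P15_lv c) ^ (E i) *
          (Φ (B i) - Polynomial.C (P15_sub p q (B i))) +
        ∑ i ∈ (Finset.range (d + 1)).filter (fun i => ¬ i + E d = d + E i),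
          (P15_lv c) ^ (E i) * Φ (B i) := by
      rw [h1, ← Finset.sum_filter_add_sum_filter_not (Finset.range (d + 1))
        (fun i => i + E d = d + E i), hG, ← hF]
      simp only [mul_sub, Finset.sum_sub_distrib]
      ring
    rw [h2]
    apply P15_Lt.add
    · apply P15_Lt.sum
      intro i hi
      have hi1 := Finset.mem_filter.1 hi
      have hid : i ≤ d := by
        have := Finset.mem_range.1 hi1.1
        omega
      by_cases hBi : B i = 0
      · rw [hBi, map_zero, map_zero, Polynomial.C_0, sub_zero, mul_zero]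
        exact P15_Lt.zero _
      · obtain ⟨hle, hhom⟩ := hdec.deg i hid hBi
        have h3 : P15_Lt m (Φ (B i) - Polynomial.C (P15_sub p q (B i))) := by
          have h4 := (P15_P_hom p q c hhom).2.1
          have h5 : i - E i * 1 = m := by
            have := hi1.2
            omega
          rwa [h5] at h4
        have h6 := h3.mul (k' := 0) ((P15_Lt_lv (n := n) c).pow (E i))
        rw [mul_comm]
        exact h6
    · apply P15_Lt.sum
      intro i hi
      have hi1 := Finset.mem_filter.1 hi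
      have hid : i ≤ d := by
        have := Finset.mem_range.1 hi1.1
        omega
      by_cases hBi : B i = 0
      · rw [hBi, map_zero, mul_zero]
        exact P15_Lt.zero _
      · obtain ⟨hle, hhom⟩ := hdec.deg i hid hBi
        have h4 := (P15_P_hom p q c hhom).1
        have h6 := h4.mul (k' := 0) ((P15_Lt_lv (n := n) c).pow (E i))
        rw [mul_comm]
        apply h6.mono
        have h7 := htame i hid hBi
        have h8 := hi1.2
        omega
  -- homogeneity of the coefficients of G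
  have hGhom : ∀ l, (G.coeff l).IsHomogeneous m := by
    intro l
    rw [hG, Polynomial.finsetSum_coeff]
    apply IsHomogeneous.sum
    intro i hi
    have hi1 := Finset.mem_filter.1 hi
    have hid : i ≤ d := by
      have := Finset.mem_range.1 hi1.1
      omega
    rw [Polynomial.coeff_mul_C]
    by_cases hBi : B i = 0
    · rw [hBi, map_zero, mul_zero]
      exact isHomogeneous_zero _ _ _
    · obtain ⟨hle, hhom⟩ := hdec.deg i hid hBi
      have h5 : i - E i * 1 = m := by
        have := hi1.2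
        omega
      have h6 := P15_sub_hom p q hhom
      rw [h5] at h6
      have h7 : ∃ b : ℂ, ((P15_lv (n := n) c) ^ (E i)).coeff l = C b := by
        rw [P15_lv, Polynomial.coeff_X_add_C_pow]
        refine ⟨c ^ (E i - l) * ((E i).choose l : ℂ), ?_⟩
        rw [C_mul, C_pow, map_natCast]
      obtain ⟨b, hb⟩ := h7
      rw [hb]
      exact h6.C_mul b
  -- G is not zero
  have hBd : P15_sub p q (B d) ≠ 0 := by
    intro h
    have h1 := P15_dvd p q (B d)
    rw [h, sub_zero] at h1
    rcases hdec.ndvd d le_rfl with h2 | h2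
    · exact hdec.top h2
    · exact h2 h1
  have hG0 : G ≠ 0 := by
    intro h
    have h1 : G.comp (Polynomial.X - Polynomial.C (C c)) =
        ∑ i ∈ F, Polynomial.X ^ (E i) * Polynomial.C (P15_sub p q (B i)) := by
      rw [hG, Polynomial.sum_comp]
      refine Finset.sum_congr rfl fun i _ => ?_
      rw [Polynomial.mul_comp, Polynomial.pow_comp, P15_lv, Polynomial.add_comp,
        Polynomial.X_comp, Polynomial.C_comp, Polynomial.C_comp, sub_add_cancel]
    rw [h, Polynomial.zero_comp] at h1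
    have h2 := congrArg (fun Q => Polynomial.coeff Q (E d)) h1
    simp only [Polynomial.coeff_zero, Polynomial.finsetSum_coeff, Polynomial.coeff_mul_C,
      Polynomial.coeff_X_pow] at h2
    rw [Finset.sum_eq_single d] at h2
    · rw [if_pos rfl, one_mul] at h2
      exact hBd h2.symm
    · intro i hi hne
      have hi1 := (Finset.mem_filter.1 hi).2
      rw [if_neg, zero_mul]
      intro hEE
      apply hne
      omega
    · intro h3
      exact absurd hdF h3
  -- constant coefficient of G
  have hGzero : G.coeff 0 = 0 := by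
    apply MvPolynomial.funext
    intro x
    rw [map_zero, hG, Polynomial.finsetSum_coeff, map_sum]
    rw [← hc (fun j => x j - (p j : ℂ) * ∑ i, (q i : ℂ) * x i) (by
      simp only [mul_sub, Finset.sum_sub_distrib]
      have h1 : ∑ j, (q j : ℂ) * ((p j : ℂ) * ∑ i, (q i : ℂ) * x i) =
          (∑ j, (q j : ℂ) * (p j : ℂ)) * ∑ i, (q i : ℂ) * x i := by
        rw [Finset.sum_mul]
        refine Finset.sum_congr rfl fun j _ => ?_
        ring
      rw [h1, hqpc, one_mul, sub_self])]
    refine Finset.sum_congr rfl fun i _ => ?_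
    rw [Polynomial.coeff_mul_C, map_mul, P15_eval_sub, P15_lv, Polynomial.coeff_zero_eq_eval_zero,
      Polynomial.eval_pow, Polynomial.eval_add, Polynomial.eval_X, Polynomial.eval_C, zero_add,
      map_pow, eval_C]
  have hA0 : (Φ P).coeff 0 ≠ 0 := by
    intro h
    apply hnd
    have h1 := P15_dvd_zero p q c P
    rw [← hΦ, h, sub_zero] at h1
    exact h1
  have hA0lt : P15_LtP m ((Φ P).coeff 0) := by
    have h1 := hdiff 0
    rwa [Polynomial.coeff_sub, hGzero, sub_zero] at h1
  have hdegA0 : ((Φ P).coeff 0).totalDegree < m := by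
    obtain ⟨u, hu⟩ := support_nonempty.2 hA0
    have h1 := hA0lt u hu
    rw [totalDegree, Finset.sup_lt_iff (by rw [Nat.bot_eq_zero]; omega)]
    intro v hv
    have h2 := hA0lt v hv
    rw [Finsupp.degree_apply] at h2
    exact h2
  refine ⟨(Φ P).natDegree, fun i => (Φ P).coeff i, ?_, ?_, hA0, ?_⟩
  · intro x
    rw [P15_eval p q c x P, ← hΦ, Polynomial.eval_eq_sum_range'
      (n := (Φ P).natDegree + 1)
      (lt_of_le_of_lt Polynomial.natDegree_map_le (Nat.lt_succ_self _))]
    refine Finset.sum_congr rfl fun i _ => ?_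
    rw [Polynomial.coeff_map]
  · intro i x t
    have h1 := congrArg (fun Q => Polynomial.coeff Q i) (P15_inv p q c hqpc x t P)
    simp only [Polynomial.coeff_map] at h1
    exact h1
  · obtain ⟨i, hi⟩ : ∃ i, G.coeff i ≠ 0 := by
      by_contra h
      push Not at h
      exact hG0 (Polynomial.ext fun i => by rw [h i, Polynomial.coeff_zero])
    obtain ⟨u, hu⟩ := support_nonempty.2 hi
    have hudeg : Finsupp.degree u = m := by
      by_contra h
      exact (mem_support_iff.1 hu) ((hGhom i).coeff_eq_zero h)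
    have huA : u ∈ ((Φ P).coeff i).support := by
      rw [mem_support_iff]
      intro h
      have h1 : coeff u ((Φ P - G).coeff i) ≠ 0 := by
        rw [Polynomial.coeff_sub, coeff_sub, h, zero_sub, neg_ne_zero]
        exact mem_support_iff.1 hu
      have h2 := hdiff i u (mem_support_iff.2 h1)
      omega
    refine ⟨i, ?_, ?_, ?_⟩
    · rcases Nat.eq_zero_or_pos i with h | h
      · rw [h] at hi
        exact absurd hGzero hi
      · exact h
    · apply Polynomial.le_natDegree_of_ne_zero
      intro h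
      rw [h] at huA
      simp at huA
    · refine lt_of_lt_of_le hdegA0 ?_
      have h1 := le_totalDegree huA
      rw [← hudeg, Finsupp.degree_apply]
      exact h1

end XW
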