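import Pool.Agent.Lib.MP_228259_lc.Defs

/-!
P2c: see /team-store/XW_blueprint.md
P2c lemmaTop. eval (N.y) P = sum_k N^k eval y (homogeneousComponent k P).
-/

namespace XW

open Filter Topology MvPolynomial

theorem P2c_eval_smul {n : ℕ} {φ : MvPolynomial (Fin n) ℂ} {m : ℕ} (h : φ.IsHomogeneous m)
    (c : ℂ) (x : Fin n → ℂ) : eval (c • x) φ = c ^ m * eval x φ := by
  rw [eval_eq', eval_eq', Finset.mul_sum]
  apply Finset.sum_congr rfl
  intro d hd
  have h1 := h (mem_support_iff.1 hd)
  rw [Finsupp.weight_apply, Finsupp.sum_fintype _ _ (by simp)] at h1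
  simp only [Pi.one_apply, smul_eq_mul, mul_one] at h1
  simp only [Pi.smul_apply, smul_eq_mul, mul_pow, Finset.prod_mul_distrib,
    Finset.prod_pow_eq_pow_sum, h1]
  ring

theorem lemmaTop {n : ℕ} {ι : Type*} {l : Filter ι} (P : MvPolynomial (Fin n) ℂ)
    (N : ι → ℂ) (y : ι → Fin n → ℂ) (y₀ : Fin n → ℂ)
    (hN : Tendsto (fun i => ‖N i‖) l atTop) (hy : Tendsto y l (𝓝 y₀)) :
    Tendsto (fun i => eval (N i • y i) P / (N i) ^ P.totalDegree) l
      (𝓝 (eval y₀ (homogeneousComponent P.totalDegree P))) := by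
  classical
  set d := P.totalDegree with hd
  have hsum : ∀ i, eval (N i • y i) P / (N i) ^ d =
      ∑ k ∈ Finset.range (d + 1), (N i) ^ k / (N i) ^ d *
        eval (y i) (homogeneousComponent k P) := by
    intro i
    have h1 : eval (N i • y i) P =
        ∑ k ∈ Finset.range (d + 1), (N i) ^ k * eval (y i) (homogeneousComponent k P) := by
      conv_lhs => rw [← sum_homogeneousComponent P]
      rw [map_sum]
      apply Finset.sum_congr rfl
      intro k _
      exact P2c_eval_smul (homogeneousComponent_isHomogeneous k P) _ _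
    rw [h1, Finset.sum_div]
    apply Finset.sum_congr rfl
    intro k _
    ring
  have hlim : eval y₀ (homogeneousComponent d P) = ∑ k ∈ Finset.range (d + 1),
      (if k = d then eval y₀ (homogeneousComponent d P) else 0) := by
    rw [Finset.sum_ite_eq']
    simp
  rw [hlim]
  simp_rw [hsum]
  apply tendsto_finsetSum
  intro k hk
  rw [Finset.mem_range] at hk
  have hev : Tendsto (fun i => eval (y i) (homogeneousComponent k P)) l
      (𝓝 (eval y₀ (homogeneousComponent k P))) :=
    ((MvPolynomial.continuous_eval (homogeneousComponent k P)).tendsto y₀).comp hy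
  have hN0 : ∀ᶠ i in l, N i ≠ 0 := by
    filter_upwards [hN.eventually_gt_atTop 0] with i hi
    exact norm_pos_iff.1 hi
  by_cases hkd : k = d
  · subst hkd
    rw [if_pos rfl]
    refine hev.congr' ?_
    filter_upwards [hN0] with i hi
    rw [div_self (pow_ne_zero _ hi), one_mul]
  · rw [if_neg hkd]
    have h2 : Tendsto (fun i => (N i) ^ k / (N i) ^ d) l (𝓝 0) := by
      rw [tendsto_zero_iff_norm_tendsto_zero]
      have h3 : Tendsto (fun i => (‖N i‖ ^ (d - k))⁻¹) l (𝓝 0) :=
        ((tendsto_pow_atTop (by omega : d - k ≠ 0)).comp hN).inv_tendsto_atTop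
      refine h3.congr' ?_
      filter_upwards [hN0] with i hi
      have h4 : (0 : ℝ) < ‖N i‖ := norm_pos_iff.2 hi
      have h5 : ‖N i‖ ^ d = ‖N i‖ ^ k * ‖N i‖ ^ (d - k) := by
        rw [← pow_add]
        congr 1
        omega
      rw [norm_div, norm_pow, norm_pow, h5]
      field_simp
    have h6 := h2.mul hev
    rw [zero_mul] at h6
    exact h6

end XW
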