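import Pool.Agent.Lib.MP_228259_lc.Defs

/-!
P5b: see /team-store/XW_blueprint.md
P5b int_poly. MvPolynomial.funext_set with the infinite set of integers.
-/

namespace XW

open Filter Topology MvPolynomial

theorem int_poly {n : ℕ} (R : MvPolynomial (Fin n) ℂ) (hR : R ≠ 0) :
    ∃ κ : Fin n → ℤ, eval (zc κ) R ≠ 0 := by
  by_contra hcon
  push Not at hcon
  apply hR
  apply MvPolynomial.funext_set (fun _ : Fin n => Set.range (fun k : ℤ => (k : ℂ)))
  · intro j
    exact Set.infinite_range_of_injective Int.cast_injective
  · intro x hx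
    rw [map_zero]
    have h2 : ∀ j, ∃ k : ℤ, (k : ℂ) = x j := fun j => hx j (Set.mem_univ j)
    choose κ hκ using h2
    have h3 : zc κ = x := by
      funext j
      exact hκ j
    rw [← h3]
    exact hcon κ

end XW
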