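import Pool.Agent.Lib.MP_228259_lc.P1
import Pool.Agent.Lib.MP_228259_lc.P2c
import Pool.Agent.Lib.MP_228259_lc.P5b
import Pool.Agent.Lib.MP_228259_lc.P10a
import Pool.Agent.Lib.MP_228259_lc.P13b

/-!
P16: see /team-store/XW_blueprint.md
P16 final_analysis. alpha_i = totalDegree A_i. theta = max over 1 <= i <= D, A_i <> 0 of (alpha_i - alpha_0)/i > 0, = a'/b' in integers. primitive_vec q: a, q0, k1. Chart from HasCharts a lam, lam = exp(q0 c) : prod pt^a = lam + s^beta. sum a_j p'_j = 0 for its p' (order at s=0), a.L(0) = q0 c + 2 pi i l0; z = l(w) + 2 pi i(-l0 k1 + N k0), k0 integer with q.k0 = 0 and A_0^top(k0) <> 0, A_{i1}^top(k0) <> 0 (int_poly for the product, k = M(kappa - (q.kappa) p), invariance of A_i^top under p). v = q.z - c = (a.L(s) - a.L(0))/q0 =: g(s), s = e^w, exp(q0 g(s)) = 1 + s^beta/lam, so g(s)/s^beta -> 1/(q0 lam) . N = K^(b'), w = -(a'/beta) log K + zeta (real log of the natural number K), s^beta = K^(-a') e^(beta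 zeta). Divide P(z) = sum A_i(z) v^i by N^(alpha_0): A_i(z)/N^(alpha_i) -> A_i^top(2 pi i k0) (lemmaTop, z/N -> 2 pi i k0 since |l(w)| = O(log K)), terms with b' alpha_i - a' i < b' alpha_0 vanish. Limit Q(e^(beta zeta)/(q0 lam)), Q nonconstant polynomial with nonzero constant term: choose zeta0; not locally zero; hurwitz.
-/

namespace XW

open Filter Topology MvPolynomial

private theorem p16_top_ne {n : ℕ} {A : MvPolynomial (Fin n) ℂ} (hA : A ≠ 0) :
    homogeneousComponent A.totalDegree A ≠ 0 := by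
  have hne : A.support.Nonempty := by
    rw [Finset.nonempty_iff_ne_empty]
    intro h
    exact hA (support_eq_empty.mp h)
  obtain ⟨s, hs, hsd⟩ := Finset.exists_mem_eq_sup A.support hne
    (fun s => s.sum fun _ e => e)
  intro h
  have h1 : coeff s (homogeneousComponent A.totalDegree A) = coeff s A := by
    rw [coeff_homogeneousComponent, if_pos]
    unfold totalDegree
    rw [hsd]
    rfl
  rw [h, coeff_zero] at h1
  exact (mem_support_iff.mp hs) h1.symm

/-- a continuous function with values in a finite set is locally constant -/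
private theorem p16_const {g : ℂ → ℂ} {t₀ : ℂ} (hg : ContinuousAt g t₀) {S : Set ℂ}
    (hS : S.Finite) (h : ∀ᶠ t in 𝓝 t₀, g t ∈ S) : ∀ᶠ t in 𝓝 t₀, g t = g t₀ := by
  have h1 : (S \ {g t₀})ᶜ ∈ 𝓝 (g t₀) :=
    (hS.subset Set.sdiff_subset).isClosed.isOpen_compl.mem_nhds (by simp)
  filter_upwards [h, hg.eventually h1] with t ht1 ht2
  by_contra hne
  exact ht2 ⟨ht1, hne⟩

/-- the top form is invariant -/
private theorem p16_top_inv {n : ℕ} (A : MvPolynomial (Fin n) ℂ) (v : Fin n → ℂ)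
    (hinv : ∀ x (t : ℂ), eval (x + t • v) A = eval x A) (x : Fin n → ℂ) (t : ℂ) :
    eval (x + t • v) (homogeneousComponent A.totalDegree A) =
      eval x (homogeneousComponent A.totalDegree A) := by
  have hN : Tendsto (fun K : ℕ => ‖(K : ℂ)‖) atTop atTop := by
    have h1 : (fun K : ℕ => ‖(K : ℂ)‖) = fun K : ℕ => (K : ℝ) := by
      funext K
      simp
    rw [h1]
    exact tendsto_natCast_atTop_atTop
  have h1 := lemmaTop (l := (atTop : Filter ℕ)) A (fun K => (K : ℂ)) (fun _ => x + t • v)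
    (x + t • v) hN tendsto_const_nhds
  have h2 := lemmaTop (l := (atTop : Filter ℕ)) A (fun K => (K : ℂ)) (fun _ => x) x hN
    tendsto_const_nhds
  refine tendsto_nhds_unique h1 (h2.congr fun K => ?_)
  congr 1
  have h3 : (K : ℂ) • (x + t • v) = (K : ℂ) • x + ((K : ℂ) * t) • v := by
    rw [smul_add, smul_smul]
  rw [h3, hinv]

theorem final_analysis {n : ℕ} {W : Set (Fin n → ℂ)} (hW : HasCharts W)
    {P : MvPolynomial (Fin n) ℂ} (p : Fin n → ℤ) (q : Fin n → ℚ)
    (hqp : ∑ j, q j * p j = 1) (c : ℂ) (D : ℕ) (A : ℕ → MvPolynomial (Fin n) ℂ)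
    (hA : ∀ x, eval x P = ∑ i ∈ Finset.range (D + 1),
        eval x (A i) * (∑ j, (q j : ℂ) * x j - c) ^ i)
    (hinv : ∀ i x (t : ℂ), eval (x + t • zc p) (A i) = eval x (A i))
    (h0 : A 0 ≠ 0) (hex : ∃ i, 1 ≤ i ∧ i ≤ D ∧ (A 0).totalDegree < (A i).totalDegree) :
    ∃ z : Fin n → ℂ, eval z P = 0 ∧ (fun j => Complex.exp (z j)) ∈ W := by
  classical
  have hpi : (2 * Real.pi * Complex.I : ℂ) ≠ 0 := by
    simp [Real.pi_ne_zero, Complex.I_ne_zero]
  set α : ℕ → ℕ := fun i => (A i).totalDegree with hα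
  -- the edge
  obtain ⟨ie, hie1, hieD, hiedeg⟩ := hex
  set S : Finset ℕ := (Finset.Icc 1 D).filter (fun i => A i ≠ 0) with hS
  have hieS : ie ∈ S := by
    rw [hS, Finset.mem_filter, Finset.mem_Icc]
    refine ⟨⟨hie1, hieD⟩, fun h => ?_⟩
    rw [h, totalDegree_zero] at hiedeg
    exact Nat.not_lt_zero _ hiedeg
  obtain ⟨i1, hi1S, hi1max⟩ := S.exists_max_image
    (fun i => (((α i : ℕ) : ℚ) - (α 0 : ℕ)) / (i : ℕ)) ⟨ie, hieS⟩
  have hi1mem := hi1S
  rw [hS, Finset.mem_filter, Finset.mem_Icc] at hi1mem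
  obtain ⟨⟨hi1pos, hi1D⟩, hAi1⟩ := hi1mem
  have hi1Q : (0 : ℚ) < i1 := by exact_mod_cast hi1pos
  have hdeg1 : α 0 < α i1 := by
    have h1 := hi1max ie hieS
    have hieQ : (0 : ℚ) < ie := by exact_mod_cast hie1
    have h2 : (0 : ℚ) < (((α ie : ℕ) : ℚ) - (α 0 : ℕ)) / (ie : ℕ) := by
      apply div_pos _ hieQ
      have h3 : ((α 0 : ℕ) : ℚ) < (α ie : ℕ) := by exact_mod_cast hiedeg
      linarith
    have h3 := lt_of_lt_of_le h2 h1
    have h4 : (0 : ℚ) < ((α i1 : ℕ) : ℚ) - (α 0 : ℕ) := by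
      by_contra hcon
      have h5 := div_nonpos_of_nonpos_of_nonneg (not_lt.mp hcon) hi1Q.le
      linarith
    have h5 : ((α 0 : ℕ) : ℚ) < (α i1 : ℕ) := by linarith
    exact_mod_cast h5
  obtain ⟨a', ha'⟩ : ∃ a' : ℕ, α i1 = α 0 + a' := ⟨α i1 - α 0, by omega⟩
  have ha'pos : 0 < a' := by omega
  have hedge : ∀ i, i ≤ D → A i ≠ 0 → i1 * α i ≤ i1 * α 0 + a' * i := by
    intro i hiD hAi
    rcases Nat.eq_zero_or_pos i with hi | hi
    · rw [hi]
      simp
    · have h1 := hi1max i (by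
        rw [hS, Finset.mem_filter, Finset.mem_Icc]
        exact ⟨⟨hi, hiD⟩, hAi⟩)
      have hiQ : (0 : ℚ) < i := by exact_mod_cast hi
      rw [div_le_div_iff₀ hiQ hi1Q] at h1
      have h2 : ((α i1 : ℕ) : ℚ) = (α 0 : ℕ) + (a' : ℕ) := by exact_mod_cast ha'
      rw [h2] at h1
      have h3 : ((i1 * α i : ℕ) : ℚ) ≤ ((i1 * α 0 + a' * i : ℕ) : ℚ) := by
        push_cast
        nlinarith
      exact_mod_cast h3
  -- the primitive vector
  have hq0 : q ≠ 0 := by
    intro h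
    rw [h] at hqp
    simp at hqp
  obtain ⟨a, q0, k1, hq0ne, haq, hak1⟩ := primitive_vec q hq0
  have hq0C : (q0 : ℂ) ≠ 0 := by exact_mod_cast hq0ne
  have ha0 : a ≠ 0 := by
    intro h
    rw [h] at hak1
    simp at hak1
  have haqC : ∀ j, ((a j : ℤ) : ℂ) = (q0 : ℂ) * (q j : ℂ) := by
    intro j
    have h1 := haq j
    have h2 : (((a j : ℤ) : ℚ) : ℂ) = ((q0 * q j : ℚ) : ℂ) := by rw [h1]
    push_cast at h2
    exact h2
  -- the chart
  set lam : ℂ := Complex.exp ((q0 : ℂ) * c) with hlam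
  have hlam0 : lam ≠ 0 := Complex.exp_ne_zero _
  obtain ⟨β, r, p', L, hβ, hch, hprod⟩ := hW a ha0 lam
  set m : ℤ := ∑ j, a j * p' j with hm
  set aL : ℂ → ℂ := fun s => ∑ j, (a j : ℂ) * L s j with haL
  have hprod' : ∀ s : ℂ, s ≠ 0 → ‖s‖ < r → s ^ m * Complex.exp (aL s) = lam + s ^ β := by
    intro s hs hsr
    rw [← hprod s hs hsr]
    have h1 : ∀ j, (pt p' L s j) ^ (a j) = s ^ (a j * p' j) * Complex.exp ((a j : ℂ) * L s j) := by
      intro j
      rw [pt, mul_zpow, ← zpow_mul, mul_comm (p' j) (a j), Complex.exp_int_mul]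
    rw [Finset.prod_congr rfl fun j _ => h1 j, Finset.prod_mul_distrib, ← Complex.exp_sum]
    congr 1
    rw [hm]
    clear * - hs
    induction (Finset.univ : Finset (Fin n)) using Finset.induction_on with
    | empty => simp
    | insert b t hb ih => rw [Finset.sum_insert hb, Finset.prod_insert hb, zpow_add₀ hs, ih]
  have hball : Metric.ball (0 : ℂ) r ∈ 𝓝 (0 : ℂ) := Metric.ball_mem_nhds 0 hch.pos
  have hLc : ∀ j, ContinuousAt (fun s => L s j) 0 := fun j =>
    ((hch.diff j).differentiableAt hball).continuousAt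
  have haLc : ContinuousAt aL 0 := by
    simp only [haL]
    exact tendsto_finsetSum _ fun j _ => continuousAt_const.mul (hLc j)
  have hevball : ∀ᶠ s : ℂ in 𝓝[≠] 0, s ≠ 0 ∧ ‖s‖ < r := by
    have h1 : ∀ᶠ s : ℂ in 𝓝[≠] 0, s ≠ 0 := by
      filter_upwards [self_mem_nhdsWithin] with s hs using hs
    have h2 : ∀ᶠ s : ℂ in 𝓝[≠] 0, s ∈ Metric.ball (0 : ℂ) r :=
      nhdsWithin_le_nhds hball
    filter_upwards [h1, h2] with s hs1 hs2
    exact ⟨hs1, by simpa using hs2⟩
  have hpow0 : ∀ k : ℕ, k ≠ 0 → Tendsto (fun s : ℂ => s ^ k) (𝓝[≠] 0) (𝓝 0) := by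
    intro k hk
    have h1 : Tendsto (fun s : ℂ => s ^ k) (𝓝 0) (𝓝 (0 ^ k)) := (continuous_pow k).tendsto 0
    rw [zero_pow hk] at h1
    exact h1.mono_left nhdsWithin_le_nhds
  have hexpL : Tendsto (fun s => Complex.exp (aL s)) (𝓝[≠] 0) (𝓝 (Complex.exp (aL 0))) :=
    (Complex.continuous_exp.continuousAt.comp haLc).tendsto.mono_left nhdsWithin_le_nhds
  have hrhs : Tendsto (fun s : ℂ => lam + s ^ β) (𝓝[≠] 0) (𝓝 lam) := by
    have h1 := (hpow0 β hβ.ne').const_add lam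
    rwa [add_zero] at h1
  have hm0 : m = 0 := by
    by_contra hmne
    have hratio : Tendsto (fun s : ℂ => (lam + s ^ β) / Complex.exp (aL s)) (𝓝[≠] 0)
        (𝓝 (lam / Complex.exp (aL 0))) := hrhs.div hexpL (Complex.exp_ne_zero _)
    have hratio2 : Tendsto (fun s : ℂ => Complex.exp (aL s) / (lam + s ^ β)) (𝓝[≠] 0)
        (𝓝 (Complex.exp (aL 0) / lam)) := hexpL.div hrhs hlam0
    rcases lt_or_gt_of_ne hmne with hneg | hpos
    · obtain ⟨k, hk⟩ : ∃ k : ℕ, m = -(k : ℤ) := ⟨m.natAbs, by omega⟩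
      have hk0 : k ≠ 0 := by omega
      have h1 : Tendsto (fun s : ℂ => s ^ k) (𝓝[≠] 0) (𝓝 (Complex.exp (aL 0) / lam)) := by
        refine hratio2.congr' ?_
        filter_upwards [hevball] with s hs
        have h2 := hprod' s hs.1 hs.2
        rw [← h2, hk, zpow_neg, zpow_natCast]
        have h3 := Complex.exp_ne_zero (aL s)
        have h4 : s ^ k ≠ 0 := pow_ne_zero _ hs.1
        field_simp
      have h2 := tendsto_nhds_unique h1 (hpow0 k hk0)
      exact (div_ne_zero (Complex.exp_ne_zero _) hlam0) h2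
    · obtain ⟨k, hk⟩ : ∃ k : ℕ, m = (k : ℤ) := ⟨m.natAbs, by omega⟩
      have hk0 : k ≠ 0 := by omega
      have h1 : Tendsto (fun s : ℂ => s ^ k) (𝓝[≠] 0) (𝓝 (lam / Complex.exp (aL 0))) := by
        refine hratio.congr' ?_
        filter_upwards [hevball] with s hs
        have h2 := hprod' s hs.1 hs.2
        rw [← h2, hk, zpow_natCast]
        have h3 := Complex.exp_ne_zero (aL s)
        field_simp
      have h2 := tendsto_nhds_unique h1 (hpow0 k hk0)
      exact (div_ne_zero hlam0 (Complex.exp_ne_zero _)) h2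
  have hexp0 : Complex.exp (aL 0) = lam := by
    have h1 : Tendsto (fun s : ℂ => Complex.exp (aL s)) (𝓝[≠] 0) (𝓝 lam) := by
      refine hrhs.congr' ?_
      filter_upwards [hevball] with s hs
      have h2 := hprod' s hs.1 hs.2
      rw [hm0, zpow_zero, one_mul] at h2
      exact h2.symm
    exact tendsto_nhds_unique hexpL h1
  obtain ⟨l0, hl0⟩ := Complex.exp_eq_exp_iff_exists_int.mp hexp0
  set g : ℂ → ℂ := fun s => (aL s - aL 0) / (q0 : ℂ) with hg
  have hgexp : ∀ s : ℂ, s ≠ 0 → ‖s‖ < r → Complex.exp ((q0 : ℂ) * g s) = 1 + s ^ β / lam := by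
    intro s hs hsr
    have h1 : (q0 : ℂ) * g s = aL s - aL 0 := by
      simp only [hg]
      field_simp
    have h2 := hprod' s hs hsr
    rw [hm0, zpow_zero, one_mul] at h2
    rw [h1, Complex.exp_sub, h2, hexp0, add_div, div_self hlam0]
  -- the size of g
  have hglim : Tendsto (fun s => g s / s ^ β) (𝓝[≠] 0) (𝓝 (1 / ((q0 : ℂ) * lam))) := by
    have hy0 : Tendsto (fun s => (q0 : ℂ) * g s) (𝓝[≠] 0) (𝓝[≠] 0) := by
      refine tendsto_nhdsWithin_iff.mpr ⟨?_, ?_⟩
      · have h1 : ContinuousAt (fun s => (q0 : ℂ) * g s) 0 := by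
          simp only [hg]
          exact continuousAt_const.mul ((haLc.sub continuousAt_const).div_const _)
        have h2 := h1.tendsto
        have h3 : (q0 : ℂ) * g 0 = 0 := by simp [hg]
        rw [h3] at h2
        exact h2.mono_left nhdsWithin_le_nhds
      · filter_upwards [hevball] with s hs h3
        have h4 := hgexp s hs.1 hs.2
        rw [Set.mem_singleton_iff] at h3
        rw [h3, Complex.exp_zero] at h4
        have h5 : s ^ β / lam = 0 := by linear_combination - h4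
        exact (div_ne_zero (pow_ne_zero _ hs.1) hlam0) h5
    have hslope : Tendsto (fun y : ℂ => (Complex.exp y - 1) / y) (𝓝[≠] 0) (𝓝 1) := by
      have h1 := (Complex.hasDerivAt_exp 0).tendsto_slope_zero
      rw [Complex.exp_zero] at h1
      refine h1.congr fun y => ?_
      simp only [zero_add, smul_eq_mul]
      rw [div_eq_inv_mul]
    have h1 := (hslope.comp hy0).inv₀ one_ne_zero
    have h2 := h1.div_const ((q0 : ℂ) * lam)
    rw [inv_one] at h2
    refine h2.congr' ?_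
    filter_upwards [hevball, hy0.eventually (self_mem_nhdsWithin)] with s hs hs2
    have h3 := hgexp s hs.1 hs.2
    simp only [Function.comp_apply]
    rw [h3]
    have h4 : s ^ β ≠ 0 := pow_ne_zero _ hs.1
    have h5 : g s ≠ 0 := fun h => hs2 (by simp [h])
    generalize s ^ β = t at h4 ⊢
    have h6 : 1 + t / lam - 1 = t / lam := by ring
    rw [h6]
    field_simp
  -- the integer vector
  set R : MvPolynomial (Fin n) ℂ := homogeneousComponent (α 0) (A 0) *
    homogeneousComponent (α i1) (A i1) with hR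
  have hRne : R ≠ 0 := mul_ne_zero (p16_top_ne h0) (p16_top_ne hAi1)
  obtain ⟨κ, hκ⟩ := int_poly R hRne
  rw [hR, map_mul] at hκ
  have hκ0 := left_ne_zero_of_mul hκ
  have hκ1 := right_ne_zero_of_mul hκ
  set qκ : ℚ := ∑ j, q j * κ j with hqκ
  set k0 : Fin n → ℤ := fun j => (qκ.den : ℤ) * κ j - qκ.num * p j with hk0
  have hqk0 : ∑ j, q j * (k0 j : ℚ) = 0 := by
    have h1 : ∑ j, q j * (k0 j : ℚ) = (qκ.den : ℚ) * (∑ j, q j * κ j) -
        (qκ.num : ℚ) * ∑ j, q j * p j := by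
      rw [Finset.mul_sum, Finset.mul_sum, ← Finset.sum_sub_distrib]
      refine Finset.sum_congr rfl fun j _ => ?_
      simp only [hk0]
      push_cast
      ring
    rw [h1, ← hqκ, hqp, mul_one, Rat.den_mul_eq_num, sub_self]
  have htopk0 : ∀ i, eval (zc κ) (homogeneousComponent (α i) (A i)) ≠ 0 →
      eval ((2 * Real.pi * Complex.I : ℂ) • zc k0) (homogeneousComponent (α i) (A i)) ≠ 0 := by
    intro i hi
    rw [p10_hom_eval (homogeneousComponent_isHomogeneous _ _)]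
    refine mul_ne_zero (pow_ne_zero _ hpi) ?_
    have h1 : zc k0 = ((qκ.den : ℂ)) • zc κ + (-(qκ.num : ℂ)) • zc p := by
      funext j
      simp only [zc, hk0, Pi.add_apply, Pi.smul_apply, smul_eq_mul]
      push_cast
      ring
    rw [h1, p16_top_inv (A i) (zc p) (hinv i),
      p10_hom_eval (homogeneousComponent_isHomogeneous _ _)]
    refine mul_ne_zero (pow_ne_zero _ ?_) hi
    exact_mod_cast qκ.den_nz
  have hak0 : ∑ j, (a j : ℂ) * (k0 j : ℂ) = 0 := by
    have h1 : ∑ j, (a j : ℂ) * (k0 j : ℂ) = (q0 : ℂ) * ((∑ j, q j * (k0 j : ℚ) : ℚ) : ℂ) := by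
      push_cast
      rw [Finset.mul_sum]
      refine Finset.sum_congr rfl fun j _ => ?_
      rw [haqC j]
      ring
    rw [h1, hqk0]
    simp
  have hak1C : ∑ j, (a j : ℂ) * (k1 j : ℂ) = 1 := by exact_mod_cast hak1
  -- the polynomial of the limit
  set τ : ℕ → ℂ := fun i => if i1 * α i = i1 * α 0 + a' * i then 1 else 0 with hτ
  set y₀ : Fin n → ℂ := (2 * Real.pi * Complex.I : ℂ) • zc k0 with hy₀
  set cf : ℕ → ℂ := fun i => τ i * eval y₀ (homogeneousComponent (α i) (A i)) with hcf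
  set Q : Polynomial ℂ := ∑ i ∈ Finset.range (D + 1), Polynomial.C (cf i) * Polynomial.X ^ i
    with hQ
  have hQcoeff : ∀ i, i ≤ D → Q.coeff i = cf i := by
    intro i hi
    rw [hQ, Polynomial.finsetSum_coeff, Finset.sum_eq_single i]
    · simp
    · intro k _ hki
      rw [Polynomial.coeff_C_mul, Polynomial.coeff_X_pow, if_neg (Ne.symm hki), mul_zero]
    · intro h
      exact absurd (Finset.mem_range.mpr (by omega)) h
  have hcf0 : cf 0 ≠ 0 := by
    simp only [hcf, hτ]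
    rw [if_pos (by simp), one_mul]
    exact htopk0 0 hκ0
  have hcf1 : cf i1 ≠ 0 := by
    simp only [hcf, hτ]
    rw [if_pos (by rw [ha']; ring), one_mul]
    exact htopk0 i1 hκ1
  have hQne : Q ≠ 0 := by
    intro h
    have h1 := hQcoeff 0 (Nat.zero_le _)
    rw [h, Polynomial.coeff_zero] at h1
    exact hcf0 h1.symm
  have hQdeg : 0 < Q.degree := by
    rw [← Polynomial.natDegree_pos_iff_degree_pos]
    have h1 : i1 ≤ Q.natDegree := Polynomial.le_natDegree_of_ne_zero (by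
      rw [hQcoeff i1 hi1D]
      exact hcf1)
    omega
  obtain ⟨u0, hu0⟩ := Complex.exists_root hQdeg
  have hu0ne : u0 ≠ 0 := by
    intro h
    rw [h, Polynomial.IsRoot.def, ← Polynomial.coeff_zero_eq_eval_zero,
      hQcoeff 0 (Nat.zero_le _)] at hu0
    exact hcf0 hu0
  have hβC : (β : ℂ) ≠ 0 := by exact_mod_cast hβ.ne'
  set ζ₀ : ℂ := Complex.log (u0 * ((q0 : ℂ) * lam)) / β with hζ₀
  have hζ₀exp : Complex.exp (β * ζ₀) / ((q0 : ℂ) * lam) = u0 := by
    have h1 : (β : ℂ) * ζ₀ = Complex.log (u0 * ((q0 : ℂ) * lam)) := by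
      rw [hζ₀]
      field_simp
    rw [h1, Complex.exp_log (mul_ne_zero hu0ne (mul_ne_zero hq0C hlam0))]
    field_simp
  -- the points
  set wq : ℕ × ℂ → ℂ := fun x => -((a' : ℂ) / β) * ((Real.log x.1 : ℝ) : ℂ) + x.2 with hwq
  set sq : ℕ × ℂ → ℂ := fun x => Complex.exp (wq x) with hsq
  set zq : ℕ × ℂ → Fin n → ℂ := fun x j => (p' j : ℂ) * wq x + L (sq x) j +
    2 * Real.pi * Complex.I * ((-l0 * k1 j + (x.1 : ℤ) ^ i1 * k0 j : ℤ) : ℂ) with hzq
  have hsqne : ∀ x, sq x ≠ 0 := fun x => Complex.exp_ne_zero _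
  have hsqnorm : ∀ x : ℕ × ℂ, ‖sq x‖ =
      Real.exp (-((a' : ℝ) / β) * Real.log x.1 + x.2.re) := by
    intro x
    simp only [hsq, hwq]
    rw [Complex.norm_exp]
    congr 1
    have h1 : -((a' : ℂ) / β) = ((-((a' : ℝ) / β) : ℝ) : ℂ) := by push_cast; ring
    rw [h1, ← Complex.ofReal_mul, Complex.add_re, Complex.ofReal_re]
  have hlogtop : Tendsto (fun K : ℕ => Real.log K) atTop atTop :=
    Real.tendsto_log_atTop.comp tendsto_natCast_atTop_atTop
  have haβ : (0 : ℝ) < (a' : ℝ) / β := by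
    have h1 : (0 : ℝ) < a' := by exact_mod_cast ha'pos
    have h2 : (0 : ℝ) < β := by exact_mod_cast hβ
    positivity
  have hneg : ∀ C : ℝ, Tendsto (fun K : ℕ => Real.exp (-((a' : ℝ) / β) * Real.log K + C)) atTop
      (𝓝 0) := by
    intro C
    refine Real.tendsto_exp_atBot.comp ?_
    refine Filter.tendsto_atBot_add_const_right _ _ ?_
    exact hlogtop.const_mul_atTop_of_neg (by linarith)
  -- q.z - c
  have hqz : ∀ x, ∑ j, (q j : ℂ) * zq x j - c = g (sq x) := by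
    intro x
    have h1 : (q0 : ℂ) * (∑ j, (q j : ℂ) * zq x j) = ∑ j, (a j : ℂ) * zq x j := by
      rw [Finset.mul_sum]
      refine Finset.sum_congr rfl fun j _ => ?_
      rw [haqC j]
      ring
    have h2 : ∑ j, (a j : ℂ) * zq x j = (m : ℂ) * wq x + aL (sq x) +
        2 * Real.pi * Complex.I * (-l0 * (∑ j, (a j : ℂ) * (k1 j : ℂ)) +
          (x.1 : ℂ) ^ i1 * ∑ j, (a j : ℂ) * (k0 j : ℂ)) := by
      simp only [hzq, haL, hm, mul_add, Finset.sum_add_distrib]
      push_cast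
      rw [Finset.sum_mul, Finset.mul_sum, Finset.mul_sum, Finset.mul_sum, Finset.mul_sum,
        ← Finset.sum_add_distrib, ← Finset.sum_add_distrib, ← Finset.sum_add_distrib]
      rw [← Finset.sum_add_distrib, ← Finset.sum_add_distrib]
      refine Finset.sum_congr rfl fun j _ => ?_
      ring
    rw [hak0, hak1C, hm0] at h2
    simp only [hg]
    rw [eq_div_iff hq0C, hl0]
    have h3 : (∑ j, (q j : ℂ) * zq x j - c) * (q0 : ℂ) =
        (q0 : ℂ) * (∑ j, (q j : ℂ) * zq x j) - q0 * c := by ring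
    rw [h3, h1, h2]
    push_cast
    ring
  have hsmall : ∀ᶠ K : ℕ in atTop, ∀ ζ ∈ Metric.ball ζ₀ 1, ‖sq (K, ζ)‖ < r := by
    filter_upwards [(hneg (ζ₀.re + 1)).eventually (gt_mem_nhds hch.pos)] with K hK ζ hζ
    rw [hsqnorm]
    refine lt_of_le_of_lt (Real.exp_le_exp.mpr ?_) hK
    have h1 : |ζ.re - ζ₀.re| ≤ ‖ζ - ζ₀‖ := by
      rw [← Complex.sub_re]
      exact Complex.abs_re_le_norm _
    rw [Metric.mem_ball, dist_eq_norm] at hζ
    have h2 := (abs_le.mp h1).2
    linarith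
  have hs0 : ∀ ζ : ℂ, Tendsto sq (atTop ×ˢ 𝓝 ζ) (𝓝[≠] 0) := by
    intro ζ
    refine tendsto_nhdsWithin_iff.mpr ⟨?_, Filter.Eventually.of_forall hsqne⟩
    rw [tendsto_zero_iff_norm_tendsto_zero]
    have h1 : Tendsto (fun x : ℕ × ℂ => Real.exp (-((a' : ℝ) / β) * Real.log x.1 + 0) *
        Real.exp x.2.re) (atTop ×ˢ 𝓝 ζ) (𝓝 (0 * Real.exp ζ.re)) := by
      refine ((hneg 0).comp tendsto_fst).mul ?_
      have h2 : Continuous (fun z : ℂ => Real.exp z.re) := by fun_prop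
      exact (h2.tendsto ζ).comp tendsto_snd
    rw [zero_mul] at h1
    refine h1.congr fun x => ?_
    rw [hsqnorm, ← Real.exp_add, add_zero]
  have hpowβ : ∀ x : ℕ × ℂ, x.1 ≠ 0 → sq x ^ β * (x.1 : ℂ) ^ a' = Complex.exp (β * x.2) := by
    intro x hx
    have h1 : ((x.1 : ℂ)) = Complex.exp ((Real.log x.1 : ℝ) : ℂ) := by
      have hxR : (0 : ℝ) < x.1 := by
        have := Nat.pos_of_ne_zero hx
        exact_mod_cast this
      rw [← Complex.ofReal_exp, Real.exp_log hxR]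
      simp
    have h3 : sq x ^ β = Complex.exp (β * wq x) := by
      simp only [hsq]
      rw [← Complex.exp_nat_mul]
    have h4 : (x.1 : ℂ) ^ a' = Complex.exp (a' * ((Real.log x.1 : ℝ) : ℂ)) := by
      rw [Complex.exp_nat_mul, ← h1]
    rw [h3, h4, ← Complex.exp_add]
    congr 1
    have h2 : (β : ℂ) * wq x = -(a' : ℂ) * ((Real.log x.1 : ℝ) : ℂ) + β * x.2 := by
      simp only [hwq]
      field_simp
    rw [h2]
    ring
  have hKev : ∀ ζ : ℂ, ∀ᶠ x : ℕ × ℂ in atTop ×ˢ 𝓝 ζ, x.1 ≠ 0 := by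
    intro ζ
    exact (Filter.eventually_ne_atTop 0).prod_inl _
  have hv : ∀ ζ : ℂ, Tendsto (fun x : ℕ × ℂ => g (sq x) * (x.1 : ℂ) ^ a') (atTop ×ˢ 𝓝 ζ)
      (𝓝 (Complex.exp (β * ζ) / ((q0 : ℂ) * lam))) := by
    intro ζ
    have h1 : Tendsto (fun x : ℕ × ℂ => g (sq x) / sq x ^ β * Complex.exp (β * x.2))
        (atTop ×ˢ 𝓝 ζ) (𝓝 (1 / ((q0 : ℂ) * lam) * Complex.exp (β * ζ))) := by
      refine (hglim.comp (hs0 ζ)).mul ?_
      have h2 : Continuous (fun z : ℂ => Complex.exp (β * z)) := by fun_prop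
      exact (h2.tendsto ζ).comp tendsto_snd
    have h3 : 1 / ((q0 : ℂ) * lam) * Complex.exp (β * ζ) =
        Complex.exp (β * ζ) / ((q0 : ℂ) * lam) := by ring
    rw [h3] at h1
    refine h1.congr' ?_
    filter_upwards [hKev ζ] with x hx
    rw [← hpowβ x hx]
    have h4 : sq x ^ β ≠ 0 := pow_ne_zero _ (hsqne x)
    field_simp
  -- the scaled points
  have hKinv : Tendsto (fun K : ℕ => ((K : ℂ))⁻¹) atTop (𝓝 0) := by
    rw [tendsto_zero_iff_norm_tendsto_zero]
    have h1 := (tendsto_natCast_atTop_atTop (R := ℝ)).inv_tendsto_atTop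
    refine h1.congr fun K => ?_
    simp
  have hNinv : Tendsto (fun K : ℕ => (((K : ℂ)) ^ i1)⁻¹) atTop (𝓝 0) := by
    have h1 := hKinv.pow i1
    rw [zero_pow (by omega)] at h1
    exact h1.congr fun K => by rw [inv_pow]
  have hlogN : Tendsto (fun K : ℕ => ((Real.log K : ℝ) : ℂ) * (((K : ℂ)) ^ i1)⁻¹) atTop
      (𝓝 0) := by
    rw [tendsto_zero_iff_norm_tendsto_zero]
    have h1 : Tendsto (fun K : ℕ => Real.log K / K) atTop (𝓝 0) := by
      have h2 := Real.isLittleO_log_id_atTop.tendsto_div_nhds_zero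
      exact h2.comp tendsto_natCast_atTop_atTop
    refine squeeze_zero' (Filter.Eventually.of_forall fun _ => norm_nonneg _) ?_ h1
    filter_upwards [Filter.eventually_ge_atTop 1] with K hK
    have hKR : (1 : ℝ) ≤ K := by exact_mod_cast hK
    have hlog : 0 ≤ Real.log K := Real.log_nonneg hKR
    rw [norm_mul, norm_inv, norm_pow, Complex.norm_real, Real.norm_eq_abs, abs_of_nonneg hlog,
      Complex.norm_natCast, div_eq_mul_inv]
    refine mul_le_mul_of_nonneg_left ?_ hlog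
    refine inv_anti₀ (by linarith) ?_
    calc (K : ℝ) = (K : ℝ) ^ 1 := (pow_one _).symm
      _ ≤ (K : ℝ) ^ i1 := pow_le_pow_right₀ hKR hi1pos
  have hLtend : ∀ (ζ : ℂ) (j : Fin n), Tendsto (fun x : ℕ × ℂ => L (sq x) j) (atTop ×ˢ 𝓝 ζ)
      (𝓝 (L 0 j)) := fun ζ j =>
    (hLc j).tendsto.comp ((hs0 ζ).mono_right nhdsWithin_le_nhds)
  have hy : ∀ ζ : ℂ, Tendsto (fun x : ℕ × ℂ => (((x.1 : ℂ)) ^ i1)⁻¹ • zq x) (atTop ×ˢ 𝓝 ζ)
      (𝓝 y₀) := by
    intro ζ
    rw [tendsto_pi_nhds]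
    intro j
    have hN' := hNinv.comp (tendsto_fst (f := (atTop : Filter ℕ)) (g := 𝓝 ζ))
    have hl' := hlogN.comp (tendsto_fst (f := (atTop : Filter ℕ)) (g := 𝓝 ζ))
    have hx2 : Tendsto (fun x : ℕ × ℂ => x.2) ((atTop : Filter ℕ) ×ˢ 𝓝 ζ) (𝓝 ζ) := tendsto_snd
    have h1 := (((hl'.const_mul (-((a' : ℂ) / β))).add (hx2.mul hN')).const_mul (p' j : ℂ)).add
      (((hLtend ζ j).mul hN').add
        (hN'.const_mul (2 * Real.pi * Complex.I * ((-l0 * k1 j : ℤ) : ℂ))))
    have h2 := h1.add_const (2 * Real.pi * Complex.I * (k0 j : ℂ))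
    simp only [mul_zero, add_zero, zero_add] at h2
    have h3 : y₀ j = 2 * Real.pi * Complex.I * (k0 j : ℂ) := by
      simp [hy₀, zc]
    rw [h3]
    refine h2.congr' ?_
    filter_upwards [hKev ζ] with x hx
    have hxC : ((x.1 : ℂ)) ^ i1 ≠ 0 := pow_ne_zero _ (by exact_mod_cast hx)
    simp only [Pi.smul_apply, smul_eq_mul, Function.comp_apply, hzq, hwq]
    push_cast
    field_simp
    ring
  have hNnorm : ∀ ζ : ℂ, Tendsto (fun x : ℕ × ℂ => ‖((x.1 : ℂ)) ^ i1‖) (atTop ×ˢ 𝓝 ζ)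
      atTop := by
    intro ζ
    have h1 : Tendsto (fun K : ℕ => ‖((K : ℂ)) ^ i1‖) atTop atTop := by
      have h2 : (fun K : ℕ => ‖((K : ℂ)) ^ i1‖) = fun K : ℕ => (K : ℝ) ^ i1 := by
        funext K
        rw [norm_pow, Complex.norm_natCast]
      rw [h2]
      exact (tendsto_pow_atTop (by omega)).comp tendsto_natCast_atTop_atTop
    exact h1.comp tendsto_fst
  -- the limit of every summand
  have hterm : ∀ (ζ : ℂ) (i : ℕ), i ≤ D → Tendsto (fun x : ℕ × ℂ =>
      eval (zq x) (A i) * (∑ j, (q j : ℂ) * zq x j - c) ^ i / ((((x.1 : ℂ)) ^ i1) ^ (α 0)))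
      (atTop ×ˢ 𝓝 ζ) (𝓝 (cf i * (Complex.exp (β * ζ) / ((q0 : ℂ) * lam)) ^ i)) := by
    intro ζ i hiD
    by_cases hAi : A i = 0
    · simp only [hcf, hAi, map_zero, zero_mul, zero_div, mul_zero]
      exact tendsto_const_nhds
    · have h1 := lemmaTop (l := (atTop : Filter ℕ) ×ˢ 𝓝 ζ) (A i)
        (fun x => ((x.1 : ℂ)) ^ i1) (fun x => (((x.1 : ℂ)) ^ i1)⁻¹ • zq x) y₀ (hNnorm ζ) (hy ζ)
      have h2 := (hv ζ).pow i
      have h3 : Tendsto (fun x : ℕ × ℂ => (((x.1 : ℂ))⁻¹) ^ (i1 * α 0 + a' * i - i1 * α i))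
          (atTop ×ˢ 𝓝 ζ) (𝓝 (τ i)) := by
        have h4 := (hKinv.pow (i1 * α 0 + a' * i - i1 * α i)).comp
          (tendsto_fst (f := (atTop : Filter ℕ)) (g := 𝓝 ζ))
        have h5 := hedge i hiD hAi
        by_cases h6 : i1 * α i = i1 * α 0 + a' * i
        · have h7 : i1 * α 0 + a' * i - i1 * α i = 0 := by omega
          simp only [hτ, if_pos h6, h7, pow_zero]
          exact tendsto_const_nhds
        · have h7 : i1 * α 0 + a' * i - i1 * α i ≠ 0 := by omega
          rw [zero_pow h7] at h4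
          simp only [hτ, if_neg h6]
          exact h4
      have h4 := (h1.mul h2).mul h3
      have h5 : eval y₀ (homogeneousComponent (A i).totalDegree (A i)) *
          (Complex.exp (β * ζ) / ((q0 : ℂ) * lam)) ^ i * τ i =
          cf i * (Complex.exp (β * ζ) / ((q0 : ℂ) * lam)) ^ i := by
        simp only [hcf, hα]
        ring
      rw [h5] at h4
      refine h4.congr' ?_
      filter_upwards [hKev ζ] with x hx
      have hxC : ((x.1 : ℂ)) ≠ 0 := by exact_mod_cast hx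
      have hxN : ((x.1 : ℂ)) ^ i1 ≠ 0 := pow_ne_zero _ hxC
      rw [smul_smul, mul_inv_cancel₀ hxN, one_smul, hqz x]
      have h6 := hedge i hiD hAi
      have h7 : (((x.1 : ℂ))⁻¹) ^ (i1 * α 0 + a' * i - i1 * α i) *
          ((x.1 : ℂ)) ^ (i1 * α 0 + a' * i) = ((x.1 : ℂ)) ^ (i1 * α i) := by
        have h8 : i1 * α 0 + a' * i = (i1 * α 0 + a' * i - i1 * α i) + i1 * α i := by omega
        conv_lhs => rw [h8]
        rw [Nat.add_sub_cancel, pow_add, inv_pow, ← mul_assoc,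
          inv_mul_cancel₀ (pow_ne_zero _ hxC), one_mul]
      have h9 : (((x.1 : ℂ))⁻¹) ^ (i1 * α 0 + a' * i - i1 * α i) =
          ((x.1 : ℂ)) ^ (i1 * α i) / ((x.1 : ℂ)) ^ (i1 * α 0 + a' * i) := by
        rw [eq_div_iff (pow_ne_zero _ hxC)]
        exact h7
      rw [h9, mul_pow, pow_add, pow_mul, pow_mul, pow_mul]
      have h10 : ((x.1 : ℂ) ^ i1) ^ (α 0) ≠ 0 := pow_ne_zero _ hxN
      have h11 : ((x.1 : ℂ) ^ a') ^ i ≠ 0 := pow_ne_zero _ (pow_ne_zero _ hxC)
      have h12 : ((x.1 : ℂ) ^ i1) ^ (α i) ≠ 0 := pow_ne_zero _ hxN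
      change eval (zq x) (A i) / ((x.1 : ℂ) ^ i1) ^ (α i) * (g (sq x) ^ i * ((x.1 : ℂ) ^ a') ^ i) *
        (((x.1 : ℂ) ^ i1) ^ (α i) / (((x.1 : ℂ) ^ i1) ^ (α 0) * ((x.1 : ℂ) ^ a') ^ i)) = _
      field_simp
  have hdiffP : Differentiable ℂ (fun x : Fin n → ℂ => eval x P) := by
    have h5 : (fun x : Fin n → ℂ => eval x P) = fun x => ∑ s ∈ P.support,
        coeff s P * ∏ i, x i ^ s i := by
      funext x
      rw [eval_eq']
    rw [h5]
    fun_prop
  have hQeval : ∀ u : ℂ, Q.eval u = ∑ i ∈ Finset.range (D + 1), cf i * u ^ i := by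
    intro u
    rw [hQ, Polynomial.eval_finsetSum]
    simp
  have hur := hurwitz (l := (atTop : Filter ℕ))
    (F := fun K ζ => eval (zq (K, ζ)) P / ((((K : ℂ)) ^ i1) ^ (α 0)))
    (G := fun ζ => Q.eval (Complex.exp (β * ζ) / ((q0 : ℂ) * lam))) (z₀ := ζ₀) (r := 1)
    one_pos
    (by
      filter_upwards [hsmall] with K hK
      refine DifferentiableOn.div_const ?_ _
      have h1 : DifferentiableOn ℂ (fun ζ => zq (K, ζ)) (Metric.ball ζ₀ 1) := by
        rw [differentiableOn_pi]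
        intro j
        have hw : Differentiable ℂ (fun ζ => wq (K, ζ)) := by
          simp only [hwq]
          fun_prop
        have hs' : Differentiable ℂ (fun ζ => sq (K, ζ)) := by
          simp only [hsq]
          exact hw.cexp
        have h2 : DifferentiableOn ℂ (fun ζ => L (sq (K, ζ)) j) (Metric.ball ζ₀ 1) := by
          refine (hch.diff j).comp hs'.differentiableOn fun ζ hζ => ?_
          rw [mem_ball_zero_iff]
          exact hK ζ hζ
        simp only [hzq]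
        exact ((hw.differentiableOn.const_mul _).add h2).add_const _
      exact hdiffP.comp_differentiableOn h1)
    (by
      refine Differentiable.differentiableOn ?_
      refine Q.differentiable.comp ?_
      fun_prop)
    (fun ζ _ => by
      rw [hQeval]
      have h1 := tendsto_finsetSum (Finset.range (D + 1)) fun i hi =>
        hterm ζ i (by
          have := Finset.mem_range.mp hi
          omega)
      refine h1.congr fun x => ?_
      rw [hA, Finset.sum_div])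
    (by
      rw [hζ₀exp]
      exact hu0)
    (by
      intro hz
      have h1 : ContinuousAt (fun ζ : ℂ => Complex.exp (β * ζ) / ((q0 : ℂ) * lam)) ζ₀ := by
        fun_prop
      have h2 := p16_const h1 (Polynomial.finite_setOfPred_isRoot hQne) (by
        filter_upwards [hz] with ζ hζ
        exact hζ)
      have h3 : HasDerivAt (fun ζ : ℂ => Complex.exp (β * ζ) / ((q0 : ℂ) * lam))
          (Complex.exp (β * ζ₀) * β / ((q0 : ℂ) * lam)) ζ₀ := by
        have h4 : HasDerivAt (fun ζ : ℂ => (β : ℂ) * ζ) (β : ℂ) ζ₀ := by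
          simpa using (hasDerivAt_id ζ₀).const_mul (β : ℂ)
        exact h4.cexp.div_const _
      have h4 : HasDerivAt (fun ζ : ℂ => Complex.exp (β * ζ) / ((q0 : ℂ) * lam)) 0 ζ₀ := by
        refine (hasDerivAt_const ζ₀
          (Complex.exp (β * ζ₀) / ((q0 : ℂ) * lam))).congr_of_eventuallyEq ?_
        exact h2
      have h5 := h3.unique h4
      have h6 : Complex.exp (β * ζ₀) * β / ((q0 : ℂ) * lam) ≠ 0 :=
        div_ne_zero (mul_ne_zero (Complex.exp_ne_zero _) hβC) (mul_ne_zero hq0C hlam0)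
      exact h6 h5)
  obtain ⟨K, ⟨⟨ζ, hζ, hFζ⟩, hK⟩, hK0⟩ :=
    ((hur.and hsmall).and (Filter.eventually_ne_atTop 0)).exists
  have hKC : ((((K : ℂ)) ^ i1) ^ (α 0)) ≠ 0 :=
    pow_ne_zero _ (pow_ne_zero _ (by exact_mod_cast hK0))
  refine ⟨zq (K, ζ), ?_, ?_⟩
  · rcases div_eq_zero_iff.mp hFζ with h1 | h1
    · exact h1
    · exact absurd h1 hKC
  · have h1 : (fun j => Complex.exp (zq (K, ζ) j)) = pt p' L (sq (K, ζ)) := by
      funext j
      simp only [hzq, pt]
      rw [Complex.exp_add, Complex.exp_add, Complex.exp_int_mul]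
      have h2 : ∀ N : ℤ, Complex.exp (2 * Real.pi * Complex.I * (N : ℂ)) = 1 := by
        intro N
        rw [mul_comm]
        exact Complex.exp_int_mul_two_pi_mul_I N
      rw [h2, mul_one]
    rw [h1]
    exact hch.mem _ (hsqne _) (hK ζ hζ)

end XW
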