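import Pool.Agent.Lib.MP_228259_lc.C9a

/-!
P18: see /team-store/XW_blueprint.md
P18 exists_chart_dir. By contradiction dirD (zc p) H = 0 for all chart vectors p: for every monomial m, sum_j p_j coeff m (pderiv j H) = 0, so charts_span gives coeff m (pderiv j H) = 0.
-/

namespace XW

open Filter Topology MvPolynomial

theorem exists_chart_dir {n : ℕ} {W : Set (Fin n → ℂ)} (hW : HasCharts W)
    (H : MvPolynomial (Fin n) ℂ) (hH : ∃ j, pderiv j H ≠ 0) :
    ∃ (r : ℝ) (p : Fin n → ℤ) (L : ℂ → Fin n → ℂ), SChart W r p L ∧ dirD (zc p) H ≠ 0 := by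
  by_contra hcon
  push Not at hcon
  obtain ⟨j, hj⟩ := hH
  apply hj
  ext m
  rw [coeff_zero]
  have h1 : (fun j => coeff m (pderiv j H)) = 0 := by
    refine charts_span hW _ fun r p L hc => ?_
    have h2 := congrArg (coeff m) (hcon r p L hc)
    unfold dirD at h2
    rw [coeff_zero, coeff_sum] at h2
    rw [← h2]
    refine Finset.sum_congr rfl fun j _ => ?_
    rw [coeff_C_mul, mul_comm]
    rfl
  exact congrFun h1 j

end XW
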