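import Pool.Agent.Lib.MP_228259_lc.Defs

/-!
P19: see /team-store/XW_blueprint.md
easy
-/

namespace XW

open Filter Topology MvPolynomial

theorem dec_rescale {n : ℕ} {P H : MvPolynomial (Fin n) ℂ} {d h : ℕ} {E : ℕ → ℕ}
    {B : ℕ → MvPolynomial (Fin n) ℂ} (hdec : Dec P H d h E B) (q : Fin n → ℚ) (lam : ℂ)
    (hlam : lam ≠ 0) (hH : H = C lam * lin q) :
    Dec P (lin q) d 1 E (fun i => C (lam ^ (E i)) * B i) := by
  have hlin : (lin q).IsHomogeneous 1 := by
    unfold lin
    exact IsHomogeneous.sum _ _ _ fun j _ => isHomogeneous_C_mul_X _ _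
  have hd : 1 ≤ d := by
    have h1 := (hdec.deg d le_rfl hdec.top).1
    have h2 := hdec.epos
    have h3 := hdec.hpos
    have : 1 * 1 ≤ E d * h := Nat.mul_le_mul h2 h3
    omega
  have hH0 : H ≠ 0 := by
    rintro rfl
    have h1 : P = ∑ i ∈ Finset.range (d + 1), (0 : MvPolynomial (Fin n) ℂ) ^ (E i) * B i :=
      hdec.sum
    have h2 : ∀ i, i ≤ d → B i ≠ 0 → E i * h ≤ i ∧ (B i).IsHomogeneous (i - E i * h) := hdec.deg
    have h3 := hdec.degree
    have h4 : P.totalDegree ≤ d - 1 := by
      rw [h1]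
      refine totalDegree_finsetSum_le fun i hi => ?_
      rw [Finset.mem_range] at hi
      by_cases hE : E i = 0
      · by_cases hB : B i = 0
        · rw [hB, mul_zero, totalDegree_zero]
          exact Nat.zero_le _
        · have h5 := (h2 i (by omega) hB).2
          rw [hE, zero_mul, Nat.sub_zero] at h5
          rw [hE, pow_zero, one_mul, h5.totalDegree hB]
          have : i ≠ d := by
            rintro rfl
            have := hdec.epos
            omega
          omega
      · rw [zero_pow hE, zero_mul, totalDegree_zero]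
        exact Nat.zero_le _
    omega
  have hlin0 : lin q ≠ 0 := by
    intro h0
    rw [h0, mul_zero] at hH
    exact hH0 hH
  have hh : h = 1 := by
    have h1 : H.IsHomogeneous 1 := by
      rw [hH]
      have := (isHomogeneous_C (Fin n) lam).mul hlin
      rwa [zero_add] at this
    exact hdec.hom.inj_right h1 hH0
  have hunit : ∀ c : ℂ, c ≠ 0 → IsUnit (C c : MvPolynomial (Fin n) ℂ) := fun c hc =>
    (isUnit_iff_ne_zero.mpr hc).map C
  have hmul : ∀ i, H ^ (E i) * B i = (lin q) ^ (E i) * (C (lam ^ (E i)) * B i) := by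
    intro i
    rw [hH, mul_pow, C_pow]
    ring
  have hB : ∀ i, C (lam ^ (E i)) * B i ≠ 0 → B i ≠ 0 := by
    intro i hi h0
    rw [h0, mul_zero] at hi
    exact hi rfl
  refine ⟨hlin, one_pos, ?_, ?_, ?_, ?_, hdec.degree, ?_, hdec.epos⟩
  · intro i hi
    rw [hdec.comp i hi, hmul]
  · rw [Finset.sum_congr rfl fun i _ => (hmul i).symm]
    exact hdec.sum
  · intro i hi hBi
    have h1 := hdec.deg i hi (hB i hBi)
    rw [hh] at h1
    refine ⟨h1.1, ?_⟩
    have := (isHomogeneous_C (Fin n) (lam ^ (E i))).mul h1.2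
    rwa [zero_add] at this
  · intro i hi
    rcases hdec.ndvd i hi with h0 | h0
    · left
      simp only [h0, mul_zero]
    · right
      intro hd
      apply h0
      rw [(hunit _ (pow_ne_zero _ hlam)).dvd_mul_left] at hd
      rw [hH, (hunit lam hlam).mul_left_dvd]
      exact hd
  · exact mul_ne_zero (hunit _ (pow_ne_zero _ hlam)).ne_zero hdec.top

end XW
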