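import Pool.Agent.Lib.MP_228259_lc.Defs

/-!
P21: see /team-store/XW_blueprint.md
H(kappa + w v) has a simple zero at w = omega, so it is nonzero for w near omega, w <> omega; B d stays nonzero near omega
-/

namespace XW

open Filter Topology MvPolynomial

private theorem P21_deriv {n : ℕ} (κ v : Fin n → ℂ) (ω : ℂ) (H : MvPolynomial (Fin n) ℂ) :
    HasDerivAt (fun w : ℂ => eval (κ + w • v) H) (eval (κ + ω • v) (dirD v H)) ω := by
  induction H using MvPolynomial.induction_on with
  | C a =>
    have h1 : dirD v (C a : MvPolynomial (Fin n) ℂ) = 0 := by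
      unfold dirD
      exact Finset.sum_eq_zero fun j _ => by rw [pderiv_C, mul_zero]
    rw [h1, map_zero]
    simp only [eval_C]
    exact hasDerivAt_const ω a
  | add f g hf hg =>
    have h1 : dirD v (f + g) = dirD v f + dirD v g := by
      unfold dirD
      rw [← Finset.sum_add_distrib]
      exact Finset.sum_congr rfl fun j _ => by rw [map_add, mul_add]
    rw [h1, map_add]
    simp only [map_add]
    exact hf.add hg
  | mul_X f i hf =>
    have h1 : dirD v (f * X i) = dirD v f * X i + f * C (v i) := by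
      unfold dirD
      have h2 : ∀ j, C (v j) * pderiv j (f * X i) =
          C (v j) * pderiv j f * X i + f * (C (v j) * Pi.single (M := fun _ => MvPolynomial (Fin n) ℂ) i 1 j) := by
        intro j
        rw [Derivation.leibniz, pderiv_X, smul_eq_mul, smul_eq_mul]
        by_cases hij : i = j
        · subst hij
          rw [Pi.single_eq_same]
          ring
        · rw [Pi.single_eq_of_ne (by exact fun h => hij h), Pi.single_eq_of_ne (by exact fun h => hij h.symm)]
          ring
      rw [Finset.sum_congr rfl fun j _ => h2 j, Finset.sum_add_distrib, ← Finset.sum_mul,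
        ← Finset.mul_sum]
      congr 2
      rw [Finset.sum_eq_single i]
      · rw [Pi.single_eq_same, mul_one]
      · intro b _ hb
        rw [Pi.single_eq_of_ne hb, mul_zero]
      · intro h
        exact absurd (Finset.mem_univ i) h
    rw [h1, map_add, map_mul, map_mul, eval_X, eval_C]
    simp only [map_mul, eval_X]
    refine hf.mul ?_
    have h3 : HasDerivAt (fun w : ℂ => κ i + w * v i) (1 * v i) ω :=
      ((hasDerivAt_id ω).mul_const (v i)).const_add (κ i)
    rw [one_mul] at h3
    exact h3

theorem exists_ne_near {n : ℕ} {P H : MvPolynomial (Fin n) ℂ} {d h : ℕ} {E : ℕ → ℕ}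
    {B : ℕ → MvPolynomial (Fin n) ℂ} (hdec : Dec P H d h E B) (κ v : Fin n → ℂ) (ω : ℂ)
    (h0 : eval (κ + ω • v) H = 0) (h1 : eval (κ + ω • v) (dirD v H) ≠ 0)
    (h2 : eval (κ + ω • v) (B d) ≠ 0) :
    ∃ ω' : ℂ, eval (κ + ω' • v) (homogeneousComponent P.totalDegree P) ≠ 0 := by
  have hf := P21_deriv κ v ω H
  have hev1 : ∀ᶠ w in 𝓝[≠] ω, eval (κ + w • v) H ≠ 0 := hf.eventually_ne h1
  have hcont : ContinuousAt (fun w : ℂ => eval (κ + w • v) (B d)) ω :=
    (P21_deriv κ v ω (B d)).continuousAt
  have hev2 : ∀ᶠ w in 𝓝[≠] ω, eval (κ + w • v) (B d) ≠ 0 :=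
    (hcont.eventually_ne h2).filter_mono nhdsWithin_le_nhds
  obtain ⟨w, hw1, hw2⟩ := (hev1.and hev2).exists
  refine ⟨w, ?_⟩
  rw [hdec.degree, hdec.comp d le_rfl, map_mul, map_pow]
  exact mul_ne_zero (pow_ne_zero _ hw1) hw2

end XW
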