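import Pool.Agent.Lib.MP_228259_lc.Defs

/-!
P3b: see /team-store/XW_blueprint.md
P3b exists_irred_top. top component nonzero, not a unit (degree d > 0) so it has an irreducible factor (WfDvdMonoid); pderiv j H <> 0 for some j since H nonconstant, char 0.
-/

namespace XW

open Filter Topology MvPolynomial

theorem P3b_top_ne {n : ℕ} (P : MvPolynomial (Fin n) ℂ) (hd : 0 < P.totalDegree) :
    homogeneousComponent P.totalDegree P ≠ 0 := by
  have hP : P.support.Nonempty := by
    rw [Finset.nonempty_iff_ne_empty]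
    intro h
    rw [MvPolynomial.support_eq_empty] at h
    rw [h, totalDegree_zero] at hd
    exact lt_irrefl _ hd
  obtain ⟨m, hm, hm2⟩ := Finset.exists_mem_eq_sup P.support hP (fun s => s.sum fun _ e => e)
  intro h
  have h1 : coeff m (homogeneousComponent P.totalDegree P) = coeff m P := by
    rw [coeff_homogeneousComponent, if_pos]
    rw [totalDegree, hm2]
    rfl
  rw [h, coeff_zero] at h1
  exact (mem_support_iff.mp hm) h1.symm

theorem P3b_const {n : ℕ} (H : MvPolynomial (Fin n) ℂ) (h : ∀ j, pderiv j H = 0) :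
    H = C (coeff 0 H) := by
  classical
  ext m
  rw [coeff_C]
  split_ifs with h0
  · rw [h0]
  · obtain ⟨j, hj⟩ : ∃ j, m j ≠ 0 := by
      by_contra hc
      push Not at hc
      exact h0 (by ext j; rw [hc j]; rfl)
    have h1 := congrArg (coeff (m - Finsupp.single j 1)) (h j)
    rw [coeff_pderiv, coeff_zero] at h1
    have h2 : m - Finsupp.single j 1 + Finsupp.single j 1 = m := by
      ext i
      rw [Finsupp.add_apply, Finsupp.tsub_apply]
      by_cases hi : j = i
      · subst hi
        rw [Finsupp.single_eq_same]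
        omega
      · rw [Finsupp.single_eq_of_ne (Ne.symm hi)]
        rfl
    rw [h2] at h1
    rcases mul_eq_zero.mp h1 with h3 | h3
    · exact h3
    · exfalso
      exact Nat.cast_add_one_ne_zero _ h3

theorem P3b_not_unit {n : ℕ} (T : MvPolynomial (Fin n) ℂ) (d : ℕ) (hT : T.IsHomogeneous d)
    (hd : 0 < d) (h0 : T ≠ 0) : ¬ IsUnit T := by
  intro h
  have h1 := (isUnit_iff_totalDegree_of_isReduced.mp h).2
  rw [hT.totalDegree h0] at h1
  omega

theorem exists_irred_top {n : ℕ} (P : MvPolynomial (Fin n) ℂ) (hd : 0 < P.totalDegree) :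
    ∃ H : MvPolynomial (Fin n) ℂ, Irreducible H ∧
      H ∣ homogeneousComponent P.totalDegree P ∧ ∃ j, pderiv j H ≠ 0 := by
  have h0 := P3b_top_ne P hd
  have h1 := P3b_not_unit _ _ (homogeneousComponent_isHomogeneous P.totalDegree P) hd h0
  obtain ⟨H, hH, hdvd⟩ := WfDvdMonoid.exists_irreducible_factor h1 h0
  refine ⟨H, hH, hdvd, ?_⟩
  by_contra hc
  push Not at hc
  have h2 := P3b_const H hc
  by_cases h3 : coeff 0 H = 0
  · rw [h3, C_0] at h2
    exact hH.ne_zero h2
  · apply hH.not_isUnit
    rw [h2]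
    exact (isUnit_iff_ne_zero.mpr h3).map C

end XW
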