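import Pool.Agent.Lib.MP_228259_lc.P4b

/-!
P4a: see /team-store/XW_blueprint.md
P4a gp. Work in Polynomial (MvPolynomial (Fin n) C): the substitution x_j |-> x_j + v_j T. H~(T) := H(x + T v) is irreducible there (automorphism x |-> x + T v, T |-> T of C[x][T] maps C(H) to H~), has positive degree in T (since dirD v H <> 0: coefficient of T^1 is dirD v H), so by Gauss (IsPrimitive.irreducible_iff_irreducible_map_fraction_map) irreducible over the fraction field; H~ does not divide G~; so coprime over the fraction field; clear denominators: U H~ + V G~ = R(x) <> 0. Evaluate at x = kappa, T = omega.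
-/

namespace XW

open Filter Topology MvPolynomial

/-- the substitution `x_j ↦ x_j + v_j T`, `T ↦ T` on polynomials in `T` -/
noncomputable def P4a_theta {n : ℕ} (v : Fin n → ℂ) :
    Polynomial (MvPolynomial (Fin n) ℂ) →+* Polynomial (MvPolynomial (Fin n) ℂ) :=
  Polynomial.eval₂RingHom (P4b_psi v).toRingHom Polynomial.X

theorem P4a_theta_C {n : ℕ} (v : Fin n → ℂ) (F : MvPolynomial (Fin n) ℂ) :
    P4a_theta v (Polynomial.C F) = P4b_psi v F := by
  unfold P4a_theta
  simp

theorem P4a_theta_X {n : ℕ} (v : Fin n → ℂ) :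
    P4a_theta v Polynomial.X = Polynomial.X := by
  unfold P4a_theta
  simp

theorem P4a_theta_psi {n : ℕ} (v w : Fin n → ℂ) (hvw : v + w = 0) (F : MvPolynomial (Fin n) ℂ) :
    P4a_theta v (P4b_psi w F) = Polynomial.C F := by
  induction F using MvPolynomial.induction_on with
  | C a =>
    have h1 : ∀ v : Fin n → ℂ, P4b_psi v (C a) = Polynomial.C (C a) := by
      intro v
      unfold P4b_psi
      rw [aeval_C]
      rfl
    rw [h1, P4a_theta_C, h1]
  | add p q hp hq => rw [map_add, map_add, hp, hq, Polynomial.C_add]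
  | mul_X p j hp =>
    rw [map_mul, map_mul, hp, Polynomial.C_mul]
    congr 1
    have h1 : ∀ v : Fin n → ℂ, P4b_psi v (X j) =
        Polynomial.C (X j) + Polynomial.C (C (v j)) * Polynomial.X := by
      intro v
      unfold P4b_psi
      rw [aeval_X]
    have h2 : ∀ (v : Fin n → ℂ) (a : ℂ), P4b_psi v (C a) = Polynomial.C (C a) := by
      intro v a
      unfold P4b_psi
      rw [aeval_C]
      rfl
    rw [h1, map_add, map_mul, P4a_theta_C, P4a_theta_C, P4a_theta_X, h1, h2]
    have h3 : v j + w j = 0 := congrFun hvw j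
    have h4 : Polynomial.C (X j) + Polynomial.C (C (v j)) * Polynomial.X +
        Polynomial.C (C (w j)) * Polynomial.X =
        Polynomial.C (X j) + Polynomial.C (C (v j + w j)) * (Polynomial.X :
          Polynomial (MvPolynomial (Fin n) ℂ)) := by
      rw [C_add, Polynomial.C_add]
      ring
    rw [h4, h3]
    simp

theorem P4a_theta_theta {n : ℕ} (v w : Fin n → ℂ) (hvw : v + w = 0)
    (p : Polynomial (MvPolynomial (Fin n) ℂ)) : P4a_theta v (P4a_theta w p) = p := by
  induction p using Polynomial.induction_on' with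
  | add p q hp hq => rw [map_add, map_add, hp, hq]
  | monomial k a =>
    rw [← Polynomial.C_mul_X_pow_eq_monomial, map_mul, map_mul, map_pow, map_pow, P4a_theta_C,
      P4a_theta_X, P4a_theta_X, P4a_theta_psi v w hvw]

/-- the automorphism -/
noncomputable def P4a_equiv {n : ℕ} (v : Fin n → ℂ) :
    Polynomial (MvPolynomial (Fin n) ℂ) ≃+* Polynomial (MvPolynomial (Fin n) ℂ) :=
  RingEquiv.ofRingHom (P4a_theta v) (P4a_theta (-v))
    (RingHom.ext fun p => P4a_theta_theta v (-v) (by simp) p)
    (RingHom.ext fun p => P4a_theta_theta (-v) v (by simp) p)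

theorem P4a_prime {n : ℕ} (H : MvPolynomial (Fin n) ℂ) (hH : Irreducible H) (v : Fin n → ℂ) :
    Prime (P4b_psi v H) := by
  have h1 : Prime H := UniqueFactorizationMonoid.irreducible_iff_prime.mp hH
  have h2 : Prime (Polynomial.C H) := Polynomial.prime_C_iff.mpr h1
  have h3 := (MulEquiv.prime_iff (P4a_equiv v).toMulEquiv).mpr h2
  have h4 : (P4a_equiv v).toMulEquiv (Polynomial.C H) = P4b_psi v H := P4a_theta_C v H
  rwa [h4] at h3

theorem P4a_not_dvd {n : ℕ} (H : MvPolynomial (Fin n) ℂ) (v : Fin n → ℂ)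
    (G : MvPolynomial (Fin n) ℂ) (hG : ¬ H ∣ G) : ¬ P4b_psi v H ∣ P4b_psi v G := by
  intro h
  have h1 := map_dvd (P4a_theta (-v)) h
  rw [P4a_theta_psi (-v) v (by simp), P4a_theta_psi (-v) v (by simp)] at h1
  exact hG (Polynomial.C_dvd_iff_dvd_coeff _ _ |>.mp h1 0 |>.trans (by simp))

theorem P4a_abstract {A K : Type*} [CommRing A] [IsDomain A] [NormalizedGCDMonoid A] [Field K]
    [Algebra A K] [IsFractionRing A K] (h g : Polynomial A) (hp : Prime h)
    (hdeg : h.natDegree ≠ 0) (hnd : ¬ h ∣ g) :
    ∃ (R : A) (U V : Polynomial A), R ≠ 0 ∧ U * h + V * g = Polynomial.C R := by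
  classical
  have hirr : Irreducible h := hp.irreducible
  have hprim : h.IsPrimitive := hirr.isPrimitive hdeg
  have hirrK : Irreducible (h.map (algebraMap A K)) :=
    (hprim.irreducible_iff_irreducible_map_fraction_map (K := K)).mp hirr
  have hinjA : Function.Injective (algebraMap A K) := IsFractionRing.injective A K
  have hndK : ¬ h.map (algebraMap A K) ∣ g.map (algebraMap A K) := by
    rintro ⟨Q, hQ⟩
    obtain ⟨b, hbm, hb⟩ := IsLocalization.integerNormalization_spec (nonZeroDivisors A) Q
    have hb0 : b ≠ 0 := nonZeroDivisors.ne_zero hbm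
    have h1 : Polynomial.C b * g =
        h * IsLocalization.integerNormalization (nonZeroDivisors A) Q := by
      apply Polynomial.map_injective (algebraMap A K) hinjA
      rw [Polynomial.map_mul, Polynomial.map_mul, Polynomial.map_C, hQ, hb]
      rw [Algebra.smul_def, Polynomial.algebraMap_apply]
      ring
    have h2 : h ∣ Polynomial.C b * g := ⟨_, h1⟩
    rcases hp.dvd_or_dvd h2 with h3 | h3
    · have h4 := Polynomial.natDegree_le_of_dvd h3 (Polynomial.C_ne_zero.mpr hb0)
      rw [Polynomial.natDegree_C] at h4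
      omega
    · exact hnd h3
  have hcop : IsCoprime (h.map (algebraMap A K)) (g.map (algebraMap A K)) :=
    (hirrK.coprime_iff_not_dvd).mpr hndK
  obtain ⟨U, V, hUV⟩ := hcop
  obtain ⟨b, hbm, hb⟩ := IsLocalization.integerNormalization_spec (nonZeroDivisors A) U
  obtain ⟨c, hcm, hc⟩ := IsLocalization.integerNormalization_spec (nonZeroDivisors A) V
  have hb0 : b ≠ 0 := nonZeroDivisors.ne_zero hbm
  have hc0 : c ≠ 0 := nonZeroDivisors.ne_zero hcm
  refine ⟨b * c, Polynomial.C c * IsLocalization.integerNormalization (nonZeroDivisors A) U,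
    Polynomial.C b * IsLocalization.integerNormalization (nonZeroDivisors A) V,
    mul_ne_zero hb0 hc0, ?_⟩
  apply Polynomial.map_injective (algebraMap A K) hinjA
  rw [Polynomial.map_add, Polynomial.map_mul, Polynomial.map_mul, Polynomial.map_mul,
    Polynomial.map_mul, Polynomial.map_C, Polynomial.map_C, Polynomial.map_C, hb, hc]
  rw [Algebra.smul_def, Algebra.smul_def, Polynomial.algebraMap_apply,
    Polynomial.algebraMap_apply, map_mul, Polynomial.C_mul]
  linear_combination Polynomial.C (algebraMap A K b) * Polynomial.C (algebraMap A K c) * hUV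

theorem gp {n : ℕ} (H : MvPolynomial (Fin n) ℂ) (hH : Irreducible H) (v : Fin n → ℂ)
    (hv : dirD v H ≠ 0) (G : MvPolynomial (Fin n) ℂ) (hG : ¬ H ∣ G) :
    ∃ R : MvPolynomial (Fin n) ℂ, R ≠ 0 ∧ ∀ (κ : Fin n → ℂ) (ω : ℂ), eval κ R ≠ 0 →
      eval (κ + ω • v) H = 0 → eval (κ + ω • v) G ≠ 0 := by
  classical
  let _inst : NormalizedGCDMonoid (MvPolynomial (Fin n) ℂ) :=
    Classical.choice inferInstance
  obtain ⟨R, U, V, hR, hUV⟩ := P4a_abstract (K := FractionRing (MvPolynomial (Fin n) ℂ))
    (P4b_psi v H) (P4b_psi v G) (P4a_prime H hH v) (P4b_natDegree_pos v H hv).ne'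
    (P4a_not_dvd H v G hG)
  refine ⟨R, hR, fun κ ω hκ hH0 hG0 => ?_⟩
  apply hκ
  have h1 := congrArg (fun p : Polynomial (MvPolynomial (Fin n) ℂ) => (p.map (eval κ)).eval ω) hUV
  simp only [Polynomial.map_add, Polynomial.map_mul, Polynomial.eval_add, Polynomial.eval_mul,
    Polynomial.map_C, Polynomial.eval_C] at h1
  rw [P4b_psi_eval, P4b_psi_eval, hH0, hG0, mul_zero, mul_zero, add_zero] at h1
  exact h1.symm

end XW
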