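import Pool.Agent.Lib.MP_228259_lc.P1
import Pool.Agent.Lib.MP_228259_lc.P2c

/-!
P6: see /team-store/XW_blueprint.md
P6 case_nonreal. If omega.im <> 0 take sigma = 1 if omega.im > 0 and -1 otherwise, zeta0 = 2 pi i omega sigma, Re zeta0 = -2 pi |omega.im| < 0. F_N(zeta) = eval (N . y) P / N^d, y = (p zeta + L(exp(N zeta))/N + 2 pi i sigma kappa), z = N y = l(N zeta) + 2 pi i sigma N kappa (exp z = pt p L (exp(N zeta)) in W for N large, Re(N zeta) < log r, on a small ball). lemmaTop gives the limit P_d(p zeta + 2 pi i sigma kappa) = (2 pi i sigma)^d P_d(kappa + omega' p), nonzero polynomial in zeta by hne. L bounded near 0. hurwitz.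
-/

namespace XW

open Filter Topology MvPolynomial

private theorem P6_diff {n : ℕ} (P : MvPolynomial (Fin n) ℂ) (g : ℂ → Fin n → ℂ) (U : Set ℂ)
    (hg : ∀ j, DifferentiableOn ℂ (fun z => g z j) U) :
    DifferentiableOn ℂ (fun z => eval (g z) P) U := by
  induction P using MvPolynomial.induction_on with
  | C a => simp only [eval_C]; exact differentiableOn_const a
  | add f h hf hh => simp only [map_add]; exact hf.add hh
  | mul_X f i hf => simp only [map_mul, eval_X]; exact hf.mul (hg i)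

private theorem P6_hom {n d : ℕ} (Q : MvPolynomial (Fin n) ℂ) (hQ : Q.IsHomogeneous d) (c : ℂ)
    (x : Fin n → ℂ) : eval (c • x) Q = c ^ d * eval x Q := by
  rw [eval_eq', eval_eq', Finset.mul_sum]
  refine Finset.sum_congr rfl fun m hm => ?_
  have h1 : ∑ i, m i = d := by
    have h2 := hQ (mem_support_iff.mp hm)
    have h3 : Finsupp.weight (1 : Fin n → ℕ) m = m.degree :=
      (DFunLike.congr_fun (Finsupp.degree_eq_weight_one (σ := Fin n) (R := ℕ)) m).symm
    rw [h3, Finsupp.degree_eq_sum] at h2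
    exact h2
  simp only [Pi.smul_apply, smul_eq_mul, mul_pow]
  rw [Finset.prod_mul_distrib, Finset.prod_pow_eq_pow_sum, h1]
  ring

private theorem P6_re (N : ℕ) (z : ℂ) : ((N : ℂ) * z).re = (N : ℝ) * z.re := by
  rw [Complex.mul_re, Complex.natCast_re, Complex.natCast_im, zero_mul, sub_zero]

theorem case_nonreal {n : ℕ} {W : Set (Fin n → ℂ)} {P : MvPolynomial (Fin n) ℂ}
    (hbad : Bad W P) {r : ℝ} {p : Fin n → ℤ} {L : ℂ → Fin n → ℂ} (hc : SChart W r p L)
    (κ : Fin n → ℤ) (ω : ℂ)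
    (h0 : eval (zc κ + ω • zc p) (homogeneousComponent P.totalDegree P) = 0)
    (hne : ∃ ω' : ℂ, eval (zc κ + ω' • zc p) (homogeneousComponent P.totalDegree P) ≠ 0) :
    ω.im = 0 := by
  by_contra him
  set d := P.totalDegree with hd
  set Q := homogeneousComponent d P with hQdef
  have hQ : Q.IsHomogeneous d := homogeneousComponent_isHomogeneous _ _
  obtain ⟨σ, hσ⟩ : ∃ σ : ℤ, 0 < (σ : ℝ) * ω.im := by
    rcases lt_or_gt_of_ne him with h | h
    · exact ⟨-1, by push_cast; linarith⟩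
    · exact ⟨1, by push_cast; linarith⟩
  have hpi : (Real.pi : ℂ) ≠ 0 := by exact_mod_cast Real.pi_ne_zero
  have hσ0 : (σ : ℂ) ≠ 0 := by
    intro h
    have : (σ : ℝ) = 0 := by exact_mod_cast h
    rw [this, zero_mul] at hσ
    exact lt_irrefl _ hσ
  set c : ℂ := 2 * Real.pi * Complex.I * σ with hc0
  have hcne : c ≠ 0 :=
    mul_ne_zero (mul_ne_zero (mul_ne_zero two_ne_zero hpi) Complex.I_ne_zero) hσ0
  set ζ₀ : ℂ := c * ω with hζ₀
  have hre : ζ₀.re = -(2 * Real.pi * ((σ : ℝ) * ω.im)) := by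
    have h1 : ζ₀ = ((2 * Real.pi * σ : ℝ) : ℂ) * (Complex.I * ω) := by
      rw [hζ₀, hc0]
      push_cast
      ring
    rw [h1, Complex.re_ofReal_mul, Complex.I_mul_re]
    ring
  have hreneg : ζ₀.re < 0 := by
    rw [hre]
    have := Real.pi_pos
    have : 0 < 2 * Real.pi * ((σ : ℝ) * ω.im) := by positivity
    linarith
  set ρ : ℝ := -ζ₀.re / 2 with hρ
  have hρ0 : 0 < ρ := by rw [hρ]; linarith
  have hball : ∀ z ∈ Metric.ball ζ₀ ρ, z.re < ζ₀.re / 2 := by
    intro z hz
    have h1 : |(z - ζ₀).re| ≤ ‖z - ζ₀‖ := Complex.abs_re_le_norm _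
    rw [Metric.mem_ball, dist_eq_norm] at hz
    have h2 := (abs_le.mp h1).2
    rw [Complex.sub_re] at h2
    rw [hρ] at hz
    linarith
  -- the exponential is small
  have hsmall : ∀ᶠ N : ℕ in atTop, 1 ≤ N ∧ ∀ z ∈ Metric.ball ζ₀ ρ, ‖Complex.exp (N * z)‖ < r := by
    have h1 : Tendsto (fun N : ℕ => Real.exp ((N : ℝ) * (ζ₀.re / 2))) atTop (𝓝 0) := by
      refine Real.tendsto_exp_atBot.comp ?_
      exact tendsto_natCast_atTop_atTop.atTop_mul_const_of_neg (by linarith)
    filter_upwards [h1.eventually (gt_mem_nhds hc.pos), eventually_ge_atTop 1] with N hN hN1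
    refine ⟨hN1, fun z hz => lt_of_le_of_lt ?_ hN⟩
    rw [Complex.norm_exp]
    refine Real.exp_le_exp.mpr ?_
    rw [P6_re]
    exact mul_le_mul_of_nonneg_left (hball z hz).le (Nat.cast_nonneg N)
  -- the functions
  set y : ℕ → ℂ → Fin n → ℂ := fun N z j =>
    (p j : ℂ) * z + L (Complex.exp (N * z)) j / N + c * κ j with hy
  set F : ℕ → ℂ → ℂ := fun N z => eval ((N : ℂ) • y N z) P / (N : ℂ) ^ d with hF
  set y₀ : ℂ → Fin n → ℂ := fun z j => (p j : ℂ) * z + c * κ j with hy₀
  have hGval : ∀ w : ℂ, eval (y₀ (c * w)) Q = c ^ d * eval (zc κ + w • zc p) Q := by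
    intro w
    rw [← P6_hom Q hQ]
    congr 2
    funext j
    simp only [hy₀, Pi.smul_apply, Pi.add_apply, zc, smul_eq_mul]
    ring
  have hGdiff : Differentiable ℂ (fun z => eval (y₀ z) Q) := by
    rw [← differentiableOn_univ]
    refine P6_diff Q y₀ Set.univ fun j => ?_
    simp only [hy₀]
    fun_prop
  have key := hurwitz (l := (atTop : Filter ℕ)) (F := F) (G := fun z => eval (y₀ z) Q)
    (z₀ := ζ₀) (r := ρ) hρ0 ?_ hGdiff.differentiableOn ?_ ?_ ?_
  · -- conclusion
    obtain ⟨N, ⟨z, hz, hFz⟩, hN1, hNr⟩ := (key.and hsmall).exists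
    have hN0 : (N : ℂ) ≠ 0 := by
      have : N ≠ 0 := by omega
      exact_mod_cast this
    have h1 : eval ((N : ℂ) • y N z) P = 0 := by
      rw [hF] at hFz
      rcases div_eq_zero_iff.mp hFz with h | h
      · exact h
      · exact absurd h (pow_ne_zero _ hN0)
    refine hbad _ ?_ h1
    have h2 : (fun j => Complex.exp (((N : ℂ) • y N z) j)) = pt p L (Complex.exp (N * z)) := by
      funext j
      have h3 : ((N : ℂ) • y N z) j = (p j : ℂ) * (N * z) + L (Complex.exp (N * z)) j +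
          ((σ * N * κ j : ℤ) : ℂ) * (2 * Real.pi * Complex.I) := by
        simp only [hy, Pi.smul_apply, smul_eq_mul, hc0]
        push_cast
        field_simp
      rw [h3, Complex.exp_periodic.int_mul, Complex.exp_add, Complex.exp_int_mul]
      rfl
    rw [h2]
    exact hc.mem _ (Complex.exp_ne_zero _) (hNr z hz)
  · filter_upwards [hsmall] with N hN
    have hexp : Set.MapsTo (fun z : ℂ => Complex.exp (N * z)) (Metric.ball ζ₀ ρ)
        (Metric.ball 0 r) := fun z hz => by
      rw [mem_ball_zero_iff]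
      exact hN.2 z hz
    refine (P6_diff P (fun z => (N : ℂ) • y N z) _ fun j => ?_).div_const _
    simp only [hy, Pi.smul_apply, smul_eq_mul]
    have h1 : DifferentiableOn ℂ (fun z : ℂ => L (Complex.exp (N * z)) j) (Metric.ball ζ₀ ρ) :=
      (hc.diff j).comp (by fun_prop) hexp
    have h2 : DifferentiableOn ℂ (fun z : ℂ => (p j : ℂ) * z) (Metric.ball ζ₀ ρ) := by fun_prop
    exact ((h2.add (h1.div_const _)).add (differentiableOn_const _)).const_mul _
  · intro z hz
    have hzneg : z.re < 0 := by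
      have := hball z hz
      linarith
    refine lemmaTop (l := atTop ×ˢ 𝓝 z) P (fun q : ℕ × ℂ => (q.1 : ℂ)) (fun q => y q.1 q.2)
      (y₀ z) ?_ ?_
    · simp only [Complex.norm_natCast]
      exact tendsto_natCast_atTop_atTop.comp tendsto_fst
    · rw [tendsto_pi_nhds]
      intro j
      have hexp0 : Tendsto (fun q : ℕ × ℂ => Complex.exp (q.1 * q.2)) (atTop ×ˢ 𝓝 z) (𝓝 0) := by
        rw [tendsto_zero_iff_norm_tendsto_zero]
        simp only [Complex.norm_exp, P6_re]
        refine Real.tendsto_exp_atBot.comp ?_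
        exact Tendsto.atTop_mul_neg hzneg (tendsto_natCast_atTop_atTop.comp tendsto_fst)
          ((Complex.continuous_re.tendsto z).comp tendsto_snd)
      have hLc : ContinuousAt (fun s => L s j) 0 :=
        ((hc.diff j).differentiableAt (Metric.ball_mem_nhds 0 hc.pos)).continuousAt
      have h1 : Tendsto (fun q : ℕ × ℂ => L (Complex.exp (q.1 * q.2)) j) (atTop ×ˢ 𝓝 z)
          (𝓝 (L 0 j)) := hLc.tendsto.comp hexp0
      have h2 : Tendsto (fun q : ℕ × ℂ => ((q.1 : ℂ))⁻¹) (atTop ×ˢ 𝓝 z) (𝓝 0) :=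
        (tendsto_inv_atTop_nhds_zero_nat (𝕜 := ℂ)).comp tendsto_fst
      have h3 := h1.mul h2
      rw [mul_zero] at h3
      have h4 : Tendsto (fun q : ℕ × ℂ => (p j : ℂ) * q.2) (atTop ×ˢ 𝓝 z)
          (𝓝 ((p j : ℂ) * z)) := tendsto_snd.const_mul _
      have h5 := (h4.add h3).add_const (c * κ j)
      rw [add_zero] at h5
      simp only [hy, hy₀, div_eq_mul_inv]
      exact h5
  · show eval (y₀ ζ₀) Q = 0
    rw [hζ₀, hGval, h0, mul_zero]
  · intro hev
    obtain ⟨ω', hω'⟩ := hne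
    have h1 : (fun z => eval (y₀ z) Q) = fun _ => 0 :=
      AnalyticOnNhd.eq_of_eventuallyEq (z₀ := ζ₀)
        (fun z _ => hGdiff.analyticAt z) (fun z _ => analyticAt_const) hev
    have h2 : eval (y₀ (c * ω')) Q = 0 := congrFun h1 (c * ω')
    rw [hGval] at h2
    rcases mul_eq_zero.mp h2 with h | h
    · exact pow_ne_zero _ hcne h
    · exact hω' h

end XW
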