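import Pool.Agent.Lib.MP_228259_lc.Defs

/-!
P7a: see /team-store/XW_blueprint.md
P7a root_sign. b >= 2. If b >= 3: all b-th roots of a nonzero number: sum is 0, so one has Re < 0 (else all Re = 0, impossible for b >= 3 distinct roots v*zeta^k). If b = 2 (a = 1): v^2 = 2 pi i sigma / y; if v is purely imaginary for sigma = 1 then i v works for sigma = -1 (real nonzero), choose sign.
-/

namespace XW

open Filter Topology MvPolynomial

theorem root_sign (a b : ℕ) (ha : 0 < a) (hab : a < b) (hcop : Nat.Coprime a b) (y : ℂ)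
    (hy : y ≠ 0) :
    ∃ σ v : ℂ, (σ = 1 ∨ σ = -1) ∧ v.re < 0 ∧
      v ^ b * y = (2 * Real.pi * Complex.I * σ) ^ a := by
  have hpi : (Real.pi : ℂ) ≠ 0 := by exact_mod_cast Real.pi_ne_zero
  have h2pi : (2 * Real.pi * Complex.I : ℂ) ≠ 0 :=
    mul_ne_zero (mul_ne_zero two_ne_zero hpi) Complex.I_ne_zero
  have hb0 : b ≠ 0 := by omega
  set c : ℂ := (2 * Real.pi * Complex.I) ^ a / y with hc
  have hc0 : c ≠ 0 := div_ne_zero (pow_ne_zero _ h2pi) hy
  obtain ⟨v₀, hv₀⟩ : ∃ v₀ : ℂ, v₀ ^ b = c := IsAlgClosed.exists_pow_nat_eq c (by omega)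
  have hv0 : v₀ ≠ 0 := by
    rintro rfl
    rw [zero_pow hb0] at hv₀
    exact hc0 hv₀.symm
  have hcy : c * y = (2 * Real.pi * Complex.I) ^ a := by
    rw [hc]
    exact div_mul_cancel₀ _ hy
  rcases Nat.lt_or_ge 2 b with hb | hb
  · -- at least three roots
    have hζ := Complex.isPrimitiveRoot_exp b hb0
    set ζ := Complex.exp (2 * Real.pi * Complex.I / b) with hζdef
    by_contra hcon
    push Not at hcon
    have hre : ∀ k : ℕ, 0 ≤ (v₀ * ζ ^ k).re := by
      intro k
      by_contra hlt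
      push Not at hlt
      refine hcon 1 (v₀ * ζ ^ k) (Or.inl rfl) hlt ?_
      rw [mul_pow, ← pow_mul, mul_comm k b, pow_mul, hζ.pow_eq_one, one_pow, mul_one, hv₀, hcy,
        mul_one]
    have hsum : ∑ k ∈ Finset.range b, (v₀ * ζ ^ k).re = 0 := by
      rw [← Complex.re_sum, ← Finset.mul_sum, hζ.geom_sum_eq_zero (by omega), mul_zero,
        Complex.zero_re]
    have hall := (Finset.sum_eq_zero_iff_of_nonneg fun k _ => hre k).mp hsum
    have h0 := hall 0 (Finset.mem_range.mpr (by omega))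
    have h1 := hall 1 (Finset.mem_range.mpr (by omega))
    rw [pow_zero, mul_one] at h0
    rw [pow_one, Complex.mul_re, h0, zero_mul, zero_sub, neg_eq_zero, mul_eq_zero] at h1
    have him : v₀.im ≠ 0 := fun h => hv0 (Complex.ext h0 h)
    have hζim : ζ.im = 0 := h1.resolve_left him
    have hζim' : ζ.im = Real.sin (2 * Real.pi / b) := by
      rw [hζdef]
      have : (2 * Real.pi * Complex.I / b : ℂ) = ((2 * Real.pi / b : ℝ) : ℂ) * Complex.I := by
        push_cast
        ring
      rw [this, Complex.exp_ofReal_mul_I_im]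
    rw [hζim'] at hζim
    have hbR : (2 : ℝ) < b := by exact_mod_cast hb
    have hsin : 0 < Real.sin (2 * Real.pi / b) := by
      refine Real.sin_pos_of_pos_of_lt_pi (by positivity) ?_
      rw [div_lt_iff₀ (by linarith)]
      nlinarith [Real.pi_pos]
    exact hsin.ne' hζim
  · have hb2 : b = 2 := by omega
    have ha1 : a = 1 := by omega
    subst hb2 ha1
    rw [pow_one] at hcy
    have hsq : v₀ ^ 2 * y = 2 * Real.pi * Complex.I := by rw [hv₀, hcy]
    rcases lt_trichotomy v₀.re 0 with h | h | h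
    · exact ⟨1, v₀, Or.inl rfl, h, by rw [hsq]; ring⟩
    · have him : v₀.im ≠ 0 := fun h' => hv0 (Complex.ext h h')
      rcases lt_or_gt_of_ne him with h' | h'
      · refine ⟨-1, -(Complex.I * v₀), Or.inr rfl, ?_, ?_⟩
        · rw [Complex.neg_re, Complex.I_mul_re, neg_neg]
          exact h'
        · calc (-(Complex.I * v₀)) ^ 2 * y = Complex.I ^ 2 * (v₀ ^ 2 * y) := by ring
            _ = _ := by rw [hsq, Complex.I_sq]; ring
      · refine ⟨-1, Complex.I * v₀, Or.inr rfl, ?_, ?_⟩
        · rw [Complex.I_mul_re]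
          linarith
        · calc (Complex.I * v₀) ^ 2 * y = Complex.I ^ 2 * (v₀ ^ 2 * y) := by ring
            _ = _ := by rw [hsq, Complex.I_sq]; ring
    · refine ⟨1, -v₀, Or.inl rfl, ?_, ?_⟩
      · rw [Complex.neg_re]
        linarith
      · rw [neg_sq, hsq]
        ring

end XW
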