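import Pool.Agent.Lib.MP_228259_lc.Defs

/-!
P7b: see /team-store/XW_blueprint.md
P7b edge. Choose i1 in S with E i1 < e minimising the rational (d-i)/(e-E i); it is in (0,1); write it as (b-a)/b in lowest terms (b = den, b-a = num).
-/

namespace XW

open Filter Topology MvPolynomial

theorem edge (d e : ℕ) (E : ℕ → ℕ) (S : Finset ℕ) (hS : ∀ i ∈ S, i < d)
    (hex : ∃ i ∈ S, d + E i < e + i) :
    ∃ a b i₁ : ℕ, 0 < a ∧ a < b ∧ Nat.Coprime a b ∧ i₁ ∈ S ∧
      (∀ i ∈ S, ((b : ℤ) - a) * ((e : ℤ) - E i) ≤ (b : ℤ) * ((d : ℤ) - i)) ∧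
      ((b : ℤ) - a) * ((e : ℤ) - E i₁) = (b : ℤ) * ((d : ℤ) - i₁) := by
  classical
  set T := S.filter fun i => E i < e with hT
  have hTne : T.Nonempty := by
    obtain ⟨i, hi, hlt⟩ := hex
    have := hS i hi
    exact ⟨i, Finset.mem_filter.mpr ⟨hi, by omega⟩⟩
  obtain ⟨i₁, hi₁, hmin⟩ := Finset.exists_min_image T
    (fun i => ((d : ℚ) - i) / ((e : ℚ) - E i)) hTne
  obtain ⟨hi₁S, hi₁e⟩ := Finset.mem_filter.mp hi₁
  have hi₁d := hS i₁ hi₁S
  set r : ℚ := ((d : ℚ) - i₁) / ((e : ℚ) - E i₁) with hr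
  have hpos1 : (0 : ℚ) < (e : ℚ) - E i₁ := by
    have : (E i₁ : ℚ) < e := by exact_mod_cast hi₁e
    linarith
  have hpos2 : (0 : ℚ) < (d : ℚ) - i₁ := by
    have : (i₁ : ℚ) < d := by exact_mod_cast hi₁d
    linarith
  have hr0 : 0 < r := div_pos hpos2 hpos1
  have hr1 : r < 1 := by
    obtain ⟨i, hi, hlt⟩ := hex
    have hid := hS i hi
    have hiT : i ∈ T := Finset.mem_filter.mpr ⟨hi, by omega⟩
    have h1 := hmin i hiT
    have h2 : (0 : ℚ) < (e : ℚ) - E i := by
      have h3 : E i < e := by omega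
      have : (E i : ℚ) < e := by exact_mod_cast h3
      linarith
    refine lt_of_le_of_lt h1 ?_
    rw [div_lt_one h2]
    have h3 : ((d : ℚ) + E i) < e + i := by exact_mod_cast hlt
    linarith
  have hnum : 0 < r.num := Rat.num_pos.mpr hr0
  have hnumden : r.num < r.den := by
    exact Rat.num_lt_denom_iff.mpr hr1
  obtain ⟨m, hm⟩ : ∃ m : ℕ, r.num = m := ⟨r.num.toNat, by omega⟩
  have hden : 0 < r.den := r.den_pos
  have hm1 : m < r.den := by omega
  have hm0 : 0 < m := by omega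
  have hrm : r = (m : ℚ) / (r.den : ℚ) := by
    conv_lhs => rw [← Rat.num_div_den r, hm]
    push_cast
    rfl
  have hdenQ : (0 : ℚ) < (r.den : ℚ) := by exact_mod_cast hden
  have hcop : Nat.Coprime m r.den := by
    have := r.reduced
    rw [hm] at this
    exact this
  refine ⟨r.den - m, r.den, i₁, by omega, by omega, ?_, hi₁S, ?_, ?_⟩
  · exact Nat.coprime_comm.mp ((Nat.coprime_self_sub_right hm1.le).mpr hcop.symm)
  · intro i hi
    have hid := hS i hi
    have hc : (((r.den : ℤ) - ((r.den - m : ℕ) : ℤ))) = m := by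
      rw [Nat.cast_sub hm1.le]
      ring
    rw [hc]
    by_cases hEi : E i < e
    · have h1 := hmin i (Finset.mem_filter.mpr ⟨hi, hEi⟩)
      have h2 : (0 : ℚ) < (e : ℚ) - E i := by
        have : (E i : ℚ) < e := by exact_mod_cast hEi
        linarith
      have h3 : r ≤ ((d : ℚ) - i) / ((e : ℚ) - E i) := h1
      rw [le_div_iff₀ h2, hrm, div_mul_eq_mul_div, div_le_iff₀ hdenQ] at h3
      have h4 : ((m : ℤ) : ℚ) * ((e : ℤ) - (E i : ℤ) : ℤ) ≤
          ((r.den : ℤ) : ℚ) * ((d : ℤ) - (i : ℤ) : ℤ) := by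
        push_cast
        linarith
      exact_mod_cast h4
    · have h1 : (e : ℤ) - E i ≤ 0 := by omega
      have h2 : (0 : ℤ) ≤ (d : ℤ) - i := by omega
      calc (m : ℤ) * ((e : ℤ) - E i) ≤ 0 :=
            mul_nonpos_of_nonneg_of_nonpos (by positivity) h1
        _ ≤ _ := mul_nonneg (by positivity) h2
  · have hc : (((r.den : ℤ) - ((r.den - m : ℕ) : ℤ))) = m := by
      rw [Nat.cast_sub hm1.le]
      ring
    rw [hc]
    have h3 : r * ((e : ℚ) - E i₁) = (d : ℚ) - i₁ := by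
      rw [hr]
      exact div_mul_cancel₀ _ hpos1.ne'
    have h4 : (m : ℚ) * ((e : ℚ) - E i₁) = r.den * ((d : ℚ) - i₁) := by
      rw [← h3]
      have h5 : (m : ℚ) = r.den * r := by
        have h6 := (div_eq_iff hdenQ.ne').mp hrm.symm
        rw [h6]
        ring
      rw [h5]
      ring
    exact_mod_cast h4

end XW
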