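import Pool.Agent.Lib.MP_228259_lc.P1
import Pool.Agent.Lib.MP_228259_lc.P2b
import Pool.Agent.Lib.MP_228259_lc.P7a
import Pool.Agent.Lib.MP_228259_lc.P7b

/-!
P8: see /team-store/XW_blueprint.md
P8 tame: Newton polygon and Hurwitz.
-/

namespace XW

open Filter Topology MvPolynomial

private theorem tame_eval_smul {n : ℕ} {φ : MvPolynomial (Fin n) ℂ} {m : ℕ}
    (hφ : φ.IsHomogeneous m) (c : ℂ) (x : Fin n → ℂ) :
    eval (c • x) φ = c ^ m * eval x φ := by
  rw [eval_eq, eval_eq, Finset.mul_sum]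
  refine Finset.sum_congr rfl fun s hs => ?_
  have h1 : ∏ i ∈ s.support, (c • x) i ^ s i = c ^ m * ∏ i ∈ s.support, x i ^ s i := by
    simp only [Pi.smul_apply, smul_eq_mul, mul_pow, Finset.prod_mul_distrib,
      Finset.prod_pow_eq_pow_sum]
    congr 2
    have h2 := hφ (mem_support_iff.1 hs)
    rw [Finsupp.weight_apply] at h2
    simpa [Finsupp.sum] using h2
  rw [h1]; ring

private theorem tame_eval_diff {n : ℕ} (P : MvPolynomial (Fin n) ℂ) {z : ℂ → Fin n → ℂ}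
    {s : Set ℂ} (hz : ∀ j, DifferentiableOn ℂ (fun t => z t j) s) :
    DifferentiableOn ℂ (fun t => eval (z t) P) s := by
  induction P using MvPolynomial.induction_on with
  | C a => simp only [eval_C]; exact differentiableOn_const _
  | add p q hp hq => simp only [map_add]; exact hp.add hq
  | mul_X p j hp => simp only [map_mul, eval_X]; exact hp.mul (hz j)

/-- the exponents -/
private theorem tame_arith {a b d e k Ek : ℕ} (ha : 0 < a) (hab : a < b)
    (hcop : Nat.Coprime a b) (hk : k ≤ d) 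
    (heq : ((b : ℤ) - a) * ((e : ℤ) - Ek) = (b : ℤ) * ((d : ℤ) - k)) :
    ∃ t : ℕ, Ek + b * t = e ∧ k + (b - a) * t = d := by
  obtain ⟨c, rfl⟩ := Nat.exists_eq_add_of_lt hab
  have hc1 : ((a + c + 1 : ℕ) : ℤ) - a = (c + 1 : ℕ) := by push_cast; ring
  rw [hc1] at heq
  have hcop' : IsCoprime (((a + c + 1 : ℕ) : ℤ)) (((c + 1 : ℕ) : ℤ)) := by
    rw [Nat.isCoprime_iff_coprime]
    have h1 : Nat.Coprime (a + (c + 1)) (c + 1) := by
      rw [Nat.coprime_add_self_left]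
      have h2 : Nat.Coprime a (a + (c + 1)) := hcop
      rwa [Nat.coprime_self_add_right] at h2
    exact h1
  have hdvd : (((a + c + 1 : ℕ) : ℤ)) ∣ (e : ℤ) - Ek :=
    hcop'.dvd_of_dvd_mul_left ⟨_, heq⟩
  obtain ⟨t, ht⟩ := hdvd
  have h3 : ((c + 1 : ℕ) : ℤ) * t = (d : ℤ) - k := by
    rw [ht] at heq
    have h4 : ((a + c + 1 : ℕ) : ℤ) ≠ 0 := by positivity
    apply mul_left_cancel₀ h4
    rw [← heq]; ring
  have ht0 : 0 ≤ t := by
    by_contra hneg
    push Not at hneg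
    have h5 : ((c + 1 : ℕ) : ℤ) * t < 0 := mul_neg_of_pos_of_neg (by positivity) hneg
    omega
  obtain ⟨t', rfl⟩ := Int.eq_ofNat_of_zero_le ht0
  refine ⟨t', ?_, ?_⟩
  · have : ((Ek + (a + c + 1) * t' : ℕ) : ℤ) = e := by push_cast at ht ⊢; linarith
    exact_mod_cast this
  · have h6 : a + c + 1 - a = c + 1 := by omega
    rw [h6]
    have : ((k + (c + 1) * t' : ℕ) : ℤ) = d := by push_cast at h3 ⊢; linarith
    exact_mod_cast this

private theorem tame_coeff (J : Finset ℕ) (t : ℕ → ℕ) (β : ℕ → ℂ)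
    (hinj : ∀ k ∈ J, ∀ l ∈ J, t k = t l → k = l) {m : ℕ} (hm : m ∈ J) :
    (∑ k ∈ J, Polynomial.C (β k) * Polynomial.X ^ (t k)).coeff (t m) = β m := by
  rw [Polynomial.finsetSum_coeff]
  simp only [Polynomial.coeff_C_mul_X_pow]
  rw [Finset.sum_eq_single m]
  · simp
  · intro k hk hkm
    rw [if_neg]
    intro h
    exact hkm (hinj k hk m hm h.symm)
  · intro h; exact absurd hm h

private theorem tame_root {d e : ℕ} {E : ℕ → ℕ} {a b i₁ : ℕ} (ha : 0 < a) (hab : a < b)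
    (hcop : Nat.Coprime a b) (J : Finset ℕ) (hJd : d ∈ J) (hi : i₁ ∈ J) (hid : i₁ < d)
    (hle : ∀ k ∈ J, k ≤ d)
    (heq : ∀ k ∈ J, ((b : ℤ) - a) * ((e : ℤ) - E k) = (b : ℤ) * ((d : ℤ) - k))
    (hed : e ≤ d) (hEk : ∀ k ∈ J, E k ≤ k) (β : ℕ → ℂ) (hβ : ∀ k ∈ J, β k ≠ 0) :
    ∃ σ v : ℂ, (σ = 1 ∨ σ = -1) ∧ v.re < 0 ∧
      ∑ k ∈ J, (2 * Real.pi * Complex.I * σ) ^ (k - E k) * β k * v ^ (E k) = 0 := by
  have hex : ∀ k : ℕ, ∃ t : ℕ, k ∈ J → E k + b * t = e ∧ k + (b - a) * t = d := by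
    intro k
    by_cases hk : k ∈ J
    · obtain ⟨t, ht⟩ := tame_arith ha hab hcop (hle k hk) (heq k hk)
      exact ⟨t, fun _ => ht⟩
    · exact ⟨0, fun h => absurd h hk⟩
  choose t ht using hex
  have hba : 0 < b - a := by omega
  have hinj : ∀ k ∈ J, ∀ l ∈ J, t k = t l → k = l := by
    intro k hk l hl h
    have h1 := (ht k hk).2
    have h2 := (ht l hl).2
    rw [h] at h1
    omega
  have htd : t d = 0 := by
    have h1 := (ht d hJd).2
    have h2 : (b - a) * t d = 0 := by omega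
    rcases Nat.mul_eq_zero.1 h2 with h3 | h3
    · omega
    · exact h3
  have hti : t i₁ ≠ 0 := by
    intro h0
    have h1 := (ht i₁ hi).2
    rw [h0] at h1
    omega
  obtain ⟨y, hy⟩ := IsAlgClosed.exists_root
    (∑ k ∈ J, Polynomial.C (β k) * Polynomial.X ^ (t k)) (by
      intro hdeg
      have h1 := tame_coeff J t β hinj hi
      rw [Polynomial.eq_C_of_degree_eq_zero hdeg, Polynomial.coeff_C, if_neg hti] at h1
      exact hβ i₁ hi h1.symm)
  have hy' : ∑ k ∈ J, β k * y ^ (t k) = 0 := by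
    have h1 : Polynomial.eval y (∑ k ∈ J, Polynomial.C (β k) * Polynomial.X ^ (t k)) = 0 := hy
    rw [Polynomial.eval_finsetSum] at h1
    simpa using h1
  have hy0 : y ≠ 0 := by
    rintro rfl
    rw [Finset.sum_eq_single d] at hy'
    · rw [htd, pow_zero, mul_one] at hy'
      exact hβ d hJd hy'
    · intro k hk hkd
      rw [zero_pow, mul_zero]
      intro h
      exact hkd (hinj k hk d hJd (by rw [h, htd]))
    · intro h; exact absurd hJd h
  obtain ⟨σ, v, hσ, hv, hvy⟩ := root_sign a b ha hab hcop y hy0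
  refine ⟨σ, v, hσ, hv, ?_⟩
  have hterm : ∀ k ∈ J, (2 * Real.pi * Complex.I * σ) ^ (k - E k) * β k * v ^ (E k) =
      (v ^ e * (2 * Real.pi * Complex.I * σ) ^ (d - e)) * (β k * y ^ (t k)) := by
    intro k hk
    obtain ⟨h1, h2⟩ := ht k hk
    have h3 : k - E k = (d - e) + a * t k := by
      have h4 := hEk k hk
      have h5 : (b - a) * t k + a * t k = b * t k := by rw [← Nat.add_mul]; congr 1; omega
      omega
    rw [h3, pow_add, pow_mul, ← hvy, mul_pow (v ^ b) y (t k), ← pow_mul]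
    have h4 : v ^ e = v ^ (E k) * v ^ (b * t k) := by rw [← pow_add, h1]
    rw [h4]
    ring
  rw [Finset.sum_congr rfl hterm, ← Finset.mul_sum, hy', mul_zero]

/-- a nonzero polynomial expression does not vanish near a point -/
private theorem tame_not_locally (J : Finset ℕ) (E : ℕ → ℕ) (c : ℕ → ℂ)
    (hinj : ∀ k ∈ J, ∀ l ∈ J, E k = E l → k = l) {m : ℕ} (hm : m ∈ J) (hc : c m ≠ 0) (v : ℂ) :
    ¬ ∀ᶠ z in 𝓝 v, ∑ k ∈ J, c k * z ^ (E k) = 0 := by
  intro h
  have hp : (∑ k ∈ J, Polynomial.C (c k) * Polynomial.X ^ (E k)) ≠ 0 := by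
    intro h0
    have h1 := tame_coeff J E c hinj hm
    rw [h0, Polynomial.coeff_zero] at h1
    exact hc h1.symm
  have hfin : {z : ℂ | ∑ k ∈ J, c k * z ^ (E k) = 0}.Finite := by
    refine ((∑ k ∈ J, Polynomial.C (c k) * Polynomial.X ^ (E k)).roots.toFinset.finite_toSet).subset ?_
    intro z hz
    simp only [Finset.mem_coe, Multiset.mem_toFinset]
    rw [Polynomial.mem_roots hp, Polynomial.IsRoot, Polynomial.eval_finsetSum]
    simpa using hz
  exact (infinite_of_mem_nhds v h) hfin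

private theorem tame_zpow_lim {m : ℤ} (hm : m < 0) :
    Tendsto (fun K : ℕ => ((K : ℂ)) ^ m) atTop (𝓝 0) := by
  have h1 : Tendsto (fun x : ℝ => x ^ m) atTop (𝓝 0) := tendsto_zpow_atTop_zero hm
  have h2 := (Complex.continuous_ofReal.tendsto 0).comp
    (h1.comp (tendsto_natCast_atTop_atTop (R := ℝ)))
  simp only [Complex.ofReal_zero] at h2
  refine h2.congr fun K => ?_
  simp [Function.comp]

theorem tame {n : ℕ} {W : Set (Fin n → ℂ)} {P H : MvPolynomial (Fin n) ℂ}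
    (hbad : Bad W P) {r : ℝ} {p : Fin n → ℤ} {L : ℂ → Fin n → ℂ} (hc : SChart W r p L)
    {d h : ℕ} {E : ℕ → ℕ} {B : ℕ → MvPolynomial (Fin n) ℂ} (hdec : Dec P H d h E B)
    (κ : Fin n → ℤ) (ω : ℝ) (hH0 : eval (zc κ + (ω : ℂ) • zc p) H = 0)
    (hD : eval (zc κ + (ω : ℂ) • zc p) (dirD (zc p) H) ≠ 0)
    (hB : ∀ i ≤ d, B i ≠ 0 → eval (zc κ + (ω : ℂ) • zc p) (B i) ≠ 0) :
    ∀ i ≤ d, B i ≠ 0 → i + E d ≤ d + E i := by
  classical
  intro i hi hBi
  by_contra hcon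
  push Not at hcon
  have hid : i ≠ d := by
    rintro rfl
    omega
  obtain ⟨a, b, i₁, ha, hab, hcop, hi₁, hineq, heq₁⟩ := edge d (E d) E
    ((Finset.range d).filter (fun k => B k ≠ 0))
    (fun k hk => Finset.mem_range.1 (Finset.mem_filter.1 hk).1)
    ⟨i, Finset.mem_filter.2 ⟨Finset.mem_range.2 (lt_of_le_of_ne hi hid), hBi⟩, by omega⟩
  have hi₁d : i₁ < d := Finset.mem_range.1 (Finset.mem_filter.1 hi₁).1
  have hi₁B : B i₁ ≠ 0 := (Finset.mem_filter.1 hi₁).2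
  obtain ⟨κs, hκs⟩ : ∃ x : Fin n → ℂ, x = zc κ + (ω : ℂ) • zc p := ⟨_, rfl⟩
  rw [← hκs] at hH0 hD
  have hB' : ∀ i ≤ d, B i ≠ 0 → eval κs (B i) ≠ 0 := by rw [hκs]; exact hB
  obtain ⟨D, hDD⟩ : ∃ x : ℂ, x = eval κs (dirD (zc p) H) := ⟨_, rfl⟩
  rw [← hDD] at hD
  obtain ⟨J, hJ⟩ : ∃ J : Finset ℕ, J = (Finset.range (d + 1)).filter (fun k => B k ≠ 0 ∧
      ((b : ℤ) - a) * ((E d : ℤ) - E k) = (b : ℤ) * ((d : ℤ) - k)) := ⟨_, rfl⟩
  have hJmem : ∀ k, k ∈ J ↔ k ≤ d ∧ B k ≠ 0 ∧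
      ((b : ℤ) - a) * ((E d : ℤ) - E k) = (b : ℤ) * ((d : ℤ) - k) := by
    intro k
    rw [hJ, Finset.mem_filter, Finset.mem_range, Nat.lt_succ_iff]
  have hhpos := hdec.hpos
  have hEle : ∀ k ≤ d, B k ≠ 0 → E k ≤ k := by
    intro k hk hBk
    have h1 := (hdec.deg k hk hBk).1
    nlinarith
  have hdJ : d ∈ J := (hJmem d).2 ⟨le_rfl, hdec.top, by ring⟩
  have hi₁J : i₁ ∈ J := (hJmem i₁).2 ⟨hi₁d.le, hi₁B, heq₁⟩
  obtain ⟨σ, v₀, hσ, hv₀, hsum⟩ := tame_root (E := E) ha hab hcop J hdJ hi₁J hi₁d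
    (fun k hk => ((hJmem k).1 hk).1) (fun k hk => ((hJmem k).1 hk).2.2)
    (hEle d le_rfl hdec.top)
    (fun k hk => hEle k ((hJmem k).1 hk).1 ((hJmem k).1 hk).2.1)
    (fun k => eval κs (B k) * D ^ (E k))
    (fun k hk => mul_ne_zero (hB' k ((hJmem k).1 hk).1 ((hJmem k).1 hk).2.1) (pow_ne_zero _ hD))
  obtain ⟨σz, hσz, hσz'⟩ : ∃ s : ℤ, σ = s ∧ s ≠ 0 := by
    rcases hσ with h1 | h1
    · exact ⟨1, by simp [h1], one_ne_zero⟩
    · exact ⟨-1, by simp [h1], by norm_num⟩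
  obtain ⟨u, hu⟩ : ∃ u : ℂ, u = 2 * Real.pi * Complex.I * σ := ⟨_, rfl⟩
  rw [← hu] at hsum
  have hu0 : u ≠ 0 := by
    rw [hu, hσz]
    refine mul_ne_zero ?_ (by exact_mod_cast hσz')
    exact Complex.two_pi_I_ne_zero
  have hEinj : ∀ k ∈ J, ∀ l ∈ J, E k = E l → k = l := by
    intro k hk l hl hkl
    obtain ⟨t, ht1, ht2⟩ := tame_arith ha hab hcop ((hJmem k).1 hk).1 ((hJmem k).1 hk).2.2
    obtain ⟨t', ht1', ht2'⟩ := tame_arith ha hab hcop ((hJmem l).1 hl).1 ((hJmem l).1 hl).2.2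
    have h1 : b * t = b * t' := by omega
    have h2 : t = t' := Nat.eq_of_mul_eq_mul_left (by omega) h1
    subst h2
    omega
  -- the parameters
  obtain ⟨w, hw⟩ : ∃ w : ℕ → ℂ → ℂ, w = fun (K : ℕ) (v : ℂ) => u * ω * (K : ℂ) ^ b + (K : ℂ) ^ a * v :=
    ⟨_, rfl⟩
  obtain ⟨z, hz⟩ : ∃ z : ℕ → ℂ → Fin n → ℂ, z = fun (K : ℕ) (v : ℂ) (j : Fin n) =>
      (p j : ℂ) * w K v + L (Complex.exp (w K v)) j + u * (K : ℂ) ^ b * κ j := ⟨_, rfl⟩
  have hwre : ∀ (K : ℕ) (v : ℂ), (w K v).re = (K : ℝ) ^ a * v.re := by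
    intro K v
    have h1 : u * ω * (K : ℂ) ^ b = ((2 * Real.pi * σz * ω * (K : ℝ) ^ b : ℝ) : ℂ) * Complex.I := by
      rw [hu, hσz]; push_cast; ring
    have h2 : (K : ℂ) ^ a = (((K : ℝ) ^ a : ℝ) : ℂ) := by push_cast; ring
    rw [hw]
    simp only
    rw [h1, h2, Complex.add_re, Complex.re_ofReal_mul, Complex.re_ofReal_mul]
    simp
  have hzkey : ∀ (K : ℕ) (v : ℂ), K ≠ 0 → z K v = ((K : ℂ) ^ b) • (u • κs +
      ((K : ℂ) ^ a / (K : ℂ) ^ b) • (v • zc p +
        (((K : ℂ) ^ a)⁻¹) • L (Complex.exp (w K v)))) := by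
    intro K v hK
    have hK' : (K : ℂ) ≠ 0 := by exact_mod_cast hK
    funext j
    rw [hz, hκs]
    simp only [Pi.add_apply, Pi.smul_apply, smul_eq_mul, zc]
    have h1 : (K : ℂ) ^ a ≠ 0 := pow_ne_zero _ hK'
    have h2 : (K : ℂ) ^ b ≠ 0 := pow_ne_zero _ hK'
    have h3 : w K v = u * ω * (K : ℂ) ^ b + (K : ℂ) ^ a * v := by rw [hw]
    rw [mul_comm (p j : ℂ) (w K v)]
    conv_lhs => rw [show (w K v * (p j : ℂ) : ℂ) =
      (u * ω * (K : ℂ) ^ b + (K : ℂ) ^ a * v) * (p j : ℂ) by rw [h3]]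
    field_simp
    ring
  have hzW : ∀ (K : ℕ) (v : ℂ), ‖Complex.exp (w K v)‖ < r →
      (fun j => Complex.exp (z K v j)) ∈ W := by
    intro K v hK
    have h1 := hc.mem (Complex.exp (w K v)) (Complex.exp_ne_zero _) hK
    have h2 : (fun j => Complex.exp (z K v j)) = pt p L (Complex.exp (w K v)) := by
      funext j
      have h3 : u * (K : ℂ) ^ b * κ j = ((σz * (K : ℤ) ^ b * κ j : ℤ) : ℂ) *
          (2 * Real.pi * Complex.I) := by
        rw [hu, hσz]; push_cast; ring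
      rw [hz]
      simp only
      rw [h3, Complex.exp_add, Complex.exp_add, Complex.exp_int_mul_two_pi_mul_I, mul_one,
        Complex.exp_int_mul]
      rfl
    rw [h2]; exact h1
  -- the limit function
  obtain ⟨G, hG⟩ : ∃ G : ℂ → ℂ, G = fun v => ∑ k ∈ J,
      (u ^ (k - E k) * (eval κs (B k) * D ^ (E k))) * v ^ (E k) := ⟨_, rfl⟩
  have hv₀2 : 0 < -v₀.re / 2 := by linarith
  have hball : ∀ v ∈ Metric.ball v₀ (-v₀.re / 2), v.re < v₀.re / 2 := by
    intro v hv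
    rw [Metric.mem_ball, dist_eq_norm] at hv
    have h1 := (Complex.abs_re_le_norm (v - v₀)).trans_lt hv
    rw [Complex.sub_re] at h1
    have h2 := (abs_lt.1 h1).2
    linarith
  have hKa : Tendsto (fun K : ℕ => (K : ℝ) ^ a) atTop atTop :=
    (tendsto_pow_atTop (by omega)).comp tendsto_natCast_atTop_atTop
  have hgood : ∀ᶠ K : ℕ in atTop, K ≠ 0 ∧ Real.exp ((K : ℝ) ^ a * (v₀.re / 2)) < r := by
    refine (eventually_ne_atTop 0).and ?_
    have h1 : Tendsto (fun K : ℕ => Real.exp ((K : ℝ) ^ a * (v₀.re / 2))) atTop (𝓝 0) :=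
      Real.tendsto_exp_atBot.comp (hKa.atTop_mul_const_of_neg (by linarith))
    exact h1.eventually (gt_mem_nhds hc.pos)
  have hexp : ∀ (K : ℕ), Real.exp ((K : ℝ) ^ a * (v₀.re / 2)) < r →
      ∀ v ∈ Metric.ball v₀ (-v₀.re / 2), ‖Complex.exp (w K v)‖ < r := by
    intro K hK v hv
    rw [Complex.norm_exp, hwre]
    refine lt_of_le_of_lt (Real.exp_le_exp.2 ?_) hK
    exact mul_le_mul_of_nonneg_left (hball v hv).le (by positivity)
  have hev := hurwitz (l := atTop) (F := fun (K : ℕ) (v : ℂ) => eval (z K v) P /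
      (((K : ℂ) ^ b) ^ d * ((K : ℂ) ^ a / (K : ℂ) ^ b) ^ (E d))) (G := G) (z₀ := v₀) hv₀2
      ?_ ?_ ?_ ?_ ?_
  · obtain ⟨K, ⟨v, hv, hFv⟩, hK0, hKr⟩ := (hev.and hgood).exists
    have hK' : (K : ℂ) ≠ 0 := by exact_mod_cast hK0
    rw [div_eq_zero_iff] at hFv
    rcases hFv with h1 | h1
    · exact hbad (z K v) (hzW K v (hexp K hKr v hv)) h1
    · exact absurd h1 (mul_ne_zero (pow_ne_zero _ (pow_ne_zero _ hK'))
        (pow_ne_zero _ (div_ne_zero (pow_ne_zero _ hK') (pow_ne_zero _ hK'))))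
  · -- differentiability
    filter_upwards [hgood] with K hK
    refine DifferentiableOn.div_const ?_ _
    refine tame_eval_diff P fun j => ?_
    have hwd : DifferentiableOn ℂ (fun v => w K v) (Metric.ball v₀ (-v₀.re / 2)) := by
      rw [hw]
      exact ((differentiable_const _).add
        ((differentiable_const _).mul differentiable_id)).differentiableOn
    have hed : DifferentiableOn ℂ (fun v => Complex.exp (w K v))
        (Metric.ball v₀ (-v₀.re / 2)) := hwd.cexp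
    have hLd : DifferentiableOn ℂ (fun v => L (Complex.exp (w K v)) j)
        (Metric.ball v₀ (-v₀.re / 2)) := by
      refine (hc.diff j).comp hed fun v hv => ?_
      rw [mem_ball_zero_iff]
      exact hexp K hK.2 v hv
    rw [hz]
    exact ((hwd.const_mul _).add hLd).add_const _
  · rw [hG]
    refine Differentiable.differentiableOn ?_
    fun_prop
  · -- the limit
    intro z₁ hz₁
    have hz₁re : z₁.re < 0 := by
      have h1 := hball z₁ hz₁
      linarith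
    have hfst : Tendsto (fun q : ℕ × ℂ => q.1) (atTop ×ˢ 𝓝 z₁) atTop := tendsto_fst
    have hsnd : Tendsto (fun q : ℕ × ℂ => q.2) (atTop ×ˢ 𝓝 z₁) (𝓝 z₁) := tendsto_snd
    have hexp0 : Tendsto (fun q : ℕ × ℂ => Complex.exp (w q.1 q.2)) (atTop ×ˢ 𝓝 z₁) (𝓝 0) := by
      rw [tendsto_zero_iff_norm_tendsto_zero]
      have h1 : Tendsto (fun q : ℕ × ℂ => Real.exp ((q.1 : ℝ) ^ a * q.2.re))
          (atTop ×ˢ 𝓝 z₁) (𝓝 0) := by
        refine Real.tendsto_exp_atBot.comp ?_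
        refine (hKa.comp hfst).atTop_mul_neg hz₁re ?_
        exact (Complex.continuous_re.tendsto z₁).comp hsnd
      refine h1.congr fun q => ?_
      rw [Complex.norm_exp, hwre]
    have hL0 : Tendsto (fun q : ℕ × ℂ => L (Complex.exp (w q.1 q.2))) (atTop ×ˢ 𝓝 z₁)
        (𝓝 (L 0)) := by
      rw [tendsto_pi_nhds]
      intro j
      have h1 : ContinuousAt (fun s => L s j) 0 :=
        ((hc.diff j).differentiableAt (Metric.ball_mem_nhds 0 hc.pos)).continuousAt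
      exact h1.tendsto.comp hexp0
    have hKainv : Tendsto (fun q : ℕ × ℂ => (((q.1 : ℂ)) ^ a)⁻¹) (atTop ×ˢ 𝓝 z₁) (𝓝 0) := by
      have h1 : Tendsto (fun K : ℕ => ((K : ℂ)) ^ (-(a : ℤ))) atTop (𝓝 0) :=
        tame_zpow_lim (by omega)
      refine (h1.comp hfst).congr fun q => ?_
      simp [Function.comp]
    have hx : Tendsto (fun q : ℕ × ℂ => q.2 • zc p +
        ((((q.1 : ℂ)) ^ a)⁻¹) • L (Complex.exp (w q.1 q.2))) (atTop ×ˢ 𝓝 z₁)
        (𝓝 (z₁ • zc p)) := by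
      have h1 := (hsnd.smul_const (zc p)).add (hKainv.smul hL0)
      simpa using h1
    have hη : Tendsto (fun q : ℕ × ℂ => (q.1 : ℂ) ^ a / (q.1 : ℂ) ^ b) (atTop ×ˢ 𝓝 z₁)
        (𝓝[≠] 0) := by
      rw [tendsto_nhdsWithin_iff]
      have hne : ∀ᶠ q : ℕ × ℂ in atTop ×ˢ 𝓝 z₁, q.1 ≠ 0 :=
        hfst.eventually (eventually_ne_atTop 0)
      refine ⟨?_, ?_⟩
      · have h1 : Tendsto (fun K : ℕ => ((K : ℂ)) ^ ((a : ℤ) - b)) atTop (𝓝 0) :=
          tame_zpow_lim (by omega)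
        refine (h1.comp hfst).congr' ?_
        filter_upwards [hne] with q hq
        have hq' : (q.1 : ℂ) ≠ 0 := by exact_mod_cast hq
        simp only [Function.comp]
        rw [zpow_sub₀ hq', zpow_natCast, zpow_natCast]
      · filter_upwards [hne] with q hq
        have hq' : (q.1 : ℂ) ≠ 0 := by exact_mod_cast hq
        exact div_ne_zero (pow_ne_zero _ hq') (pow_ne_zero _ hq')
    have hA0 : eval (u • κs) H = 0 := by
      rw [tame_eval_smul hdec.hom, hH0, mul_zero]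
    have hlem := lemmaL (l := atTop ×ˢ 𝓝 z₁) hdec (u • κs) hA0 (z₁ • zc p)
      (fun q : ℕ × ℂ => (q.1 : ℂ) ^ b) (fun q : ℕ × ℂ => (q.1 : ℂ) ^ a / (q.1 : ℂ) ^ b)
      (fun q : ℕ × ℂ => q.2 • zc p + ((((q.1 : ℂ)) ^ a)⁻¹) • L (Complex.exp (w q.1 q.2)))
      (fun k => if ((b : ℤ) - a) * ((E d : ℤ) - E k) = (b : ℤ) * ((d : ℤ) - k) then 1 else 0)
      ?_ hη hx ?_
    · have hGz : G z₁ = ∑ k ∈ Finset.range (d + 1),
          (if ((b : ℤ) - a) * ((E d : ℤ) - E k) = (b : ℤ) * ((d : ℤ) - k) then (1 : ℂ) else 0) *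
            (∑ j, (z₁ • zc p) j * eval (u • κs) (pderiv j H)) ^ (E k) *
              eval (u • κs) (B k) := by
        have hdir : ∑ j, (z₁ • zc p) j * eval (u • κs) (pderiv j H) =
            z₁ * (u ^ (h - 1) * D) := by
          rw [hDD, dirD, map_sum, Finset.mul_sum, Finset.mul_sum]
          refine Finset.sum_congr rfl fun j _ => ?_
          rw [tame_eval_smul (hdec.hom.pderiv (i := j)), map_mul, eval_C, Pi.smul_apply,
            smul_eq_mul]
          ring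
        rw [hG, hJ]
        simp only
        rw [Finset.sum_filter]
        refine Finset.sum_congr rfl fun k hk => ?_
        have hkd : k ≤ d := Nat.lt_succ_iff.1 (Finset.mem_range.1 hk)
        by_cases hBk : B k = 0
        · simp [hBk]
        · by_cases hq : ((b : ℤ) - a) * ((E d : ℤ) - E k) = (b : ℤ) * ((d : ℤ) - k)
          · rw [if_pos ⟨hBk, hq⟩, if_pos hq, one_mul, hdir,
              tame_eval_smul (hdec.deg k hkd hBk).2]
            have h1 := (hdec.deg k hkd hBk).1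
            have h2 := hEle k hkd hBk
            have h3 : k - E k = (h - 1) * E k + (k - E k * h) := by
              obtain ⟨h', rfl⟩ : ∃ h', h = h' + 1 := ⟨h - 1, by omega⟩
              have h4 : (h' + 1 - 1) * E k = h' * E k := by simp
              have h5 : E k * (h' + 1) = h' * E k + E k := by ring
              rw [h4, h5]
              rw [h5] at h1
              omega
            rw [h3, pow_add, pow_mul]
            ring
          · rw [if_neg (fun hh => hq hh.2), if_neg hq]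
            ring
      rw [hGz]
      refine hlem.congr' ?_
      have hne : ∀ᶠ q : ℕ × ℂ in atTop ×ˢ 𝓝 z₁, q.1 ≠ 0 :=
        hfst.eventually (eventually_ne_atTop 0)
      filter_upwards [hne] with q hq
      rw [hzkey q.1 q.2 hq]
    · have hne : ∀ᶠ q : ℕ × ℂ in atTop ×ˢ 𝓝 z₁, q.1 ≠ 0 :=
        hfst.eventually (eventually_ne_atTop 0)
      filter_upwards [hne] with q hq
      have hq' : (q.1 : ℂ) ≠ 0 := by exact_mod_cast hq
      exact pow_ne_zero _ hq'
    · intro k hk hBk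
      have hne : ∀ᶠ q : ℕ × ℂ in atTop ×ˢ 𝓝 z₁, q.1 ≠ 0 :=
        hfst.eventually (eventually_ne_atTop 0)
      have hexpo : ∀ q : ℕ × ℂ, q.1 ≠ 0 →
          ((q.1 : ℂ) ^ ((b : ℤ) * ((k : ℤ) - d) + ((a : ℤ) - b) * ((E k : ℤ) - E d))) =
          ((q.1 : ℂ) ^ b) ^ ((k : ℤ) - d) *
            ((q.1 : ℂ) ^ a / (q.1 : ℂ) ^ b) ^ ((E k : ℤ) - E d) := by
        intro q hq
        have hq' : (q.1 : ℂ) ≠ 0 := by exact_mod_cast hq
        have h1 : (q.1 : ℂ) ^ a / (q.1 : ℂ) ^ b = (q.1 : ℂ) ^ ((a : ℤ) - b) := by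
          rw [zpow_sub₀ hq', zpow_natCast, zpow_natCast]
        rw [h1, zpow_add₀ hq', zpow_mul, zpow_mul, zpow_natCast]
      by_cases hq : ((b : ℤ) - a) * ((E d : ℤ) - E k) = (b : ℤ) * ((d : ℤ) - k)
      · rw [if_pos hq]
        refine tendsto_const_nhds.congr' ?_
        filter_upwards [hne] with q hq0
        rw [← hexpo q hq0]
        have h0 : (b : ℤ) * ((k : ℤ) - d) + ((a : ℤ) - b) * ((E k : ℤ) - E d) = 0 := by
          linarith
        rw [h0, zpow_zero]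
      · rw [if_neg hq]
        have hkd : k ≠ d := by
          rintro rfl
          exact hq (by ring)
        have hle := hineq k (Finset.mem_filter.2
          ⟨Finset.mem_range.2 (lt_of_le_of_ne hk hkd), hBk⟩)
        have hlt : (b : ℤ) * ((k : ℤ) - d) + ((a : ℤ) - b) * ((E k : ℤ) - E d) < 0 := by
          have h1 := lt_of_le_of_ne hle hq
          linarith
        refine ((tame_zpow_lim hlt).comp hfst).congr' ?_
        filter_upwards [hne] with q hq0
        rw [← hexpo q hq0]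
        rfl
  · rw [hG]
    exact hsum
  · rw [hG]
    exact tame_not_locally J E _ hEinj hdJ (mul_ne_zero (pow_ne_zero _ hu0)
      (mul_ne_zero (hB' d le_rfl hdec.top) (pow_ne_zero _ hD))) v₀

end XW
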