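import Pool.Agent.Lib.MP_228259_lc.P3a
import Pool.Agent.Lib.MP_228259_lc.P3b
import Pool.Agent.Lib.MP_228259_lc.P4a
import Pool.Agent.Lib.MP_228259_lc.P4b
import Pool.Agent.Lib.MP_228259_lc.P5b
import Pool.Agent.Lib.MP_228259_lc.P6
import Pool.Agent.Lib.MP_228259_lc.P8
import Pool.Agent.Lib.MP_228259_lc.P10b
import Pool.Agent.Lib.MP_228259_lc.P11
import Pool.Agent.Lib.MP_228259_lc.P12b
import Pool.Agent.Lib.MP_228259_lc.P13a
import Pool.Agent.Lib.MP_228259_lc.P14b
import Pool.Agent.Lib.MP_228259_lc.P15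
import Pool.Agent.Lib.MP_228259_lc.P16
import Pool.Agent.Lib.MP_228259_lc.P18
import Pool.Agent.Lib.MP_228259_lc.P19
import Pool.Agent.Lib.MP_228259_lc.P20
import Pool.Agent.Lib.MP_228259_lc.P21

/-!
P22: see /team-store/XW_blueprint.md

-/

namespace XW

open Filter Topology MvPolynomial

theorem poly_part {n : ℕ} {W : Set (Fin n → ℂ)} (hW1 : HasCharts W) (hW2 : HitsReal W)
    (P : MvPolynomial (Fin n) ℂ) (hd : 0 < P.totalDegree)
    (hfac : ∀ (q : Fin n → ℚ) (c : ℂ), q ≠ 0 → ¬ (lin q - C c) ∣ P) :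
    ∃ z : Fin n → ℂ, eval z P = 0 ∧ (fun j => Complex.exp (z j)) ∈ W := by
  by_contra hcon
  have hbad : Bad W P := by
    intro z hz h0
    exact hcon ⟨z, h0, hz⟩
  obtain ⟨H, hirr, hdvd, hpd⟩ := exists_irred_top P hd
  obtain ⟨r, p, L, hc, hp⟩ := exists_chart_dir hW1 H hpd
  obtain ⟨h, E, B, hdec⟩ := exists_dec P H hd hirr hdvd
  set d := P.totalDegree with hd'
  have hHprime : Prime H := hirr.prime
  -- the product of all nonzero `B i`
  classical
  set S : Finset ℕ := (Finset.range (d + 1)).filter (fun i => B i ≠ 0) with hS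
  set G : MvPolynomial (Fin n) ℂ := ∏ i ∈ S, B i with hG
  have hGdvd : ¬ H ∣ G := by
    rw [hG, Prime.dvd_finset_prod_iff hHprime]
    rintro ⟨i, hi, hdi⟩
    simp only [hS, Finset.mem_filter, Finset.mem_range] at hi
    rcases hdec.ndvd i (by omega) with h0 | h0
    · exact hi.2 h0
    · exact h0 hdi
  have hGhom : G.IsHomogeneous (∑ i ∈ S, (i - E i * h)) := by
    rw [hG]
    apply IsHomogeneous.prod
    intro i hi
    simp only [hS, Finset.mem_filter, Finset.mem_range] at hi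
    exact (hdec.deg i (by omega) hi.2).2
  have hBG : ∀ x : Fin n → ℂ, eval x G ≠ 0 → ∀ i ≤ d, B i ≠ 0 → eval x (B i) ≠ 0 := by
    intro x hx i hi hBi h0
    apply hx
    rw [hG, map_prod]
    apply Finset.prod_eq_zero (i := i) _ h0
    simp only [hS, Finset.mem_filter, Finset.mem_range]
    exact ⟨by omega, hBi⟩
  have hreal : ∀ (κ : Fin n → ℤ) (ω : ℂ), eval (zc κ + ω • zc p) H = 0 →
      eval (zc κ + ω • zc p) (dirD (zc p) H) ≠ 0 → eval (zc κ + ω • zc p) G ≠ 0 →
      ω.im = 0 := by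
    intro κ ω h0 h1 h2
    have h2' := hBG _ h2 d le_rfl hdec.top
    refine case_nonreal hbad hc κ ω ?_ (exists_ne_near hdec _ _ _ h0 h1 h2')
    rw [← hd', hdec.comp d le_rfl, map_mul, map_pow, h0, zero_pow hdec.epos.ne', zero_mul]
  -- tameness
  have htame : ∀ i ≤ d, B i ≠ 0 → i + E d ≤ d + E i := by
    have hnd : ¬ H ∣ G * dirD (zc p) H := by
      intro hdv
      rcases hHprime.dvd_or_dvd hdv with h1 | h1
      · exact hGdvd h1
      · exact not_dvd_dirD hdec.hom hdec.hpos _ hp h1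
    obtain ⟨R1, hR1, hR1'⟩ := gp H hirr (zc p) hp _ hnd
    obtain ⟨R2, hR2, hR2'⟩ := gp_root H (zc p) hp
    obtain ⟨κ, hκ⟩ := int_poly (R1 * R2) (mul_ne_zero hR1 hR2)
    rw [map_mul] at hκ
    obtain ⟨ω, hω⟩ := hR2' _ (right_ne_zero_of_mul hκ)
    have h3 := hR1' _ ω (left_ne_zero_of_mul hκ) hω
    rw [map_mul] at h3
    have hG3 := left_ne_zero_of_mul h3
    have hD3 := right_ne_zero_of_mul h3
    have him := hreal κ ω hω hD3 hG3
    have hωre : ((ω.re : ℝ) : ℂ) = ω := by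
      apply Complex.ext <;> simp [him]
    refine tame hbad hc hdec κ ω.re ?_ ?_ ?_
    · rw [hωre]; exact hω
    · rw [hωre]; exact hD3
    · intro i hi hBi
      rw [hωre]; exact hBG _ hG3 i hi hBi
  rcases dichotomy hirr hdec.hom hGhom hGdvd p hp hreal with ⟨q, hq⟩ | ⟨κ, h0, h1, h2, h3⟩
  · obtain ⟨hqp, lam, hlam, hHl⟩ := linear_of_pderiv hirr hdec.hom hdec.hpos p hp q hq
    have hdec' := dec_rescale hdec q lam hlam hHl
    have htame' : ∀ i ≤ d, (fun i => C (lam ^ (E i)) * B i) i ≠ 0 → i + E d ≤ d + E i := by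
      intro i hi hne
      exact htame i hi (right_ne_zero_of_mul hne)
    obtain ⟨c, hc'⟩ := exists_c hbad hW1 p q hqp hdec' htame'
    have hq0 : q ≠ 0 := by
      rintro rfl
      simp at hqp
    obtain ⟨D, A, hA, hinv, hA0, hex⟩ :=
      final_algebra p q hqp hdec' htame' c hc' (hfac q c hq0)
    obtain ⟨z, hz1, hz2⟩ := final_analysis hW1 p q hqp c D A hA hinv hA0 hex
    exact hbad z hz2 hz1
  · have h2' := hBG _ h2 d le_rfl hdec.top
    exact irrational_contra hbad hW2 hdec htame p κ h0 h1 h2'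
      (fun j => nu_real hdec.hom hGhom p hreal κ h0 h1 h2 j) h3

end XW
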