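import Pool.Agent.Lib.MP_228259_lc.P3b

/-!
P3a: see /team-store/XW_blueprint.md
P3a exists_dec. H divides the homogeneous P_d so H is homogeneous (a factor of a nonzero homogeneous polynomial over a domain is homogeneous: look at lowest and highest components); take out the maximal power of H from each homogeneous component (finite multiplicity in a UFD / by totalDegree); cofactor homogeneous too. For i <= d with component 0 put B i = 0, E i = 0. For i > d anything. h > 0 since H is not a unit. E d > 0 since H | P_d.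
-/

namespace XW

open Filter Topology MvPolynomial

/-- the substitution `x_j ↦ x_j T` -/
noncomputable def P3a_phi (n : ℕ) :
    MvPolynomial (Fin n) ℂ →ₐ[ℂ] Polynomial (MvPolynomial (Fin n) ℂ) :=
  aeval (fun j => Polynomial.C (X j) * Polynomial.X)

theorem P3a_phi_monomial {n : ℕ} (m : Fin n →₀ ℕ) (c : ℂ) :
    P3a_phi n (monomial m c) = Polynomial.C (monomial m c) * Polynomial.X ^ m.degree := by
  unfold P3a_phi
  rw [aeval_monomial]
  have h1 : (m.prod fun i k => (Polynomial.C (X i : MvPolynomial (Fin n) ℂ) * Polynomial.X) ^ k) =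
      Polynomial.C (m.prod fun i k => (X i : MvPolynomial (Fin n) ℂ) ^ k) *
        Polynomial.X ^ m.degree := by
    simp only [Finsupp.prod, mul_pow]
    rw [Finset.prod_mul_distrib, Finset.prod_pow_eq_pow_sum, map_prod]
    simp only [map_pow]
    rfl
  rw [h1, monomial_eq, map_mul, mul_assoc]
  rfl

theorem P3a_phi_coeff {n : ℕ} (F : MvPolynomial (Fin n) ℂ) (i : ℕ) :
    (P3a_phi n F).coeff i = homogeneousComponent i F := by
  classical
  induction F using MvPolynomial.induction_on' with
  | monomial m c =>
    rw [P3a_phi_monomial, Polynomial.coeff_C_mul_X_pow]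
    have h1 : (monomial m c).IsHomogeneous m.degree := isHomogeneous_monomial c rfl
    rw [homogeneousComponent_of_mem h1]
  | add p q hp hq => rw [map_add, Polynomial.coeff_add, hp, hq, map_add]

/-- a factor of a nonzero homogeneous polynomial is homogeneous -/
theorem P3a_factor {n : ℕ} (F G : MvPolynomial (Fin n) ℂ) (d : ℕ)
    (h : (F * G).IsHomogeneous d) (h0 : F * G ≠ 0) :
    ∃ a b, a + b = d ∧ F.IsHomogeneous a ∧ G.IsHomogeneous b := by
  have hinj : ∀ F : MvPolynomial (Fin n) ℂ, P3a_phi n F = 0 → F = 0 := by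
    intro F hF
    rw [← sum_homogeneousComponent F]
    refine Finset.sum_eq_zero fun i _ => ?_
    rw [← P3a_phi_coeff, hF, Polynomial.coeff_zero]
  have hF0 : P3a_phi n F ≠ 0 := fun h1 => left_ne_zero_of_mul h0 (hinj F h1)
  have hG0 : P3a_phi n G ≠ 0 := fun h1 => right_ne_zero_of_mul h0 (hinj G h1)
  have h1 : P3a_phi n F * P3a_phi n G = Polynomial.C (F * G) * Polynomial.X ^ d := by
    rw [← map_mul]
    ext1 i
    rw [P3a_phi_coeff, Polynomial.coeff_C_mul_X_pow, homogeneousComponent_of_mem h]
  have h2 := congrArg Polynomial.natDegree h1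
  have h3 := congrArg Polynomial.natTrailingDegree h1
  rw [Polynomial.natDegree_mul hF0 hG0, Polynomial.natDegree_C_mul_X_pow _ _ h0] at h2
  rw [Polynomial.natTrailingDegree_mul hF0 hG0, Polynomial.C_mul_X_pow_eq_monomial,
    Polynomial.natTrailingDegree_monomial h0] at h3
  have h4 := (P3a_phi n F).natTrailingDegree_le_natDegree
  have h5 := (P3a_phi n G).natTrailingDegree_le_natDegree
  have key : ∀ F : MvPolynomial (Fin n) ℂ,
      (P3a_phi n F).natTrailingDegree = (P3a_phi n F).natDegree →
      F.IsHomogeneous (P3a_phi n F).natDegree := by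
    intro F hF
    have h6 : F = homogeneousComponent (P3a_phi n F).natDegree F := by
      ext m
      rw [coeff_homogeneousComponent]
      split_ifs with h7
      · rfl
      · have h8 : coeff m F = coeff m (homogeneousComponent m.degree F) := by
          rw [coeff_homogeneousComponent, if_pos rfl]
        rw [h8, ← P3a_phi_coeff]
        rcases lt_or_gt_of_ne h7 with h9 | h9
        · rw [Polynomial.coeff_eq_zero_of_lt_natTrailingDegree (by rw [hF]; exact h9), coeff_zero]
        · rw [Polynomial.coeff_eq_zero_of_natDegree_lt h9, coeff_zero]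
    have h10 := homogeneousComponent_isHomogeneous (P3a_phi n F).natDegree F
    exact (congrArg (fun z : MvPolynomial (Fin n) ℂ =>
      z.IsHomogeneous (P3a_phi n F).natDegree) h6).mpr h10
  exact ⟨_, _, h2, key F (by omega), key G (by omega)⟩

theorem exists_dec {n : ℕ} (P H : MvPolynomial (Fin n) ℂ) (hd : 0 < P.totalDegree)
    (hH : Irreducible H) (hdvd : H ∣ homogeneousComponent P.totalDegree P) :
    ∃ (h : ℕ) (E : ℕ → ℕ) (B : ℕ → MvPolynomial (Fin n) ℂ), Dec P H P.totalDegree h E B := by
  classical
  have htop := P3b_top_ne P hd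
  obtain ⟨Q, hQ⟩ := hdvd
  obtain ⟨h, b, hab, hHh, hQb⟩ := P3a_factor H Q P.totalDegree
    (by rw [← hQ]; exact homogeneousComponent_isHomogeneous _ _) (by rw [← hQ]; exact htop)
  have hex : ∀ i, ∃ (e : ℕ) (Bi : MvPolynomial (Fin n) ℂ),
      homogeneousComponent i P = H ^ e * Bi ∧ (Bi = 0 ∨ ¬ H ∣ Bi) := by
    intro i
    by_cases h0 : homogeneousComponent i P = 0
    · exact ⟨0, 0, by rw [h0, mul_zero], Or.inl rfl⟩
    · have hfin : FiniteMultiplicity H (homogeneousComponent i P) :=
        FiniteMultiplicity.of_not_isUnit hH.not_isUnit h0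
      obtain ⟨c, hc, hc2⟩ := hfin.exists_eq_pow_mul_and_not_dvd
      exact ⟨_, c, hc, Or.inr hc2⟩
  choose E B hEB hB using hex
  refine ⟨h, E, B, ?_⟩
  refine
    { hom := hHh
      hpos := ?_
      comp := fun i _ => hEB i
      sum := ?_
      deg := ?_
      ndvd := fun i _ => hB i
      degree := rfl
      top := ?_
      epos := ?_ }
  · rw [Nat.pos_iff_ne_zero]
    rintro rfl
    have h1 : H = C (coeff 0 H) := by
      have h2 : H.totalDegree = 0 := Nat.le_zero.mp hHh.totalDegree_le
      exact totalDegree_eq_zero_iff_eq_C.mp h2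
    apply hH.not_isUnit
    rw [h1]
    refine (isUnit_iff_ne_zero.mpr fun h3 => ?_).map C
    rw [h3, C_0] at h1
    exact hH.ne_zero h1
  · conv_lhs => rw [← sum_homogeneousComponent P]
    exact Finset.sum_congr rfl fun i _ => hEB i
  · intro i _ hBi
    have h0 : H ^ E i * B i ≠ 0 := mul_ne_zero (pow_ne_zero _ hH.ne_zero) hBi
    obtain ⟨a', b', hab', h1, h2⟩ := P3a_factor (H ^ E i) (B i) i
      (by rw [← hEB]; exact homogeneousComponent_isHomogeneous _ _) h0
    have h3 : a' = h * E i := h1.inj_right (hHh.pow (E i)) (pow_ne_zero _ hH.ne_zero)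
    rw [mul_comm] at h3
    have h4 : i - E i * h = b' := by omega
    exact ⟨by omega, by rw [h4]; exact h2⟩
  · intro h0
    apply htop
    rw [hEB, h0, mul_zero]
  · rw [Nat.pos_iff_ne_zero]
    intro h0
    have h1 := hEB P.totalDegree
    rw [h0, pow_zero, one_mul] at h1
    rcases hB P.totalDegree with h2 | h2
    · exact htop (by rw [h1, h2])
    · exact h2 ⟨Q, by rw [← h1, hQ]⟩

end XW
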